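import Pool.Agent.Lib.MP_3fd6b0_co.Defs

/-!
Conjugation, partial derivatives and the weighted degree.
-/

set_option autoImplicit false
set_option linter.unusedSectionVars false
open MvPolynomial

namespace Pool.Agent.Lib.MP_3fd6b0_co

variable {E : Type} [Field E] {c : E →+* E} {f g w z ψ η zr ψr : MvPolynomial (Fin 5) E}

@[simp] lemma cj_C (a : E) : cj c (C a) = C (c a) := by simp [cj]
@[simp] lemma cj_X0 : cj c (X 0) = X 1 := by simp [cj]
@[simp] lemma cj_X1 : cj c (X 1) = X 0 := by simp [cj]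
@[simp] lemma cj_X2 : cj c (X 2) = X 3 := by simp [cj]
@[simp] lemma cj_X3 : cj c (X 3) = X 2 := by simp [cj]
@[simp] lemma cj_X4 : cj c (X 4) = -X 4 := by simp [cj]
lemma cj_half : cj c (C 2⁻¹) = C 2⁻¹ := by
  rw [cj_C, map_inv₀, map_ofNat]
lemma two_half (h2 : (2 : E) ≠ 0) : (2 : MvPolynomial (Fin 5) E) * C 2⁻¹ = 1 := by
  have : (2 : MvPolynomial (Fin 5) E) = C 2 := (map_ofNat C 2).symm
  rw [this, ← map_mul, mul_inv_cancel₀ h2, map_one]

lemma fin5 (j : Fin 5) : j = 0 ∨ j = 1 ∨ j = 2 ∨ j = 3 ∨ j = 4 := by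
  fin_cases j <;> simp

lemma cj_cj (hc : ∀ x, c (c x) = x) (w : MvPolynomial (Fin 5) E) : cj c (cj c w) = w := by
  induction w using MvPolynomial.induction_on with
  | C a => simp [hc]
  | add p q hp hq => simp [hp, hq]
  | mul_X p j hp => rcases fin5 j with rfl | rfl | rfl | rfl | rfl <;> simp [hp]

lemma cj_d0 (w : MvPolynomial (Fin 5) E) : cj c (pderiv 0 w) = pderiv 1 (cj c w) := by
  induction w using MvPolynomial.induction_on with
  | C a => simp
  | add p q hp hq => simp [hp, hq]
  | mul_X p j hp =>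
    rcases fin5 j with rfl | rfl | rfl | rfl | rfl <;> simp [hp, pderiv_X]
lemma cj_d1 (w : MvPolynomial (Fin 5) E) : cj c (pderiv 1 w) = pderiv 0 (cj c w) := by
  induction w using MvPolynomial.induction_on with
  | C a => simp
  | add p q hp hq => simp [hp, hq]
  | mul_X p j hp =>
    rcases fin5 j with rfl | rfl | rfl | rfl | rfl <;> simp [hp, pderiv_X]
lemma cj_d2 (w : MvPolynomial (Fin 5) E) : cj c (pderiv 2 w) = pderiv 3 (cj c w) := by
  induction w using MvPolynomial.induction_on with
  | C a => simp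
  | add p q hp hq => simp [hp, hq]
  | mul_X p j hp =>
    rcases fin5 j with rfl | rfl | rfl | rfl | rfl <;> simp [hp, pderiv_X]
lemma cj_d3 (w : MvPolynomial (Fin 5) E) : cj c (pderiv 3 w) = pderiv 2 (cj c w) := by
  induction w using MvPolynomial.induction_on with
  | C a => simp
  | add p q hp hq => simp [hp, hq]
  | mul_X p j hp =>
    rcases fin5 j with rfl | rfl | rfl | rfl | rfl <;> simp [hp, pderiv_X]
lemma cj_d4 (w : MvPolynomial (Fin 5) E) : cj c (pderiv 4 w) = -pderiv 4 (cj c w) := by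
  induction w using MvPolynomial.induction_on with
  | C a => simp
  | add p q hp hq => simp [hp, hq, add_comm]
  | mul_X p j hp =>
    rcases fin5 j with rfl | rfl | rfl | rfl | rfl <;>
      simp [hp, pderiv_X, add_comm]
lemma d_comm (i j : Fin 5) (w : MvPolynomial (Fin 5) E) :
    pderiv i (pderiv j w) = pderiv j (pderiv i w) := by
  have hX : ∀ a b k : Fin 5, pderiv a (pderiv b (X k : MvPolynomial (Fin 5) E)) = 0 := by
    intro a b k
    rw [pderiv_X, Pi.single_apply]
    split_ifs <;> simp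
  induction w using MvPolynomial.induction_on with
  | C a => simp
  | add p q hp hq => simp [hp, hq]
  | mul_X p k hp =>
    simp only [Derivation.leibniz, map_add, smul_eq_mul, hX, hp]
    ring
lemma XD_apply (w : MvPolynomial (Fin 5) E) : XD c f w =
    pderiv 0 w - C 2⁻¹ * X 1 * pderiv 4 w - cj c f * pderiv 2 w := by
  simp only [XD, Derivation.sub_apply, Derivation.smul_apply, smul_eq_mul]
lemma XB_apply (w : MvPolynomial (Fin 5) E) : XB f w =
    pderiv 1 w + C 2⁻¹ * X 0 * pderiv 4 w - f * pderiv 3 w := by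
  simp only [XB, Derivation.sub_apply, Derivation.add_apply, Derivation.smul_apply, smul_eq_mul]
lemma YY_apply (b : E) (w : MvPolynomial (Fin 5) E) :
    YY c f b w = C b * XD c f w + C (c b) * XB f w := by
  simp only [YY, Derivation.add_apply, Derivation.smul_apply, smul_eq_C_mul]
lemma cj_XD (hc : ∀ x, c (c x) = x) (w : MvPolynomial (Fin 5) E) :
    cj c (XD c f w) = XB f (cj c w) := by
  simp only [XD_apply, XB_apply, map_sub, map_mul, cj_half, cj_X1, cj_d0, cj_d4, cj_d2, cj_cj hc]
  ring
lemma cj_XB (w : MvPolynomial (Fin 5) E) : cj c (XB f w) = XD c f (cj c w) := by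
  simp only [XD_apply, XB_apply, map_sub, map_add, map_mul, cj_half, cj_X0, cj_d1, cj_d4, cj_d3]
  ring
lemma cj_YY (hc : ∀ x, c (c x) = x) (b : E) (w : MvPolynomial (Fin 5) E) :
    cj c (YY c f b w) = YY c f b (cj c w) := by
  simp only [YY_apply, map_add, map_mul, cj_C, cj_XD hc, cj_XB, hc]
  ring
lemma YY_iff (h2 : (2 : E) ≠ 0) {θ : E} (h0 : θ ≠ 0) (hθ : c θ = -θ) :
    (YY c f 1 w = 0 ∧ YY c f θ w = 0) ↔ (XD c f w = 0 ∧ XB f w = 0) := by
  simp only [YY_apply, map_one, one_mul, hθ, map_neg]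
  constructor
  · rintro ⟨h1, h3⟩
    have hC : (C θ : MvPolynomial (Fin 5) E) ≠ 0 := by simpa using h0
    have h4 : XD c f w - XB f w = 0 := by
      apply mul_left_cancel₀ hC
      linear_combination h3
    have e := two_half (E := E) h2
    constructor
    · linear_combination (C 2⁻¹) * h1 + (C 2⁻¹) * h4 - XD c f w * e
    · linear_combination (C 2⁻¹) * h1 - (C 2⁻¹) * h4 - XB f w * e
  · rintro ⟨h1, h3⟩
    simp [h1, h3]
lemma om_XB (hc : ∀ x, c (c x) = x) (hg : cj c g = -g) :
    om c f g (XB f) = -cj c (om c f g (XD c f)) := by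
  simp only [om, map_add, map_mul, map_sub, cj_half, cj_XD hc, cj_cj hc, hg, map_neg]
  ring

/-- the homogenising substitution behind the weighted degree -/
noncomputable def Ph : MvPolynomial (Fin 5) E →ₐ[E] Polynomial (MvPolynomial (Fin 5) E) :=
  aeval (fun i : Fin 5 => Polynomial.C (X i : MvPolynomial (Fin 5) E) *
    Polynomial.X ^ (if i = 4 then 2 else 1))

lemma dg_eq (w : MvPolynomial (Fin 5) E) : dg w = (Ph w).natDegree := rfl

lemma Ph_C (a : E) : Ph (C a : MvPolynomial (Fin 5) E) = Polynomial.C (C a) := by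
  simp [Ph, Polynomial.algebraMap_apply]

lemma Ph_X (i : Fin 5) : Ph (X i : MvPolynomial (Fin 5) E) =
    Polynomial.C (X i) * Polynomial.X ^ (if i = 4 then 2 else 1) := by
  simp only [Ph, aeval_X]

lemma Ph_one (w : MvPolynomial (Fin 5) E) : (Ph w).eval 1 = w := by
  induction w using MvPolynomial.induction_on with
  | C a => simp
  | add p q hp hq => simp [hp, hq]
  | mul_X p j hp =>
    rw [map_mul, Ph_X, Polynomial.eval_mul, hp]
    split_ifs <;> simp

lemma Ph_zero (w : MvPolynomial (Fin 5) E) : (Ph w).eval 0 = C (constantCoeff w) := by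
  induction w using MvPolynomial.induction_on with
  | C a => simp
  | add p q hp hq => simp [hp, hq]
  | mul_X p j hp =>
    rw [map_mul, Ph_X]
    split_ifs <;> simp

lemma Ph_ne {a : MvPolynomial (Fin 5) E} (ha : a ≠ 0) : Ph a ≠ 0 := by
  intro h
  apply ha
  rw [← Ph_one a, h, Polynomial.eval_zero]

lemma dg_mul {a b : MvPolynomial (Fin 5) E} (ha : a ≠ 0) (hb : b ≠ 0) :
    dg (a * b) = dg a + dg b := by
  simp only [dg_eq, map_mul]
  exact Polynomial.natDegree_mul (Ph_ne ha) (Ph_ne hb)
lemma dg_mul_le (a b : MvPolynomial (Fin 5) E) : dg (a * b) ≤ dg a + dg b := by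
  simp only [dg_eq, map_mul]
  exact Polynomial.natDegree_mul_le
lemma dg_pow (a : MvPolynomial (Fin 5) E) (n : ℕ) : dg (a ^ n) = n * dg a := by
  simp only [dg_eq, map_pow]
  exact Polynomial.natDegree_pow _ _
lemma dg_add_le (a b : MvPolynomial (Fin 5) E) : dg (a + b) ≤ max (dg a) (dg b) := by
  simp only [dg_eq, map_add]
  exact Polynomial.natDegree_add_le _ _
lemma dg_add_left {a b : MvPolynomial (Fin 5) E} (h : dg b < dg a) : dg (a + b) = dg a := by
  simp only [dg_eq, map_add] at h ⊢
  exact Polynomial.natDegree_add_eq_left_of_natDegree_lt h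
lemma dg_neg (a : MvPolynomial (Fin 5) E) : dg (-a) = dg a := by
  simp only [dg_eq, map_neg, Polynomial.natDegree_neg]
lemma dg_C (a : E) : dg (C a : MvPolynomial (Fin 5) E) = 0 := by
  rw [dg_eq, Ph_C, Polynomial.natDegree_C]
lemma dg_X (i : Fin 5) : dg (X i : MvPolynomial (Fin 5) E) = if i = 4 then 2 else 1 := by
  rw [dg_eq, Ph_X]
  exact Polynomial.natDegree_C_mul_X_pow _ _ (X_ne_zero i)

lemma Ph_d (i : Fin 5) (w : MvPolynomial (Fin 5) E) (n : ℕ) :
    (Polynomial.X ^ (if i = 4 then 2 else 1) * Ph (pderiv i w)).coeff n =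
      pderiv i ((Ph w).coeff n) := by
  let _ : Differential (MvPolynomial (Fin 5) E) := ⟨(pderiv i).restrictScalars ℤ⟩
  have hd : ∀ a : MvPolynomial (Fin 5) E, Differential.deriv a = pderiv i a := fun _ => rfl
  have key : Polynomial.X ^ (if i = 4 then 2 else 1) * Ph (pderiv i w) =
      Differential.mapCoeffs (Ph w) := by
    induction w using MvPolynomial.induction_on with
    | C a => simp [hd]
    | add p q hp hq => simp only [map_add, mul_add, hp, hq]
    | mul_X p j hp =>
      simp only [Derivation.leibniz, map_add, map_mul, smul_eq_mul, ← hp, Ph_X,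
        Derivation.leibniz_pow, Differential.mapCoeffs_X, Differential.mapCoeffs_C, hd,
        mul_zero, smul_zero, zero_add]
      by_cases h : j = i
      · subst h
        simp only [pderiv_X_self, map_one]
        ring
      · simp only [pderiv_X_of_ne h, map_zero]
        ring
  rw [key, Differential.coeff_mapCoeffs, hd]

lemma dg_d (i : Fin 5) (h : pderiv i w ≠ 0) :
    dg (pderiv i w) + (if i = 4 then 2 else 1) ≤ dg w := by
  have h1 : (Polynomial.X ^ (if i = 4 then 2 else 1) * Ph (pderiv i w)).natDegree ≤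
      (Ph w).natDegree := by
    rw [Polynomial.natDegree_le_iff_coeff_eq_zero]
    intro n hn
    rw [Ph_d, Polynomial.coeff_eq_zero_of_natDegree_lt hn, map_zero]
  rw [Polynomial.natDegree_X_pow_mul _ (Ph_ne h)] at h1
  exact h1
lemma dg_cj (hc : ∀ x, c (c x) = x) (w : MvPolynomial (Fin 5) E) : dg (cj c w) = dg w := by
  have key : Ph (cj c w) = (Ph w).map (cj c) := by
    induction w using MvPolynomial.induction_on with
    | C a => simp
    | add p q hp hq => simp [hp, hq]
    | mul_X p j hp =>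
      have hj : Ph (cj c (X j)) = (Ph (X j : MvPolynomial (Fin 5) E)).map (cj c) := by
        rcases fin5 j with rfl | rfl | rfl | rfl | rfl <;> simp [Ph_X]
        ring
      rw [map_mul, map_mul, map_mul, Polynomial.map_mul, hp, hj]
  rw [dg_eq, dg_eq, key]
  exact Polynomial.natDegree_map_eq_of_injective
    (Function.LeftInverse.injective (cj_cj hc)) _
lemma dg_zero (h : dg w = 0) : ∃ a, w = C a := by
  have h1 := Polynomial.eq_C_of_natDegree_eq_zero (show (Ph w).natDegree = 0 from h)
  refine ⟨constantCoeff w, ?_⟩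
  rw [← Ph_zero, h1, Polynomial.eval_C]
  conv_lhs => rw [← Ph_one w, h1, Polynomial.eval_C]

end Pool.Agent.Lib.MP_3fd6b0_co
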