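import Pool.Agent.Lib.MP_3fd6b0_co.Alg0

/-!
The bracket identity, rigidity, the degree trick and roots of constants of the derivatives.
-/

set_option autoImplicit false
set_option linter.unusedSectionVars false
open MvPolynomial

namespace Pool.Agent.Lib.MP_3fd6b0_co

variable {E : Type} [Field E] {c : E →+* E} {f g w z ψ η zr ψr : MvPolynomial (Fin 5) E}

lemma d_XD (i : Fin 5) (w : MvPolynomial (Fin 5) E) : pderiv i (XD c f w) =
    XD c f (pderiv i w) - C 2⁻¹ * pderiv i (X 1 : MvPolynomial (Fin 5) E) * pderiv 4 w -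
      pderiv i (cj c f) * pderiv 2 w := by
  simp only [XD_apply, map_sub, Derivation.leibniz, smul_eq_mul, pderiv_C, d_comm i]
  ring

lemma d_XB (i : Fin 5) (w : MvPolynomial (Fin 5) E) : pderiv i (XB f w) =
    XB f (pderiv i w) + C 2⁻¹ * pderiv i (X 0 : MvPolynomial (Fin 5) E) * pderiv 4 w -
      pderiv i f * pderiv 3 w := by
  simp only [XB_apply, map_sub, map_add, Derivation.leibniz, smul_eq_mul, pderiv_C, d_comm i]
  ring

lemma dX_ne {i j : Fin 5} (h : j ≠ i) : pderiv i (X j : MvPolynomial (Fin 5) E) = 0 :=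
  pderiv_X_of_ne h

/-- the bracket of the two horizontal fields -/
lemma brk (h2 : (2 : E) ≠ 0) (w : MvPolynomial (Fin 5) E) :
    XD c f (XB f w) - XB f (XD c f w) =
      pderiv 4 w - XD c f f * pderiv 3 w + XB f (cj c f) * pderiv 2 w := by
  have e := two_half (E := E) h2
  have a0 : XB f (X 1 : MvPolynomial (Fin 5) E) = 1 := by
    rw [XB_apply, pderiv_X_self, dX_ne (by decide), dX_ne (by decide)]; ring
  have a1 : XB f (XD c f w) = XB f (pderiv 0 w) - C 2⁻¹ * (X 1 * XB f (pderiv 4 w) + pderiv 4 w) -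
      (cj c f * XB f (pderiv 2 w) + pderiv 2 w * XB f (cj c f)) := by
    rw [XD_apply]
    simp only [map_sub, Derivation.leibniz, smul_eq_mul, derivation_C, a0]
    ring
  rw [a1, XD_apply (XB f w), d_XB, d_XB, d_XB, XD_apply f, pderiv_X_self, dX_ne (by decide),
    dX_ne (by decide)]
  linear_combination (pderiv 4 w) * e

lemma om_comm (h2 : (2 : E) ≠ 0)
    (A B : Derivation E (MvPolynomial (Fin 5) E) (MvPolynomial (Fin 5) E)) :
    A (om c f g B) - B (om c f g A) = (A (B g) - B (A g)) +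
      C 2⁻¹ * (cj c f * (A (B f) - B (A f)) - f * (A (B (cj c f)) - B (A (cj c f)))) +
      (A (cj c f) * B f - A f * B (cj c f)) := by
  have e := two_half (E := E) h2
  simp only [om, map_add, map_sub, Derivation.leibniz, smul_eq_mul, derivation_C]
  linear_combination (A (cj c f) * B f - A f * B (cj c f)) * e

lemma om_d3 (hc : ∀ x, c (c x) = x) (hg : cj c g = -g) :
    om c f g (pderiv 3) = -cj c (om c f g (pderiv 2)) := by
  simp only [om, map_add, map_mul, map_sub, cj_half, cj_d2, cj_cj hc, hg, map_neg]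
  ring

/-- the bracket identity -/
theorem bracket (hc : ∀ x, c (c x) = x) (h2 : (2 : E) ≠ 0) (hg : cj c g = -g)
    (h : om c f g (XD c f) = 0) :
    om c f g (pderiv 4) + om c f g (pderiv 2) * cj c (XD c f f) +
      cj c (om c f g (pderiv 2)) * XD c f f =
    XD c f f * cj c (XD c f f) - XB f f * cj c (XB f f) := by
  have hb : om c f g (XB f) = 0 := by rw [om_XB hc hg, h, map_zero, neg_zero]
  have k := om_comm (c := c) (f := f) (g := g) h2 (XD c f) (XB f)
  rw [h, hb, map_zero, map_zero, brk h2, brk h2, brk h2] at k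
  have k3 := om_d3 (f := f) hc hg
  rw [← neg_eq_iff_eq_neg] at k3
  rw [← k3, cj_XD hc, cj_XB]
  simp only [om]
  linear_combination -k

lemma dg_pos (i : Fin 5) (h : pderiv i w ≠ 0) : 0 < dg w := by
  have := dg_d i h
  split_ifs at this <;> omega

lemma dg_nil : dg (0 : MvPolynomial (Fin 5) E) = 0 := by
  rw [← C_0, dg_C]

lemma dg_d_lt (i : Fin 5) (hw : 0 < dg w) : dg (pderiv i w) < dg w := by
  by_cases h : pderiv i w = 0
  · rw [h, dg_nil]; exact hw
  · have := dg_d i h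
    split_ifs at this <;> omega

lemma dg_hor (a b : Fin 5) (hb : b ≠ 4) (x : E) (hw : 0 < dg w) :
    dg (pderiv a w + C x * X b * pderiv 4 w) < dg w := by
  refine lt_of_le_of_lt (dg_add_le _ _) (max_lt (dg_d_lt a hw) ?_)
  by_cases h : pderiv 4 w = 0
  · rw [h, mul_zero, dg_nil]; exact hw
  · have h1 := dg_d 4 h
    have h3 := dg_mul_le (C x * X b) (pderiv 4 w)
    have h4 := dg_mul_le (C x : MvPolynomial (Fin 5) E) (X b)
    rw [dg_C, dg_X, if_neg hb] at h4
    rw [if_pos rfl] at h1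
    omega

lemma ne_of_dg (h : 0 < dg w) : w ≠ 0 := by
  rintro rfl
  rw [dg_nil] at h
  omega

lemma d3_zero (hw : dg w ≤ dg f) (h1 : XB f w = 0) : pderiv 3 w = 0 := by
  by_contra h
  have hp := dg_pos 3 h
  have e : f * pderiv 3 w = pderiv 1 w + C 2⁻¹ * X 0 * pderiv 4 w := by
    rw [XB_apply] at h1
    linear_combination -h1
  have h3 := dg_hor 1 0 (by decide) (2⁻¹ : E) hp
  rw [← e, dg_mul (ne_of_dg (by omega)) h] at h3
  omega

lemma d2_zero (hc : ∀ x, c (c x) = x) (hw : dg w ≤ dg f) (h0 : XD c f w = 0) :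
    pderiv 2 w = 0 := by
  have h1 : XB f (cj c w) = 0 := by rw [← cj_XD hc, h0, map_zero]
  have h3 := d3_zero (by rw [dg_cj hc]; exact hw) h1
  rw [← cj_d2] at h3
  rw [← cj_cj hc (pderiv 2 w), h3, map_zero]

lemma d_cj_zero (h : ∀ i, pderiv i w = 0) (i : Fin 5) : pderiv i (cj c w) = 0 := by
  rcases fin5 i with rfl | rfl | rfl | rfl | rfl
  · rw [← cj_d1, h, map_zero]
  · rw [← cj_d0, h, map_zero]
  · rw [← cj_d3, h, map_zero]
  · rw [← cj_d2, h, map_zero]
  · rw [← neg_eq_zero, ← cj_d4, h, map_zero]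

/-- the first three steps of the rigidity argument -/
lemma rigid_f (hc : ∀ x, c (c x) = x) (h2 : (2 : E) ≠ 0) (hg : cj c g = -g)
    (h : om c f g (XD c f) = 0) (hB : XB f f = 0) (hμ : om c f g (pderiv 2) = XD c f f) :
    XD c f (XD c f f) = 0 ∧ pderiv 1 f = 0 ∧ pderiv 2 f = 0 ∧ pderiv 3 f = 0 ∧
      pderiv 4 f = 0 := by
  have hb : om c f g (XB f) = 0 := by rw [om_XB hc hg, h, map_zero, neg_zero]
  have f3 : pderiv 3 f = 0 := d3_zero le_rfl hB
  have F2 : pderiv 2 (cj c f) = 0 := by rw [← cj_d3, f3, map_zero]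
  have XF : XD c f (cj c f) = 0 := by rw [← cj_XB, hB, map_zero]
  have k1 := om_comm (c := c) (f := f) (g := g) h2 (pderiv 2) (XD c f)
  rw [h, hμ, map_zero, d_XD 2 g, d_XD 2 f, d_XD 2 (cj c f), dX_ne (by decide), F2, XF] at k1
  have X1 : XD c f (XD c f f) = 0 := by
    simp only [map_zero] at k1
    linear_combination -k1
  have k2 := om_comm (c := c) (f := f) (g := g) h2 (pderiv 2) (XB f)
  rw [hb, hμ, map_zero, d_XB 2 g, d_XB 2 f, d_XB 2 (cj c f), dX_ne (by decide), F2, hB] at k2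
  have k3 := om_d3 (f := f) hc hg
  rw [hμ, cj_XD hc] at k3
  have X2 : XB f (XD c f f) = 0 := by
    simp only [om] at k3
    simp only [map_zero] at k2
    linear_combination -k2 + pderiv 2 f * k3
  have k4 := brk (c := c) (f := f) h2 f
  rw [hB, X2, map_zero, f3, XB_apply (cj c f), ← cj_d2] at k4
  have f2 : pderiv 2 f = 0 := by
    by_contra hφ
    have hp := dg_pos 2 hφ
    have hφ' : cj c (pderiv 2 f) ≠ 0 := fun h0 => hφ (by rw [← cj_cj hc (pderiv 2 f), h0, map_zero])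
    have e : f * pderiv 2 f * cj c (pderiv 2 f) = pderiv 4 f +
        pderiv 2 f * (pderiv 1 (cj c f) + C 2⁻¹ * X 0 * pderiv 4 (cj c f)) := by
      linear_combination k4
    have h3 := dg_hor (w := cj c f) 1 0 (by decide) (2⁻¹ : E) (by rw [dg_cj hc]; exact hp)
    rw [dg_cj hc] at h3
    have h4 := dg_mul_le (pderiv 2 f) (pderiv 1 (cj c f) + C 2⁻¹ * X 0 * pderiv 4 (cj c f))
    have h5 := dg_add_le (pderiv 4 f)
      (pderiv 2 f * (pderiv 1 (cj c f) + C 2⁻¹ * X 0 * pderiv 4 (cj c f)))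
    have h6 := dg_d_lt 4 hp
    rw [← e, dg_mul (mul_ne_zero (ne_of_dg hp) hφ) hφ', dg_mul (ne_of_dg hp) hφ] at h5
    omega
  have f4 : pderiv 4 f = 0 := by
    rw [f2] at k4
    linear_combination -k4
  refine ⟨X1, ?_, f2, f3, f4⟩
  rw [XB_apply, f3, f4] at hB
  linear_combination hB

/-- rigidity in the last case -/
theorem rigid (hc : ∀ x, c (c x) = x) (h2 : (2 : E) ≠ 0) (hg : cj c g = -g)
    (h : om c f g (XD c f) = 0) (hB : XB f f = 0) (hμ : om c f g (pderiv 2) = XD c f f) (i : Fin 5) :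
    pderiv i (XD c f f) = 0 ∧ pderiv i (f - XD c f f * X 0) = 0 ∧
      pderiv i (eta c (f - XD c f f * X 0) (XD c f f) g) = 0 := by
  have e := two_half (E := E) h2
  obtain ⟨X1, f1, f2, f3, f4⟩ := rigid_f hc h2 hg h hB hμ
  have hb : om c f g (XB f) = 0 := by rw [om_XB hc hg, h, map_zero, neg_zero]
  have k4 := bracket hc h2 hg h
  have k3 := om_d3 (f := f) hc hg
  rw [hμ] at k3 k4
  rw [hB] at k4
  have XF : XD c f (cj c f) = 0 := by rw [← cj_XB, hB, map_zero]
  have BF : XB f (cj c f) = cj c (XD c f f) := (cj_XD hc f).symm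
  have f0 : pderiv 0 f = XD c f f := by rw [XD_apply, f2, f4]; ring
  simp only [om] at h hb k3 k4 hμ
  rw [XF, XD_apply g] at h
  rw [hB, BF, XB_apply g] at hb
  obtain ⟨ψ, hψ⟩ : ∃ ψ, ψ = XD c f f := ⟨_, rfl⟩
  rw [← hψ] at X1 h hb k3 k4 hμ f0 ⊢
  have p4 : pderiv 4 ψ = 0 := by rw [← f0, d_comm, f4, map_zero]
  have p2 : pderiv 2 ψ = 0 := by rw [← f0, d_comm, f2, map_zero]
  have hp : ∀ j, pderiv j ψ = 0 := by
    intro j
    rcases fin5 j with rfl | rfl | rfl | rfl | rfl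
    · rw [XD_apply, p4, p2] at X1
      linear_combination X1
    · rw [← f0, d_comm, f1, map_zero]
    · exact p2
    · rw [← f0, d_comm, f3, map_zero]
    · exact p4
  have hz : ∀ j, pderiv j (f - ψ * X 0) = 0 := by
    intro j
    rcases fin5 j with rfl | rfl | rfl | rfl | rfl <;>
      simp [hp, f0, f1, f2, f3, f4, pderiv_X]
  have F0 : pderiv 0 (cj c f) = 0 := by rw [← cj_d1, f1, map_zero]
  have F1 : pderiv 1 (cj c f) = cj c ψ := by rw [← cj_d0, f0]
  have F2 : pderiv 2 (cj c f) = 0 := by rw [← cj_d3, f3, map_zero]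
  have F3 : pderiv 3 (cj c f) = 0 := by rw [← cj_d2, f2, map_zero]
  have F4 : pderiv 4 (cj c f) = 0 := by rw [← neg_eq_zero, ← cj_d4, f4, map_zero]
  rw [f2, F2] at hμ
  rw [f3, F3] at k3
  rw [f4, F4] at k4
  have g2 : pderiv 2 g = ψ := by linear_combination hμ
  have g3 : pderiv 3 g = -cj c ψ := by linear_combination k3
  have g4 : pderiv 4 g = -(ψ * cj c ψ) := by linear_combination k4
  rw [g2, g4] at h
  rw [g3, g4] at hb
  refine ⟨hp i, hz i, ?_⟩
  have hf : f - ψ * X 0 + ψ * X 0 = f := by ring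
  have hzc := d_cj_zero (c := c) hz
  have hpc := d_cj_zero (c := c) hp
  obtain ⟨z, hz'⟩ : ∃ z, z = f - ψ * X 0 := ⟨_, rfl⟩
  rw [← hz'] at hz hzc hf ⊢
  simp only [eta, hf, map_add, map_sub, Derivation.leibniz, smul_eq_mul, pderiv_C, hz, hzc, hp, hpc]
  rcases fin5 i with rfl | rfl | rfl | rfl | rfl <;>
    simp only [f0, f1, f2, f3, f4, F0, F1, F2, F3, F4, g2, g3, g4, pderiv_X_self,
      dX_ne (E := E) (by decide : (0 : Fin 5) ≠ 1), dX_ne (E := E) (by decide : (0 : Fin 5) ≠ 2),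
      dX_ne (E := E) (by decide : (0 : Fin 5) ≠ 3), dX_ne (E := E) (by decide : (0 : Fin 5) ≠ 4),
      dX_ne (E := E) (by decide : (1 : Fin 5) ≠ 0), dX_ne (E := E) (by decide : (1 : Fin 5) ≠ 2),
      dX_ne (E := E) (by decide : (1 : Fin 5) ≠ 3), dX_ne (E := E) (by decide : (1 : Fin 5) ≠ 4),
      dX_ne (E := E) (by decide : (2 : Fin 5) ≠ 0), dX_ne (E := E) (by decide : (2 : Fin 5) ≠ 1),
      dX_ne (E := E) (by decide : (2 : Fin 5) ≠ 3), dX_ne (E := E) (by decide : (2 : Fin 5) ≠ 4),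
      dX_ne (E := E) (by decide : (3 : Fin 5) ≠ 0), dX_ne (E := E) (by decide : (3 : Fin 5) ≠ 1),
      dX_ne (E := E) (by decide : (3 : Fin 5) ≠ 2), dX_ne (E := E) (by decide : (3 : Fin 5) ≠ 4),
      dX_ne (E := E) (by decide : (4 : Fin 5) ≠ 0), dX_ne (E := E) (by decide : (4 : Fin 5) ≠ 1),
      dX_ne (E := E) (by decide : (4 : Fin 5) ≠ 2), dX_ne (E := E) (by decide : (4 : Fin 5) ≠ 3)]
  · linear_combination h - (cj c f * ψ + X 1 * ψ * cj c ψ) * e
  · linear_combination hb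
  · ring
  · ring
  · ring

theorem eta_skew (hc : ∀ x, c (c x) = x) (h2 : (2 : E) ≠ 0) (hg : cj c g = -g) :
    cj c (eta c z ψ g) = -eta c z ψ g := by
  have e := two_half (E := E) h2
  simp only [eta, map_add, map_sub, map_mul, cj_half, cj_cj hc, hg, cj_X0, cj_X1, cj_X2, cj_X3,
    cj_X4]
  linear_combination (-((z + ψ * X 0) * (cj c z + cj c ψ * X 1)) + z * cj c z -
    ψ * cj c ψ * (X 0 * X 1)) * e

theorem all_zero (h2 : (2 : E) ≠ 0) (h0 : XD c f w = 0) (h1 : XB f w = 0) (e2 : pderiv 2 w = 0)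
    (e3 : pderiv 3 w = 0) (i : Fin 5) : pderiv i w = 0 := by
  have k := brk (c := c) (f := f) h2 w
  rw [h0, h1, map_zero, map_zero, e2, e3] at k
  have e4 : pderiv 4 w = 0 := by linear_combination -k
  rw [XD_apply, e4, e2] at h0
  rw [XB_apply, e4, e3] at h1
  rcases fin5 i with rfl | rfl | rfl | rfl | rfl
  · linear_combination h0
  · linear_combination h1
  · exact e2
  · exact e3
  · exact e4

lemma dg_ge {P : ℕ} (hP : 2 ≤ P) (hf : f = zr ^ P + ψr ^ P * X 0) :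
    dg zr ≤ dg f ∧ dg ψr ≤ dg f := by
  have h1 := dg_pow zr P
  by_cases hψ : ψr = 0
  · rw [hψ, zero_pow (by omega), zero_mul, add_zero] at hf
    rw [hψ, dg_nil, hf, h1]
    exact ⟨Nat.le_mul_of_pos_left _ (by omega), Nat.zero_le _⟩
  · have h3 : dg (ψr ^ P * X 0) = P * dg ψr + 1 := by
      rw [dg_mul (pow_ne_zero _ hψ) (X_ne_zero 0), dg_pow, dg_X, if_neg (by decide)]
    have a1 : dg zr ≤ P * dg zr := Nat.le_mul_of_pos_left _ (by omega)
    have a2 : dg ψr ≤ P * dg ψr := Nat.le_mul_of_pos_left _ (by omega)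
    rcases le_or_gt (dg zr) (dg ψr) with h | h
    · have a3 : P * dg zr ≤ P * dg ψr := Nat.mul_le_mul_left _ h
      rw [hf, add_comm, dg_add_left (by omega), h3]
      omega
    · have a3 : P * (dg ψr + 1) ≤ P * dg zr := Nat.mul_le_mul_left _ h
      rw [mul_add, mul_one] at a3
      rw [hf, dg_add_left (by omega), h1]
      omega

theorem deg_trick (hc : ∀ x, c (c x) = x) (h2 : (2 : E) ≠ 0) {P : ℕ} (hP : 2 ≤ P) (hf : f = zr ^ P + ψr ^ P * X 0)
    (a0 : XD c f zr = 0) (a1 : XB f zr = 0) (b0 : XD c f ψr = 0) (b1 : XB f ψr = 0) (i : Fin 5) :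
    pderiv i zr = 0 ∧ pderiv i ψr = 0 := by
  obtain ⟨h1, h3⟩ := dg_ge hP hf
  exact ⟨all_zero h2 a0 a1 (d2_zero hc h1 a0) (d3_zero h1 a1) i,
    all_zero h2 b0 b1 (d2_zero hc h3 b0) (d3_zero h3 b1) i⟩

lemma exp_zero (h : ∀ i, pderiv i w = 0) {d : Fin 5 →₀ ℕ} (hd : coeff d w ≠ 0) (i : Fin 5) :
    ((d i : ℕ) : E) = 0 := by
  by_cases h0 : d i = 0
  · rw [h0, Nat.cast_zero]
  · have hle : Finsupp.single i 1 ≤ d := Finsupp.single_le_iff.mpr (by omega)
    have k := coeff_pderiv (i := i) w (d - Finsupp.single i 1)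
    rw [h, coeff_zero, tsub_add_cancel_of_le hle] at k
    have k2 := (mul_eq_zero.mp k.symm).resolve_left hd
    have e : d i = (d - Finsupp.single i 1 : Fin 5 →₀ ℕ) i + 1 := by
      rw [Finsupp.tsub_apply, Finsupp.single_eq_same]; omega
    rw [e]
    exact_mod_cast k2

theorem const_of_d [CharZero E] (h : ∀ i, pderiv i w = 0) : ∃ a, w = C a := by
  refine ⟨coeff 0 w, ?_⟩
  ext d
  rw [coeff_C]
  split_ifs with h0
  · rw [h0]
  · by_contra hd
    apply h0
    ext i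
    have := exp_zero h hd i
    simpa using (Nat.cast_eq_zero.mp this).symm

theorem root_of_d (p : ℕ) [Fact p.Prime] [CharP E p] [PerfectField E] (h : ∀ i, pderiv i w = 0) :
    ∃ v, w = v ^ p := by
  have hw : ∃ w' : MvPolynomial (Fin 5) E, expand p w' = w := by
    refine ⟨∑ d ∈ w.support, monomial (d.mapRange (· / p) (Nat.zero_div p)) (coeff d w), ?_⟩
    rw [map_sum]
    conv_rhs => rw [w.as_sum]
    refine Finset.sum_congr rfl fun d hd => ?_
    rw [expand_monomial]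
    congr 2
    ext i
    have := (CharP.cast_eq_zero_iff E p _).mp (exp_zero h (mem_support_iff.mp hd) i)
    simp [Nat.mul_div_cancel' this]
  obtain ⟨w', rfl⟩ := hw
  refine ⟨map (frobeniusEquiv E p).symm.toRingHom w', ?_⟩
  rw [← map_frobenius_expand, map_expand, map_map]
  have : (frobenius E p).comp (frobeniusEquiv E p).symm.toRingHom = RingHom.id E := by
    ext x
    simp
  rw [this, map_id]

theorem lev_zero (hc : ∀ x, c (c x) = x) (p : ℕ) [Fact p.Prime] [CharP E p] [PerfectField E]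
    (h2 : (2 : E) ≠ 0) (hz : ∀ i, pderiv i z = 0) (hψ : ∀ i, pderiv i ψ = 0)
    (hη : ∀ i, pderiv i η = 0) (hs : cj c η = -η) : ∃ zr ψr γ, Lev c p 0 z ψ η zr ψr γ := by
  obtain ⟨zr, h1⟩ := root_of_d p hz
  obtain ⟨ψr, h3⟩ := root_of_d p hψ
  obtain ⟨v, h4⟩ := root_of_d p hη
  have hv : cj c v = -v := by
    have k : (cj c v + v) ^ p = 0 := by
      rw [add_pow_char, ← map_pow, ← h4, hs, neg_add_cancel]
    exact eq_neg_of_add_eq_zero_left (pow_eq_zero_iff (Fact.out : p.Prime).ne_zero |>.mp k)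
  refine ⟨zr, ψr, fun _ _ => v, by simpa using h1, by simpa using h3, fun _ _ => hv, ?_⟩
  simpa using h4

lemma const_of_pow (p : ℕ) [Fact p.Prime] (h : ∀ r, ∃ v, w = v ^ p ^ (r + 1)) : ∃ a, w = C a := by
  apply dg_zero
  obtain ⟨v, hv⟩ := h (dg w)
  have hd : p ^ (dg w + 1) ∣ dg w := by
    refine ⟨dg v, ?_⟩
    rw [← dg_pow, ← hv]
  refine Nat.eq_zero_of_dvd_of_lt hd ?_
  exact lt_trans (Nat.lt_succ_self _) (Nat.lt_pow_self (Fact.out : p.Prime).one_lt)

theorem lev_all (p : ℕ) [Fact p.Prime] [CharP E p]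
    (h : ∀ r, ∃ zr ψr γ, Lev c p r z ψ η zr ψr γ) :
    ∃ z0 ψ0 η0, z = C z0 ∧ ψ = C ψ0 ∧ SS c z0 ψ0 η = C η0 := by
  have hp : p ≠ 0 := (Fact.out : p.Prime).ne_zero
  obtain ⟨z0, rfl⟩ := const_of_pow (w := z) p fun r => by
    obtain ⟨zr, ψr, γ, H⟩ := h r
    exact ⟨zr, H.hz⟩
  obtain ⟨ψ0, rfl⟩ := const_of_pow (w := ψ) p fun r => by
    obtain ⟨zr, ψr, γ, H⟩ := h r
    exact ⟨ψr, H.hψ⟩
  have u1 : SS c z0 ψ0 (uu (C z0) (C ψ0)) = 0 := by
    simp [SS, uu]
  have u2 : SS c z0 ψ0 (cj c (uu (C z0) (C ψ0))) = 0 := by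
    simp only [uu, map_sub, map_neg, map_mul, map_add, cj_half, cj_X0, cj_X1, cj_X3, cj_X4]
    simp [SS]
    ring
  obtain ⟨η0, h0⟩ := const_of_pow (w := SS c z0 ψ0 η) p fun r => by
    obtain ⟨zr, ψr, γ, H⟩ := h r
    refine ⟨SS c z0 ψ0 (γ 0 0), ?_⟩
    have hr : 0 ∈ Finset.range (p ^ r) := Finset.mem_range.mpr (Nat.pos_of_ne_zero (pow_ne_zero _ hp))
    rw [H.hη]
    simp only [map_sum, map_mul, map_pow, u1, u2]
    rw [Finset.sum_eq_single_of_mem 0 hr, Finset.sum_eq_single_of_mem 0 hr]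
    · simp
    · intro j _ hj
      rw [zero_pow (mul_ne_zero hp hj), mul_zero]
    · intro i _ hi
      refine Finset.sum_eq_zero fun j _ => ?_
      rw [zero_pow (mul_ne_zero hp hi), mul_zero, zero_mul]
  exact ⟨z0, ψ0, η0, rfl, rfl, h0⟩

end Pool.Agent.Lib.MP_3fd6b0_co
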