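import Pool.Agent.Lib.MP_3fd6b0_co.Alg2a

/-!
Passing from one inseparability level to the next.
-/

set_option autoImplicit false
set_option linter.unusedSectionVars false
open MvPolynomial

namespace Pool.Agent.Lib.MP_3fd6b0_co

variable {E : Type} [Field E] {c : E →+* E} {f g w z ψ η zr ψr : MvPolynomial (Fin 5) E}
  {γ : ℕ → ℕ → MvPolynomial (Fin 5) E} (p : ℕ) [Fact p.Prime] [CharP E p]

lemma d_pow_mul (i : Fin 5) (w : MvPolynomial (Fin 5) E) (n : ℕ) :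
    pderiv i (w ^ (p * n)) = 0 := by
  rw [pderiv_pow, Nat.cast_mul, CharP.cast_eq_zero (MvPolynomial (Fin 5) E) p]
  ring

lemma d_pow_succ (i : Fin 5) (w : MvPolynomial (Fin 5) E) (r : ℕ) :
    pderiv i (w ^ p ^ (r + 1)) = 0 := by
  rw [pow_succ' p r, d_pow_mul]

theorem flat_of_aa (hc : ∀ x, c (c x) = x) (h2 : (2 : E) ≠ 0) {r : ℕ}
    (h : Lev c p r z ψ η zr ψr γ) (ha : aa c p r z ψ zr ψr γ = 0) : Flat c p r z ψ zr ψr γ := by
  have hp : p ≠ 0 := (Fact.out : p.Prime).ne_zero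
  have hz : ∀ i, pderiv i z = 0 := fun i => by rw [h.hz, d_pow_succ]
  have hψ : ∀ i, pderiv i ψ = 0 := fun i => by rw [h.hψ, d_pow_succ]
  obtain ⟨-, -, u2, u3, -⟩ := d_uu hz hψ
  have v3 : pderiv 3 (cj c (uu z ψ)) = 0 := by rw [← cj_d2, u2, map_zero]
  have v2 : pderiv 2 (cj c (uu z ψ)) = -1 := by rw [← cj_d3, u3, map_neg, map_one]
  have k3 := congrArg (pderiv 3) ha
  have k2 := congrArg (pderiv 2) ha
  simp only [aa, map_add, map_sub, map_sum, Derivation.leibniz, d_pow_succ, d_pow_mul, u2, u3, v2,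
    v3, smul_eq_mul, mul_zero, add_zero, zero_add, Finset.sum_const_zero, map_zero, sub_zero,
    mul_neg, mul_one, neg_eq_zero, zero_sub, neg_neg] at k3 k2
  have e1 := (pow_eq_zero_iff (pow_ne_zero _ hp)).mp k3
  have e2 := (pow_eq_zero_iff (pow_ne_zero _ hp)).mp k2
  have e3 : XB (z + ψ * X 0) ψr = 0 := by
    have := cj_XD (f := z + ψ * X 0) hc (cj c ψr)
    rw [e1, map_zero, cj_cj hc] at this
    exact this.symm
  obtain ⟨T, hT⟩ : ∃ T, T = C 2⁻¹ * (cj c zr * XD c (z + ψ * X 0) zr -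
      zr * XD c (z + ψ * X 0) (cj c zr)) := ⟨_, rfl⟩
  rw [aa, e1, e2, zero_pow (pow_ne_zero _ hp), mul_zero, mul_zero, sub_zero, add_zero, ← hT] at ha
  have hr : 0 ∈ Finset.range (p ^ r) := Finset.mem_range.mpr (Nat.pos_of_ne_zero (pow_ne_zero _ hp))
  have key := indep (c := c) p (r := r) (z := z) (ψ := ψ)
    ⟨zr ^ p, by rw [h.hz, ← pow_mul, pow_succ']⟩ ⟨ψr ^ p, by rw [h.hψ, ← pow_mul, pow_succ']⟩
    (fun i j => XD c (z + ψ * X 0) (γ i j) + if i = 0 ∧ j = 0 then T else 0) (by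
      refine (pow_eq_zero_iff hp).mp (Eq.trans ?_ ha)
      have hT' : T ^ p ^ (r + 1) = ∑ i ∈ Finset.range (p ^ r), ∑ j ∈ Finset.range (p ^ r),
          (if i = 0 ∧ j = 0 then T else 0) ^ p ^ (r + 1) * uu z ψ ^ (p * i) *
            cj c (uu z ψ) ^ (p * j) := by
        rw [Finset.sum_eq_single_of_mem 0 hr, Finset.sum_eq_single_of_mem 0 hr]
        · simp
        · intro j _ hj
          rw [if_neg (fun hh => hj hh.2), zero_pow (pow_ne_zero _ hp), zero_mul, zero_mul]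
        · intro i _ hi
          refine Finset.sum_eq_zero fun j _ => ?_
          rw [if_neg (fun hh => hi hh.1), zero_pow (pow_ne_zero _ hp), zero_mul, zero_mul]
      rw [hT', ← Finset.sum_add_distrib, sum_pow_char]
      refine Finset.sum_congr rfl fun i _ => ?_
      rw [← Finset.sum_add_distrib, sum_pow_char]
      refine Finset.sum_congr rfl fun j _ => ?_
      rw [mul_pow, mul_pow, ← pow_mul, ← pow_succ, add_pow_char_pow, ← pow_mul, ← pow_mul,
        mul_comm i p, mul_comm j p]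
      ring)
  have hB : ∀ i j, XB (z + ψ * X 0) (γ i j) = -cj c (XD c (z + ψ * X 0) (γ j i)) := by
    intro i j
    rw [cj_XD hc, h.sym, map_neg, neg_neg]
  refine ⟨fun b => ?_, fun b i hi j hj hij => ?_, fun b => ?_⟩
  · rw [YY_apply, e2, e3]; ring
  · have a1 := key i hi j hj
    have a2 := key j hj i hi
    rw [if_neg (by omega), add_zero] at a1 a2
    rw [YY_apply, hB, a1, a2, map_zero]; ring
  · have a1 := key 0 (Finset.mem_range.mp hr) 0 (Finset.mem_range.mp hr)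
    rw [if_pos ⟨rfl, rfl⟩, hT] at a1
    have a2 := congrArg (cj c) a1
    simp only [map_add, map_mul, map_sub, cj_half, cj_XD hc, cj_cj hc, h.sym, map_neg,
      map_zero] at a2
    simp only [YY_apply]
    linear_combination C b * a1 - C (c b) * a2

lemma sum_range_mul {M : Type} [AddCommMonoid M] (F : ℕ → M) (Q n : ℕ) :
    ∑ k ∈ Finset.range (n * Q), F k =
      ∑ a ∈ Finset.range n, ∑ i ∈ Finset.range Q, F (a * Q + i) := by
  induction n with
  | zero => simp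
  | succ n ih => rw [Nat.succ_mul, Finset.sum_range_add, ih, Finset.sum_range_succ]

omit [Fact p.Prime] [CharP E p] in
lemma cj_sum (hc : ∀ x, c (c x) = x) (Q P : ℕ) (u : MvPolynomial (Fin 5) E)
    (δ : ℕ → ℕ → MvPolynomial (Fin 5) E) :
    cj c (∑ i ∈ Finset.range Q, ∑ j ∈ Finset.range Q,
      δ i j ^ P * u ^ (p * i) * cj c u ^ (p * j)) =
    ∑ i ∈ Finset.range Q, ∑ j ∈ Finset.range Q,
      cj c (δ j i) ^ P * u ^ (p * i) * cj c u ^ (p * j) := by
  simp only [map_sum, map_mul, map_pow, cj_cj hc]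
  rw [Finset.sum_comm]
  exact Finset.sum_congr rfl fun i _ => Finset.sum_congr rfl fun j _ => by ring

theorem lev_succ [PerfectField E] (hc : ∀ x, c (c x) = x) (h2 : (2 : E) ≠ 0) {θ : E} (h0 : θ ≠ 0)
    (hθ : c θ = -θ) {r : ℕ} (h : Lev c p r z ψ η zr ψr γ) (hF : Flat c p r z ψ zr ψr γ)
    (a1 : YY c (z + ψ * X 0) 1 zr = 0) (a2 : YY c (z + ψ * X 0) θ zr = 0) :
    ∃ zr' ψr' γ', Lev c p (r + 1) z ψ η zr' ψr' γ' := by
  have hp : p ≠ 0 := (Fact.out : p.Prime).ne_zero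
  have hQ : 0 < p ^ r := Nat.pos_of_ne_zero (pow_ne_zero _ hp)
  have hz : ∀ i, pderiv i z = 0 := fun i => by rw [h.hz, d_pow_succ]
  have hψ : ∀ i, pderiv i ψ = 0 := fun i => by rw [h.hψ, d_pow_succ]
  obtain ⟨z0, z1⟩ := (YY_iff h2 h0 hθ).mp ⟨a1, a2⟩
  obtain ⟨p0, p1⟩ := (YY_iff h2 h0 hθ).mp ⟨hF.h1 1, hF.h1 θ⟩
  have hP : 2 ≤ p ^ (r + 1) := by
    have := (Fact.out : p.Prime).two_le
    rw [pow_succ]
    nlinarith
  have dt := deg_trick hc h2 hP (f := z + ψ * X 0) (zr := zr) (ψr := ψr)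
    (by rw [← h.hz, ← h.hψ]) z0 z1 p0 p1
  obtain ⟨zr', hzr⟩ := root_of_d p fun i => (dt i).1
  obtain ⟨ψr', hψr⟩ := root_of_d p fun i => (dt i).2
  have hY : ∀ b, YY c (z + ψ * X 0) b zr = 0 → ∀ i < p ^ r, ∀ j < p ^ r,
      YY c (z + ψ * X 0) b (γ i j) = 0 := by
    intro b hb i hi j hj
    by_cases hij : i ≠ 0 ∨ j ≠ 0
    · exact hF.h2 b i hi j hj hij
    · obtain ⟨rfl, rfl⟩ : i = 0 ∧ j = 0 := by omega
      have k := hF.h3 b
      rw [← cj_YY hc, hb, map_zero] at k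
      linear_combination k
  have hδ : ∀ i j, ∃ δ : ℕ → ℕ → MvPolynomial (Fin 5) E, i < p ^ r → j < p ^ r →
      γ i j = ∑ a ∈ Finset.range p, ∑ b ∈ Finset.range p,
        δ a b ^ p * uu z ψ ^ a * cj c (uu z ψ) ^ b := by
    intro i j
    by_cases hij : i < p ^ r ∧ j < p ^ r
    · obtain ⟨x0, x1⟩ := (YY_iff h2 h0 hθ).mp ⟨hY 1 a1 i hij.1 j hij.2, hY θ a2 i hij.1 j hij.2⟩
      obtain ⟨δ, hδ⟩ := decomp p h2 hz hψ x0 x1
      exact ⟨δ, fun _ _ => hδ⟩
    · exact ⟨fun _ _ => 0, fun hi hj => absurd ⟨hi, hj⟩ hij⟩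
  choose δ hδ using hδ
  obtain ⟨γ', hγ'⟩ : ∃ γ' : ℕ → ℕ → MvPolynomial (Fin 5) E,
      ∀ i j, γ' i j = δ (i % p ^ r) (j % p ^ r) (i / p ^ r) (j / p ^ r) := ⟨_, fun _ _ => rfl⟩
  have hη : η = ∑ i ∈ Finset.range (p ^ (r + 1)), ∑ j ∈ Finset.range (p ^ (r + 1)),
      γ' i j ^ p ^ (r + 1 + 1) * uu z ψ ^ (p * i) * cj c (uu z ψ) ^ (p * j) := by
    have hm : ∀ a i, i < p ^ r → (a * p ^ r + i) % p ^ r = i ∧ (a * p ^ r + i) / p ^ r = a := by
      intro a i hi
      refine ⟨by rw [Nat.mul_add_mod_of_lt hi], ?_⟩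
      rw [add_comm, Nat.add_mul_div_right _ _ hQ, Nat.div_eq_of_lt hi, zero_add]
    have e : Finset.range (p ^ (r + 1)) = Finset.range (p * p ^ r) := by rw [pow_succ']
    rw [h.hη, e, sum_range_mul, Finset.sum_comm (s := Finset.range p)]
    refine Finset.sum_congr rfl fun i hi => ?_
    have hi' := Finset.mem_range.mp hi
    simp only [sum_range_mul]
    have : ∀ a ∈ Finset.range p, (∑ b ∈ Finset.range p, ∑ j ∈ Finset.range (p ^ r),
        γ' (a * p ^ r + i) (b * p ^ r + j) ^ p ^ (r + 1 + 1) * uu z ψ ^ (p * (a * p ^ r + i)) *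
          cj c (uu z ψ) ^ (p * (b * p ^ r + j))) = ∑ j ∈ Finset.range (p ^ r),
        ∑ b ∈ Finset.range p, γ' (a * p ^ r + i) (b * p ^ r + j) ^ p ^ (r + 1 + 1) *
          uu z ψ ^ (p * (a * p ^ r + i)) * cj c (uu z ψ) ^ (p * (b * p ^ r + j)) :=
      fun a _ => Finset.sum_comm
    rw [Finset.sum_congr rfl this, Finset.sum_comm (s := Finset.range p)]
    refine Finset.sum_congr rfl fun j hj => ?_
    have hj' := Finset.mem_range.mp hj
    rw [hδ i j hi' hj', sum_pow_char_pow, Finset.sum_mul, Finset.sum_mul]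
    refine Finset.sum_congr rfl fun a _ => ?_
    rw [sum_pow_char_pow, Finset.sum_mul, Finset.sum_mul]
    refine Finset.sum_congr rfl fun b _ => ?_
    rw [hγ', (hm a i hi').1, (hm a i hi').2, (hm b j hj').1, (hm b j hj').2]
    ring
  have hs : cj c η = -η := by
    conv_lhs => rw [h.hη, cj_sum p hc]
    rw [h.hη, ← Finset.sum_neg_distrib]
    refine Finset.sum_congr rfl fun i _ => ?_
    rw [← Finset.sum_neg_distrib]
    refine Finset.sum_congr rfl fun j _ => ?_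
    rw [h.sym, ← zero_sub, sub_pow_char_pow, zero_pow (pow_ne_zero _ hp)]
    ring
  have hc' := congrArg (cj c) hη
  rw [cj_sum p hc, hs] at hc'
  have e := two_half (E := E) h2
  have e2 : (2 : MvPolynomial (Fin 5) E) * C 2⁻¹ ^ p ^ (r + 1 + 1) = 1 := by
    have e3 : (2 : MvPolynomial (Fin 5) E) ^ p ^ (r + 1 + 1) = 2 := by
      rw [← one_add_one_eq_two, add_pow_char_pow, one_pow]
    rw [← e3, ← mul_pow, e, one_pow]
  refine ⟨zr', ψr', fun i j => C 2⁻¹ * (γ' i j - cj c (γ' j i)), ?_, ?_, fun i j => ?_, ?_⟩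
  · rw [h.hz, hzr, ← pow_mul, ← pow_succ']
  · rw [h.hψ, hψr, ← pow_mul, ← pow_succ']
  · rw [map_mul, map_sub, cj_half, cj_cj hc]; ring
  · have k : ∑ i ∈ Finset.range (p ^ (r + 1)), ∑ j ∈ Finset.range (p ^ (r + 1)),
        (C 2⁻¹ * (γ' i j - cj c (γ' j i))) ^ p ^ (r + 1 + 1) * uu z ψ ^ (p * i) *
          cj c (uu z ψ) ^ (p * j) = C 2⁻¹ ^ p ^ (r + 1 + 1) * (η - -η) := by
      conv_rhs => rw [hc']; enter [2, 1]; rw [hη]
      rw [← Finset.sum_sub_distrib, Finset.mul_sum]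
      refine Finset.sum_congr rfl fun i _ => ?_
      rw [← Finset.sum_sub_distrib, Finset.mul_sum]
      refine Finset.sum_congr rfl fun j _ => ?_
      rw [mul_pow, sub_pow_char_pow]
      generalize p ^ (r + 1 + 1) = P
      ring
    rw [k]
    linear_combination (-η) * e2

end Pool.Agent.Lib.MP_3fd6b0_co
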