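import Pool.Agent.Lib.MP_3fd6b0_co.Alg1

/-!
Independence of the monomials in the separable coordinate, and decomposition along them.
-/

set_option autoImplicit false
set_option linter.unusedSectionVars false
open MvPolynomial

namespace Pool.Agent.Lib.MP_3fd6b0_co

section one
variable {R : Type} [CommRing R]

lemma indep_one (Q : ℕ) (T : R →+* Polynomial R) (a : ℕ → R) (u : R)
    (ha : ∀ i < Q, Ideal.Quotient.mk (Ideal.span {(Polynomial.X : Polynomial R) ^ Q}) (T (a i)) =
      Ideal.Quotient.mk _ (Polynomial.C (a i)))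
    (hu : Ideal.Quotient.mk (Ideal.span {(Polynomial.X : Polynomial R) ^ Q}) (T u) =
      Ideal.Quotient.mk _ (Polynomial.X + Polynomial.C u))
    (h : ∑ i ∈ Finset.range Q, a i * u ^ i = 0) : ∀ i < Q, a i = 0 := by
  set G : Polynomial R := ∑ i ∈ Finset.range Q, Polynomial.monomial i (a i) with hG
  have hc : ∀ i < Q, G.coeff i = a i := by
    intro i hi
    rw [hG, Polynomial.finsetSum_coeff, Finset.sum_eq_single_of_mem i (Finset.mem_range.mpr hi)]
    · simp
    · intro j _ hj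
      rw [Polynomial.coeff_monomial, if_neg hj]
  have h1 : Ideal.Quotient.mk (Ideal.span {(Polynomial.X : Polynomial R) ^ Q})
      (Polynomial.taylor u G) = 0 := by
    have h2 := congrArg (fun x => Ideal.Quotient.mk
      (Ideal.span {(Polynomial.X : Polynomial R) ^ Q}) (T x)) h
    simp only [map_sum, map_mul, map_pow, map_zero, hu] at h2
    rw [← h2, hG, map_sum, map_sum]
    refine Finset.sum_congr rfl fun i hi => ?_
    rw [Polynomial.taylor_monomial, map_mul, map_pow, ha i (Finset.mem_range.mp hi)]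
  rw [Ideal.Quotient.eq_zero_iff_mem, Ideal.mem_span_singleton, Polynomial.X_pow_dvd_iff] at h1
  have h3 : Polynomial.taylor u G = 0 := by
    ext n
    by_cases hn : n < Q
    · simpa using h1 n hn
    · by_cases hQ : Q = 0
      · subst hQ
        simp [hG]
      · apply Polynomial.coeff_eq_zero_of_natDegree_lt
        rw [Polynomial.natDegree_taylor]
        have : G.natDegree ≤ Q - 1 := by
          refine Polynomial.natDegree_sum_le_of_forall_le _ _ fun i hi => ?_
          have := Finset.mem_range.mp hi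
          exact (Polynomial.natDegree_monomial_le _).trans (by omega)
        omega
  have h4 : G = 0 := Polynomial.taylor_injective u (by rw [h3, map_zero])
  intro i hi
  rw [← hc i hi, h4, Polynomial.coeff_zero]

end one

variable {E : Type} [Field E] {c : E →+* E} {f g w z ψ η zr ψr : MvPolynomial (Fin 5) E}
  {γ : ℕ → ℕ → MvPolynomial (Fin 5) E} (p : ℕ) [Fact p.Prime] [CharP E p]

/-- translation of one coordinate by a new variable -/
noncomputable def Tk (k : Fin 5) :
    MvPolynomial (Fin 5) E →ₐ[E] Polynomial (MvPolynomial (Fin 5) E) :=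
  aeval fun i => if i = k then Polynomial.C (X i) - Polynomial.X else Polynomial.C (X i)

lemma Tk_C (k : Fin 5) (a : E) : Tk k (C a : MvPolynomial (Fin 5) E) = Polynomial.C (C a) := by
  simp [Tk, Polynomial.algebraMap_apply]

lemma Tk_X (k i : Fin 5) : Tk k (X i : MvPolynomial (Fin 5) E) =
    if i = k then Polynomial.C (X i) - Polynomial.X else Polynomial.C (X i) := by
  simp only [Tk, aeval_X]

lemma Tk_dvd (k : Fin 5) (w : MvPolynomial (Fin 5) E) :
    ∃ s, Tk k w = Polynomial.C w + Polynomial.X * s := by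
  induction w using MvPolynomial.induction_on with
  | C a => exact ⟨0, by rw [Tk_C]; ring⟩
  | add a b ha hb =>
    obtain ⟨s, hs⟩ := ha
    obtain ⟨t, ht⟩ := hb
    exact ⟨s + t, by rw [map_add, map_add, hs, ht]; ring⟩
  | mul_X a j ha =>
    obtain ⟨s, hs⟩ := ha
    rw [map_mul, map_mul, hs, Tk_X]
    split_ifs
    · exact ⟨s * Polynomial.C (X j) - Polynomial.C a - Polynomial.X * s, by ring⟩
    · exact ⟨s * Polynomial.C (X j), by ring⟩

lemma Tk_pow (k : Fin 5) (r : ℕ) (w : MvPolynomial (Fin 5) E) :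
    Ideal.Quotient.mk
      (Ideal.span {(Polynomial.X : Polynomial (MvPolynomial (Fin 5) E)) ^ p ^ r})
      (Tk k (w ^ p ^ r)) = Ideal.Quotient.mk _ (Polynomial.C (w ^ p ^ r)) := by
  obtain ⟨s, hs⟩ := Tk_dvd k w
  rw [map_pow, hs, add_pow_char_pow, mul_pow, Ideal.Quotient.eq, Ideal.mem_span_singleton, map_pow]
  exact ⟨s ^ p ^ r, by ring⟩

theorem indep {r : ℕ} (hz : ∃ a, z = a ^ p ^ r) (hψ : ∃ a, ψ = a ^ p ^ r)
    (a : ℕ → ℕ → MvPolynomial (Fin 5) E)
    (h : ∑ i ∈ Finset.range (p ^ r), ∑ j ∈ Finset.range (p ^ r),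
      a i j ^ p ^ r * uu z ψ ^ i * cj c (uu z ψ) ^ j = 0) :
    ∀ i < p ^ r, ∀ j < p ^ r, a i j = 0 := by
  obtain ⟨z1, rfl⟩ := hz
  obtain ⟨ψ1, rfl⟩ := hψ
  have ub : cj c (uu (z1 ^ p ^ r) (ψ1 ^ p ^ r)) = -X 2 - X 0 * cj c z1 ^ p ^ r -
      cj c ψ1 ^ p ^ r * (-X 4 + C 2⁻¹ * (X 1 * X 0)) := by
    simp only [uu, map_sub, map_neg, map_mul, map_add, map_pow, cj_half, cj_X0, cj_X1, cj_X3, cj_X4]
  have t3 : Ideal.Quotient.mk
      (Ideal.span {(Polynomial.X : Polynomial (MvPolynomial (Fin 5) E)) ^ p ^ r})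
      (Tk 3 (cj c (uu (z1 ^ p ^ r) (ψ1 ^ p ^ r)))) =
      Ideal.Quotient.mk _ (Polynomial.C (cj c (uu (z1 ^ p ^ r) (ψ1 ^ p ^ r)))) := by
    rw [ub]
    simp only [map_sub, map_neg, map_mul, map_add, Tk_pow, Tk_C, Tk_X]
    simp
  have h1 := indep_one (p ^ r) (Tk 3).toRingHom
    (fun i => ∑ j ∈ Finset.range (p ^ r),
      a i j ^ p ^ r * cj c (uu (z1 ^ p ^ r) (ψ1 ^ p ^ r)) ^ j) (uu (z1 ^ p ^ r) (ψ1 ^ p ^ r))
    (fun i _ => by
      simp only [AlgHom.toRingHom_eq_coe, RingHom.coe_coe, map_sum, map_mul, Tk_pow]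
      refine Finset.sum_congr rfl fun j _ => ?_
      congr 1
      rw [map_pow (Tk 3), map_pow, t3, map_pow Polynomial.C (cj c _) j, map_pow])
    (by
      simp only [AlgHom.toRingHom_eq_coe, RingHom.coe_coe, uu, map_sub, map_neg, map_mul, map_add,
        Tk_pow, Tk_C, Tk_X]
      simp
      ring)
    (by
      rw [← h]
      refine Finset.sum_congr rfl fun i _ => ?_
      rw [Finset.sum_mul]
      exact Finset.sum_congr rfl fun j _ => by ring)
  intro i hi j hj
  have h2 := indep_one (p ^ r) (Tk 2).toRingHom (fun j => a i j ^ p ^ r)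
    (cj c (uu (z1 ^ p ^ r) (ψ1 ^ p ^ r))) (fun j _ => Tk_pow p 2 r _)
    (by
      rw [ub]
      simp only [AlgHom.toRingHom_eq_coe, RingHom.coe_coe, map_sub, map_neg, map_mul, map_add,
        Tk_pow, Tk_C, Tk_X]
      simp
      ring) (h1 i hi) j hj
  exact pow_eq_zero_iff (pow_ne_zero _ (Fact.out : p.Prime).ne_zero) |>.mp h2

/-- the constants of a derivation -/
def cst (D : Derivation E (MvPolynomial (Fin 5) E) (MvPolynomial (Fin 5) E)) :
    Subalgebra E (MvPolynomial (Fin 5) E) where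
  carrier := {w | D w = 0}
  mul_mem' := by
    intro a b ha hb
    simp only [Set.mem_ofPred_eq] at ha hb ⊢
    rw [Derivation.leibniz, ha, hb, smul_zero, smul_zero, add_zero]
  add_mem' := by
    intro a b ha hb
    simp only [Set.mem_ofPred_eq] at ha hb ⊢
    rw [map_add, ha, hb, add_zero]
  algebraMap_mem' := fun a => D.map_algebraMap a

lemma mem_cst {D : Derivation E (MvPolynomial (Fin 5) E) (MvPolynomial (Fin 5) E)} :
    w ∈ cst D ↔ D w = 0 := Iff.rfl

lemma iter_top (D : Derivation E (MvPolynomial (Fin 5) E) (MvPolynomial (Fin 5) E))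
    {u : MvPolynomial (Fin 5) E} (hu : D u = 1) (n : ℕ) : ∀ a, D a = 0 →
    (D.toLinearMap ^ n) (a * u ^ n) = C (n.factorial : E) * a := by
  induction n with
  | zero => intro a _; simp
  | succ n ih =>
    intro a ha
    have e : D.toLinearMap (a * u ^ (n + 1)) = (C ((n + 1 : ℕ) : E) * a) * u ^ n := by
      change D (a * u ^ (n + 1)) = _
      rw [Derivation.leibniz, Derivation.leibniz_pow, ha, hu, map_natCast]
      simp only [smul_eq_mul, nsmul_eq_mul, Nat.add_sub_cancel]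
      ring
    rw [pow_succ D.toLinearMap, Module.End.mul_apply, e, ih, Nat.factorial_succ, Nat.cast_mul,
      map_mul]
    · ring
    · rw [Derivation.leibniz, ha, derivation_C, smul_zero, smul_zero, add_zero]

lemma decomp_one (D : Derivation E (MvPolynomial (Fin 5) E) (MvPolynomial (Fin 5) E))
    {u : MvPolynomial (Fin 5) E} (hu : D u = 1) (A : Subalgebra E (MvPolynomial (Fin 5) E))
    (huA : u ∈ A) (hA : ∀ x ∈ A, D x ∈ A) (n : ℕ) : n ≤ p → ∀ w ∈ A, (D.toLinearMap ^ n) w = 0 →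
    ∃ a : ℕ → MvPolynomial (Fin 5) E, (∀ i, a i ∈ A ∧ D (a i) = 0) ∧
      w = ∑ i ∈ Finset.range n, a i * u ^ i := by
  have hit : ∀ k, ∀ x ∈ A, (D.toLinearMap ^ k) x ∈ A := by
    intro k
    induction k with
    | zero => intro x hx; simpa using hx
    | succ k ih =>
      intro x hx
      rw [pow_succ, Module.End.mul_apply]
      exact ih _ (hA x hx)
  induction n with
  | zero =>
    intro _ w _ h
    exact ⟨fun _ => 0, fun _ => ⟨A.zero_mem, map_zero _⟩, by simpa using h⟩
  | succ n ih =>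
    intro hn w hw h
    have hf : (n.factorial : E) ≠ 0 := by
      rw [Ne, CharP.cast_eq_zero_iff E p, (Fact.out : p.Prime).dvd_factorial]
      omega
    set b := C (n.factorial : E)⁻¹ * (D.toLinearMap ^ n) w with hb
    have hbA : b ∈ A := A.mul_mem (A.algebraMap_mem _) (hit n w hw)
    have hDb : D b = 0 := by
      rw [pow_succ', Module.End.mul_apply] at h
      have h' : D ((D.toLinearMap ^ n) w) = 0 := h
      rw [hb, Derivation.leibniz, h', derivation_C, smul_zero, smul_zero, add_zero]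
    obtain ⟨a, ha, hw'⟩ := ih (by omega) (w - b * u ^ n)
      (A.sub_mem hw (A.mul_mem hbA (A.pow_mem huA n))) (by
        rw [map_sub, iter_top D hu n b hDb, hb, ← mul_assoc, ← map_mul, mul_inv_cancel₀ hf,
          map_one, one_mul, sub_self])
    refine ⟨fun i => if i = n then b else a i, fun i => ?_, ?_⟩
    · by_cases hi : i = n
      · simp only [if_pos hi]; exact ⟨hbA, hDb⟩
      · simp only [if_neg hi]; exact ha i
    · simp only [Finset.sum_range_succ, if_true]
      rw [← sub_eq_iff_eq_add, hw']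
      refine Finset.sum_congr rfl fun i hi => ?_
      rw [if_neg (Finset.mem_range.mp hi).ne]

lemma coeff_iter (i : Fin 5) (k : ℕ) : ∀ (w : MvPolynomial (Fin 5) E) (m : Fin 5 →₀ ℕ),
    coeff m (((pderiv i : Derivation E (MvPolynomial (Fin 5) E) _).toLinearMap ^ k) w) =
      coeff (m + Finsupp.single i k) w * ((m i + 1).ascFactorial k : ℕ) := by
  induction k with
  | zero => intro w m; simp
  | succ k ih =>
    intro w m
    rw [pow_succ, Module.End.mul_apply, ih]
    have e : (pderiv i : Derivation E (MvPolynomial (Fin 5) E) _).toLinearMap w = pderiv i w := rfl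
    rw [e, coeff_pderiv, add_assoc, ← Finsupp.single_add, Nat.ascFactorial_succ, Finsupp.add_apply,
      Finsupp.single_eq_same]
    push_cast
    ring

lemma neg_d_pow (i : Fin 5) (w : MvPolynomial (Fin 5) E) :
    ((-pderiv i : Derivation E (MvPolynomial (Fin 5) E) _).toLinearMap ^ p) w = 0 := by
  have e : (-pderiv i : Derivation E (MvPolynomial (Fin 5) E) _).toLinearMap =
      -(pderiv i : Derivation E (MvPolynomial (Fin 5) E) _).toLinearMap := rfl
  have h : ((pderiv i : Derivation E (MvPolynomial (Fin 5) E) _).toLinearMap ^ p) w = 0 := by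
    ext m
    have : (((m i + 1).ascFactorial p : ℕ) : E) = 0 :=
      (CharP.cast_eq_zero_iff E p _).mpr
        ((Nat.dvd_factorial (Fact.out : p.Prime).pos le_rfl).trans
          (Nat.factorial_dvd_ascFactorial _ _))
    rw [coeff_iter, this, mul_zero, coeff_zero]
  have k := neg_pow (R := Module.End E (MvPolynomial (Fin 5) E))
    (pderiv i : Derivation E (MvPolynomial (Fin 5) E) _).toLinearMap p
  have k2 := congrArg (fun L : Module.End E (MvPolynomial (Fin 5) E) => L w) k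
  simp only [Module.End.mul_apply] at k2
  rw [e]
  refine k2.trans ?_
  rw [h, map_zero]

omit [Fact p.Prime] [CharP E p] in
lemma d_uu (hz : ∀ i, pderiv i z = 0) (hψ : ∀ i, pderiv i ψ = 0) :
    pderiv 0 (uu z ψ) = -(ψ * (C 2⁻¹ * X 1)) ∧ pderiv 1 (uu z ψ) = -z - ψ * (C 2⁻¹ * X 0) ∧
      pderiv 2 (uu z ψ) = 0 ∧ pderiv 3 (uu z ψ) = -1 ∧ pderiv 4 (uu z ψ) = -ψ := by
  refine ⟨?_, ?_, ?_, ?_, ?_⟩ <;> simp [uu, hz, hψ, pderiv_X]

theorem decomp [PerfectField E] (h2 : (2 : E) ≠ 0) (hz : ∀ i, pderiv i z = 0)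
    (hψ : ∀ i, pderiv i ψ = 0) (h0 : XD c (z + ψ * X 0) w = 0) (h1 : XB (z + ψ * X 0) w = 0) :
    ∃ a : ℕ → ℕ → MvPolynomial (Fin 5) E, w = ∑ i ∈ Finset.range p, ∑ j ∈ Finset.range p,
      a i j ^ p * uu z ψ ^ i * cj c (uu z ψ) ^ j := by
  have e := two_half (E := E) h2
  obtain ⟨u0, u1, u2, u3, u4⟩ := d_uu hz hψ
  have f2 : pderiv 2 (z + ψ * X 0) = 0 := by simp [hz, hψ, pderiv_X]
  have f3 : pderiv 3 (z + ψ * X 0) = 0 := by simp [hz, hψ, pderiv_X]
  have F2 : pderiv 2 (cj c (z + ψ * X 0)) = 0 := by rw [← cj_d3, f3, map_zero]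
  have F3 : pderiv 3 (cj c (z + ψ * X 0)) = 0 := by rw [← cj_d2, f2, map_zero]
  have a1 : XD c (z + ψ * X 0) (uu z ψ) = 0 := by rw [XD_apply, u0, u4, u2]; ring
  have a2 : XB (z + ψ * X 0) (uu z ψ) = 0 := by
    rw [XB_apply, u1, u4, u3]
    linear_combination (-(ψ * X 0)) * e
  have b1 : XD c (z + ψ * X 0) (cj c (uu z ψ)) = 0 := by rw [← cj_XB, a2, map_zero]
  have v3 : pderiv 3 (cj c (uu z ψ)) = 0 := by rw [← cj_d2, u2, map_zero]
  have v2 : pderiv 2 (cj c (uu z ψ)) = -1 := by rw [← cj_d3, u3, map_neg, map_one]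
  have b2 : XB (z + ψ * X 0) (cj c (uu z ψ)) = 0 := by
    have v4 : pderiv 4 (cj c (uu z ψ)) = cj c ψ := by
      rw [← neg_inj, ← cj_d4, u4, map_neg]
    rw [XB_apply, v3, v4, ← cj_d0, u0]
    simp only [map_neg, map_mul, cj_half, cj_X1]
    ring
  have st : ∀ k : Fin 5, k ≠ 0 → k ≠ 1 → pderiv k (z + ψ * X 0) = 0 →
      pderiv k (cj c (z + ψ * X 0)) = 0 →
      ∀ x ∈ cst (XD c (z + ψ * X 0)) ⊓ cst (XB (z + ψ * X 0)),
        (-pderiv k : Derivation E (MvPolynomial (Fin 5) E) _) x ∈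
          cst (XD c (z + ψ * X 0)) ⊓ cst (XB (z + ψ * X 0)) := by
    intro k k0 k1 hf hF x hx
    obtain ⟨x1, x2⟩ := Algebra.mem_inf.mp hx
    rw [mem_cst] at x1 x2
    have y1 := d_XD (c := c) (f := z + ψ * X 0) k x
    have y2 := d_XB (f := z + ψ * X 0) k x
    rw [x1, map_zero, dX_ne k1.symm, hF] at y1
    rw [x2, map_zero, dX_ne k0.symm, hf] at y2
    rw [Algebra.mem_inf, mem_cst, mem_cst, Derivation.neg_apply, map_neg, map_neg]
    exact ⟨by linear_combination y1, by linear_combination y2⟩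
  obtain ⟨a, ha, hw⟩ := decomp_one p (-pderiv 3) (u := uu z ψ)
    (by rw [Derivation.neg_apply, u3, neg_neg]) _ (Algebra.mem_inf.mpr ⟨a1, a2⟩)
    (st 3 (by decide) (by decide) f3 F3) p le_rfl w (Algebra.mem_inf.mpr ⟨h0, h1⟩) (neg_d_pow p 3 w)
  have hb : ∀ i, ∃ b : ℕ → MvPolynomial (Fin 5) E,
      a i = ∑ j ∈ Finset.range p, b j ^ p * cj c (uu z ψ) ^ j := by
    intro i
    obtain ⟨b, hb, hb'⟩ := decomp_one p (-pderiv 2) (u := cj c (uu z ψ))
      (by rw [Derivation.neg_apply, v2, neg_neg])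
      ((cst (XD c (z + ψ * X 0)) ⊓ cst (XB (z + ψ * X 0))) ⊓ cst (pderiv 3))
      (Algebra.mem_inf.mpr ⟨Algebra.mem_inf.mpr ⟨b1, b2⟩, v3⟩)
      (fun x hx => by
        obtain ⟨x1, x2⟩ := Algebra.mem_inf.mp hx
        refine Algebra.mem_inf.mpr ⟨st 2 (by decide) (by decide) f2 F2 x x1, ?_⟩
        rw [mem_cst] at x2 ⊢
        rw [Derivation.neg_apply, map_neg, d_comm, x2, map_zero, neg_zero])
      p le_rfl (a i) (Algebra.mem_inf.mpr ⟨(ha i).1, by
        have := (ha i).2
        rwa [Derivation.neg_apply, neg_eq_zero] at this⟩) (neg_d_pow p 2 _)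
    have hv : ∀ j, ∃ v, b j = v ^ p := by
      intro j
      obtain ⟨x1, x2⟩ := Algebra.mem_inf.mp (hb j).1
      obtain ⟨x3, x4⟩ := Algebra.mem_inf.mp x1
      have x5 := (hb j).2
      rw [Derivation.neg_apply, neg_eq_zero] at x5
      exact root_of_d p (all_zero h2 x3 x4 x5 x2)
    choose v hv using hv
    exact ⟨v, by rw [hb']; exact Finset.sum_congr rfl fun j _ => by rw [hv]⟩
  choose b hb using hb
  refine ⟨b, ?_⟩
  rw [hw]
  refine Finset.sum_congr rfl fun i _ => ?_
  rw [hb, Finset.sum_mul]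
  exact Finset.sum_congr rfl fun j _ => by ring

end Pool.Agent.Lib.MP_3fd6b0_co
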