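import Pool.Agent.Lib.MP_3fd6b0_co.Defs

set_option autoImplicit false
set_option linter.unusedSectionVars false
open MvPolynomial Filter Topology

namespace Pool.Agent.Lib.MP_3fd6b0_co

variable {K L : Type} [NontriviallyNormedField K] [NormedField L] [NormedAlgebra K L] {Q : Cj K L}

lemma Cj.σ_alg (Q : Cj K L) (a : K) : Q.σ (algebraMap K L a) = algebraMap K L a := Q.σ.commutes a
/-- a skew element is theta times its skew part -/
lemma Cj.skew (Q : Cj K L) {w : L} (h : Q.σ w = -w) : Q.θ * algebraMap K L (Q.sk w) = w := by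
  have h1 := Q.hsk w
  rw [h] at h1
  apply mul_left_cancel₀ Q.two
  linear_combination h1
/-- a fixed element is real -/
lemma Cj.real (Q : Cj K L) {w : L} (h : Q.σ w = w) : algebraMap K L (Q.sk (Q.θ * w)) = w := by
  have h1 : Q.σ (Q.θ * w) = -(Q.θ * w) := by rw [map_mul, Q.σθ, h]; ring
  exact mul_left_cancel₀ Q.θ0 (Q.skew h1)
lemma Cj.sk_θ (Q : Cj K L) (a : K) : Q.sk (Q.θ * algebraMap K L a) = a :=
  (algebraMap K L).injective (Q.real (Q.σ_alg a))

lemma an0_alg {V : Type} [NormedAddCommGroup V] [NormedSpace K V] {φ : V → K} {x : V}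
    (h : AnalyticAt K φ x) : AnalyticAt K (fun y => algebraMap K L (φ y)) x :=
  ((algebraMapCLM K L).analyticAt _).comp h
lemma Cj.an0_σ (Q : Cj K L) {V : Type} [NormedAddCommGroup V] [NormedSpace K V] {φ : V → L} {x : V}
    (h : AnalyticAt K φ x) : AnalyticAt K (fun y => Q.σ (φ y)) x :=
  (Q.an _).comp h
lemma Cj.an0_lin (Q : Cj K L) (c : Fin 5 → L) (x : K × L × K) :
    AnalyticAt K (fun y : K × L × K => ∑ i, c i * Q.co (0, y.2.1, y.2.2) i) x := by
  have h1 : AnalyticAt K (fun y : K × L × K => y.2.1) x := analyticAt_fst.comp analyticAt_snd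
  have h2 : AnalyticAt K (fun y : K × L × K => y.2.2) x := analyticAt_snd.comp analyticAt_snd
  have e : (fun y : K × L × K => ∑ i, c i * Q.co (0, y.2.1, y.2.2) i) = fun y =>
      c 2 * y.2.1 + c 3 * Q.σ y.2.1 + c 4 * (Q.θ * algebraMap K L y.2.2) := by
    funext y
    simp [Fin.sum_univ_five, Cj.co]
  rw [e]
  exact ((analyticAt_const.mul h1).add (analyticAt_const.mul (Q.an0_σ h1))).add
    (analyticAt_const.mul (analyticAt_const.mul (an0_alg h2)))
lemma Cj.σ_lin (Q : Cj K L) (c : Fin 5 → L) (v : L × L × K) : Q.σ (∑ i, c i * Q.co v i) =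
    ∑ i, ![Q.σ (c 1), Q.σ (c 0), Q.σ (c 3), Q.σ (c 2), -Q.σ (c 4)] i * Q.co v i := by
  simp [Fin.sum_univ_five, Cj.co, Q.σσ, Q.σθ]
  ring

section DL
variable {W W' : L × L × K → L} {c c' : Fin 5 → L}
lemma Cj.DL.an (h : Q.DL W c) (x : L × L × K) : AnalyticAt K W x := by
  obtain ⟨W1, h1, h2, -⟩ := h
  have e : W = fun v => W 0 + W1 (0, v, 1) := by
    funext v
    have := h2 0 v 1
    simpa using this
  rw [e]
  exact analyticAt_const.add
    ((h1 _).comp (analyticAt_const.prod (analyticAt_id.prod analyticAt_const)))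
lemma Cj.DL.congr (h : Q.DL W c) (h1 : ∀ v, W' v = W v) (h2 : ∀ i, c' i = c i) : Q.DL W' c' := by
  rw [show W' = W from funext h1, show c' = c from funext h2]
  exact h
lemma Cj.DL.const (a : L) : Q.DL (fun _ => a) 0 :=
  ⟨fun _ => 0, fun _ => analyticAt_const, by simp, by simp⟩
lemma Cj.DL.add (h : Q.DL W c) (h' : Q.DL W' c') : Q.DL (fun v => W v + W' v) (c + c') := by
  obtain ⟨W1, h1, h2, h3⟩ := h
  obtain ⟨U1, k1, k2, k3⟩ := h'
  refine ⟨fun x => W1 x + U1 x, fun x => (h1 x).add (k1 x), fun a v ε => ?_, fun v => ?_⟩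
  · simp only [h2, k2]
    ring
  · simp only [h3, k3, Pi.add_apply, add_mul, Finset.sum_add_distrib]
lemma Cj.DL.sub (h : Q.DL W c) (h' : Q.DL W' c') : Q.DL (fun v => W v - W' v) (c - c') := by
  obtain ⟨W1, h1, h2, h3⟩ := h
  obtain ⟨U1, k1, k2, k3⟩ := h'
  refine ⟨fun x => W1 x - U1 x, fun x => (h1 x).sub (k1 x), fun a v ε => ?_, fun v => ?_⟩
  · simp only [h2, k2]
    ring
  · simp only [h3, k3, Pi.sub_apply, sub_mul, Finset.sum_sub_distrib]
lemma Cj.DL.mul (h : Q.DL W c) (h' : Q.DL W' c') :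
    Q.DL (fun v => W v * W' v) (W 0 • c' + W' 0 • c) := by
  have a1 := h.an
  have a2 := h'.an
  obtain ⟨W1, h1, h2, h3⟩ := h
  obtain ⟨U1, k1, k2, k3⟩ := h'
  refine ⟨fun x => W x.1 * U1 x + W' x.1 * W1 x + algebraMap K L x.2.2 * (W1 x * U1 x),
    fun x => ?_, fun a v ε => ?_, fun v => ?_⟩
  · exact ((((a1 _).comp analyticAt_fst).mul (k1 x)).add
      (((a2 _).comp analyticAt_fst).mul (h1 x))).add
      ((an0_alg (analyticAt_snd.comp analyticAt_snd)).mul ((h1 x).mul (k1 x)))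
  · simp only [h2, k2]
    ring
  · simp only [h3, k3, map_zero, zero_mul, add_zero, Pi.add_apply, Pi.smul_apply, smul_eq_mul,
      add_mul, Finset.sum_add_distrib, Finset.mul_sum, mul_assoc, Finset.sum_const_zero]
lemma Cj.DL.pow (h : Q.DL W c) (n : ℕ) :
    Q.DL (fun v => W v ^ n) (((n : L) * W 0 ^ (n - 1)) • c) := by
  induction n with
  | zero => exact (Cj.DL.const 1).congr (fun v => pow_zero _) (fun i => by simp)
  | succ n ih =>
    refine (ih.mul h).congr (fun v => pow_succ _ _) (fun i => ?_)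
    rcases n with _ | n
    · simp
    · simp only [Pi.add_apply, Pi.smul_apply, smul_eq_mul, Nat.add_sub_cancel]
      push_cast
      ring
lemma Cj.DL.conj (h : Q.DL W c) : Q.DL (fun v => Q.σ (W v))
    ![Q.σ (c 1), Q.σ (c 0), Q.σ (c 3), Q.σ (c 2), -Q.σ (c 4)] := by
  obtain ⟨W1, h1, h2, h3⟩ := h
  refine ⟨fun x => Q.σ (W1 x), fun x => Q.an0_σ (h1 x), fun a v ε => ?_, fun v => ?_⟩
  · simp only [h2, map_add, map_mul, Q.σ_alg]
  · simp only [h3]
    exact Q.σ_lin c v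
lemma Cj.DL.sum {ι : Type} (s : Finset ι) {W : ι → L × L × K → L} {c : ι → Fin 5 → L}
    (h : ∀ i ∈ s, Q.DL (W i) (c i)) : Q.DL (fun v => ∑ i ∈ s, W i v) (∑ i ∈ s, c i) := by
  classical
  induction s using Finset.induction_on with
  | empty => exact (Cj.DL.const 0).congr (fun v => by simp) (fun i => by simp)
  | insert a s ha ih =>
    refine ((h a (Finset.mem_insert_self _ _)).add
      (ih fun i hi => h i (Finset.mem_insert_of_mem hi))).congr (fun v => ?_) (fun i => ?_) <;>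
      rw [Finset.sum_insert ha]
/-- the differential of a skew function is skew -/
lemma Cj.DL.skew (h : Q.DL W c) (hW : ∀ v, Q.σ (W v) = -W v) :
    c 1 = -Q.σ (c 0) ∧ c 3 = -Q.σ (c 2) ∧ Q.σ (c 4) = c 4 := by
  obtain ⟨W1, h1, h2, h3⟩ := h
  have key : ∀ v, Q.σ (∑ i, c i * Q.co v i) + ∑ i, c i * Q.co v i = 0 := by
    intro v
    have a0 : AnalyticAt K (fun ε : K => W1 (0, v, ε)) 0 :=
      (h1 _).comp (analyticAt_const.prod (analyticAt_const.prod analyticAt_id))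
    have a1 : ContinuousAt (fun ε : K => Q.σ (W1 (0, v, ε)) + W1 (0, v, ε)) 0 :=
      ((Q.an0_σ a0).add a0).continuousAt
    have a2 : ∀ᶠ ε in 𝓝[≠] (0 : K), (0 : L) = Q.σ (W1 (0, v, ε)) + W1 (0, v, ε) := by
      filter_upwards [self_mem_nhdsWithin] with ε hε
      have e1 := h2 0 v ε
      have e2 := congrArg Q.σ e1
      rw [map_add, map_mul, Q.σ_alg, hW, hW] at e2
      have hne : algebraMap K L ε ≠ 0 := by simpa using hε
      apply mul_left_cancel₀ hne
      linear_combination e1 + e2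
    have := tendsto_nhds_unique (a1.tendsto.mono_left nhdsWithin_le_nhds)
      (tendsto_const_nhds.congr' a2)
    rwa [h3] at this
  have k1 := key (1, 0, 0)
  have k2 := key (Q.θ, 0, 0)
  have k3 := key (0, 1, 0)
  have k4 := key (0, Q.θ, 0)
  have k5 := key (0, 0, 1)
  simp only [Fin.sum_univ_five, Cj.co, Matrix.cons_val, map_zero, map_one, mul_zero, mul_one,
    add_zero, zero_add, map_add, map_mul, Q.σθ, map_neg, neg_neg] at k1 k2 k3 k4 k5
  have h2θ : 2 * Q.θ ≠ 0 := mul_ne_zero Q.two Q.θ0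
  refine ⟨mul_left_cancel₀ h2θ ?_, mul_left_cancel₀ h2θ ?_, mul_left_cancel₀ Q.θ0 ?_⟩
  · linear_combination Q.θ * k1 - k2
  · linear_combination Q.θ * k3 - k4
  · linear_combination -k5
end DL

section J2
variable {b0 m2 : L} {W W' : L × L × K → L} {w0 w1 w2 u0 u1 u2 : L} {c c' : Fin 5 → L}
lemma Cj.J2.congr (h : Q.J2 b0 m2 W w0 w1 w2 c) (h1 : ∀ v, W' v = W v) (e0 : u0 = w0)
    (e1 : u1 = w1) (e2 : u2 = w2) (h2 : ∀ i, c' i = c i) : Q.J2 b0 m2 W' u0 u1 u2 c' := by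
  rw [show W' = W from funext h1, show c' = c from funext h2, e0, e1, e2]
  exact h
lemma Cj.J2.const (a : L) : Q.J2 b0 m2 (fun _ => a) a 0 0 0 :=
  ⟨fun _ => 0, fun _ => analyticAt_const, by simp⟩
lemma Cj.J2.add (h : Q.J2 b0 m2 W w0 w1 w2 c) (h' : Q.J2 b0 m2 W' u0 u1 u2 c') :
    Q.J2 b0 m2 (fun v => W v + W' v) (w0 + u0) (w1 + u1) (w2 + u2) (c + c') := by
  obtain ⟨W3, h1, h2⟩ := h
  obtain ⟨U3, k1, k2⟩ := h'
  refine ⟨fun x => W3 x + U3 x, fun x => (h1 x).add (k1 x), fun τ y => ?_⟩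
  simp only [h2, k2, Pi.add_apply, add_mul, Finset.sum_add_distrib]
  ring
lemma Cj.J2.sub (h : Q.J2 b0 m2 W w0 w1 w2 c) (h' : Q.J2 b0 m2 W' u0 u1 u2 c') :
    Q.J2 b0 m2 (fun v => W v - W' v) (w0 - u0) (w1 - u1) (w2 - u2) (c - c') := by
  obtain ⟨W3, h1, h2⟩ := h
  obtain ⟨U3, k1, k2⟩ := h'
  refine ⟨fun x => W3 x - U3 x, fun x => (h1 x).sub (k1 x), fun τ y => ?_⟩
  simp only [h2, k2, Pi.sub_apply, sub_mul, Finset.sum_sub_distrib]
  ring
lemma Cj.J2.mul (h : Q.J2 b0 m2 W w0 w1 w2 c) (h' : Q.J2 b0 m2 W' u0 u1 u2 c') :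
    Q.J2 b0 m2 (fun v => W v * W' v) (w0 * u0) (w0 * u1 + w1 * u0)
      (w0 * u2 + w1 * u1 + w2 * u0) (w0 • c' + u0 • c) := by
  obtain ⟨W3, h1, h2⟩ := h
  obtain ⟨U3, k1, k2⟩ := h'
  refine ⟨fun x => w1 * (u2 + ∑ i, c' i * Q.co (0, x.2.1, x.2.2) i) +
      (w2 + ∑ i, c i * Q.co (0, x.2.1, x.2.2) i) * (u1 + algebraMap K L x.1 *
        (u2 + ∑ i, c' i * Q.co (0, x.2.1, x.2.2) i)) +
      W3 x * (u0 + algebraMap K L x.1 * (u1 + algebraMap K L x.1 *
        (u2 + ∑ i, c' i * Q.co (0, x.2.1, x.2.2) i))) +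
      U3 x * (w0 + algebraMap K L x.1 * (w1 + algebraMap K L x.1 *
        ((w2 + ∑ i, c i * Q.co (0, x.2.1, x.2.2) i) + algebraMap K L x.1 * W3 x))),
    fun x => ?_, fun τ y => ?_⟩
  · have t : AnalyticAt K (fun y : K × L × K => algebraMap K L y.1) x := an0_alg analyticAt_fst
    have A := (analyticAt_const (v := w2)).add (Q.an0_lin c x)
    have B := (analyticAt_const (v := u2)).add (Q.an0_lin c' x)
    exact (((analyticAt_const.mul B).add (A.mul (analyticAt_const.add (t.mul B)))).add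
      ((h1 x).mul (analyticAt_const.add (t.mul (analyticAt_const.add (t.mul B)))))).add
      ((k1 x).mul (analyticAt_const.add (t.mul (analyticAt_const.add
        (t.mul (A.add (t.mul (h1 x))))))))
  · have e : ∑ i, (w0 • c' + u0 • c) i * Q.co (0, y.1, y.2) i =
        w0 * ∑ i, c' i * Q.co (0, y.1, y.2) i + u0 * ∑ i, c i * Q.co (0, y.1, y.2) i := by
      simp only [Pi.add_apply, Pi.smul_apply, smul_eq_mul, add_mul, Finset.sum_add_distrib,
        Finset.mul_sum, mul_assoc]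
    simp only [h2, k2, e]
    ring
lemma Cj.J2.conj (h : Q.J2 b0 m2 W w0 w1 w2 c) : Q.J2 b0 m2 (fun v => Q.σ (W v)) (Q.σ w0) (Q.σ w1)
    (Q.σ w2) ![Q.σ (c 1), Q.σ (c 0), Q.σ (c 3), Q.σ (c 2), -Q.σ (c 4)] := by
  obtain ⟨W3, h1, h2⟩ := h
  refine ⟨fun x => Q.σ (W3 x), fun x => Q.an0_σ (h1 x), fun τ y => ?_⟩
  simp only [h2, map_add, map_mul, map_pow, Q.σ_alg, Q.σ_lin c]
lemma Cj.J2.sum {ι : Type} (s : Finset ι) {W : ι → L × L × K → L} {w0 w1 w2 : ι → L}
    {c : ι → Fin 5 → L} (h : ∀ i ∈ s, Q.J2 b0 m2 (W i) (w0 i) (w1 i) (w2 i) (c i)) :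
    Q.J2 b0 m2 (fun v => ∑ i ∈ s, W i v) (∑ i ∈ s, w0 i) (∑ i ∈ s, w1 i) (∑ i ∈ s, w2 i)
      (∑ i ∈ s, c i) := by
  classical
  induction s using Finset.induction_on with
  | empty =>
    exact (Cj.J2.const 0).congr (fun v => by simp) (by simp) (by simp) (by simp) (fun i => by simp)
  | insert a s ha ih =>
    refine ((h a (Finset.mem_insert_self _ _)).add
      (ih fun i hi => h i (Finset.mem_insert_of_mem hi))).congr (fun v => ?_) ?_ ?_ ?_
      (fun i => ?_) <;> rw [Finset.sum_insert ha]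
lemma Cj.J2.powp (h : Q.J2 b0 m2 W w0 w1 w2 c) (p : ℕ) [Fact p.Prime] [CharP L p] (hp : 3 ≤ p)
    (n : ℕ) : Q.J2 b0 m2 (fun v => W v ^ (p * n)) (w0 ^ (p * n)) 0 0 0 := by
  have h0 : Q.J2 b0 m2 (fun v => W v ^ p) (w0 ^ p) 0 0 0 := by
    obtain ⟨W3, h1, h2⟩ := h
    refine ⟨fun x => algebraMap K L x.1 ^ (p - 3) * (w1 + algebraMap K L x.1 *
      ((w2 + ∑ i, c i * Q.co (0, x.2.1, x.2.2) i) + algebraMap K L x.1 * W3 x)) ^ p,
      fun x => ?_, fun τ y => ?_⟩
    · have t : AnalyticAt K (fun y : K × L × K => algebraMap K L y.1) x := an0_alg analyticAt_fst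
      have A := (analyticAt_const (v := w2)).add (Q.an0_lin c x)
      exact (t.pow _).mul ((analyticAt_const.add (t.mul (A.add (t.mul (h1 x))))).pow _)
    · have e : W (τ • b0, τ ^ 2 • (m2 + y.1), τ ^ 2 * y.2) = w0 + algebraMap K L τ *
          (w1 + algebraMap K L τ * ((w2 + ∑ i, c i * Q.co (0, y.1, y.2) i) +
            algebraMap K L τ * W3 (τ, y))) := by
        rw [h2]
        ring
      have e2 : algebraMap K L τ ^ p = algebraMap K L τ ^ 3 * algebraMap K L τ ^ (p - 3) := by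
        rw [← pow_add, Nat.add_sub_cancel' hp]
      simp only [e, add_pow_char, mul_pow, e2]
      simp [mul_assoc]
  induction n with
  | zero =>
    exact (Cj.J2.const 1).congr (fun v => by simp) (by simp) rfl rfl (fun i => rfl)
  | succ n ih =>
    exact (ih.mul h0).congr (fun v => by rw [Nat.mul_succ, pow_add]) (by rw [Nat.mul_succ, pow_add])
      (by simp) (by simp) (fun i => by simp)
end J2

end Pool.Agent.Lib.MP_3fd6b0_co
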