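import Pool.Agent.Lib.MP_3fd6b0_co.Defs

set_option autoImplicit false

namespace Pool.Agent.Lib.MP_3fd6b0_co

variable {A L : Type} [CommRing A] [CommRing L] (φ : A →+* L) {θ : L} {d : A}

/-- the two real components assemble to one linear expression -/
lemma cmp_asm (hd : φ d = θ ^ 2) (a x : Fin 4 → A) :
    φ (cmp d a x 0) + θ * φ (cmp d a x 1) =
      (φ (a 0) + θ * φ (a 1)) * (φ (x 0) + θ * φ (x 1)) +
        (φ (a 2) + θ * φ (a 3)) * (φ (x 2) + θ * φ (x 3)) := by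
  simp only [cmp, Matrix.cons_val_zero, Matrix.cons_val_one, map_add, map_mul, hd]
  ring

lemma eqs_asm0 (hd : φ d = θ ^ 2) (s t : Fin 5 → A) (u v : Fin 3 → A) (x : Fin 4 → A) :
    φ (eqs d s u t v x 0 0) + θ * φ (eqs d s u t v x 0 1) =
      ((φ (t 0) + θ * φ (t 1)) - (φ (s 0) + θ * φ (s 1))) * (φ (x 0) + θ * φ (x 1)) +
        ((φ (v 0) + θ * φ (v 1)) - (φ (u 0) + θ * φ (u 1))) * (φ (x 2) + θ * φ (x 3)) := by
  rw [eqs, cmp_asm φ hd]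
  simp [rows]
  ring

lemma eqs_asm1 (hd : φ d = θ ^ 2) (s t : Fin 5 → A) (u v : Fin 3 → A) (x : Fin 4 → A) :
    φ (eqs d s u t v x 1 0) + θ * φ (eqs d s u t v x 1 1) =
      ((2 * (θ * φ (t 4)) - (φ (t 0) + θ * φ (t 1)) * (φ (t 0) - θ * φ (t 1))) -
        (2 * (θ * φ (s 4)) - (φ (s 0) + θ * φ (s 1)) * (φ (s 0) - θ * φ (s 1)))) *
          (φ (x 0) + θ * φ (x 1)) +
      2 * ((-(φ (t 2) - θ * φ (t 3)) - (φ (t 0) - θ * φ (t 1)) * (φ (v 0) + θ * φ (v 1))) -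
        (-(φ (s 2) - θ * φ (s 3)) - (φ (s 0) - θ * φ (s 1)) * (φ (u 0) + θ * φ (u 1)))) *
          (φ (x 2) + θ * φ (x 3)) := by
  rw [eqs, cmp_asm φ hd]
  simp [rows, hd, map_ofNat]
  ring

lemma eqs_asm2 (hd : φ d = θ ^ 2) (s t : Fin 5 → A) (u v : Fin 3 → A) (x : Fin 4 → A) :
    φ (eqs d s u t v x 2 0) + θ * φ (eqs d s u t v x 2 1) =
      2 * ((φ (t 2) + θ * φ (t 3)) - (φ (s 2) + θ * φ (s 3))) * (φ (x 0) + θ * φ (x 1)) +
      ((2 * (θ * φ (v 2)) - (φ (v 0) + θ * φ (v 1)) * (φ (v 0) - θ * φ (v 1))) -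
        (2 * (θ * φ (u 2)) - (φ (u 0) + θ * φ (u 1)) * (φ (u 0) - θ * φ (u 1)))) *
          (φ (x 2) + θ * φ (x 3)) := by
  rw [eqs, cmp_asm φ hd]
  simp [rows, hd, map_ofNat]
  ring

end Pool.Agent.Lib.MP_3fd6b0_co
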