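import Mathlib

/-!
Definitions for the low degree theorem on spreads of the Hermitian quadrangle.
-/

set_option autoImplicit false
open MvPolynomial

namespace Pool.Agent.Lib.MP_3fd6b0_co

/-- conjugation data of a quadratic extension of normed fields -/
structure Cj (K L : Type) [NontriviallyNormedField K] [NormedField L] [NormedAlgebra K L] where
  σ : L →ₐ[K] L
  θ : L
  sk : L →L[K] K
  σσ : ∀ x, σ (σ x) = x
  σθ : σ θ = -θ
  θ0 : θ ≠ 0
  two : (2 : L) ≠ 0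
  hsk : ∀ w, 2 * θ * algebraMap K L (sk w) = w - σ w
  an : ∀ x, AnalyticAt K (fun y => σ y) x

section
variable {K L : Type} [NontriviallyNormedField K] [NormedField L] [NormedAlgebra K L] (Q : Cj K L)

/-- the five split coordinates of a point -/
def Cj.co (v : L × L × K) : Fin 5 → L :=
  ![v.1, Q.σ v.1, v.2.1, Q.σ v.2.1, Q.θ * algebraMap K L v.2.2]

/-- entire divided difference, with the differential at the origin -/
def Cj.DL (W : L × L × K → L) (c : Fin 5 → L) : Prop :=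
  ∃ W1 : (L × L × K) × (L × L × K) × K → L, (∀ x, AnalyticAt K W1 x) ∧
    (∀ a v (ε : K), W (a + ε • v) = W a + algebraMap K L ε * W1 (a, v, ε)) ∧
    ∀ v, W1 (0, v, 0) = ∑ i, c i * Q.co v i

/-- second order expansion along a weighted parabola -/
def Cj.J2 (b0 m2 : L) (W : L × L × K → L) (w0 w1 w2 : L) (c : Fin 5 → L) : Prop :=
  ∃ W3 : K × L × K → L, (∀ x, AnalyticAt K W3 x) ∧ ∀ (τ : K) (y : L × K),
    W (τ • b0, τ ^ 2 • (m2 + y.1), τ ^ 2 * y.2) = w0 + algebraMap K L τ * w1 +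
      algebraMap K L τ ^ 2 * (w2 + ∑ i, c i * Q.co (0, y.1, y.2) i) +
      algebraMap K L τ ^ 3 * W3 (τ, y)

/-- a line of the normalised family meets the line at the origin -/
def Cj.BadR (f g : L × L × K → L) : Prop :=
  ∃ (v : L × L × K) (x1 x2 : L), v ≠ 0 ∧ (x1 ≠ 0 ∨ x2 ≠ 0) ∧ v.1 * x1 + f v * x2 = 0 ∧
    Q.θ * algebraMap K L v.2.2 * x1 - (Q.σ v.2.1 + Q.σ v.1 * f v / 2) * x2 = 0 ∧
    (v.2.1 + Q.σ (f v) * v.1 / 2) * x1 + g v * x2 = 0

/-- the first two equations of a rank one solution -/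
def Cj.Eq12 (f : L × L × K → L) (v : L × L × K) (c : K) : Prop :=
  v.1 ≠ 0 ∧ algebraMap K L v.2.2 = algebraMap K L c * (v.1 * Q.σ v.1) ∧
    v.2.1 = (Q.θ * algebraMap K L c - 1 / 2) * Q.σ (f v) * v.1

/-- a rank one solution -/
def Cj.Sol0 (f g : L × L × K → L) : Prop :=
  ∃ v c, Q.Eq12 f v c ∧ g v = Q.θ * algebraMap K L c * (f v * Q.σ (f v))

/-- the small quantity in the error term -/
def Cj.us (Z : L × L × K → L) (P : ℕ) (v : L × L × K) (c : K) : L :=
  (Q.θ * algebraMap K L c - 1 / 2) * Q.σ v.1 * Z v ^ P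

/-- a solution of the inseparable system -/
def Cj.Sol (f H Z : L × L × K → L) (A1 A2 : (L × L × K) × K → L) (p P : ℕ) : Prop :=
  ∃ v c, Q.Eq12 f v c ∧ Q.sk (H v ^ P + Q.us Z P v c ^ p * A1 (v, c) +
    Q.σ (Q.us Z P v c) ^ p * A2 (v, c) -
    Q.θ * algebraMap K L c * (Z v * Q.σ (Z v)) ^ P) = 0

/-- two lines of the family meet -/
def Cj.BadA (f g : L × L × K → L) : Prop :=
  ∃ (s t : L × L × K) (x1 x2 : L), s ≠ t ∧ (x1 ≠ 0 ∨ x2 ≠ 0) ∧
    (t.1 - s.1) * x1 + (f t - f s) * x2 = 0 ∧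
    ((Q.θ * algebraMap K L t.2.2 - t.1 * Q.σ t.1 / 2) -
        (Q.θ * algebraMap K L s.2.2 - s.1 * Q.σ s.1 / 2)) * x1 +
      ((-Q.σ t.2.1 - Q.σ t.1 * f t) - (-Q.σ s.2.1 - Q.σ s.1 * f s)) * x2 = 0 ∧
    (t.2.1 - s.2.1) * x1 +
      ((g t - f t * Q.σ (f t) / 2) - (g s - f s * Q.σ (f s) / 2)) * x2 = 0

/-- from coordinates relative to a base point to absolute coordinates -/
def Cj.T (s : L × L × K) (f0 : L) (v : L × L × K) : L × L × K :=
  (s.1 + v.1, s.2.1 + v.2.1 - Q.σ f0 * v.1, s.2.2 + v.2.2 - Q.sk (Q.σ s.1 * v.1))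

/-- evaluation at a point -/
noncomputable def Cj.ev {E : Type} [Field E] (ι : E →+* L) (v : L × L × K) :
    MvPolynomial (Fin 5) E →+* L :=
  eval₂Hom ι (Q.co v)

end

section
variable {E : Type} [Field E] (c : E →+* E)

/-- conjugation of polynomials in the split coordinates -/
noncomputable def cj : MvPolynomial (Fin 5) E →+* MvPolynomial (Fin 5) E :=
  eval₂Hom (C.comp c) ![X 1, X 0, X 3, X 2, -X 4]

/-- the first horizontal vector field -/
noncomputable def XD (f : MvPolynomial (Fin 5) E) :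
    Derivation E (MvPolynomial (Fin 5) E) (MvPolynomial (Fin 5) E) :=
  pderiv 0 - (C 2⁻¹ * X 1 : MvPolynomial (Fin 5) E) • pderiv 4 - cj c f • pderiv 2

/-- the second horizontal vector field -/
noncomputable def XB (f : MvPolynomial (Fin 5) E) :
    Derivation E (MvPolynomial (Fin 5) E) (MvPolynomial (Fin 5) E) :=
  pderiv 1 + (C 2⁻¹ * X 0 : MvPolynomial (Fin 5) E) • pderiv 4 - f • pderiv 3

/-- the real horizontal vector field in a direction -/
noncomputable def YY (f : MvPolynomial (Fin 5) E) (b : E) :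
    Derivation E (MvPolynomial (Fin 5) E) (MvPolynomial (Fin 5) E) :=
  b • XD c f + c b • XB f

/-- the last entry of the invariant form -/
noncomputable def om (f g : MvPolynomial (Fin 5) E)
    (Y : Derivation E (MvPolynomial (Fin 5) E) (MvPolynomial (Fin 5) E)) :
    MvPolynomial (Fin 5) E :=
  Y g + C 2⁻¹ * (cj c f * Y f - f * Y (cj c f))

/-- the separable coordinate of the distinguished point -/
noncomputable def uu (z ψ : MvPolynomial (Fin 5) E) : MvPolynomial (Fin 5) E :=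
  -X 3 - X 1 * z - ψ * (X 4 + C 2⁻¹ * (X 0 * X 1))

/-- the skew coordinate of the distinguished point -/
noncomputable def eta (z ψ g : MvPolynomial (Fin 5) E) : MvPolynomial (Fin 5) E :=
  g - C 2⁻¹ * ((z + ψ * X 0) * cj c (z + ψ * X 0)) + C 2⁻¹ * (z * cj c z) +
    ψ * cj c ψ * (X 4 - C 2⁻¹ * (X 0 * X 1)) + cj c ψ * (X 3 + X 1 * (z + ψ * X 0)) - ψ * X 2

/-- the data of level `r + 1` -/
structure Lev (p r : ℕ) (z ψ η zr ψr : MvPolynomial (Fin 5) E)
    (γ : ℕ → ℕ → MvPolynomial (Fin 5) E) : Prop where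
  hz : z = zr ^ p ^ (r + 1)
  hψ : ψ = ψr ^ p ^ (r + 1)
  sym : ∀ i j, cj c (γ j i) = -γ i j
  hη : η = ∑ i ∈ Finset.range (p ^ r), ∑ j ∈ Finset.range (p ^ r),
    γ i j ^ p ^ (r + 1) * uu z ψ ^ (p * i) * cj c (uu z ψ) ^ (p * j)

/-- the obstruction of level `r + 1` -/
noncomputable def aa (p r : ℕ) (z ψ zr ψr : MvPolynomial (Fin 5) E)
    (γ : ℕ → ℕ → MvPolynomial (Fin 5) E) : MvPolynomial (Fin 5) E :=
  (∑ i ∈ Finset.range (p ^ r), ∑ j ∈ Finset.range (p ^ r),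
    XD c (z + ψ * X 0) (γ i j) ^ p ^ (r + 1) * uu z ψ ^ (p * i) * cj c (uu z ψ) ^ (p * j)) +
  (C 2⁻¹ * (cj c zr * XD c (z + ψ * X 0) zr - zr * XD c (z + ψ * X 0) (cj c zr))) ^ p ^ (r + 1) -
  cj c (uu z ψ) * XD c (z + ψ * X 0) ψr ^ p ^ (r + 1) +
  uu z ψ * XD c (z + ψ * X 0) (cj c ψr) ^ p ^ (r + 1)

/-- what the vanishing of the obstruction gives -/
structure Flat (p r : ℕ) (z ψ zr ψr : MvPolynomial (Fin 5) E)
    (γ : ℕ → ℕ → MvPolynomial (Fin 5) E) : Prop where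
  h1 : ∀ b, YY c (z + ψ * X 0) b ψr = 0
  h2 : ∀ b, ∀ i < p ^ r, ∀ j < p ^ r, (i ≠ 0 ∨ j ≠ 0) → YY c (z + ψ * X 0) b (γ i j) = 0
  h3 : ∀ b, YY c (z + ψ * X 0) b (γ 0 0) + C 2⁻¹ * (cj c zr * YY c (z + ψ * X 0) b zr -
    zr * YY c (z + ψ * X 0) b (cj c zr)) = 0

/-- restriction to the locus where the separable coordinate vanishes -/
noncomputable def SS (z ψ : E) : MvPolynomial (Fin 5) E →ₐ[E] MvPolynomial (Fin 5) E :=
  aeval ![X 0, X 1, -X 0 * C (c z) - C (c ψ) * (-X 4 + C 2⁻¹ * (X 0 * X 1)),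
    -X 1 * C z - C ψ * (X 4 + C 2⁻¹ * (X 0 * X 1)), X 4]

/-- the weighted degree -/
noncomputable def dg (w : MvPolynomial (Fin 5) E) : ℕ :=
  (aeval (fun i : Fin 5 => Polynomial.C (X i : MvPolynomial (Fin 5) E) *
    Polynomial.X ^ (if i = 4 then 2 else 1)) w).natDegree

end

section
variable {A : Type} [CommRing A]

/-- real components of the rows of the matrix of a line -/
def rows (d : A) (s : Fin 5 → A) (u : Fin 3 → A) : Fin 3 → Fin 4 → A :=
  ![![s 0, s 1, u 0, u 1],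
    ![-(s 0 ^ 2 - d * s 1 ^ 2), 2 * s 4, -2 * s 2 - 2 * (s 0 * u 0 - d * s 1 * u 1),
      2 * s 3 - 2 * (s 0 * u 1 - s 1 * u 0)],
    ![2 * s 2, 2 * s 3, -(u 0 ^ 2 - d * u 1 ^ 2), 2 * u 2]]

/-- the two real components of a linear equation -/
def cmp (d : A) (a x : Fin 4 → A) : Fin 2 → A :=
  ![a 0 * x 0 + d * a 1 * x 1 + a 2 * x 2 + d * a 3 * x 3,
    a 0 * x 1 + a 1 * x 0 + a 2 * x 3 + a 3 * x 2]

/-- the six real equations for a common point of two lines -/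
def eqs (d : A) (s : Fin 5 → A) (u : Fin 3 → A) (t : Fin 5 → A) (v : Fin 3 → A) (x : Fin 4 → A)
    (j : Fin 3) : Fin 2 → A :=
  cmp d (rows d t v j - rows d s u j) x

/-- two lines of a polynomial family meet, in real coordinates -/
def BadK {F : Type} [CommRing F] (A : Type) [CommRing A] [Algebra F A] (d : F)
    (f : Fin 3 → MvPolynomial (Fin 5) F) : Prop :=
  ∃ (s t : Fin 5 → A) (x : Fin 4 → A), s ≠ t ∧ x ≠ 0 ∧ ∀ j e,
    eqs (algebraMap F A d) s (fun i => aeval s (f i)) t (fun i => aeval t (f i)) x j e = 0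

end

/-- every nonzero element survives at a rational point -/
def Tr1 (F A : Type) [Field F] [CommRing A] [Algebra F A] : Prop :=
  ∀ g : A, g ≠ 0 → ∃ π : A →ₐ[F] F, π g ≠ 0

open Polynomial in
/-- plane curves with a rational branch have many rational points -/
def Pac (F : Type) [Field F] : Prop :=
  ∀ P : F[X][X], P.Monic → Polynomial.derivative P ≠ 0 →
    (∃ y : LaurentSeries F, Polynomial.aeval y P = 0 ∧ ∀ R : F[X][X], R.Monic →
      Polynomial.aeval y R = 0 → P.natDegree ≤ R.natDegree) →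
    ∀ δ : F[X], δ ≠ 0 → ∃ x y : F, P.evalEval x y = 0 ∧ δ.eval x ≠ 0

end Pool.Agent.Lib.MP_3fd6b0_co
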