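import Pool.Agent.Lib.MP_3fd6b0_co.An
import Pool.Agent.Lib.MP_3fd6b0_co.Alg0

set_option autoImplicit false
set_option linter.unusedSectionVars false
open MvPolynomial Filter Topology

namespace Pool.Agent.Lib.MP_3fd6b0_co

variable {K L : Type} [NontriviallyNormedField K] [NormedField L] [NormedAlgebra K L] {Q : Cj K L}
  {E : Type} [Field E] {c : E →+* E} {ι : E →+* L} {f g w z ψ η zr ψr : MvPolynomial (Fin 5) E}

lemma Cj.ev0_C (v : L × L × K) (a : E) : Q.ev ι v (C a) = ι a := by simp [Cj.ev]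
lemma Cj.ev0_X (v : L × L × K) (i : Fin 5) : Q.ev ι v (X i) = Q.co v i := by simp [Cj.ev]

lemma Cj.ev_cj (hι : ∀ x, ι (c x) = Q.σ (ι x)) (v : L × L × K) (w : MvPolynomial (Fin 5) E) :
    Q.ev ι v (cj c w) = Q.σ (Q.ev ι v w) := by
  induction w using MvPolynomial.induction_on with
  | C a => rw [cj_C, Cj.ev0_C, Cj.ev0_C, hι]
  | add p q hp hq => simp only [map_add, hp, hq]
  | mul_X p j hp =>
    rcases fin5 j with rfl | rfl | rfl | rfl | rfl <;>
      simp [hp, Cj.ev0_X, Cj.co, Q.σσ, Q.σθ]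

lemma Cj.T_zero (s : L × L × K) (f0 : L) : Q.T s f0 0 = s := by
  simp [Cj.T]

lemma Cj.ev0_sk (Q : Cj K L) (w : L) : Q.θ * algebraMap K L (Q.sk w) = (w - Q.σ w) * 2⁻¹ := by
  rw [← Q.hsk w]
  have := Q.two
  field_simp

lemma Cj.ev0_lin (Q : Cj K L) (k : Fin 5 → L) (v : L × L × K) : ∑ i, k i * Q.co v i =
    k 0 * v.1 + k 1 * Q.σ v.1 + k 2 * v.2.1 + k 3 * Q.σ v.2.1 +
      k 4 * (Q.θ * algebraMap K L v.2.2) := by
  simp [Fin.sum_univ_five, Cj.co]

lemma Cj.ev0_DL (Q : Cj K L) (a : L) (k : Fin 5 → L) :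
    Q.DL (fun v => a + ∑ i, k i * Q.co v i) k := by
  refine ⟨fun x => ∑ i, k i * Q.co x.2.1 i, fun x => ?_, fun b v ε => ?_, fun v => rfl⟩
  · have h0 : AnalyticAt K (fun y : (L × L × K) × (L × L × K) × K => y.2.1) x :=
      analyticAt_fst.comp analyticAt_snd
    have h1 := analyticAt_fst.comp h0
    have h2 := analyticAt_fst.comp (analyticAt_snd.comp h0)
    have h3 := analyticAt_snd.comp (analyticAt_snd.comp h0)
    simp only [Q.ev0_lin]
    exact ((((analyticAt_const.mul h1).add (analyticAt_const.mul (Q.an0_σ h1))).add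
      (analyticAt_const.mul h2)).add (analyticAt_const.mul (Q.an0_σ h2))).add
      (analyticAt_const.mul (analyticAt_const.mul (an0_alg h3)))
  · simp only [Q.ev0_lin, Prod.fst_add, Prod.snd_add, Prod.smul_fst, Prod.smul_snd, map_add,
      smul_eq_mul, map_mul]
    simp only [Algebra.smul_def, map_mul, Q.σ_alg]
    ring

lemma Cj.ev0_J2 (Q : Cj K L) (b0 m2 a : L) (k : Fin 5 → L) :
    Q.J2 b0 m2 (fun v => a + ∑ i, k i * Q.co v i) a (k 0 * b0 + k 1 * Q.σ b0)
      (k 2 * m2 + k 3 * Q.σ m2) k := by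
  refine ⟨fun _ => 0, fun _ => analyticAt_const, fun τ y => ?_⟩
  simp only [Q.ev0_lin, map_add, Algebra.smul_def, map_mul, map_pow, Q.σ_alg, map_zero]
  ring

/-- the five vector fields -/
noncomputable def evD (c : E →+* E) (f : MvPolynomial (Fin 5) E) :
    Fin 5 → Derivation E (MvPolynomial (Fin 5) E) (MvPolynomial (Fin 5) E) :=
  ![XD c f, XB f, pderiv 2, pderiv 3, pderiv 4]

lemma Cj.ev0_T (hι : ∀ x, ι (c x) = Q.σ (ι x)) (s v : L × L × K) (j : Fin 5) :
    Q.ev ι (Q.T s (Q.ev ι s f) v) (X j) =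
      Q.ev ι s (X j) + ∑ i, Q.ev ι s (evD c f i (X j)) * Q.co v i := by
  rw [Q.ev0_lin]
  rcases fin5 j with rfl | rfl | rfl | rfl | rfl <;>
    simp [evD, XD_apply, XB_apply, pderiv_X, Cj.ev0_X, Cj.ev0_C, Cj.co, Cj.T, Cj.ev_cj hι, Q.σσ,
      mul_add, mul_sub, Q.ev0_sk, map_ofNat] <;> ring

/-- first order expansion in relative coordinates -/
theorem Cj.DL_ev (hι : ∀ x, ι (c x) = Q.σ (ι x)) (s : L × L × K) (w : MvPolynomial (Fin 5) E) :
    Q.DL (fun v => Q.ev ι (Q.T s (Q.ev ι s f) v) w)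
      ![Q.ev ι s (XD c f w), Q.ev ι s (XB f w), Q.ev ι s (pderiv 2 w), Q.ev ι s (pderiv 3 w),
        Q.ev ι s (pderiv 4 w)] := by
  have key : Q.DL (fun v => Q.ev ι (Q.T s (Q.ev ι s f) v) w)
      (fun i => Q.ev ι s (evD c f i w)) := by
    induction w using MvPolynomial.induction_on with
    | C a =>
      exact (Cj.DL.const (ι a)).congr (fun v => Cj.ev0_C _ _)
        (fun i => by rw [derivation_C, map_zero]; rfl)
    | add p q hp hq =>
      exact (hp.add hq).congr (fun v => map_add _ _ _) (fun i => by simp only [map_add]; rfl)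
    | mul_X p j hp =>
      have hX := (Q.ev0_DL _ _).congr (W' := fun v => Q.ev ι (Q.T s (Q.ev ι s f) v) (X j))
        (fun v => Cj.ev0_T hι s v j) (fun i => rfl)
      refine (hp.mul hX).congr (fun v => map_mul _ _ _) (fun i => ?_)
      simp only [Derivation.leibniz, smul_eq_mul, map_add, map_mul, Pi.add_apply, Pi.smul_apply,
        Cj.T_zero]
  refine key.congr (fun v => rfl) (fun i => ?_)
  rcases fin5 i with rfl | rfl | rfl | rfl | rfl <;> rfl

/-- second order expansion in relative coordinates -/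
theorem Cj.J2_ev (hc : ∀ x, c (c x) = x) (hι : ∀ x, ι (c x) = Q.σ (ι x)) (s : L × L × K) (b : E)
    (w : MvPolynomial (Fin 5) E) :
    Q.J2 (ι b) (-(Q.σ (Q.ev ι s (YY c f b f)) * ι b / 2))
      (fun v => Q.ev ι (Q.T s (Q.ev ι s f) v) w) (Q.ev ι s w) (Q.ev ι s (YY c f b w))
      (Q.ev ι s (YY c f b (YY c f b w)) / 2)
      ![Q.ev ι s (XD c f w), Q.ev ι s (XB f w), Q.ev ι s (pderiv 2 w), Q.ev ι s (pderiv 3 w),
        Q.ev ι s (pderiv 4 w)] := by
  have h2 := Q.two
  have hσ2 : Q.σ 2 = 2 := map_ofNat Q.σ 2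
  have key : Q.J2 (ι b) (-(Q.σ (Q.ev ι s (YY c f b f)) * ι b / 2))
      (fun v => Q.ev ι (Q.T s (Q.ev ι s f) v) w) (Q.ev ι s w) (Q.ev ι s (YY c f b w))
      (Q.ev ι s (YY c f b (YY c f b w)) / 2) (fun i => Q.ev ι s (evD c f i w)) := by
    induction w using MvPolynomial.induction_on with
    | C a =>
      exact (Cj.J2.const (ι a)).congr (fun v => Cj.ev0_C _ _) (Cj.ev0_C _ _)
        (by rw [derivation_C, map_zero]) (by rw [derivation_C, map_zero, map_zero, zero_div])
        (fun i => by rw [derivation_C, map_zero]; rfl)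
    | add p q hp hq =>
      exact (hp.add hq).congr (fun v => map_add _ _ _) (map_add _ _ _) (by simp only [map_add])
        (by simp only [map_add, add_div]) (fun i => by simp only [map_add]; rfl)
    | mul_X p j hp =>
      have y0 : YY c f b (X 0) = C b := by simp [YY_apply, XD_apply, XB_apply, pderiv_X]
      have y1 : YY c f b (X 1) = C (c b) := by simp [YY_apply, XD_apply, XB_apply, pderiv_X]
      have y2 : YY c f b (X 2) = -(C b * cj c f) := by
        simp [YY_apply, XD_apply, XB_apply, pderiv_X]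
      have y3 : YY c f b (X 3) = -(C (c b) * f) := by
        simp [YY_apply, XD_apply, XB_apply, pderiv_X]
      have y4 : YY c f b (X 4) = C (c b) * (C 2⁻¹ * X 0) - C b * (C 2⁻¹ * X 1) := by
        simp [YY_apply, XD_apply, XB_apply, pderiv_X]
        ring
      have hX : Q.J2 (ι b) (-(Q.σ (Q.ev ι s (YY c f b f)) * ι b / 2))
          (fun v => Q.ev ι (Q.T s (Q.ev ι s f) v) (X j)) (Q.ev ι s (X j))
          (Q.ev ι s (YY c f b (X j))) (Q.ev ι s (YY c f b (YY c f b (X j))) / 2)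
          (fun i => Q.ev ι s (evD c f i (X j))) := by
        refine (Q.ev0_J2 _ _ _ _).congr (fun v => Cj.ev0_T hι s v j) rfl ?_ ?_ (fun i => rfl)
        · rw [YY_apply, map_add, map_mul, map_mul, Cj.ev0_C, Cj.ev0_C, hι, mul_comm,
            mul_comm (Q.σ _)]
          rfl
        · rcases fin5 j with rfl | rfl | rfl | rfl | rfl
          · rw [y0]
            simp [evD, pderiv_X]
          · rw [y1]
            simp [evD, pderiv_X]
          · rw [y2, map_neg, Derivation.leibniz, derivation_C, ← cj_YY hc]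
            simp [evD, pderiv_X, Cj.ev0_C, Cj.ev_cj hι]
            ring
          · rw [y3, map_neg, Derivation.leibniz, derivation_C]
            simp [evD, pderiv_X, Cj.ev0_C, hι, Q.σσ, hσ2]
            ring
          · rw [y4]
            simp [evD, pderiv_X, Cj.ev0_C, y0, y1]
            exact Or.inl (by ring)
      refine (hp.mul hX).congr (fun v => map_mul _ _ _) (map_mul _ _ _) ?_ ?_ (fun i => ?_)
      · simp only [Derivation.leibniz, smul_eq_mul, map_add, map_mul]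
        ring
      · simp only [Derivation.leibniz, smul_eq_mul, map_add, map_mul]
        field_simp
        ring
      · simp only [Derivation.leibniz, smul_eq_mul, map_add, map_mul, Pi.add_apply, Pi.smul_apply]
  refine key.congr (fun v => rfl) rfl rfl rfl (fun i => ?_)
  rcases fin5 i with rfl | rfl | rfl | rfl | rfl <;> rfl

/-- the points are Zariski dense -/
theorem Cj.dense (hw : w ≠ 0) : ∃ s : L × L × K, Q.ev ι s w ≠ 0 := by
  by_contra hno
  push Not at hno
  have h2 := Q.two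
  have hθ := Q.θ0
  have hK : Infinite K := NontriviallyNormedField.infinite K
  have hL : Infinite L := Infinite.of_injective _ (algebraMap K L).injective
  let φ : Fin 5 → MvPolynomial (Fin 5) L :=
    ![X 0 + C Q.θ * X 1, X 0 - C Q.θ * X 1, X 2 + C Q.θ * X 3, X 2 - C Q.θ * X 3, C Q.θ * X 4]
  have hb : ∀ x : Fin 5 → L, eval x (bind₁ φ (map ι w)) =
      eval₂Hom ι (fun i => eval x (φ i)) w := by
    intro x
    have := eval₂Hom_bind₁ (RingHom.id L) x φ (map ι w)
    rw [eval₂Hom_map_hom, RingHom.id_comp] at this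
    exact this
  have h0 : bind₁ φ (map ι w) = 0 := by
    refine funext_set (fun _ => Set.range (algebraMap K L))
      (fun _ => Set.infinite_range_of_injective (algebraMap K L).injective) (fun x hx => ?_)
    choose k hk using fun i => hx i (Set.mem_univ i)
    rw [hb, map_zero, ← hno (x 0 + Q.θ * x 1, x 2 + Q.θ * x 3, k 4), Cj.ev]
    congr 2
    funext i
    rcases fin5 i with rfl | rfl | rfl | rfl | rfl <;>
      simp [φ, Cj.co, ← hk, Q.σθ, sub_eq_add_neg]
  apply hw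
  apply map_injective ι ι.injective
  rw [map_zero]
  refine MvPolynomial.funext fun y => ?_
  have := hb ![(y 0 + y 1) / 2, (y 0 - y 1) / (2 * Q.θ), (y 2 + y 3) / 2,
    (y 2 - y 3) / (2 * Q.θ), y 4 / Q.θ]
  rw [h0, map_zero] at this
  rw [map_zero, this, eval_map, ← coe_eval₂Hom]
  congr 2
  funext i
  rcases fin5 i with rfl | rfl | rfl | rfl | rfl <;> simp [φ] <;> field_simp <;> ring

/-- generic base points at which all values are powers -/
theorem Cj.dense_pow (p : ℕ) [Fact p.Prime] [CharP E p] [PerfectField E]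
    (hι : ∀ x, ι (c x) = Q.σ (ι x)) (n : ℕ) (hw : w ≠ 0) :
    ∃ s : L × L × K, Q.ev ι s w ≠ 0 ∧ ∀ a, ∃ y, y ^ p ^ n = Q.ev ι s a := by
  have _ := hι
  have hp : p.Prime := Fact.out
  have hL : CharP L p := (ι.charP_iff_charP p).1 inferInstance
  have hp2 : p ≠ 2 := by
    rintro rfl
    exact Q.two (by exact_mod_cast CharP.cast_eq_zero L 2)
  have hodd : Odd (p ^ n) := (hp.odd_of_ne_two hp2).pow
  obtain ⟨a, ha⟩ := Cj.dense (Q := Q) (ι := ι) ((expand_ne_zero (pow_pos hp.pos n)).2 hw)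
  let s : L × L × K :=
    (a.1 ^ p ^ n, a.2.1 ^ p ^ n, Q.sk ((Q.θ * algebraMap K L a.2.2) ^ p ^ n))
  have hs : ∀ i, Q.co s i = Q.co a i ^ p ^ n := by
    intro i
    have h4 : Q.σ ((Q.θ * algebraMap K L a.2.2) ^ p ^ n) =
        -(Q.θ * algebraMap K L a.2.2) ^ p ^ n := by
      rw [map_pow, map_mul, Q.σθ, Q.σ_alg, neg_mul, hodd.neg_pow]
    rcases fin5 i with rfl | rfl | rfl | rfl | rfl
    · rfl
    · exact map_pow Q.σ _ _
    · rfl
    · exact map_pow Q.σ _ _
    · exact Q.skew h4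
  have e : ∀ x, Q.ev ι s x = Q.ev ι a (expand (p ^ n) x) := by
    intro x
    induction x using MvPolynomial.induction_on with
    | C x => rw [expand_C, Cj.ev0_C, Cj.ev0_C]
    | add x y hx hy => simp only [map_add, hx, hy]
    | mul_X x j hx => simp only [map_mul, hx, expand_X, map_pow, Cj.ev0_X, hs]
  refine ⟨s, by rwa [e], fun x => ?_⟩
  induction x using MvPolynomial.induction_on with
  | C x =>
    obtain ⟨y, hy⟩ := (bijective_iterateFrobenius E p n).2 x
    exact ⟨ι y, by rw [Cj.ev0_C, ← hy, iterateFrobenius_def, map_pow]⟩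
  | add x y hx hy =>
    obtain ⟨u, hu⟩ := hx
    obtain ⟨v, hv⟩ := hy
    exact ⟨u + v, by rw [add_pow_char_pow, hu, hv, map_add]⟩
  | mul_X x j hx =>
    obtain ⟨u, hu⟩ := hx
    exact ⟨u * Q.co a j, by rw [mul_pow, hu, map_mul, Cj.ev0_X, hs]⟩

/-- from relative to absolute coordinates -/
theorem Cj.bad_abs {F G : L × L × K → L} (s : L × L × K) (hG : Q.σ (G s) = -G s)
    (h : Q.BadR (fun v => F (Q.T s (F s) v) - F s) (fun v => G (Q.T s (F s) v) - G s +
      (Q.σ (F s) * (F (Q.T s (F s) v) - F s) - F s * Q.σ (F (Q.T s (F s) v) - F s)) / 2)) :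
    Q.BadA F G := by
  have _ := hG
  obtain ⟨v, x1, x2, hv, hx, e1, e2, e3⟩ := h
  have hh : (2 : L) * 2⁻¹ = 1 := mul_inv_cancel₀ Q.two
  refine ⟨s, Q.T s (F s) v, x1, x2, fun hs => hv ?_, hx, ?_, ?_, ?_⟩
  · have a1 : v.1 = 0 := by simpa [Cj.T] using congrArg (fun x => x.1) hs
    have a2 : v.2.1 = 0 := by simpa [Cj.T, a1] using congrArg (fun x => x.2.1) hs
    have a3 : v.2.2 = 0 := by simpa [Cj.T, a1] using congrArg (fun x => x.2.2) hs
    exact Prod.ext a1 (Prod.ext a2 a3)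
  all_goals
    beta_reduce at e1 e2 e3
    generalize F (Q.T s (F s) v) = Ft at *
    generalize G (Q.T s (F s) v) = Gt at *
    simp only [Cj.T, map_add, map_sub, map_mul, mul_add, mul_sub, Q.ev0_sk, Q.σσ,
      div_eq_mul_inv] at e1 e2 e3 ⊢
  · linear_combination e1
  · linear_combination e2 - (Q.σ s.1 + 2⁻¹ * Q.σ v.1) * e1 +
      (Q.σ v.1 * (Ft - F s) * x2 - Q.σ s.1 * v.1 * x1) * hh
  · linear_combination e3 - (Q.σ (F s) + 2⁻¹ * (Q.σ Ft - Q.σ (F s))) * e1 -
      (Q.σ (F s) * (Ft - F s) * x2) * hh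

/-- the case of a constant distinguished point -/
theorem Cj.bad_const (hc : ∀ x, c (c x) = x) (hι : ∀ x, ι (c x) = Q.σ (ι x)) {z0 ψ0 η0 : E}
    (hg : cj c g = -g) (h : SS c z0 ψ0 (eta c (C z0) (C ψ0) g) = C η0) :
    Q.BadA (fun v => Q.ev ι v (C z0 + C ψ0 * X 0)) (fun v => Q.ev ι v g) := by
  have _ := hc
  have _ := hg
  have key : ∀ v : L × L × K, v.1 = 0 → v.2.1 = Q.σ (ι ψ0) * (Q.θ * algebraMap K L v.2.2) →
      Q.ev ι v g = ι η0 + ι ψ0 * Q.σ (ι ψ0) * (Q.θ * algebraMap K L v.2.2) := by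
    intro v h1 h2
    have e : ∀ w, Q.ev ι v (SS c z0 ψ0 w) = Q.ev ι v w := by
      intro w
      induction w using MvPolynomial.induction_on with
      | C a => rw [← algebraMap_eq, AlgHom.commutes]
      | add p q hp hq => simp only [map_add, hp, hq]
      | mul_X p j hp =>
        rw [map_mul, map_mul, map_mul, hp]
        congr 1
        rcases fin5 j with rfl | rfl | rfl | rfl | rfl <;>
          simp [SS, Cj.ev0_X, Cj.ev0_C, Cj.co, h1, h2, hι, Q.σσ, Q.σθ]
    have e1 := e (eta c (C z0) (C ψ0) g)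
    rw [h, Cj.ev0_C] at e1
    simp [eta, Cj.ev0_X, Cj.ev0_C, Cj.co, h1, h2, hι, Q.σσ, Q.σθ] at e1
    linear_combination -e1
  have k0 := key (0, 0, 0) rfl (by simp)
  have k1 := key (0, Q.σ (ι ψ0) * Q.θ, 1) rfl (by simp)
  refine ⟨(0, 0, 0), (0, Q.σ (ι ψ0) * Q.θ, 1), -ι ψ0, 1, by simp, Or.inr one_ne_zero, ?_, ?_, ?_⟩
  · simp [Cj.ev0_X, Cj.ev0_C, Cj.co]
  · simp [Cj.ev0_X, Cj.ev0_C, Cj.co, Q.σσ, Q.σθ]
    ring
  · simp only [k0, k1]
    simp [Cj.ev0_X, Cj.ev0_C, Cj.co]
    ring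

end Pool.Agent.Lib.MP_3fd6b0_co
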