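import Pool.Agent.Lib.MP_3fd6b0_co.NF

/-!
Every line of the Hermitian variety is the line at infinity of a hyperbolic frame.
-/

set_option autoImplicit false
set_option linter.unusedSectionVars false
open Module

namespace Pool.Agent.Lib.MP_3fd6b0_co

section
variable {K : Type} [Field K] (σ : K →+* K)

/-- the sesquilinear form, linear in the second variable -/
def frH (x : Fin 5 → K) : (Fin 5 → K) →ₗ[K] K where
  toFun y := ∑ j, σ (x j) * y j
  map_add' y z := by simp [mul_add, Finset.sum_add_distrib]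
  map_smul' c y := by simp [Finset.mul_sum, mul_left_comm]

lemma frH_apply (x y : Fin 5 → K) : frH σ x y = ∑ j, σ (x j) * y j := rfl

lemma frH_add (x x' y : Fin 5 → K) : frH σ (x + x') y = frH σ x y + frH σ x' y := by
  simp [frH_apply, add_mul, Finset.sum_add_distrib]

lemma frH_sub (x x' y : Fin 5 → K) : frH σ (x - x') y = frH σ x y - frH σ x' y := by
  simp [frH_apply, sub_mul, Finset.sum_sub_distrib]

lemma frH_smul (c : K) (x y : Fin 5 → K) : frH σ (c • x) y = σ c * frH σ x y := by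
  simp [frH_apply, Finset.mul_sum, mul_assoc]

lemma frH_one {x : Fin 5 → K} (hx : x ≠ 0) : ∃ y, frH σ x y = 1 := by
  obtain ⟨j, hj⟩ := Function.ne_iff.1 hx
  refine ⟨Pi.single j (σ (x j))⁻¹, ?_⟩
  have : σ (x j) ≠ 0 := (map_ne_zero σ).2 hj
  simp [frH_apply, Pi.single_apply, this]

variable (hσσ : ∀ x, σ (σ x) = x)
include hσσ

lemma frH_symm (x y : Fin 5 → K) : frH σ y x = σ (frH σ x y) := by
  simp [frH_apply, hσσ, mul_comm]

variable (h2 : (2 : K) ≠ 0) {θ : K} (h0 : θ ≠ 0) (hθ : σ θ = -θ)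
include h2 h0 hθ

lemma fr_pol {W : Submodule K (Fin 5 → K)} (hW : ∀ x ∈ W, frH σ x x = 0) {x y : Fin 5 → K}
    (hx : x ∈ W) (hy : y ∈ W) : frH σ x y = 0 := by
  have e1 := hW _ (W.add_mem hx hy)
  have e2 := hW _ (W.add_mem hx (W.smul_mem θ hy))
  simp only [frH_add, frH_smul, map_add, map_smul, smul_eq_mul, hW x hx, hW y hy, hθ] at e1 e2
  refine mul_left_cancel₀ (mul_ne_zero h2 h0) ?_
  linear_combination θ * e1 + e2

lemma fr_ex (hN : ∀ r, σ r = r → ∃ c, σ c * c = r) {W : Submodule K (Fin 5 → K)}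
    (hr : finrank K W = 2) (hW : ∀ x ∈ W, frH σ x x = 0) :
    ∃ e : Fin 5 → Fin 5 → K, (∀ i j, frH σ (e i) (e j) =
      !![0, 0, 1, 0, 0; 0, 0, 0, 1, 0; 1, 0, 0, 0, 0; 0, 1, 0, 0, 0; 0, 0, 0, 0, 1] i j) ∧
      Submodule.span K {e 2, e 3} = W := by
  let b := Module.finBasisOfFinrankEq K W hr
  obtain ⟨w2, hw2⟩ : ∃ w : Fin 5 → K, w = b 0 := ⟨_, rfl⟩
  obtain ⟨w3, hw3⟩ : ∃ w : Fin 5 → K, w = b 1 := ⟨_, rfl⟩
  have m2 : w2 ∈ W := hw2 ▸ (b 0).2
  have m3 : w3 ∈ W := hw3 ▸ (b 1).2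
  have hsp : Submodule.span K {w2, w3} = W := by
    refine le_antisymm (Submodule.span_le.2 (by rintro _ (rfl | rfl) <;> assumption))
      fun x hx => Submodule.mem_span_pair.2 ⟨b.repr ⟨x, hx⟩ 0, b.repr ⟨x, hx⟩ 1, ?_⟩
    have := congrArg Subtype.val (b.sum_repr ⟨x, hx⟩)
    rw [Fin.sum_univ_two] at this
    rw [hw2, hw3]
    exact this
  have n2 : w2 ≠ 0 := fun h => b.ne_zero 0 (Subtype.ext (hw2.symm.trans h))
  have n3 : ∀ c : K, w3 - c • w2 ≠ 0 := fun c h => by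
    have h1 : b 1 = c • b 0 := Subtype.ext (by simpa [hw2, hw3, sub_eq_zero] using h)
    have h3 := congrArg (fun v => b.repr v 1) h1
    simp at h3
  obtain ⟨u, hu⟩ := frH_one σ n2
  obtain ⟨v, hv⟩ := frH_one σ (n3 (σ (frH σ w3 u)))
  rw [frH_sub, frH_smul, hσσ] at hv
  obtain ⟨a1, h21, h31⟩ : ∃ a, frH σ w2 a = 0 ∧ frH σ w3 a = 1 :=
    ⟨v - frH σ w2 v • u, by simp [hu], by
      rw [map_sub, map_smul, smul_eq_mul]; linear_combination hv⟩
  obtain ⟨a0, h20, h30⟩ : ∃ a, frH σ w2 a = 1 ∧ frH σ w3 a = 0 :=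
    ⟨u - frH σ w3 u • a1, by simp [hu, h21], by simp [h31]⟩
  have h22 := hW _ m2
  have h33 := hW _ m3
  have h23 := fr_pol σ hσσ h2 h0 hθ hW m2 m3
  have h32 := fr_pol σ hσσ h2 h0 hθ hW m3 m2
  have hh : σ 2⁻¹ = 2⁻¹ := by rw [map_inv₀, map_ofNat]
  have h2' : (2 : K) * 2⁻¹ = 1 := mul_inv_cancel₀ h2
  obtain ⟨e0, k20, k30, k00⟩ : ∃ a, frH σ w2 a = 1 ∧ frH σ w3 a = 0 ∧ frH σ a a = 0 := by
    refine ⟨a0 - (2⁻¹ * frH σ a0 a0) • w2, by simp [h20, h22], by simp [h30, h32], ?_⟩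
    simp only [frH_sub, frH_smul, map_sub, map_smul, smul_eq_mul, map_mul, hh,
      ← frH_symm σ hσσ, h20, h22, frH_symm σ hσσ w2 a0, map_one]
    linear_combination (-frH σ a0 a0) * h2'
  have k02 : frH σ e0 w2 = 1 := by rw [frH_symm σ hσσ, k20, map_one]
  have k03 : frH σ e0 w3 = 0 := by rw [frH_symm σ hσσ, k30, map_zero]
  obtain ⟨e1, k21, k31, k01, k11⟩ :
      ∃ a, frH σ w2 a = 0 ∧ frH σ w3 a = 1 ∧ frH σ e0 a = 0 ∧ frH σ a a = 0 := by
    refine ⟨a1 - (2⁻¹ * frH σ a1 a1) • w3 - frH σ e0 a1 • w2, by simp [h21, h22, h23],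
      by simp [h31, h32, h33], by simp [k02, k03], ?_⟩
    simp only [frH_sub, frH_smul, map_sub, map_smul, smul_eq_mul, map_mul, hh,
      ← frH_symm σ hσσ, h21, h31, h22, h23, h32, h33, frH_symm σ hσσ w2 a1, frH_symm σ hσσ w3 a1,
      map_one, map_zero]
    linear_combination (-frH σ a1 a1) * h2'
  have k12 : frH σ e1 w2 = 0 := by rw [frH_symm σ hσσ, k21, map_zero]
  have k13 : frH σ e1 w3 = 1 := by rw [frH_symm σ hσσ, k31, map_one]
  have k10 : frH σ e1 e0 = 0 := by rw [frH_symm σ hσσ, k01, map_zero]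
  let P : (Fin 5 → K) →ₗ[K] (Fin 5 → K) := LinearMap.id - (frH σ w2).smulRight e0 -
    (frH σ w3).smulRight e1 - (frH σ e0).smulRight w2 - (frH σ e1).smulRight w3
  have hP : ∀ x, P x = x - frH σ w2 x • e0 - frH σ w3 x • e1 - frH σ e0 x • w2 -
      frH σ e1 x • w3 := fun _ => rfl
  have p0 : ∀ x, frH σ e0 (P x) = 0 := fun x => by simp [hP, k00, k01, k02, k03]
  have p1 : ∀ x, frH σ e1 (P x) = 0 := fun x => by simp [hP, k10, k11, k12, k13]
  have p2 : ∀ x, frH σ w2 (P x) = 0 := fun x => by simp [hP, k20, k21, h22, h23]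
  have p3 : ∀ x, frH σ w3 (P x) = 0 := fun x => by simp [hP, k30, k31, h32, h33]
  obtain ⟨x, hx⟩ : ∃ x, frH σ (P x) (P x) ≠ 0 := by
    by_contra hcon
    push Not at hcon
    have hz : ∀ x, P x = 0 := fun x => by
      by_contra hne
      obtain ⟨y, hy⟩ := frH_one σ hne
      have h1 := fr_pol σ hσσ h2 h0 hθ (W := LinearMap.range P)
        (by rintro _ ⟨z, rfl⟩; exact hcon z) ⟨y, rfl⟩ ⟨x, rfl⟩
      rw [hP y] at h1
      simp only [frH_sub, frH_smul, p0, p1, p2, p3, mul_zero, sub_zero] at h1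
      rw [frH_symm σ hσσ, h1, map_zero] at hy
      exact zero_ne_one hy
    have htop : Submodule.span K (Set.range ![e0, e1, w2, w3]) = ⊤ := by
      refine eq_top_iff.2 fun y _ => (Submodule.mem_span_range_iff_exists_fun K).2
        ⟨![frH σ w2 y, frH σ w3 y, frH σ e0 y, frH σ e1 y], ?_⟩
      have := hz y
      rw [hP] at this
      simp only [Fin.sum_univ_four, Matrix.cons_val]
      linear_combination (exp := 1) -this
    have h4 := finrank_range_le_card (R := K) ![e0, e1, w2, w3]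
    rw [Set.finrank, htop] at h4
    simp at h4
  obtain ⟨c, hc⟩ := hN (frH σ (P x) (P x))⁻¹ (by rw [map_inv₀, ← frH_symm σ hσσ])
  have q0 := p0 (c • x)
  have q1 := p1 (c • x)
  have q2 := p2 (c • x)
  have q3 := p3 (c • x)
  have q4 : frH σ (P (c • x)) (P (c • x)) = 1 := by
    rw [map_smul, frH_smul, map_smul, smul_eq_mul, ← mul_assoc, hc, inv_mul_cancel₀ hx]
  generalize P (c • x) = z at q0 q1 q2 q3 q4
  have r0 : frH σ z e0 = 0 := by rw [frH_symm σ hσσ, q0, map_zero]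
  have r1 : frH σ z e1 = 0 := by rw [frH_symm σ hσσ, q1, map_zero]
  have r2 : frH σ z w2 = 0 := by rw [frH_symm σ hσσ, q2, map_zero]
  have r3 : frH σ z w3 = 0 := by rw [frH_symm σ hσσ, q3, map_zero]
  refine ⟨![e0, e1, w2, w3, z], fun i j => ?_, hsp⟩
  fin_cases i <;> fin_cases j <;> assumption

end

theorem exists_frame {F K : Type} [Field F] [Fintype F] [Field K] [Algebra F K]
    (hK : finrank F K = 2) (hq : Odd (Fintype.card F)) {θ : K} (h0 : θ ≠ 0)
    (hθ : θ ^ Fintype.card F = -θ) {W : Submodule K (Fin 5 → K)} (hW : IsGen (Fintype.card F) W) :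
    ∃ e : Fin 5 → Fin 5 → K, Frame (Fintype.card F) e ∧ Submodule.span K {e 2, e 3} = W := by
  have hH : ∀ x y : Fin 5 → K, herm (Fintype.card F) x y = frH (nfS F K) x y := fun x y => by
    simp only [herm, frH_apply, nfS_eq]
  have : FiniteDimensional F K := FiniteDimensional.of_finrank_pos (by omega)
  have : Finite K := Module.finite_of_finite F
  obtain ⟨e, he, hs⟩ := fr_ex (nfS F K) (nf_invol hK hq h0 hθ) (nf_twoK hq) h0
    (by rw [← nfS_eq, hθ]) (fun r hr => by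
      obtain ⟨a, b, rfl⟩ := nf_dec hK hq h0 hθ r
      rw [nf_conj hθ] at hr
      have hb : θ * algebraMap F K b = 0 :=
        mul_left_cancel₀ (nf_twoK hq) (by linear_combination -hr)
      obtain ⟨c, rfl⟩ := FiniteField.norm_surjective F K a
      refine ⟨c, ?_⟩
      rw [hb, add_zero, FiniteField.algebraMap_norm_eq_pow_sum, hK, ← nfS_eq]
      simp [Finset.sum_range_succ, pow_add, mul_comm]) hW.1
    (fun x hx => by rw [← hH, ← nf_herm_self (nfS F K) nfS_eq]; exact hW.2 x hx)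
  exact ⟨e, fun i j => (hH _ _).trans (he i j), hs⟩

end Pool.Agent.Lib.MP_3fd6b0_co
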