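import Pool.Agent.Lib.MP_3fd6b0_co.Defs
import Pool.Agent.Lib.MP_587b89_lc.Spec

/-!
A complete ultrametric field all of whose points specialise to rational points.
-/

set_option autoImplicit false
set_option linter.unusedSectionVars false
set_option linter.overlappingInstances false
open Polynomial Module Filter Topology Pool.Agent.Lib.MP_587b89_lc

namespace Pool.Agent.Lib.MP_3fd6b0_co

lemma Large_fac {F B K : Type} [Field F] [CommRing B] [Algebra F B] [CommRing K] [Algebra F K]
    (ψ : B →ₐ[F] K) (ρ : B →ₐ[F] F) (h : ∀ b, ψ b = 0 → ρ b = 0) :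
    ∃ π : ψ.range →ₐ[F] F, ∀ b, π ⟨ψ b, b, rfl⟩ = ρ b := by
  have hρ : ∀ a ∈ RingHom.ker ψ.rangeRestrict, ρ a = 0 := fun a ha =>
    h a (congrArg Subtype.val (RingHom.mem_ker.1 ha))
  refine ⟨(Ideal.Quotient.liftₐ (RingHom.ker ψ.rangeRestrict) ρ hρ).comp
    (Ideal.quotientKerAlgEquivOfSurjective (AlgHom.rangeRestrict_surjective ψ)).symm.toAlgHom,
    fun g => ?_⟩
  have : (Ideal.quotientKerAlgEquivOfSurjective (AlgHom.rangeRestrict_surjective ψ)).symm
      ⟨ψ g, g, rfl⟩ = Ideal.Quotient.mk _ g := by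
    rw [AlgEquiv.symm_apply_eq]; rfl
  exact congrArg (Ideal.Quotient.liftₐ _ ρ hρ) this

lemma Large_frac {F K A : Type} [Field F] [Field K] [Algebra F K] [CommRing A] [Algebra F A]
    (A' : Subalgebra F K) (h : Tr1 F A') {d : K} (hd : d ∈ A') (hd0 : d ≠ 0) (ι : A →ₐ[F] K)
    (hι : Function.Injective ι) (S : Set A) (hS : Algebra.adjoin F S = ⊤)
    (hx : ∀ x ∈ S, d * ι x ∈ A') : Tr1 F A := by
  let d' : A' := ⟨d, hd⟩
  have hu : ∀ {T : Type} [Field T] [Algebra F T] (f : A' →ₐ[F] T), f d' ≠ 0 →
      ∀ y : Submonoid.powers d', IsUnit (f y) := by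
    rintro T _ _ f hf ⟨_, n, rfl⟩
    simpa using IsUnit.pow n (Ne.isUnit hf)
  let j : Localization.Away d' →ₐ[F] K := IsLocalization.liftAlgHom (hu A'.val hd0)
  have hj1 : ∀ a : A', j (algebraMap _ _ a) = a := fun a => IsLocalization.lift_eq (hu A'.val hd0) a
  have hj : Function.Injective j :=
    IsLocalization.injective_of_map_algebraMap_zero (M := Submonoid.powers d') _ j.toRingHom
      fun a ha => by
        have : a = 0 := Subtype.ext ((hj1 a).symm.trans ha)
        rw [this, map_zero]
  have hr : ∀ a, ι a ∈ j.range := by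
    intro a
    have : Algebra.adjoin F S ≤ j.range.comap ι := by
      refine Algebra.adjoin_le fun x hx' => ⟨IsLocalization.mk' _ (⟨_, hx x hx'⟩ : A')
        (⟨d', Submonoid.mem_powers _⟩ : Submonoid.powers d'), ?_⟩
      exact (IsLocalization.lift_mk'_spec (hu A'.val hd0) _ _ _).2 rfl
    exact this (hS ▸ Algebra.mem_top)
  let κ : A →ₐ[F] Localization.Away d' :=
    (AlgEquiv.ofInjective j hj).symm.toAlgHom.comp (ι.codRestrict _ hr)
  have hκ : Function.Injective κ := (AlgEquiv.ofInjective j hj).symm.injective.comp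
    ((AlgHom.injective_codRestrict _ _ _).2 hι)
  intro g hg
  obtain ⟨⟨a, s⟩, hs⟩ := IsLocalization.surj (Submonoid.powers d') (κ g)
  have ha : a ≠ 0 := by
    rintro rfl
    rw [map_zero, (IsLocalization.map_units _ s).mul_left_eq_zero, map_eq_zero_iff _ hκ] at hs
    exact hg hs
  obtain ⟨π, hπ⟩ := h (d' * a) (mul_ne_zero (fun e => hd0 (congrArg Subtype.val e)) ha)
  rw [map_mul] at hπ
  let l : Localization.Away d' →ₐ[F] F := IsLocalization.liftAlgHom (hu π (left_ne_zero_of_mul hπ))
  refine ⟨l.comp κ, fun e => right_ne_zero_of_mul hπ ?_⟩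
  have h1 := congrArg l hs
  rw [map_mul, show l (κ g) = 0 from e, zero_mul] at h1
  exact (IsLocalization.lift_eq (hu π (left_ne_zero_of_mul hπ)) a).symm.trans h1.symm

lemma Large_alg {F K R : Type} [Field F] [Field K] [Algebra F K] [CommRing R] [IsDomain R]
    [Algebra R K] [FaithfulSMul R K] [Algebra F R] [IsScalarTower F R K]
    (H : ∀ (A : Type) [CommRing A] [Algebra F A] [Algebra.FiniteType F A] (ι : A →ₐ[F] K),
      Function.Injective ι → (∀ a, IsIntegral R (ι a)) → Tr1 F A)
    (A : Type) [CommRing A] [Algebra F A] [Algebra.FiniteType F A] (ι : A →ₐ[F] K)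
    (hι : Function.Injective ι) (ha : ∀ a, IsAlgebraic R (ι a)) : Tr1 F A := by
  classical
  obtain ⟨S, hS⟩ := Algebra.FiniteType.out (R := F) (A := A)
  obtain ⟨d, hd0, hd⟩ := common_den S (fun (d : R) x => IsIntegral R (d • ι x))
    (fun x _ => (ha x).exists_integral_multiple)
    (fun c d x h => by rw [mul_smul]; exact h.smul c)
  let T : Finset K := insert (algebraMap R K d) (S.image fun x => algebraMap R K d * ι x)
  have : Algebra.FiniteType F (Algebra.adjoin F (T : Set K)) :=
    Algebra.FiniteType.adjoin_of_finite T.finite_toSet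
  refine Large_frac (Algebra.adjoin F (T : Set K)) (H _ (Subalgebra.val _) Subtype.val_injective ?_)
    (d := algebraMap R K d) (Algebra.subset_adjoin (by simp [T]))
    ((map_ne_zero_iff _ (FaithfulSMul.algebraMap_injective R K)).2 hd0) ι hι S hS
    fun x hx => Algebra.subset_adjoin (by
      simp only [T, Finset.coe_insert, Finset.coe_image]
      exact Or.inr ⟨x, hx, rfl⟩)
  have hle : Algebra.adjoin F (T : Set K) ≤ (integralClosure R K).restrictScalars F := by
    refine Algebra.adjoin_le fun y hy => ?_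
    simp only [T, Finset.coe_insert, Finset.coe_image] at hy
    rcases hy with rfl | ⟨x, hx, rfl⟩
    · exact isIntegral_algebraMap
    · have := hd x hx
      rwa [Algebra.smul_def] at this
  exact fun a => hle a.2

theorem Large_complete {F K R : Type} [Field F] [PerfectField F] [NontriviallyNormedField K]
    [CompleteSpace K] [Algebra F K] [CommRing R] [IsDomain R]
    [Algebra R K] [FaithfulSMul R K] [Algebra F R] [IsScalarTower F R K]
    (hd : Dense {y : K | IsAlgebraic R y})
    (H : ∀ (A : Type) [CommRing A] [Algebra F A] [Algebra.FiniteType F A] (ι : A →ₐ[F] K),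
      Function.Injective ι → (∀ a, IsIntegral R (ι a)) → Tr1 F A)
    (A : Type) [CommRing A] [Algebra F A] [Algebra.FiniteType F A] (ι : A →ₐ[F] K)
    (hι : Function.Injective ι) : Tr1 F A := by
  classical
  have : IsDomain A := hι.isDomain ι
  have : Algebra.EssFiniteType A (FractionRing A) :=
    .of_isLocalization (FractionRing A) (nonZeroDivisors A)
  have : Algebra.EssFiniteType F (FractionRing A) := .comp F A _
  obtain ⟨σ, _, P, ψ, hP, hker, hder, hC, hsurj⟩ := present F (FractionRing A)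
  obtain ⟨S, hS⟩ := Algebra.FiniteType.out (R := F) (A := A)
  obtain ⟨d, hd0, hdS⟩ := common_den S
    (fun d x => ∃ h, ψ (C d) * algebraMap A (FractionRing A) x = ψ h) (fun x _ => hsurj _)
    (fun c d x ⟨h, hh⟩ => ⟨C c * h, by rw [C_mul, map_mul, mul_assoc, hh, map_mul]⟩)
  refine Large_frac ψ.range ?_ (d := ψ (C d)) ⟨_, rfl⟩ (hC d hd0) (IsScalarTower.toAlgHom F A _)
    (IsFractionRing.injective A _) S hS fun x hx => (hdS x hx).imp fun _ h => h.symm
  rintro ⟨_, g, rfl⟩ hg
  let l : FractionRing A →ₐ[F] K := IsFractionRing.liftAlgHom hι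
  let ev : K × (σ → K) → (MvPolynomial σ F)[X] →ₐ[F] K :=
    fun x => aevalTower (MvPolynomial.aeval x.2) x.1
  let x0 : K × (σ → K) := (l (ψ X), fun i => l (ψ (C (MvPolynomial.X i))))
  have hx0 : ∀ h, ev x0 h = l (ψ h) := by
    have : ev x0 = l.comp ψ := by
      refine Polynomial.algHom_ext' (MvPolynomial.algHom_ext fun i => ?_) ?_ <;> simp [ev, x0]
    intro h
    rw [this]; rfl
  have hev : ∀ (T : σ → K) (y : K) h, ev (y, T) h =
      (h.map (MvPolynomial.aeval T : MvPolynomial σ F →ₐ[F] K).toRingHom).eval y :=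
    fun T y h => by rw [eval_map]; rfl
  have h1 := ift1 (K := K) (E := fun x => ev x P) (v0 := x0.1) (z0 := x0.2) (analytic_ev P _)
    (d := ev x0 (derivative P))
    (by simpa only [hev, ← derivative_map] using Polynomial.hasDerivAt _ x0.1)
    (by rw [hx0]; exact (map_ne_zero l).2 hder) (Pr := fun x => ev x g ≠ 0)
    ((analytic_ev g _).continuousAt.eventually_ne (by
      show ev x0 g ≠ 0
      rw [hx0]
      exact (map_ne_zero l).2 fun e => hg (Subtype.ext e)))
  obtain ⟨T, hT, y, hy, hyg⟩ := (dense_pi Set.univ fun (_ : σ) _ => hd).inter_nhds_nonempty h1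
  have hy0 : ev (y, T) P = 0 := by
    rw [show ev (y, T) P = ev x0 P from hy, hx0, (hker P).2 dvd_rfl, map_zero]
  let Kalg := (Subalgebra.algebraicClosure R K).restrictScalars F
  have hT' : ∀ r : MvPolynomial σ F, MvPolynomial.aeval T r ∈ Kalg := fun r => by
    have : (MvPolynomial.aeval T).range ≤ Kalg := by
      rw [← Algebra.adjoin_range_eq_range_aeval]
      exact Algebra.adjoin_le (by rintro _ ⟨i, rfl⟩; exact hT i (Set.mem_univ i))
    exact this ⟨r, rfl⟩
  have hy' : y ∈ Kalg := by
    have : IsIntegral (Subalgebra.algebraicClosure R K) y := by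
      refine ⟨P.map (((MvPolynomial.aeval T : MvPolynomial σ F →ₐ[F] K).toRingHom).codRestrict
        (Subalgebra.algebraicClosure R K) hT'), hP.map _, ?_⟩
      rw [eval₂_map]
      exact hy0
    exact this.isAlgebraic.restrictScalars R
  have halg : ∀ h, ev (y, T) h ∈ Kalg := fun h => by
    induction h using Polynomial.induction_on' with
    | add p q hp hq => rw [map_add]; exact add_mem hp hq
    | monomial n d =>
      simp only [ev, ← C_mul_X_pow_eq_monomial, map_mul, map_pow, aevalTower_C, aevalTower_X]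
      exact mul_mem (hT' d) (pow_mem hy' n)
  have : Algebra.FiniteType F (ev (y, T)).range :=
    .of_surjective (ev (y, T)).rangeRestrict (AlgHom.rangeRestrict_surjective _)
  obtain ⟨π, hπ⟩ := Large_alg H (ev (y, T)).range (Subalgebra.val _) Subtype.val_injective
    (by rintro ⟨_, h, rfl⟩; exact halg h) ((ev (y, T)).rangeRestrict g)
    (fun e => hyg (congrArg Subtype.val e))
  obtain ⟨π', hπ'⟩ := Large_fac ψ (π.comp (ev (y, T)).rangeRestrict) fun a ha => by
    obtain ⟨b, rfl⟩ := (hker a).1 ha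
    have : (ev (y, T)).rangeRestrict P = 0 := Subtype.ext hy0
    simp [this]
  exact ⟨π', fun e => hπ ((hπ' g).symm.trans e)⟩

lemma Large_sep {E U : Type} [Field E] [Field U] [Algebra E U] (p : ℕ) [ExpChar E p]
    {x : U} (hx : IsIntegral E x) : ∃ n, ∀ m, n ≤ m → IsSeparable E (x ^ p ^ m) := by
  obtain ⟨n, y, hy⟩ := IsPurelyInseparable.pow_mem (separableClosure E (algebraicClosure E U)) p
    (⟨x, hx⟩ : algebraicClosure E U)
  refine ⟨n, fun m hm => ?_⟩
  have h1 : IsSeparable E (x ^ p ^ n) := by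
    have := IsSeparable.map (algebraicClosure E U).val Subtype.val_injective
      (show IsSeparable E (y : algebraicClosure E U) from y.2)
    have e : (y : algebraicClosure E U) = ⟨x, hx⟩ ^ p ^ n := hy
    rw [e] at this
    exact this
  obtain ⟨d, rfl⟩ := Nat.exists_eq_add_of_le hm
  rw [pow_add, pow_mul]
  exact pow_mem (show x ^ p ^ n ∈ separableClosure E U from h1) _

lemma Large_prim (R E L : Type) [CommRing R] [IsDomain R] [IsIntegrallyClosed R] [Field E]
    [Algebra R E] [IsFractionRing R E] [Field L] [Algebra R L] [Algebra E L] [IsScalarTower R E L]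
    [Algebra.IsSeparable E L] [FiniteDimensional E L] :
    ∃ y : L, IsIntegral R y ∧ aeval y (derivative (minpoly R y)) ≠ 0 ∧
      ∀ x : L, ∃ d : R, d ≠ 0 ∧ ∃ h : R[X], algebraMap R L d * x = aeval y h := by
  obtain ⟨α, hα⟩ := Field.exists_primitive_element E L
  have halg : IsAlgebraic R α := (IsFractionRing.isAlgebraic_iff R E L).2
    (Algebra.IsAlgebraic.isAlgebraic α)
  obtain ⟨c, hc0, hc⟩ := halg.exists_integral_multiple
  obtain ⟨y, hy⟩ : ∃ y, y = c • α := ⟨_, rfl⟩
  rw [← hy] at hc
  have htop : Algebra.adjoin E {y} = ⊤ := by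
    rw [eq_top_iff, ← IntermediateField.top_toSubalgebra, ← hα,
      IntermediateField.adjoin_simple_toSubalgebra_of_isAlgebraic
        (Algebra.IsAlgebraic.isAlgebraic α), Algebra.adjoin_le_iff, Set.singleton_subset_iff]
    have h0 : algebraMap R E c ≠ 0 := (map_ne_zero_iff _ (IsFractionRing.injective _ _)).2 hc0
    have : α = (algebraMap R E c)⁻¹ • y := by
      rw [hy, ← algebraMap_smul E c α, inv_smul_smul₀ h0]
    rw [this]
    exact Subalgebra.smul_mem _ (Algebra.self_mem_adjoin_singleton _ _) _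
  refine ⟨y, hc, ?_, fun x => ?_⟩
  · have h1 := (Algebra.IsSeparable.isSeparable E y).aeval_derivative_ne_zero (minpoly.aeval _ y)
    rwa [minpoly.isIntegrallyClosed_eq_field_fractions' _ hc, derivative_map,
      aeval_map_algebraMap] at h1
  · obtain ⟨t, ht⟩ := multiple_mem_adjoin_of_mem_localization_adjoin (nonZeroDivisors R)
      E {y} x (htop ▸ Algebra.mem_top)
    rw [Algebra.adjoin_singleton_eq_range_aeval] at ht
    obtain ⟨h, hh⟩ := ht
    refine ⟨t, nonZeroDivisors.coe_ne_zero t, h, ?_⟩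
    simpa [Submonoid.smul_def, Algebra.smul_def] using hh.symm

section
variable {F K : Type} [Field F] [Field K] [Algebra F K] [Algebra F[X] K] [FaithfulSMul F[X] K]
  [IsScalarTower F F[X] K]
  (hP : ∀ P : F[X][X], P.Monic → Polynomial.derivative P ≠ 0 →
    (∃ y : K, Polynomial.aeval y P = 0 ∧ ∀ R : F[X][X], R.Monic →
      Polynomial.aeval y R = 0 → P.natDegree ≤ R.natDegree) →
    ∀ δ : F[X], δ ≠ 0 → ∃ x y : F, P.evalEval x y = 0 ∧ δ.eval x ≠ 0)
include hP

lemma Large_simple {y : K} (hy : IsIntegral F[X] y) (hd : derivative (minpoly F[X] y) ≠ 0) :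
    Tr1 F ((aeval y : F[X][X] →ₐ[F[X]] K).restrictScalars F).range := by
  rintro ⟨_, g, rfl⟩ hg
  have hg' : (aeval y g : K) ≠ 0 := fun e => hg (Subtype.ext e)
  have hmem : (aeval y g : K) ∈ Algebra.adjoin F[X] {y} := aeval_mem_adjoin_singleton _ _
  have hint : IsIntegral F[X] (⟨_, hmem⟩ : Algebra.adjoin F[X] {y}) :=
    (isIntegral_algHom_iff (Subalgebra.val _) Subtype.val_injective).1
      ((adjoin_le_integralClosure hy) hmem)
  obtain ⟨r, hr0, ⟨z, hz⟩, hrz⟩ := hint.isAlgebraic.exists_nonzero_dvd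
    (mem_nonZeroDivisors_of_ne_zero fun e => hg' (congrArg Subtype.val e))
  rw [Algebra.adjoin_singleton_eq_range_aeval] at hz
  obtain ⟨g', rfl⟩ := hz
  have hrz' : algebraMap F[X] K r = aeval y g * aeval y g' := congrArg Subtype.val hrz
  obtain ⟨x, w, hxw, hrx⟩ := hP (minpoly F[X] y) (minpoly.monic hy) hd
    ⟨y, minpoly.aeval _ _, fun R hR hRy => natDegree_le_natDegree (minpoly.min _ _ hR hRy)⟩ r hr0
  have hker : ∀ b : F[X][X], (aeval y b : K) = 0 → aevalAeval x w b = 0 := fun b hb => by
    obtain ⟨c, rfl⟩ := (minpoly.isIntegrallyClosed_dvd_iff hy b).1 hb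
    rw [map_mul, coe_aevalAeval_eq_evalEval, hxw, zero_mul]
  obtain ⟨π, hπ⟩ := Large_fac ((aeval y : F[X][X] →ₐ[F[X]] K).restrictScalars F)
    (aevalAeval x w) hker
  refine ⟨π, fun e => hrx ?_⟩
  have h1 := hker (C r - g * g') (by rw [map_sub, map_mul, aeval_C, hrz', sub_self])
  rw [map_sub, map_mul, (hπ g).symm.trans e, zero_mul, sub_zero, aevalAeval_C] at h1
  simpa using h1

lemma Large_int [PerfectField F] (A : Type) [CommRing A] [Algebra F A] [Algebra.FiniteType F A]
    (ι : A →ₐ[F] K) (hι : Function.Injective ι) (hint : ∀ a, IsIntegral F[X] (ι a)) :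
    Tr1 F A := by
  classical
  obtain ⟨S, hS⟩ := Algebra.FiniteType.out (R := F) (A := A)
  let p := ringExpChar F
  let E := FractionRing F[X]
  let _ : Algebra E K := FractionRing.liftAlgebra F[X] K
  have : IsScalarTower F[X] E K := FractionRing.isScalarTower_liftAlgebra F[X] K
  have : ExpChar E p := expChar_of_injective_algebraMap (algebraMap F E).injective p
  have : ExpChar K p := expChar_of_injective_algebraMap (algebraMap F K).injective p
  choose n hn using fun a : S => Large_sep (E := E) p (hint a).tower_top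
  obtain ⟨N, hN⟩ := (Set.finite_range n).bddAbove
  let T : Set K := Set.range fun a : S => ι a ^ p ^ N
  let M := IntermediateField.adjoin E T
  have : FiniteDimensional E M := IntermediateField.finiteDimensional_adjoin (by
    rintro _ ⟨a, rfl⟩
    exact ((hint a).pow _).tower_top)
  have : Algebra.IsSeparable E M := (IntermediateField.isSeparable_adjoin_iff_isSeparable E K).2 (by
    rintro _ ⟨a, rfl⟩
    exact hn a N (hN ⟨a, rfl⟩))
  obtain ⟨y, hy, hyd, hys⟩ := Large_prim F[X] E M
  let j : M →ₐ[F[X]] K := M.val.restrictScalars F[X]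
  have hj : Function.Injective j := Subtype.val_injective
  have hy' : IsIntegral F[X] (j y) := hy.map j
  have h1 := Large_simple hP hy' (by
    rw [minpoly.algHom_eq j hj]
    intro e
    rw [e, map_zero] at hyd
    exact hyd rfl)
  obtain ⟨d, hd0, hd⟩ := common_den (Finset.univ : Finset S)
    (fun (d : F[X]) a => ∃ h : F[X][X], algebraMap F[X] K d * ι a ^ p ^ N = aeval (j y) h)
    (fun a _ => by
      obtain ⟨d, hd0, h, hh⟩ := hys ⟨ι a ^ p ^ N, IntermediateField.subset_adjoin _ _ ⟨a, rfl⟩⟩
      refine ⟨d, hd0, h, ?_⟩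
      have := congrArg j hh
      rwa [map_mul, AlgHom.commutes, ← aeval_algHom_apply] at this)
    (fun c d x ⟨h, hh⟩ => ⟨C c * h, by rw [map_mul, mul_assoc, hh, map_mul, aeval_C]⟩)
  have h2 : Tr1 F (Algebra.adjoin F T) :=
    Large_frac _ h1 (d := algebraMap F[X] K d) ⟨C d, aeval_C _ _⟩
      ((map_ne_zero_iff _ (FaithfulSMul.algebraMap_injective _ _)).2 hd0) (Subalgebra.val _)
      Subtype.val_injective _ Algebra.adjoin_adjoin_coe_preimage (by
        rintro ⟨_, _⟩ ⟨a, rfl⟩
        obtain ⟨h, hh⟩ := hd a (Finset.mem_univ _)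
        exact ⟨h, hh.symm⟩)
  let φ0 : A →+* K := (iterateFrobenius K p N).comp (ι : A →+* K)
  have hφ0 : ∀ a, φ0 a = ι a ^ p ^ N := fun a => iterateFrobenius_def _ _ _
  have hc : ∀ c, φ0 (algebraMap F A c) = algebraMap F K (iterateFrobenius F p N c) := fun c => by
    rw [hφ0, AlgHom.commutes, iterateFrobenius_def, map_pow]
  have hmem : ∀ a, φ0 a ∈ Algebra.adjoin F T := by
    intro a
    have ha : a ∈ Algebra.adjoin F (S : Set A) := hS ▸ Algebra.mem_top
    induction ha using Algebra.adjoin_induction with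
    | mem a ha => exact Algebra.subset_adjoin ⟨⟨a, ha⟩, (hφ0 a).symm⟩
    | algebraMap c => rw [hc]; exact Subalgebra.algebraMap_mem _ _
    | add y z _ _ h1 h2 => rw [map_add]; exact add_mem h1 h2
    | mul y z _ _ h1 h2 => rw [map_mul]; exact mul_mem h1 h2
  let φ : A →+* Algebra.adjoin F T := φ0.codRestrict _ hmem
  intro g hg
  obtain ⟨π, hπ⟩ := h2 (φ g) fun e => by
    have h3 : φ0 g = 0 := congrArg Subtype.val e
    rw [hφ0] at h3
    exact hg (hι ((pow_eq_zero_iff (pow_ne_zero _ (expChar_pos F p).ne')).1 h3 |>.trans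
      (map_zero ι).symm))
  let ρ : A →+* F := ((iterateFrobeniusEquiv F p N).symm : F →+* F).comp
    ((π : Algebra.adjoin F T →+* F).comp φ)
  refine ⟨{ ρ with commutes' := fun c => ?_ }, fun e => hπ ?_⟩
  · have h4 : φ (algebraMap F A c) = algebraMap F _ (iterateFrobenius F p N c) := Subtype.ext (hc c)
    show (iterateFrobeniusEquiv F p N).symm (π (φ (algebraMap F A c))) = c
    rw [h4, AlgHom.commutes]
    exact (iterateFrobeniusEquiv F p N).symm_apply_apply c
  · exact (map_eq_zero_iff _ (iterateFrobeniusEquiv F p N).symm.injective).1 e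

end

open RatFunc in
theorem large (F : Type) [Field F] [PerfectField F] (h : Pac F) :
    ∃ (K : Type) (_ : NontriviallyNormedField K) (_ : CompleteSpace K) (_ : IsUltrametricDist K)
      (_ : Algebra F K), ∀ (A : Type) [CommRing A] [Algebra F A] [Algebra.FiniteType F A]
      (ι : A →ₐ[F] K), Function.Injective ι → Tr1 F A := by
  have : (Valued.v : Valuation (LaurentSeries F) _).IsRankOneDiscrete :=
    inferInstanceAs ((PowerSeries.idealX F).valuation (LaurentSeries F)).IsRankOneDiscrete
  let _ : (Valued.v : Valuation (LaurentSeries F) _).RankOne :=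
    Valuation.IsRankOneDiscrete.rankOne _ (e := 2) one_lt_two
  let _ : Algebra F (LaurentSeries F) :=
    ((algebraMap F[X] (LaurentSeries F)).comp Polynomial.C).toAlgebra
  refine ⟨LaurentSeries F, Valued.toNontriviallyNormedField _ _,
    LaurentSeries.instLaurentSeriesComplete, Valued.instIsUltrametricDist _ _, inferInstance, ?_⟩
  refine @Large_complete F (LaurentSeries F) F[X] _ _ (Valued.toNontriviallyNormedField _ _)
    LaurentSeries.instLaurentSeriesComplete _ _ _ _ _ _
    (IsScalarTower.of_algebraMap_eq fun _ => rfl) ?_ ?_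
  · refine Dense.mono ?_ (LaurentSeries.coe_range_dense (K := F))
    rintro _ ⟨f, rfl⟩
    exact (IsFractionRing.isAlgebraic_iff F[X] (RatFunc F) (LaurentSeries F)).2
      (isAlgebraic_algebraMap f)
  · intro A _ _ _ ι hι hint
    exact @Large_int F (LaurentSeries F) _ _ _ _ _ (IsScalarTower.of_algebraMap_eq fun _ => rfl) h _
      A _ _ _ ι hι hint

end Pool.Agent.Lib.MP_3fd6b0_co
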