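import Pool.Agent.Lib.MP_3fd6b0_co.An
import Pool.Agent.Lib.MP_587b89_lc.Glue

/-!
Local solutions when the skew function has a horizontal linear term.
-/

set_option autoImplicit false
set_option linter.unusedSectionVars false
open Filter Topology

namespace Pool.Agent.Lib.MP_3fd6b0_co

/-- the analytic implicit function theorem with one parameter -/
theorem iftA {K V : Type} [NontriviallyNormedField K] [CompleteSpace K] [NormedAddCommGroup V]
    [NormedSpace K V] [FiniteDimensional K V] {E : V × K → V} {v0 : V}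
    (hE : AnalyticAt K E (v0, 0))
    (hs : ∀ w, ∃ v, HasDerivAt (fun t : K => E (v0 + t • v, 0)) w 0) :
    ∃ y : K → V, AnalyticAt K y 0 ∧ y 0 = v0 ∧ ∀ᶠ τ in 𝓝 (0 : K), E (y τ, τ) = E (v0, 0) := by
  have : CompleteSpace V := FiniteDimensional.complete K V
  have hΦ : AnalyticAt K (fun x : V × K => (E x, x.2)) (v0, 0) := hE.prod analyticAt_snd
  obtain ⟨E', hE'⟩ : ∃ E', E' = fderiv K E (v0, 0) := ⟨_, rfl⟩
  have h1 := hE.hasStrictFDerivAt
  rw [← hE'] at h1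
  have h2 := h1.prodMk (hasStrictFDerivAt_snd (𝕜 := K) (p := (v0, (0 : K))))
  have hsur : Function.Surjective (E'.prod (ContinuousLinearMap.snd K V K)) := by
    rintro ⟨w, z⟩
    obtain ⟨v, hv⟩ := hs (w - E' (0, z))
    have h3 : HasDerivAt (fun t : K => (v0 + t • v, (0 : K))) (v, 0) 0 := by
      refine HasDerivAt.prodMk ?_ (hasDerivAt_const _ _)
      simpa using ((hasDerivAt_id (0 : K)).smul_const v).const_add v0
    have h4 := (HasFDerivAt.comp_hasDerivAt_of_eq (0 : K) h1.hasFDerivAt h3 (by simp)).unique hv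
    refine ⟨(v, z), Prod.ext ?_ rfl⟩
    have e : E' (v, z) = E' (v, 0) + E' (0, z) := by rw [← map_add]; simp
    show E' (v, z) = w
    rw [e, h4, sub_add_cancel]
  have hinj := LinearMap.injective_iff_surjective
    (f := (E'.prod (ContinuousLinearMap.snd K V K) : V × K →ₗ[K] V × K)).2 hsur
  let i : (V × K) ≃L[K] (V × K) := ContinuousLinearEquiv.ofBijective _
    (LinearMap.ker_eq_bot.2 hinj) (LinearMap.range_eq_top.2 hsur)
  have h5 : HasStrictFDerivAt (fun x : V × K => (E x, x.2)) (i : V × K →L[K] V × K) (v0, 0) := h2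
  have h6 := (h5.toOpenPartialHomeomorph _).analyticAt_symm' (i := i)
    h5.mem_toOpenPartialHomeomorph_source hΦ h5.hasFDerivAt.fderiv
  have h7 : AnalyticAt K (fun τ : K => (E (v0, 0), τ)) 0 := analyticAt_const.prod analyticAt_id
  have h8 : AnalyticAt K (fun τ : K => h5.localInverse _ _ _ (E (v0, 0), τ)) 0 :=
    AnalyticAt.comp_of_eq h6 h7 rfl
  refine ⟨fun τ => (h5.localInverse _ _ _ (E (v0, 0), τ)).1, analyticAt_fst.comp h8,
    congrArg Prod.fst h5.localInverse_apply_image, ?_⟩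
  filter_upwards [h7.continuousAt h5.eventually_right_inverse] with τ hτ
  obtain ⟨e1, e2⟩ := Prod.mk.inj hτ
  refine Eq.trans ?_ e1
  congr 1
  exact Prod.ext rfl e2.symm

lemma lin_deriv {K W : Type} [NontriviallyNormedField K] [NormedAddCommGroup W] [NormedSpace K W]
    {F : K → W} {w : W} (h : ∀ t, F t = t • w) : HasDerivAt F w 0 := by
  rw [funext h]
  simpa using (hasDerivAt_id (0 : K)).smul_const w

variable {K L : Type} [NontriviallyNormedField K] [NormedField L] [NormedAlgebra K L] {Q : Cj K L}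

lemma an_alg {X : Type} [NormedAddCommGroup X] [NormedSpace K X] {a : X → K} {x : X}
    (h : AnalyticAt K a x) : AnalyticAt K (fun y => algebraMap K L (a y)) x := by
  simp only [Algebra.algebraMap_eq_smul_one]
  exact h.smul (analyticAt_const (v := (1 : L)))

lemma Cj.an_σ (Q : Cj K L) {X : Type} [NormedAddCommGroup X] [NormedSpace K X] {a : X → L} {x : X}
    (h : AnalyticAt K a x) : AnalyticAt K (fun y => Q.σ (a y)) x := (Q.an _).comp h

lemma Cj.an_sk (Q : Cj K L) {X : Type} [NormedAddCommGroup X] [NormedSpace K X] {a : X → L} {x : X}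
    (h : AnalyticAt K a x) : AnalyticAt K (fun y => Q.sk (a y)) x := (Q.sk.analyticAt _).comp h

lemma Cj.sk_zero (Q : Cj K L) {w : L} (h : Q.σ w = -w) (h0 : Q.sk w = 0) : w = 0 := by
  rw [← Q.skew h, h0, map_zero, mul_zero]

lemma Cj.sk_alg (Q : Cj K L) (a : K) (w : L) : Q.sk (algebraMap K L a * w) = a * Q.sk w := by
  rw [← Algebra.smul_def, map_smul, smul_eq_mul]

/-- the differential on horizontal and on `m` directions -/
lemma Cj.dir (Q : Cj K L) {c : Fin 5 → L} (h1 : c 1 = -Q.σ (c 0)) (h0 : c 0 ≠ 0) :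
    ∃ n : K, n ≠ 0 ∧ ∀ (a w : K) (m : L), Q.sk (∑ i, c i * Q.co (a • Q.σ (c 0) +
      w • (Q.θ * Q.σ (c 0)), m, 0) i) = w * n + Q.sk (c 2 * m + c 3 * Q.σ m) := by
  have hr : Q.σ (2 * (c 0 * Q.σ (c 0))) = 2 * (c 0 * Q.σ (c 0)) := by
    rw [map_mul, map_mul, Q.σσ, map_ofNat, mul_comm (c 0)]
  refine ⟨Q.sk (Q.θ * (2 * (c 0 * Q.σ (c 0)))), fun h => ?_, fun a w m => ?_⟩
  · have := Q.real hr
    rw [h, map_zero] at this
    exact mul_ne_zero Q.two (mul_ne_zero h0 ((map_ne_zero Q.σ).2 h0)) this.symm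
  · rw [← Q.sk_alg, ← map_add]
    congr 1
    simp only [Fin.sum_univ_five, Cj.co, Matrix.cons_val_zero, Matrix.cons_val_one,
      Matrix.cons_val, Algebra.smul_def, map_add, map_mul, Q.σ_alg, Q.σσ, Q.σθ, h1, map_zero]
    ring

variable [CompleteSpace K] [FiniteDimensional K L] {f g H Z : L × L × K → L}
  {cf cg cH cZ : Fin 5 → L}

theorem Cj.curve (hf : Q.DL f cf) (hH : Q.DL H cH) (f0 : f 0 = 0) (H0 : H 0 = 0)
    (hs : ∀ v, Q.σ (H v) = -H v) (hc : cH 0 ≠ 0) :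
    ∃ β m : K → L, AnalyticAt K β 0 ∧ AnalyticAt K m 0 ∧ β 0 ≠ 0 ∧ m 0 = 0 ∧ ∀ᶠ τ in 𝓝 (0 : K),
      m τ = -(1 / 2) * Q.σ (f (τ • β τ, m τ, 0)) * (τ • β τ) ∧ H (τ • β τ, m τ, 0) = 0 := by
  obtain ⟨n, hn, hd⟩ := Q.dir (hH.skew hs).1 hc
  obtain ⟨H1, hH1, hH2, hH3⟩ := hH
  let B : (K × L) × K → L := fun x => Q.σ (cH 0) + x.1.1 • (Q.θ * Q.σ (cH 0))
  have hB : ∀ x, AnalyticAt K B x := fun x =>
    analyticAt_const.add ((analyticAt_fst.comp analyticAt_fst).smul analyticAt_const)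
  let D : (K × L) × K → L × L × K := fun x => (B x, x.1.2, 0)
  have hD : ∀ x, AnalyticAt K D x := fun x =>
    (hB x).prod ((analyticAt_snd.comp analyticAt_fst).prod analyticAt_const)
  obtain ⟨y, hy, hy0, hy1⟩ := iftA (K := K) (V := K × L) (v0 := 0)
    (E := fun x => (Q.sk (H1 (0, D x, x.2)), x.1.2 + (1 / 2) * Q.σ (f (x.2 • D x)) * B x))
    ((Q.an_sk ((hH1 _).comp (analyticAt_const.prod ((hD _).prod analyticAt_snd)))).prod
      ((analyticAt_snd.comp analyticAt_fst).add ((analyticAt_const.mul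
        (Q.an_σ ((hf.an _).comp (analyticAt_snd.smul (hD _))))).mul (hB _))))
    (fun w => ⟨((w.1 - Q.sk (cH 2 * w.2 + cH 3 * Q.σ w.2)) / n, w.2), lin_deriv fun t => by
      have := hd 1 (t * ((w.1 - Q.sk (cH 2 * w.2 + cH 3 * Q.σ w.2)) / n)) (t • w.2)
      rw [one_smul] at this
      refine Prod.ext ?_ (by simp [f0])
      simp only [hH3, D, B, zero_add, Prod.smul_mk, smul_eq_mul, this, Prod.smul_fst]
      rw [map_smul, mul_smul_comm, mul_smul_comm, ← smul_add, map_smul, smul_eq_mul]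
      field_simp
      ring⟩)
  have hτ : AnalyticAt K (fun τ : K => (y τ, τ)) 0 := hy.prod analyticAt_id
  refine ⟨fun τ => B (y τ, τ), fun τ => τ • (y τ).2, (hB _).comp hτ,
    analyticAt_id.smul (analyticAt_snd.comp hy), ?_, by simp, ?_⟩
  · simpa [B, hy0] using hc
  filter_upwards [hy1] with τ h
  obtain ⟨e1, e2⟩ := Prod.mk.inj h
  have e3 : (τ • B (y τ, τ), τ • (y τ).2, (0 : K)) = τ • D (y τ, τ) := by simp [D]
  have e0 := hd 1 0 0
  simp only [one_smul, zero_smul, add_zero, zero_mul, map_zero, mul_zero] at e0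
  rw [e3]
  constructor
  · simp only [zero_smul, f0, map_zero, mul_zero, zero_mul, add_zero, Prod.snd_zero] at e2
    rw [mul_smul_comm]
    congr 1
    linear_combination e2
  · refine Q.sk_zero (hs _) ?_
    have := hH2 0 (D (y τ, τ)) τ
    rw [zero_add, H0, zero_add] at this
    rw [this, Q.sk_alg, e1, hH3]
    simp [D, B, e0]

theorem Cj.lemA (hf : Q.DL f cf) (hg : Q.DL g cg) (f0 : f 0 = 0) (g0 : g 0 = 0)
    (hs : ∀ v, Q.σ (g v) = -g v) (hc : cg 0 ≠ 0) : Q.Sol0 f g := by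
  obtain ⟨β, m, hβ, -, hβ0, -, h⟩ := Cj.curve hf hg f0 g0 hs hc
  obtain ⟨τ, ⟨⟨h1, h2⟩, h3⟩, h4⟩ := (((h.and (hβ.continuousAt.eventually_ne hβ0)).filter_mono
    nhdsWithin_le_nhds).and (self_mem_nhdsWithin (a := (0 : K)) (s := {0}ᶜ))).exists
  refine ⟨(τ • β τ, m τ, 0), 0, ⟨smul_ne_zero h4 h3, by simp, ?_⟩, by simpa using h2⟩
  simpa using h1

theorem Cj.lemA1 (hf : Q.DL f cf) (hH : Q.DL H cH) (hZ : Q.DL Z cZ) (f0 : f 0 = 0) (H0 : H 0 = 0)
    (Z0 : Z 0 = 0) (hs : ∀ v, Q.σ (H v) = -H v) (hc : cH 0 ≠ 0)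
    {A1 A2 : (L × L × K) × K → L} (h1 : ∀ x, AnalyticAt K A1 x) (h2 : ∀ x, AnalyticAt K A2 x)
    {p P : ℕ} (hp : 3 ≤ p) (hP : 3 ≤ P) : Q.Sol f H Z A1 A2 p P := by
  have : CompleteSpace L := FiniteDimensional.complete K L
  obtain ⟨β, m, hβ, hm, hβ0, hm0, h⟩ := Cj.curve hf hH f0 H0 hs hc
  obtain ⟨n, hn, hd⟩ := Q.dir (hH.skew hs).1 hc
  obtain ⟨b1, hb1⟩ : ∃ b1, b1 = Q.θ * Q.σ (cH 0) := ⟨_, rfl⟩
  rw [← hb1] at hd
  obtain ⟨y0, hy⟩ : ∃ y0 : K → L × L × K, y0 = fun τ => (τ • β τ, m τ, 0) := ⟨_, rfl⟩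
  have hy0 : AnalyticAt K y0 0 := hy ▸ (analyticAt_id.smul hβ).prod (hm.prod analyticAt_const)
  have hy00 : y0 0 = 0 := by simp [hy, hm0]
  have hz : AnalyticAt K (fun τ => Z (y0 τ)) 0 := (hZ.an _).comp hy0
  have hp0 : p ≠ 0 := by omega
  have hP0 : P ≠ 0 := by omega
  by_cases hev : ∀ᶠ τ in 𝓝 (0 : K), Z (y0 τ) = 0
  · obtain ⟨τ, ⟨⟨⟨e1, e2⟩, e3⟩, e5⟩, e4⟩ := ((((h.and (hβ.continuousAt.eventually_ne hβ0)).and
      hev).filter_mono nhdsWithin_le_nhds).and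
      (self_mem_nhdsWithin (a := (0 : K)) (s := {0}ᶜ))).exists
    rw [hy] at e5
    refine ⟨(τ • β τ, m τ, 0), 0, ⟨smul_ne_zero e4 e3, by simp, by simpa using e1⟩, ?_⟩
    simp [Cj.us, e2, e5, hp0, hP0]
  obtain ⟨j, U, hU, hU0, hZU⟩ := hz.exists_eventuallyEq_pow_smul_nonzero_iff.2 hev
  have hj : 1 ≤ j := by
    by_contra hj
    have := hZU.self_of_nhds
    rw [show j = 0 by omega, hy00, Z0, pow_zero, one_smul] at this
    exact hU0 this.symm
  obtain ⟨e, he⟩ : ∃ e, j * P * p = j + 1 + 2 * (j * P) + e := by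
    refine Nat.exists_eq_add_of_le ?_
    have a1 : j * 3 ≤ j * P := Nat.mul_le_mul_left _ hP
    have a2 : j * P * 3 ≤ j * P * p := Nat.mul_le_mul_left _ hp
    omega
  have hfa := hf.an
  obtain ⟨F1, hF1, hF2, -⟩ := hf
  obtain ⟨H1, hH1, hH2, hH3⟩ := hH
  obtain ⟨Z1, hZ1, hZ2, -⟩ := hZ
  let b : (K × L × K) × K → L := fun x => x.2 • β x.2 + x.2 ^ (j + 1) • x.1.1 • b1
  let D : (K × L × K) × K → L × L × K := fun x =>
    (x.1.1 • b1, x.1.2.1, x.1.2.2 * Q.sk (Q.θ * (b x * Q.σ (b x))))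
  let T : (K × L × K) × K → (L × L × K) × (L × L × K) × K := fun x => (y0 x.2, D x, x.2 ^ (j + 1))
  let v : (K × L × K) × K → L × L × K := fun x => y0 x.2 + x.2 ^ (j + 1) • D x
  let c : (K × L × K) × K → K := fun x => x.2 ^ (j + 1) * x.1.2.2
  let Ut : (K × L × K) × K → L := fun x => U x.2 + algebraMap K L x.2 * Z1 (T x)
  let Bq : (K × L × K) × K → L := fun x =>
    (Q.θ * algebraMap K L (c x) - 1 / 2) * Q.σ (b x) * Ut x ^ P
  have a2 : AnalyticAt K (fun x : (K × L × K) × K => x.2) (0, 0) := analyticAt_snd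
  have aw : AnalyticAt K (fun x : (K × L × K) × K => x.1.1) (0, 0) :=
    analyticAt_fst.comp analyticAt_fst
  have am : AnalyticAt K (fun x : (K × L × K) × K => x.1.2.1) (0, 0) :=
    analyticAt_fst.comp (analyticAt_snd.comp analyticAt_fst)
  have ac : AnalyticAt K (fun x : (K × L × K) × K => x.1.2.2) (0, 0) :=
    analyticAt_snd.comp (analyticAt_snd.comp analyticAt_fst)
  have aβ : AnalyticAt K (fun x : (K × L × K) × K => β x.2) (0, 0) := hβ.comp_of_eq a2 rfl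
  have ay : AnalyticAt K (fun x : (K × L × K) × K => y0 x.2) (0, 0) := hy0.comp_of_eq a2 rfl
  have aw1 : AnalyticAt K (fun x : (K × L × K) × K => x.1.1 • b1) (0, 0) :=
    aw.smul analyticAt_const
  have ab : AnalyticAt K b (0, 0) := (a2.smul aβ).add ((a2.pow _).smul aw1)
  have aD : AnalyticAt K D (0, 0) :=
    aw1.prod (am.prod (ac.mul (Q.an_sk (analyticAt_const.mul (ab.mul (Q.an_σ ab))))))
  have aT : AnalyticAt K T (0, 0) := ay.prod (aD.prod (a2.pow _))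
  have av : AnalyticAt K v (0, 0) := ay.add ((a2.pow _).smul aD)
  have acc : AnalyticAt K c (0, 0) := (a2.pow _).mul ac
  have aU : AnalyticAt K Ut (0, 0) :=
    (hU.comp_of_eq a2 rfl).add ((an_alg a2).mul ((hZ1 _).comp aT))
  have aB : AnalyticAt K Bq (0, 0) :=
    (((analyticAt_const.mul (an_alg acc)).sub analyticAt_const).mul (Q.an_σ ab)).mul (aU.pow _)
  have hr : Q.σ ((U 0 * Q.σ (U 0)) ^ P) = (U 0 * Q.σ (U 0)) ^ P := by
    rw [map_pow, map_mul, Q.σσ, mul_comm]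
  have hN : Q.sk (Q.θ * (U 0 * Q.σ (U 0)) ^ P) ≠ 0 := fun h => by
    have := Q.real hr
    rw [h, map_zero] at this
    exact pow_ne_zero _ (mul_ne_zero hU0 ((map_ne_zero Q.σ).2 hU0)) this.symm
  obtain ⟨E, hE⟩ : ∃ E : (K × L × K) × K → L × K × K, E = fun x =>
      (x.1.2.1 - Q.θ * algebraMap K L x.1.2.2 * Q.σ (f (v x)) * b x +
        (1 / 2) * (Q.σ (F1 (T x)) * b x + Q.σ (f (y0 x.2)) * x.1.1 • b1),
      Q.sk (H1 (T x)),
      x.2 ^ e * Q.sk (Bq x ^ p * A1 (v x, c x) + Q.σ (Bq x) ^ p * A2 (v x, c x)) -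
        x.1.2.2 * Q.sk (Q.θ * (Ut x * Q.σ (Ut x)) ^ P)) := ⟨_, rfl⟩
  have hE0 : ∀ y : K × L × K, E (y, 0) = (y.2.1, y.1 * n + Q.sk (cH 2 * y.2.1 + cH 3 * Q.σ y.2.1),
      -(y.2.2 * Q.sk (Q.θ * (U 0 * Q.σ (U 0)) ^ P))) := fun y => by
    have := hd 0 y.1 y.2.1
    rw [zero_smul, zero_add] at this
    simp [hE, b, D, T, v, c, Ut, Bq, hy00, f0, hH3, hp0, this]
  have key := MP_587b89_lc.ift2 (K := K) (E := E) (v0 := 0) (z0 := 0)
    (hE ▸ ((am.sub (((analyticAt_const.mul (an_alg ac)).mul (Q.an_σ ((hfa _).comp av))).mul ab)).add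
      (analyticAt_const.mul (((Q.an_σ ((hF1 _).comp aT)).mul ab).add
        ((Q.an_σ ((hfa _).comp ay)).mul aw1)))).prod ((Q.an_sk ((hH1 _).comp aT)).prod
      (((a2.pow _).mul (Q.an_sk (((aB.pow _).mul ((h1 _).comp (av.prod acc))).add
        (((Q.an_σ aB).pow _).mul ((h2 _).comp (av.prod acc)))))).sub
        (ac.mul (Q.an_sk (analyticAt_const.mul ((aU.mul (Q.an_σ aU)).pow _)))))))
    (fun w => ⟨((w.2.1 - Q.sk (cH 2 * w.1 + cH 3 * Q.σ w.1)) / n, w.1,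
      -w.2.2 / Q.sk (Q.θ * (U 0 * Q.σ (U 0)) ^ P)), lin_deriv fun t => by
      rw [hE0]
      refine Prod.ext (by simp) (Prod.ext ?_ ?_)
      · simp only [zero_add, Prod.smul_mk, smul_eq_mul, Prod.smul_fst, Prod.smul_snd]
        rw [map_smul, mul_smul_comm, mul_smul_comm, ← smul_add, map_smul, smul_eq_mul]
        field_simp
        ring
      · simp only [zero_add, Prod.smul_mk, smul_eq_mul, Prod.smul_snd]
        field_simp⟩)
    (Pr := fun x => β x.2 + x.2 ^ j • x.1.1 • b1 ≠ 0)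
    ((aβ.add ((a2.pow _).smul aw1)).continuousAt.eventually_ne (by simpa using hβ0))
  obtain ⟨τ, ⟨⟨⟨e1, e2⟩, y, e3, e5⟩, e6⟩, e4⟩ := ((((h.and key).and
      hZU).filter_mono nhdsWithin_le_nhds).and
      (self_mem_nhdsWithin (a := (0 : K)) (s := {0}ᶜ))).exists
  rw [hE0, hE] at e3
  simp only [Prod.fst_zero, Prod.snd_zero, zero_mul, map_zero, mul_zero, add_zero, neg_zero,
    Prod.mk.injEq] at e3
  obtain ⟨q1, q2, q3⟩ := e3
  have v1 : (v (y, τ)).1 = b (y, τ) := by simp [v, b, D, hy]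
  have fv : f (v (y, τ)) = f (y0 τ) + algebraMap K L (τ ^ (j + 1)) * F1 (T (y, τ)) := hF2 _ _ _
  have Hv : H (v (y, τ)) = 0 := by
    refine Q.sk_zero (hs _) ?_
    rw [show H (v (y, τ)) = H (y0 τ) + algebraMap K L (τ ^ (j + 1)) * H1 (T (y, τ)) from hH2 _ _ _,
      show H (y0 τ) = 0 by rw [hy]; exact e2, zero_add, Q.sk_alg, q2, mul_zero]
  have Zv : Z (v (y, τ)) = algebraMap K L τ ^ j * Ut (y, τ) := by
    rw [show Z (v (y, τ)) = Z (y0 τ) + algebraMap K L (τ ^ (j + 1)) * Z1 (T (y, τ)) from hZ2 _ _ _,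
      e6, sub_zero, Algebra.smul_def, map_pow, map_pow]
    simp only [Ut]
    ring
  refine ⟨v (y, τ), c (y, τ), ⟨?_, ?_, ?_⟩, ?_⟩
  · rw [v1, show b (y, τ) = τ • (β τ + τ ^ j • y.1 • b1) by
      simp only [b, smul_add, pow_succ', mul_smul]]
    exact smul_ne_zero e4 e5
  · rw [v1, ← Q.real (w := b (y, τ) * Q.σ (b (y, τ))) (by rw [map_mul, Q.σσ, mul_comm]),
      ← map_mul]
    congr 1
    simp [v, c, D, hy, mul_assoc]
  · have e7 : (v (y, τ)).2.1 = m τ + algebraMap K L (τ ^ (j + 1)) * y.2.1 := by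
      simp [v, D, hy, Algebra.smul_def]
    have e8 : b (y, τ) = τ • β τ + algebraMap K L (τ ^ (j + 1)) * y.1 • b1 := by
      simp only [b, Algebra.smul_def]
    have e9 : f (τ • β τ, m τ, 0) = f (y0 τ) := by rw [hy]
    rw [e9] at e1
    rw [v1, e7, show algebraMap K L (c (y, τ)) = algebraMap K L (τ ^ (j + 1)) *
      algebraMap K L y.2.2 from map_mul _ _ _]
    have e10 := congrArg Q.σ fv
    rw [map_add, map_mul, Q.σ_alg] at e10
    linear_combination e1 + algebraMap K L (τ ^ (j + 1)) * q1 + (1 / 2) * b (y, τ) * e10 +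
      (1 / 2) * Q.σ (f (y0 τ)) * e8
  · have e7 : Q.us Z P (v (y, τ)) (c (y, τ)) = algebraMap K L τ ^ (j * P) * Bq (y, τ) := by
      simp only [Cj.us, Zv, v1, Bq]
      ring_nf
    have e8 : H (v (y, τ)) ^ P + Q.us Z P (v (y, τ)) (c (y, τ)) ^ p * A1 (v (y, τ), c (y, τ)) +
        Q.σ (Q.us Z P (v (y, τ)) (c (y, τ))) ^ p * A2 (v (y, τ), c (y, τ)) -
        Q.θ * algebraMap K L (c (y, τ)) * (Z (v (y, τ)) * Q.σ (Z (v (y, τ)))) ^ P =
        algebraMap K L (τ ^ (j + 1 + 2 * (j * P))) * (algebraMap K L (τ ^ e) *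
          (Bq (y, τ) ^ p * A1 (v (y, τ), c (y, τ)) + Q.σ (Bq (y, τ)) ^ p * A2 (v (y, τ), c (y, τ))) -
          algebraMap K L y.2.2 * (Q.θ * (Ut (y, τ) * Q.σ (Ut (y, τ))) ^ P)) := by
      rw [Hv, e7, Zv, zero_pow hP0, show algebraMap K L (c (y, τ)) = algebraMap K L (τ ^ (j + 1)) *
        algebraMap K L y.2.2 from map_mul _ _ _]
      simp only [map_mul, map_pow, Q.σ_alg, mul_pow, ← pow_mul, he]
      ring
    rw [e8, Q.sk_alg, map_sub, Q.sk_alg, Q.sk_alg, q3, mul_zero]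

end Pool.Agent.Lib.MP_3fd6b0_co
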