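import Pool.Agent.Lib.MP_3fd6b0_co.An
import Pool.Agent.Lib.MP_3fd6b0_co.LocA
import Pool.Agent.Lib.MP_587b89_lc.Glue

/-!
Local solutions from the second order terms.
-/

set_option autoImplicit false
set_option linter.unusedSectionVars false
open Filter Topology

namespace Pool.Agent.Lib.MP_3fd6b0_co

lemma lb_deriv {K W : Type} [NontriviallyNormedField K] [NormedAddCommGroup W] [NormedSpace K W]
    {F : K → W} {w u : W} {n : ℕ} (hn : 2 ≤ n) (h : ∀ t, F t = t • w + t ^ n • u) :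
    HasDerivAt F w 0 := by
  rw [funext h]
  refine (((hasDerivAt_id' (0 : K)).smul_const w).fun_add
    ((hasDerivAt_pow n (0 : K)).smul_const u)).congr_deriv ?_
  simp [show n - 1 ≠ 0 by omega]

variable {K L : Type} [NontriviallyNormedField K] [NormedField L] [NormedAlgebra K L] {Q : Cj K L}
  {f g H Z : L × L × K → L} {cf cg cH cZ : Fin 5 → L}

lemma Cj.lb_half (Q : Cj K L) : Q.σ (1 / 2) = 1 / 2 := by rw [map_div₀, map_one, map_ofNat]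

theorem Cj.Sol0.bad (h : Q.Sol0 f g) : Q.BadR f g := by
  obtain ⟨v, c, ⟨h1, h2, h3⟩, h4⟩ := h
  have h5 := congrArg Q.σ h3
  rw [map_mul, map_mul, map_sub, map_mul, Q.σσ, Q.σθ, Q.σ_alg, Q.lb_half] at h5
  refine ⟨v, -f v, v.1, fun h => h1 (by rw [h]; rfl), Or.inr h1, by ring, ?_, ?_⟩
  · rw [h2, h5]; ring
  · rw [h4]
    linear_combination (-f v) * h3

lemma Cj.lb_co (Q : Cj K L) (c : Fin 5 → L) (b y : L) (k : K) :
    ∑ i, c i * Q.co (b, y, k) i = c 0 * b + c 1 * Q.σ b + c 2 * y + c 3 * Q.σ y +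
      c 4 * (Q.θ * algebraMap K L k) := by
  simp [Fin.sum_univ_five, Cj.co]

lemma Cj.lb_norm (Q : Cj K L) (b : L) : Q.σ (b * Q.σ b) = b * Q.σ b := by
  rw [map_mul, Q.σσ, mul_comm]

lemma Cj.lb_ne (Q : Cj K L) {w : L} (h : Q.σ w = w) (h0 : w ≠ 0) : Q.sk (Q.θ * w) ≠ 0 := fun e => by
  have := Q.real h
  rw [e, map_zero] at this
  exact h0 this.symm

/-- the free part of the point -/
def Cj.lbY (Q : Cj K L) (b0 f1 : L) (u : K × L) : L × K :=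
  (Q.θ * algebraMap K L u.1 * Q.σ f1 * b0 + u.2, u.1 * Q.sk (Q.θ * (b0 * Q.σ b0)))

/-- the point -/
def Cj.lbV (Q : Cj K L) (b0 f1 : L) (x : (K × L) × K) : L × L × K :=
  (x.2 • b0, x.2 ^ 2 • (-(Q.σ f1 * b0 / 2) + (Q.lbY b0 f1 x.1).1), x.2 ^ 2 * (Q.lbY b0 f1 x.1).2)

lemma Cj.lbY_an (Q : Cj K L) (b0 f1 : L) (x : (K × L) × K) :
    AnalyticAt K (fun x : (K × L) × K => (Q.lbY b0 f1 x.1).1) x ∧
      AnalyticAt K (fun x : (K × L) × K => (Q.lbY b0 f1 x.1).2) x :=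
  ⟨(((analyticAt_const.mul (an_alg (analyticAt_fst.comp analyticAt_fst))).mul
    analyticAt_const).mul analyticAt_const).add (analyticAt_snd.comp analyticAt_fst),
    (analyticAt_fst.comp analyticAt_fst).mul analyticAt_const⟩

lemma Cj.lbV_an (Q : Cj K L) (b0 f1 : L) (x : (K × L) × K) : AnalyticAt K (Q.lbV b0 f1) x :=
  (analyticAt_snd.smul analyticAt_const).prod
    (((analyticAt_snd.pow 2).smul (analyticAt_const.add (Q.lbY_an b0 f1 x).1)).prod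
      ((analyticAt_snd.pow 2).mul (Q.lbY_an b0 f1 x).2))

lemma Cj.lb2 {b0 f1 w0 w1 w2 : L} {W : L × L × K → L} {c : Fin 5 → L}
    (h : Q.J2 b0 (-(Q.σ f1 * b0 / 2)) W w0 w1 w2 c) :
    ∃ W' : (K × L) × K → L, (∀ x, AnalyticAt K W' x) ∧
      (∀ x, W (Q.lbV b0 f1 x) = w0 + algebraMap K L x.2 * w1 + algebraMap K L x.2 ^ 2 * W' x) ∧
      ∀ u, W' (u, 0) = w2 + (c 2 * (Q.lbY b0 f1 u).1 + c 3 * Q.σ (Q.lbY b0 f1 u).1 +
        c 4 * (Q.θ * algebraMap K L (Q.lbY b0 f1 u).2)) := by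
  obtain ⟨W3, h1, h2⟩ := h
  refine ⟨fun x => w2 + (c 2 * (Q.lbY b0 f1 x.1).1 + c 3 * Q.σ (Q.lbY b0 f1 x.1).1 +
    c 4 * (Q.θ * algebraMap K L (Q.lbY b0 f1 x.1).2)) +
    algebraMap K L x.2 * W3 (x.2, (Q.lbY b0 f1 x.1).1, (Q.lbY b0 f1 x.1).2), fun x => ?_,
    fun x => ?_, fun u => by simp⟩
  · obtain ⟨a1, a2⟩ := Q.lbY_an b0 f1 x
    exact (analyticAt_const.add (((analyticAt_const.mul a1).add
      (analyticAt_const.mul (Q.an_σ a1))).add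
      (analyticAt_const.mul (analyticAt_const.mul (an_alg a2))))).add
      ((an_alg analyticAt_snd).mul ((h1 _).comp (analyticAt_snd.prod (a1.prod a2))))
  · have := h2 x.2 (Q.lbY b0 f1 x.1)
    rw [Q.lb_co] at this
    rw [Cj.lbV, this, map_zero]
    ring

lemma Cj.lb1 {b0 f1 w1 w2 : L} {W : L × L × K → L} {c : Fin 5 → L}
    (h : Q.J2 b0 (-(Q.σ f1 * b0 / 2)) W 0 w1 w2 c) :
    ∃ W' : (K × L) × K → L, (∀ x, AnalyticAt K W' x) ∧
      (∀ x, W (Q.lbV b0 f1 x) = algebraMap K L x.2 * W' x) ∧ ∀ u, W' (u, 0) = w1 := by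
  obtain ⟨W', h1, h2, -⟩ := Cj.lb2 h
  exact ⟨fun x => w1 + algebraMap K L x.2 * W' x,
    fun x => analyticAt_const.add ((an_alg analyticAt_snd).mul (h1 x)),
    fun x => by rw [h2]; ring, fun u => by simp⟩

variable [CompleteSpace K] [FiniteDimensional K L]

/-- the first two equations together with one more scalar equation -/
lemma Cj.lb_core {b0 f1 f2 : L} (hb : b0 ≠ 0) (hf : Q.J2 b0 (-(Q.σ f1 * b0 / 2)) f 0 f1 f2 cf)
    {c0 : K} {E2 : (K × L) × K → K} (hE : AnalyticAt K E2 ((c0, 0), 0)) (h0 : E2 ((c0, 0), 0) = 0)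
    (hd : ∀ (y : L) (w : K), ∃ c : K,
      HasDerivAt (fun t : K => E2 ((c0 + t * c, t • y), 0)) w 0) :
    ∃ x : (K × L) × K, x.2 ≠ 0 ∧ Q.Eq12 f (Q.lbV b0 f1 x) x.1.1 ∧ E2 x = 0 := by
  have : CompleteSpace L := FiniteDimensional.complete K L
  obtain ⟨F, hF1, hF2, hF3⟩ := Cj.lb1 hf
  obtain ⟨E1, hE1⟩ : ∃ E1 : (K × L) × K → L, E1 = fun x => -(Q.σ f1 * b0 / 2) +
    (Q.lbY b0 f1 x.1).1 - (Q.θ * algebraMap K L x.1.1 - 1 / 2) * Q.σ (F x) * b0 := ⟨_, rfl⟩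
  have e0 : ∀ u : K × L, E1 (u, 0) = u.2 := fun u => by
    simp only [hE1, hF3, Cj.lbY]; ring
  have a1 : AnalyticAt K E1 ((c0, 0), 0) := hE1 ▸
    (analyticAt_const.add (Q.lbY_an b0 f1 _).1).sub
      ((((analyticAt_const.mul (an_alg (analyticAt_fst.comp analyticAt_fst))).sub
        analyticAt_const).mul (Q.an_σ (hF1 _))).mul analyticAt_const)
  have key := MP_587b89_lc.ift2 (K := K) (E := fun x => (E1 x, E2 x)) (v0 := (c0, 0)) (z0 := 0)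
    (a1.prod hE) (fun w => by
      obtain ⟨c, hc⟩ := hd w.1 w.2
      refine ⟨(c, w.1), HasDerivAt.prodMk (lin_deriv fun t => by simp [e0]) ?_⟩
      simpa using hc) (Pr := fun _ => True) (Eventually.of_forall fun _ => trivial)
  obtain ⟨τ, ⟨u, e1, -⟩, e2⟩ := ((key.filter_mono nhdsWithin_le_nhds).and
    (self_mem_nhdsWithin (a := (0 : K)) (s := {0}ᶜ))).exists
  obtain ⟨q1, q2⟩ := Prod.mk.inj e1
  rw [e0, hE1] at q1
  refine ⟨(u, τ), e2, ⟨smul_ne_zero e2 hb, ?_, ?_⟩, q2.trans h0⟩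
  · simp only [Cj.lbV, Cj.lbY, map_mul, map_pow, Q.real (Q.lb_norm b0), Algebra.smul_def, Q.σ_alg]
    ring
  · rw [hF2, map_mul, Q.σ_alg]
    simp only [Cj.lbV, Algebra.smul_def, map_pow] at q1 ⊢
    linear_combination algebraMap K L τ ^ 2 * q1

theorem Cj.lemB {b0 f1 f2 g2 : L} (hb : b0 ≠ 0)
    (hf : Q.J2 b0 (-(Q.σ f1 * b0 / 2)) f 0 f1 f2 cf) (hg : Q.J2 b0 (-(Q.σ f1 * b0 / 2)) g 0 0 g2 cg)
    (hs : ∀ v, Q.σ (g v) = -g v) (h3 : cg 3 = -Q.σ (cg 2)) (h4 : Q.σ (cg 4) = cg 4)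
    (hh : f1 * Q.σ f1 - cg 4 * (b0 * Q.σ b0) - cg 2 * Q.σ f1 * b0 - Q.σ (cg 2) * f1 * Q.σ b0 ≠ 0) :
    Q.Sol0 f g := by
  obtain ⟨F, hF1, hF2, hF3⟩ := Cj.lb1 hf
  obtain ⟨G, hG1, hG2, hG3⟩ := Cj.lb2 hg
  obtain ⟨h, hh0⟩ : ∃ h, h = f1 * Q.σ f1 - cg 4 * (b0 * Q.σ b0) - cg 2 * Q.σ f1 * b0 -
    Q.σ (cg 2) * f1 * Q.σ b0 := ⟨_, rfl⟩
  have hr : Q.σ h = h := by
    simp only [hh0, map_sub, map_mul, Q.σσ, h4]; ring
  have hn := Q.lb_ne hr (hh0 ▸ hh)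
  have e0 : ∀ u : K × L, Q.sk (G (u, 0) - Q.θ * algebraMap K L u.1 * (F (u, 0) * Q.σ (F (u, 0)))) =
      Q.sk g2 + Q.sk (cg 2 * u.2 + cg 3 * Q.σ u.2) - u.1 * Q.sk (Q.θ * h) := fun u => by
    rw [← Q.sk_alg, ← map_add, ← map_sub, hG3, hF3]
    congr 1
    simp only [Cj.lbY, map_add, map_mul, Q.real (Q.lb_norm b0), Q.σ_alg, Q.σσ, Q.σθ, hh0, h3]
    ring
  obtain ⟨x, x0, x1, x2⟩ := Cj.lb_core hb hf (c0 := Q.sk g2 / Q.sk (Q.θ * h))
    (E2 := fun x => Q.sk (G x - Q.θ * algebraMap K L x.1.1 * (F x * Q.σ (F x))))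
    (Q.an_sk ((hG1 _).sub ((analyticAt_const.mul (an_alg (analyticAt_fst.comp analyticAt_fst))).mul
      ((hF1 _).mul (Q.an_σ (hF1 _))))))
    (by rw [e0]; simp [hn])
    (fun y w => ⟨(Q.sk (cg 2 * y + cg 3 * Q.σ y) - w) / Q.sk (Q.θ * h), lin_deriv fun t => by
      rw [e0]
      simp only []
      rw [map_smul, mul_smul_comm, mul_smul_comm, ← smul_add, map_smul, smul_eq_mul, smul_eq_mul]
      field_simp
      ring⟩)
  refine ⟨_, _, x1, sub_eq_zero.1 (Q.sk_zero ?_ ?_)⟩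
  · rw [map_sub, hs, map_mul, map_mul, Q.σθ, Q.σ_alg, Q.lb_norm]; ring
  · have e : g (Q.lbV b0 f1 x) - Q.θ * algebraMap K L x.1.1 *
        (f (Q.lbV b0 f1 x) * Q.σ (f (Q.lbV b0 f1 x))) = algebraMap K L (x.2 ^ 2) *
        (G x - Q.θ * algebraMap K L x.1.1 * (F x * Q.σ (F x))) := by
      rw [hG2, hF2, map_mul, Q.σ_alg, map_pow]; ring
    rw [e, Q.sk_alg, x2, mul_zero]

theorem Cj.lemC (hf : Q.DL f cf) (hg : Q.DL g cg) (f0 : f 0 = 0) (g0 : g 0 = 0)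
    (hs : ∀ v, Q.σ (g v) = -g v) (e1 : cf 1 = 0) (e0 : cg 0 = 0)
    (e4 : cg 4 + cg 2 * Q.σ (cg 2) = (cf 0 - cg 2) * Q.σ (cf 0 - cg 2)) (hν : cf 0 ≠ cg 2) :
    Q.BadR f g := by
  have : CompleteSpace L := FiniteDimensional.complete K L
  obtain ⟨s1, s3, -⟩ := hg.skew hs
  rw [e0, map_zero, neg_zero] at s1
  obtain ⟨F1, hF1, hF2, hF3⟩ := hf
  obtain ⟨G1, hG1, hG2, hG3⟩ := hg
  let T : (L × L) × K → (L × L × K) × (L × L × K) × K := fun x => (0, (x.1.1, x.1.2, 1), x.2)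
  let M : (L × L) × K → L := fun x => x.1.2 + algebraMap K L x.2 * Q.σ (F1 (T x)) * x.1.1 * (1 / 2)
  have ab : ∀ x, AnalyticAt K (fun x : (L × L) × K => x.1.1) x := fun _ =>
    analyticAt_fst.comp analyticAt_fst
  have am : ∀ x, AnalyticAt K (fun x : (L × L) × K => x.1.2) x := fun _ =>
    analyticAt_snd.comp analyticAt_fst
  have aT : ∀ x, AnalyticAt K T x := fun x => analyticAt_const.prod
    (((ab x).prod ((am x).prod analyticAt_const)).prod analyticAt_snd)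
  have aM : ∀ x, AnalyticAt K M x := fun x => (am x).add ((((an_alg analyticAt_snd).mul
    (Q.an_σ ((hF1 _).comp (aT x)))).mul (ab x)).mul analyticAt_const)
  obtain ⟨E, hE⟩ : ∃ E : (L × L) × K → L × K, E = fun x => (x.1.1 * Q.σ (M x) + Q.θ * F1 (T x),
    Q.sk (Q.θ * (Q.θ * G1 (T x) + M x * Q.σ (M x)))) := ⟨_, rfl⟩
  obtain ⟨n, hn⟩ : ∃ n, n = 2 * Q.θ * (cf 0 - cg 2) := ⟨_, rfl⟩
  have n0 : n ≠ 0 := hn ▸ mul_ne_zero (mul_ne_zero Q.two Q.θ0) (sub_ne_zero.2 hν)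
  have n1 : Q.σ n ≠ 0 := (map_ne_zero Q.σ).2 n0
  have n2 : Q.σ n = -(2 * Q.θ * (Q.σ (cf 0) - Q.σ (cg 2))) := by
    rw [hn, map_mul, map_mul, map_sub, Q.σθ, map_ofNat]; ring
  obtain ⟨m0, hm⟩ : ∃ m0, m0 = -Q.θ * (Q.σ (cf 0) - 2 * Q.σ (cg 2)) := ⟨_, rfl⟩
  have m1 : Q.σ m0 = Q.θ * (cf 0 - 2 * cg 2) := by
    rw [hm, map_mul, map_neg, map_sub, map_mul, Q.σθ, Q.σσ, Q.σσ, map_ofNat]; ring
  obtain ⟨b0, hb⟩ : ∃ b0, b0 * n = -Q.θ * (cf 2 * m0 + cf 3 * Q.σ m0 + cf 4 * Q.θ) :=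
    ⟨_, div_mul_cancel₀ _ n0⟩
  rw [map_sub] at e4
  have hE0 : ∀ db dm : L, E ((b0 + db, m0 + dm), 0) =
      (db * n + (b0 * Q.σ dm + Q.θ * (cf 2 * dm + cf 3 * Q.σ dm)) + db * Q.σ dm,
        Q.sk (Q.θ * ((n * dm + Q.σ (n * dm)) * (1 / 2))) + Q.sk (Q.θ * (dm * Q.σ dm))) := by
    intro db dm
    have two := Q.two
    simp only [hE, M, T, hF3, hG3, Q.lb_co, map_zero, zero_mul, add_zero, map_one, mul_one, e1, e0,
      s1, s3, ← map_add Q.sk]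
    refine Prod.ext ?_ (congrArg Q.sk ?_)
    · simp only [map_add]
      linear_combination hb + (b0 + db) * m1 - (b0 + db) * hn
    · simp only [map_add, map_mul, m1, n2]
      rw [hm, hn]
      linear_combination Q.θ ^ 3 * e4 - Q.θ ^ 2 * ((cf 0 - cg 2) * dm -
        (Q.σ (cf 0) - Q.σ (cg 2)) * Q.σ dm) * mul_one_div_cancel two
  have key := MP_587b89_lc.ift2 (K := K) (E := E) (v0 := (b0, m0)) (z0 := 0)
    (hE ▸ (((ab _).mul (Q.an_σ (aM _))).add (analyticAt_const.mul ((hF1 _).comp (aT _)))).prod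
      (Q.an_sk (analyticAt_const.mul ((analyticAt_const.mul ((hG1 _).comp (aT _))).add
        ((aM _).mul (Q.an_σ (aM _)))))))
    (fun w => by
      obtain ⟨dm, hdm⟩ : ∃ dm, n * dm = algebraMap K L w.2 := ⟨_, mul_div_cancel₀ _ n0⟩
      obtain ⟨db, hdb⟩ : ∃ db, db * n =
        w.1 - (b0 * Q.σ dm + Q.θ * (cf 2 * dm + cf 3 * Q.σ dm)) := ⟨_, div_mul_cancel₀ _ n0⟩
      refine ⟨(db, dm), lb_deriv (u := (db * Q.σ dm, Q.sk (Q.θ * (dm * Q.σ dm)))) le_rfl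
        fun t => ?_⟩
      have two := Q.two
      rw [Prod.smul_mk, Prod.mk_add_mk, hE0]
      refine Prod.ext ?_ ?_
      · simp only [Prod.fst_add, Prod.smul_fst]
        simp only [Algebra.smul_def, map_mul, map_pow, Q.σ_alg]
        linear_combination algebraMap K L t * hdb
      · have a1 : Q.θ * ((n * t • dm + Q.σ (n * t • dm)) * (1 / 2)) =
            Q.θ * algebraMap K L (t * w.2) := by
          rw [mul_smul_comm, hdm, Algebra.smul_def, ← map_mul, Q.σ_alg]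
          field_simp
          ring
        have a2 : Q.θ * (t • dm * Q.σ (t • dm)) =
            algebraMap K L (t ^ 2) * (Q.θ * (dm * Q.σ dm)) := by
          rw [Algebra.smul_def, map_mul, Q.σ_alg, map_pow]; ring
        simp only [Prod.snd_add, Prod.smul_snd, smul_eq_mul]
        rw [a1, a2, Q.sk_θ, Q.sk_alg])
    (Pr := fun _ => True) (Eventually.of_forall fun _ => trivial)
  obtain ⟨τ, ⟨u, q, -⟩, t0⟩ := ((key.filter_mono nhdsWithin_le_nhds).and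
    (self_mem_nhdsWithin (a := (0 : K)) (s := {0}ᶜ))).exists
  have z := hE0 0 0
  simp only [add_zero, zero_mul, mul_zero, map_zero] at z
  rw [z, hE] at q
  obtain ⟨q1, q2⟩ := Prod.mk.inj q
  have t1 : algebraMap K L τ ≠ 0 := (map_ne_zero _).2 t0
  obtain ⟨v, hv⟩ : ∃ v : L × L × K, v = τ • (u.1, u.2, 1) := ⟨_, rfl⟩
  have fv : f v = algebraMap K L τ * F1 (T (u, τ)) := by
    have := hF2 0 (u.1, u.2, 1) τ
    rwa [zero_add, f0, zero_add, ← hv] at this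
  have gv : g v = algebraMap K L τ * G1 (T (u, τ)) := by
    have := hG2 0 (u.1, u.2, 1) τ
    rwa [zero_add, g0, zero_add, ← hv] at this
  have gs : Q.σ (G1 (T (u, τ))) = -G1 (T (u, τ)) := by
    have := hs v
    rw [gv, map_mul, Q.σ_alg, ← mul_neg] at this
    exact mul_left_cancel₀ t1 this
  have q3 : Q.θ * G1 (T (u, τ)) + M (u, τ) * Q.σ (M (u, τ)) = 0 := by
    rw [← Q.real (w := Q.θ * G1 (T (u, τ)) + M (u, τ) * Q.σ (M (u, τ)))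
      (by rw [map_add, Q.lb_norm, map_mul, gs, Q.σθ]; ring), q2, map_zero]
  have v1 : v.1 = algebraMap K L τ * u.1 := by rw [hv, ← Algebra.smul_def]; rfl
  have v2 : v.2.1 = algebraMap K L τ * u.2 := by rw [hv, ← Algebra.smul_def]; rfl
  have v3 : v.2.2 = τ := by rw [hv]; simp
  have M1 : M (u, τ) = u.2 + algebraMap K L τ * Q.σ (F1 (T (u, τ))) * u.1 * (1 / 2) := rfl
  have M2 : Q.σ (M (u, τ)) =
      Q.σ u.2 + algebraMap K L τ * F1 (T (u, τ)) * Q.σ u.1 * (1 / 2) := by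
    rw [M1, map_add, map_mul, map_mul, map_mul, Q.σσ, Q.σ_alg, Q.lb_half]
  refine ⟨v, Q.σ (M (u, τ)), Q.θ, fun h => t0 (by rw [← v3, h]; rfl), Or.inr Q.θ0, ?_, ?_, ?_⟩
  · rw [v1, fv]
    linear_combination algebraMap K L τ * q1
  · rw [v1, v2, v3, fv, map_mul, map_mul, Q.σ_alg]
    linear_combination Q.θ * algebraMap K L τ * M2
  · rw [v1, v2, fv, gv, map_mul, Q.σ_alg]
    linear_combination algebraMap K L τ * q3 - algebraMap K L τ * Q.σ (M (u, τ)) * M1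

theorem Cj.lemN {b0 f1 f2 ξ z2 : L} (hb : b0 ≠ 0)
    (hf : Q.J2 b0 (-(Q.σ f1 * b0 / 2)) f 0 f1 f2 cf) (hH : Q.J2 b0 (-(Q.σ f1 * b0 / 2)) H 0 0 0 cH)
    (hZ : Q.J2 b0 (-(Q.σ f1 * b0 / 2)) Z 0 ξ z2 cZ) (hξ : ξ ≠ 0)
    {A1 A2 : (L × L × K) × K → L} (h1 : ∀ x, AnalyticAt K A1 x) (h2 : ∀ x, AnalyticAt K A2 x)
    {p P : ℕ} (hp : 3 ≤ p) (hP : 3 ≤ P) : Q.Sol f H Z A1 A2 p P := by
  obtain ⟨Z', hZ1, hZ2, hZ3⟩ := Cj.lb1 hZ
  obtain ⟨H', hH1, hH2, hH3⟩ := Cj.lb2 hH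
  obtain ⟨e, he⟩ : ∃ e, (P + 1) * p = 2 * P + (e + 1) := by
    have a1 : (P + 1) * 3 ≤ (P + 1) * p := Nat.mul_le_mul_left _ hp
    exact ⟨(P + 1) * p - (2 * P + 1), by omega⟩
  have hn : Q.sk (Q.θ * (ξ * Q.σ ξ) ^ P) ≠ 0 := Q.lb_ne (by rw [map_pow, Q.lb_norm])
    (pow_ne_zero _ (mul_ne_zero hξ ((map_ne_zero Q.σ).2 hξ)))
  have ac : ∀ x, AnalyticAt K (fun x : (K × L) × K => x.1.1) x := fun _ =>
    analyticAt_fst.comp analyticAt_fst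
  let U : (K × L) × K → L := fun x => (Q.θ * algebraMap K L x.1.1 - 1 / 2) * Q.σ b0 * Z' x ^ P
  have aU : ∀ x, AnalyticAt K U x := fun x => (((analyticAt_const.mul (an_alg (ac x))).sub
    analyticAt_const).mul analyticAt_const).mul ((hZ1 x).pow _)
  have aV : ∀ x, AnalyticAt K (fun x : (K × L) × K => (Q.lbV b0 f1 x, x.1.1)) x := fun x =>
    (Q.lbV_an b0 f1 x).prod (ac x)
  have e0 : ∀ (t c : K) (y : L), H' ((t * c, t • y), 0) = algebraMap K L t * H' ((c, y), 0) := by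
    intro t c y
    simp only [hH3, Cj.lbY, map_add, map_mul, Algebra.smul_def, Q.σ_alg]
    ring
  obtain ⟨x, x0, x1, x2⟩ := Cj.lb_core hb hf (c0 := 0)
    (E2 := fun x => Q.sk (H' x ^ P + algebraMap K L x.2 ^ (e + 1) *
      (U x ^ p * A1 (Q.lbV b0 f1 x, x.1.1) + Q.σ (U x) ^ p * A2 (Q.lbV b0 f1 x, x.1.1)) -
      algebraMap K L x.1.1 * (Q.θ * (Z' x * Q.σ (Z' x)) ^ P)))
    (Q.an_sk ((((hH1 _).pow _).add (((an_alg analyticAt_snd).pow _).mul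
      ((((aU _).pow _).mul ((h1 _).comp (aV _))).add
        (((Q.an_σ (aU _)).pow _).mul ((h2 _).comp (aV _)))))).sub
      ((an_alg (ac _)).mul (analyticAt_const.mul (((hZ1 _).mul (Q.an_σ (hZ1 _))).pow _)))))
    (by simp [hH3, Cj.lbY, show P ≠ 0 by omega])
    (fun y w => ⟨-w / Q.sk (Q.θ * (ξ * Q.σ ξ) ^ P),
      lb_deriv (n := P) (u := Q.sk (H' ((-w / Q.sk (Q.θ * (ξ * Q.σ ξ) ^ P), y), 0) ^ P))
        (by omega) fun t => by
      simp only [zero_add, e0, hZ3, map_zero, zero_pow (Nat.succ_ne_zero e), zero_mul, add_zero,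
        mul_pow (algebraMap K L t), ← map_pow (algebraMap K L), map_sub, Q.sk_alg, smul_eq_mul]
      field_simp
      ring⟩)
  refine ⟨_, _, x1, ?_⟩
  have e7 : Q.us Z P (Q.lbV b0 f1 x) x.1.1 = algebraMap K L x.2 ^ (P + 1) * U x := by
    simp only [Cj.us, hZ2, U]
    simp only [Cj.lbV, Algebra.smul_def, map_mul, Q.σ_alg]
    ring
  have e8 : H (Q.lbV b0 f1 x) ^ P + Q.us Z P (Q.lbV b0 f1 x) x.1.1 ^ p * A1 (Q.lbV b0 f1 x, x.1.1) +
      Q.σ (Q.us Z P (Q.lbV b0 f1 x) x.1.1) ^ p * A2 (Q.lbV b0 f1 x, x.1.1) -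
      Q.θ * algebraMap K L x.1.1 * (Z (Q.lbV b0 f1 x) * Q.σ (Z (Q.lbV b0 f1 x))) ^ P =
      algebraMap K L (x.2 ^ (2 * P)) * (H' x ^ P + algebraMap K L x.2 ^ (e + 1) *
      (U x ^ p * A1 (Q.lbV b0 f1 x, x.1.1) + Q.σ (U x) ^ p * A2 (Q.lbV b0 f1 x, x.1.1)) -
      algebraMap K L x.1.1 * (Q.θ * (Z' x * Q.σ (Z' x)) ^ P)) := by
    rw [e7, hH2, hZ2, mul_zero, add_zero, zero_add]
    simp only [map_mul, map_pow, Q.σ_alg, mul_pow, ← pow_mul, he]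
    ring
  rw [e8, Q.sk_alg, x2, mul_zero]

end Pool.Agent.Lib.MP_3fd6b0_co
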