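import Pool.Agent.Lib.MP_3fd6b0_co.S2a
import Pool.Agent.Lib.MP_3fd6b0_co.Alg2

/-!
The two local obstructions of the inseparable case.
-/

set_option autoImplicit false
set_option linter.unusedSectionVars false
open MvPolynomial Filter Topology Finset

namespace Pool.Agent.Lib.MP_3fd6b0_co

variable {K L : Type} [NontriviallyNormedField K] [NormedField L] [NormedAlgebra K L] {Q : Cj K L}
  {E : Type} [Field E] {c : E →+* E} {ι : E →+* L} {f g w z ψ η zr ψr : MvPolynomial (Fin 5) E}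
  [CompleteSpace K] [FiniteDimensional K L] {γ : ℕ → ℕ → MvPolynomial (Fin 5) E}
  (p : ℕ) [Fact p.Prime] [CharP E p] [PerfectField E]

lemma Cj.three_le (Q : Cj K L) [CharP L p] : 3 ≤ p := by
  have h1 := (Fact.out : p.Prime).two_le
  by_contra h
  have h2 := CharP.cast_eq_zero L p
  rw [show p = 2 by omega] at h2
  exact Q.two (by exact_mod_cast h2)

lemma Cj.base (hι : ∀ x, ι (c x) = Q.σ (ι x)) [CharP L p] (r : ℕ) (u : MvPolynomial (Fin 5) E)
    (hw : w ≠ 0) : ∃ (s : L × L × K) (ru rb rk : L), Q.ev ι s w ≠ 0 ∧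
      ru ^ p ^ (r + 1) = Q.ev ι s u ∧ rb ^ p ^ (r + 1) = s.1 ∧
      rk ^ p ^ (r + 1) = Q.θ * algebraMap K L s.2.2 ∧ Q.σ rk = -rk := by
  obtain ⟨s, hs, h⟩ := Cj.dense_pow p hι (r + 1) hw
  obtain ⟨ru, hu⟩ := h u
  obtain ⟨rb, hb⟩ := h (X 0)
  obtain ⟨rk, hk⟩ := h (X 4)
  rw [Cj.ev_X] at hb hk
  refine ⟨s, ru, rb, rk, hs, hu, hb, hk, (iterateFrobenius L p (r + 1)).injective ?_⟩
  rw [map_neg, iterateFrobenius_def, iterateFrobenius_def, ← map_pow, hk]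
  show Q.σ (Q.θ * algebraMap K L s.2.2) = -(Q.θ * algebraMap K L s.2.2)
  rw [map_mul, Q.σθ, Q.σ_alg, neg_mul]

theorem Cj.aa_zero (hc : ∀ x, c (c x) = x) (hι : ∀ x, ι (c x) = Q.σ (ι x)) (hg : cj c g = -g)
    {r : ℕ} (hL : Lev c p r z ψ (eta c z ψ g) zr ψr γ)
    (h : ¬ Q.BadA (fun v => Q.ev ι v (z + ψ * X 0)) (fun v => Q.ev ι v g)) :
    aa c p r z ψ zr ψr γ = 0 := by
  have : CharP L p := charP_of_injective_ringHom ι.injective p
  have hp := Q.three_le p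
  by_contra ha
  obtain ⟨s, ru, rb, rk, hs, hu, hb, hk, hk'⟩ := Cj.base p hι r (uu z ψ) ha
  obtain ⟨f, hf⟩ : ∃ f, f = z + ψ * X 0 := ⟨_, rfl⟩
  rw [← hf] at h
  have D := fun a => Cj.DL_ev (f := f) hι s a
  have I := fun a => (D a).sub (Cj.DL.const (Q.ev ι s a))
  obtain ⟨A1, A2, h1, h2, hb⟩ := Cj.sol_bad hι hg hL hf (fun a => (D a).an) hu hb hk
  have dv := ((Cj.DL.const ru).sub ((Cj.DL.const (Q.σ rb)).mul (I zr))).add
    ((Cj.DL.const (-rk - rb * Q.σ rb * 2⁻¹)).mul (I ψr))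
  have dG := Cj.DL.sum (range (p ^ r)) fun i _ => Cj.DL.sum (range (p ^ r)) fun j _ =>
    ((D (γ i j)).mul (dv.pow (p * i))).mul (dv.conj.pow (p * j))
  have dH := (((((dG.sub (Cj.DL.const (Q.GG ι s f zr ψr ru rb rk γ p r 0))).add
    ((((Cj.DL.const (Q.σ (Q.ev ι s zr))).mul (D zr)).sub ((Cj.DL.const (Q.ev ι s zr)).mul
    (D zr).conj)).mul (Cj.DL.const 2⁻¹))).sub ((I ψr).mul (Cj.DL.const (Q.σ ru)))).add
    ((I ψr).conj.mul (Cj.DL.const ru))).sub ((((I ψr).conj.mul ((Cj.DL.const (Q.σ rb)).mul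
    (I zr))).sub ((I ψr).mul ((Cj.DL.const rb).mul (I zr).conj))).mul (Cj.DL.const 2⁻¹))).sub
    (((I ψr).mul (I ψr).conj).mul (Cj.DL.const rk))
  refine h (hb (Cj.lemA1 (I f) dH ((I zr).add ((Cj.DL.const rb).mul (I ψr))) (Cj.inc_zero f)
    Cj.HH_zero Cj.ZZ_zero (Cj.HH_skew hι hL.sym hk') (fun h0 => hs ?_) h1 h2 hp
    (hp.trans (Nat.le_self_pow (by omega) p))))
  let φ := iterateFrobenius L p (r + 1)
  have hφ : ∀ w, φ w = w ^ p ^ (r + 1) := fun w => iterateFrobenius_def _ _ _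
  have φσ : ∀ w, φ (Q.σ w) = Q.σ (φ w) := fun w => by rw [hφ, hφ, map_pow]
  have e : ∀ a, Q.ev ι s (XD c f (cj c a)) = Q.σ (Q.ev ι s (XB f a)) := fun a => by
    rw [← cj_XB, Cj.ev_cj hι]
  rw [← hφ] at hu
  have h3 := congrArg φ h0
  simp only [Cj.T_zero, sub_self, Nat.cast_mul, CharP.cast_eq_zero, zero_mul, zero_smul, smul_zero,
    mul_zero, sub_zero, add_zero, zero_add, map_zero, Pi.add_apply, Pi.sub_apply, Pi.smul_apply,
    Finset.sum_apply, Matrix.cons_val_zero, Matrix.cons_val_one, smul_eq_mul, Pi.zero_apply,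
    map_add, map_sub, map_sum, map_mul, map_pow, φσ, hu] at h3
  rw [aa, ← hf]
  simp only [map_add, map_sub, map_sum, map_mul, map_pow, ← hφ, Cj.ev_cj hι, e, φσ, Cj.ev_half]
  rw [← h3]
  congr 1
  · congr 1
    · congr 1
      · exact sum_congr rfl fun i _ => sum_congr rfl fun j _ => by ring

theorem Cj.YY_zero (hc : ∀ x, c (c x) = x) (hι : ∀ x, ι (c x) = Q.σ (ι x)) (hg : cj c g = -g)
    {r : ℕ} (hL : Lev c p r z ψ (eta c z ψ g) zr ψr γ) (hF : Flat c p r z ψ zr ψr γ)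
    (h : ¬ Q.BadA (fun v => Q.ev ι v (z + ψ * X 0)) (fun v => Q.ev ι v g)) {b : E} (hb : b ≠ 0) :
    YY c (z + ψ * X 0) b zr = 0 := by
  have : CharP L p := charP_of_injective_ringHom ι.injective p
  have hp := Q.three_le p
  by_contra ha
  obtain ⟨s, ru, rb, rk, hs, hu, hb', hk, hk'⟩ := Cj.base p hι r (uu z ψ) ha
  obtain ⟨f, hf⟩ : ∃ f, f = z + ψ * X 0 := ⟨_, rfl⟩
  obtain ⟨f1, f2, f3⟩ := hF
  rw [← hf] at h hs f1 f2 f3
  have D := fun a => Cj.J2_ev (f := f) hc hι s b a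
  have I := fun a => (D a).sub (Cj.J2.const (Q.ev ι s a))
  obtain ⟨A1, A2, h1, h2, hb'⟩ := Cj.sol_bad hι hg hL hf
    (fun a => (Cj.DL_ev (f := f) hι s a).an) hu hb' hk
  have dv := ((Cj.J2.const ru).sub ((Cj.J2.const (Q.σ rb)).mul (I zr))).add
    ((Cj.J2.const (-rk - rb * Q.σ rb * 2⁻¹)).mul (I ψr))
  have dG := Cj.J2.sum (range (p ^ r)) fun i _ => Cj.J2.sum (range (p ^ r)) fun j _ =>
    ((D (γ i j)).mul (dv.powp p hp i)).mul (dv.conj.powp p hp j)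
  have dH := (((((dG.sub (Cj.J2.const (Q.GG ι s f zr ψr ru rb rk γ p r 0))).add
    ((((Cj.J2.const (Q.σ (Q.ev ι s zr))).mul (D zr)).sub ((Cj.J2.const (Q.ev ι s zr)).mul
    (D zr).conj)).mul (Cj.J2.const 2⁻¹))).sub ((I ψr).mul (Cj.J2.const (Q.σ ru)))).add
    ((I ψr).conj.mul (Cj.J2.const ru))).sub ((((I ψr).conj.mul ((Cj.J2.const (Q.σ rb)).mul
    (I zr))).sub ((I ψr).mul ((Cj.J2.const rb).mul (I zr).conj))).mul (Cj.J2.const 2⁻¹))).sub
    (((I ψr).mul (I ψr).conj).mul (Cj.J2.const rk))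
  have one : ∀ a : ℕ → ℕ → L, (∀ i < p ^ r, ∀ j < p ^ r, (i ≠ 0 ∨ j ≠ 0) → a i j = 0) →
      ∑ i ∈ range (p ^ r), ∑ j ∈ range (p ^ r), a i j * ru ^ (p * i) * Q.σ ru ^ (p * j) = a 0 0 := by
    intro a ha
    have h0 : 0 ∈ range (p ^ r) := mem_range.2 (pow_pos (by omega) _)
    rw [sum_eq_single_of_mem 0 h0 fun i hi hi0 => sum_eq_zero fun j hj => by
      rw [ha i (mem_range.1 hi) j (mem_range.1 hj) (Or.inl hi0), zero_mul, zero_mul],
      sum_eq_single_of_mem 0 h0 fun j hj hj0 => by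
      rw [ha 0 (mem_range.1 h0) j (mem_range.1 hj) (Or.inr hj0), zero_mul, zero_mul]]
    simp
  have o1 := one (fun i j => Q.ev ι s (YY c f b (γ i j))) fun i hi j hj hij => by
    rw [f2 b i hi j hj hij, map_zero]
  have o2 := one (fun i j => Q.ev ι s (YY c f b (YY c f b (γ i j))) / 2) fun i hi j hj hij => by
    simp [f2 b i hi j hj hij]
  have g1 := congrArg (Q.ev ι s) (f3 b)
  have g2 := congrArg (fun a => Q.ev ι s (YY c f b a)) (f3 b)
  simp only [map_add, map_sub, map_mul, map_zero, Derivation.leibniz, smul_eq_mul,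
    MvPolynomial.derivation_C, mul_zero, add_zero, ← cj_YY hc, Cj.ev_cj hι, Cj.ev_half] at g1 g2
  have h2' := Q.two
  refine h (hb' (Cj.lemN ((map_ne_zero ι).2 hb)
    ((I f).congr (fun _ => rfl) (sub_self _).symm (sub_zero _).symm rfl fun _ => rfl)
    (dH.congr (fun _ => rfl) ?_ ?_ ?_ fun _ => rfl)
    (((I zr).add ((Cj.J2.const rb).mul (I ψr))).congr (fun _ => rfl) (by simp) (by simp [f1 b])
      rfl fun _ => rfl) hs h1 h2 hp (hp.trans (Nat.le_self_pow (by omega) p))))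
  · simp [Cj.GG, Cj.vp_zero, Cj.val_zero, mul_comm]
  · simp only [f1 b, map_zero, sub_self, mul_zero, zero_mul, add_zero, zero_add, sub_zero, o1]
    linear_combination -g1
  · simp only [f1 b, map_zero, sub_self, mul_zero, zero_mul, add_zero, zero_add, sub_zero, o2,
      zero_div, map_div₀, map_ofNat]
    linear_combination (-(2 : L)⁻¹) * g2

end Pool.Agent.Lib.MP_3fd6b0_co
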