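import Pool.Agent.Lib.MP_3fd6b0_co.Stage1
import Pool.Agent.Lib.MP_3fd6b0_co.Stage2
import Pool.Agent.Lib.MP_3fd6b0_co.Cmp

set_option autoImplicit false
set_option linter.unusedSectionVars false
open MvPolynomial Filter Topology

namespace Pool.Agent.Lib.MP_3fd6b0_co

theorem Cj.mainL {K L : Type} [NontriviallyNormedField K] [NormedField L] [NormedAlgebra K L]
    [CompleteSpace K] [FiniteDimensional K L] (Q : Cj K L) {E : Type} [Field E] [PerfectField E]
    {c : E →+* E} {ι : E →+* L} (hc : ∀ x, c (c x) = x) (hι : ∀ x, ι (c x) = Q.σ (ι x)) {θ : E}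
    (hθ : ι θ = Q.θ) (f g : MvPolynomial (Fin 5) E) (hg : cj c g = -g) :
    Q.BadA (fun v => Q.ev ι v f) (fun v => Q.ev ι v g) := by
  by_contra h
  obtain ⟨e0, eB, eμ⟩ := Cj.stage1 hc hι hθ hg h
  have h2 : (2 : E) ≠ 0 := fun e => Q.two (by rw [← map_ofNat ι 2, e, map_zero])
  have h0 : θ ≠ 0 := fun e => Q.θ0 (by rw [← hθ, e, map_zero])
  have hcθ : c θ = -θ := ι.injective (by rw [hι, map_neg, hθ, Q.σθ])
  have hr := rigid hc h2 hg e0 eB eμ
  generalize XD c f f = ψ at hr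
  obtain ⟨z, rfl⟩ : ∃ z, f = z + ψ * X 0 := ⟨f - ψ * X 0, by ring⟩
  rw [add_sub_cancel_right] at hr
  suffices hs : ∃ z0 ψ0 η0, z = C z0 ∧ ψ = C ψ0 ∧ SS c z0 ψ0 (eta c z ψ g) = C η0 by
    obtain ⟨z0, ψ0, η0, rfl, rfl, hS⟩ := hs
    exact h (Cj.bad_const hc hι hg hS)
  obtain ⟨p, hp⟩ := CharP.exists E
  rcases CharP.char_is_prime_or_zero E p with hpp | rfl
  · have : Fact p.Prime := ⟨hpp⟩
    refine lev_all p fun r => ?_
    induction r with
    | zero =>
      exact lev_zero hc p h2 (fun i => (hr i).2.1) (fun i => (hr i).1) (fun i => (hr i).2.2)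
        (eta_skew hc h2 hg)
    | succ r ih =>
      obtain ⟨zr, ψr, γ, hL⟩ := ih
      have hF := flat_of_aa p hc h2 hL (Cj.aa_zero p hc hι hg hL h)
      exact lev_succ p hc h2 h0 hcθ hL hF (Cj.YY_zero p hc hι hg hL hF h one_ne_zero)
        (Cj.YY_zero p hc hι hg hL hF h h0)
  · have : CharZero E := CharP.charP_to_charZero E
    obtain ⟨z0, hz⟩ := const_of_d fun i => (hr i).2.1
    obtain ⟨ψ0, hψ⟩ := const_of_d fun i => (hr i).1
    obtain ⟨η0, hη⟩ := const_of_d fun i => (hr i).2.2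
    refine ⟨z0, ψ0, η0, hz, hψ, ?_⟩
    rw [hη, SS, aeval_C, algebraMap_eq]

section real
variable {K L : Type} [NontriviallyNormedField K] [NormedField L] [NormedAlgebra K L] (Q : Cj K L)

/-- the real part -/
noncomputable def Cj.mkRe (w : L) : K := Q.sk (Q.θ * ((w + Q.σ w) / 2))

lemma Cj.mkAlgRe (w : L) : algebraMap K L (Q.mkRe w) = (w + Q.σ w) / 2 :=
  Q.real (by rw [map_div₀, map_add, Q.σσ, map_ofNat, add_comm])

lemma Cj.mkSk (w : L) : Q.θ * algebraMap K L (Q.sk w) = (w - Q.σ w) / 2 := by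
  have := Q.two
  rw [← Q.hsk]
  field_simp

lemma Cj.mkAdd (w : L) : algebraMap K L (Q.mkRe w) + Q.θ * algebraMap K L (Q.sk w) = w := by
  have := Q.two
  rw [Q.mkAlgRe, Q.mkSk]
  field_simp
  ring

lemma Cj.mkSub (w : L) : algebraMap K L (Q.mkRe w) - Q.θ * algebraMap K L (Q.sk w) = Q.σ w := by
  have := Q.two
  rw [Q.mkAlgRe, Q.mkSk]
  field_simp
  ring

lemma Cj.mkConj (a b : K) : Q.σ (algebraMap K L a + Q.θ * algebraMap K L b) =
    algebraMap K L a - Q.θ * algebraMap K L b := by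
  rw [map_add, map_mul, Q.σ_alg, Q.σ_alg, Q.σθ]
  ring

lemma Cj.mkZero {a b : K} (h : algebraMap K L a + Q.θ * algebraMap K L b = 0) :
    a = 0 ∧ b = 0 := by
  have h1 := Q.mkConj a b
  rw [h, map_zero] at h1
  have ha : (2 : L) * algebraMap K L a = 0 := by linear_combination h - h1
  have hb : (2 : L) * (Q.θ * algebraMap K L b) = 0 := by linear_combination h + h1
  exact ⟨by simpa [Q.two] using ha, by simpa [Q.two, Q.θ0] using hb⟩

/-- real coordinates of a point -/
noncomputable def Cj.mkC (v : L × L × K) : Fin 5 → K :=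
  ![Q.mkRe v.1, Q.sk v.1, Q.mkRe v.2.1, Q.sk v.2.1, v.2.2]

lemma Cj.mkInj {s t : L × L × K} (h : Q.mkC s = Q.mkC t) : s = t := by
  have h0 : Q.mkRe s.1 = Q.mkRe t.1 := congrFun h 0
  have h1 : Q.sk s.1 = Q.sk t.1 := congrFun h 1
  have h2 : Q.mkRe s.2.1 = Q.mkRe t.2.1 := congrFun h 2
  have h3 : Q.sk s.2.1 = Q.sk t.2.1 := congrFun h 3
  have h4 : s.2.2 = t.2.2 := congrFun h 4
  refine Prod.ext ?_ (Prod.ext ?_ h4)
  · rw [← Q.mkAdd s.1, h0, h1, Q.mkAdd]
  · rw [← Q.mkAdd s.2.1, h2, h3, Q.mkAdd]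

end real

/-- a real polynomial written in the split variables -/
noncomputable def splitP {F E : Type} [Field F] [Field E] (j : F →+* E) (θ : E) :
    MvPolynomial (Fin 5) F →+* MvPolynomial (Fin 5) E :=
  eval₂Hom (C.comp j) ![C 2⁻¹ * (X 0 + X 1), C (2 * θ)⁻¹ * (X 0 - X 1), C 2⁻¹ * (X 2 + X 3),
    C (2 * θ)⁻¹ * (X 2 - X 3), C θ⁻¹ * X 4]

lemma cj_splitP {F E : Type} [Field F] [Field E] (j : F →+* E) {θ : E} {c : E →+* E}
    (hj : ∀ a, c (j a) = j a) (hθ : c θ = -θ) (w : MvPolynomial (Fin 5) F) :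
    cj c (splitP j θ w) = splitP j θ w := by
  have : (cj c).comp (splitP j θ) = splitP j θ := by
    refine ringHom_ext (fun a => by simp [splitP, hj]) fun i => ?_
    fin_cases i <;> simp [splitP, hθ, map_ofNat, inv_neg, add_comm]
    · ring
    · ring
  exact RingHom.congr_fun this w

theorem Cj.badK {K L : Type} [NontriviallyNormedField K] [NormedField L] [NormedAlgebra K L]
    [CompleteSpace K] [FiniteDimensional K L] (Q : Cj K L) {F E : Type} [Field F] [Algebra F K]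
    [Field E] [PerfectField E] (j : F →+* E) {c : E →+* E} {ι : E →+* L} (hc : ∀ x, c (c x) = x)
    (hι : ∀ x, ι (c x) = Q.σ (ι x)) {θ : E} (hθ : ι θ = Q.θ)
    (hj : ∀ a, ι (j a) = algebraMap K L (algebraMap F K a)) {d : F}
    (hd : algebraMap K L (algebraMap F K d) = Q.θ ^ 2) (f : Fin 3 → MvPolynomial (Fin 5) F) :
    BadK K d f := by
  have hcθ : c θ = -θ := ι.injective (by rw [hι, map_neg, hθ, Q.σθ])
  have hcj : ∀ a, c (j a) = j a := fun a => ι.injective (by rw [hι, hj, Q.σ_alg])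
  have h2 := Q.two
  have h0 := Q.θ0
  have hev : ∀ v w, Q.ev ι v (splitP j θ w) = algebraMap K L (aeval (Q.mkC v) w) := by
    intro v w
    have : (Q.ev ι v).comp (splitP j θ) =
        (algebraMap K L).comp (aeval (Q.mkC v) : MvPolynomial (Fin 5) F →ₐ[F] K).toRingHom := by
      refine ringHom_ext (fun a => by simp [splitP, Cj.ev, hj]) fun i => ?_
      have a1 := Q.hsk v.1
      have a2 := Q.hsk v.2.1
      fin_cases i <;> simp [splitP, Cj.ev, Cj.co, Cj.mkC, hθ, map_ofNat, Q.mkAlgRe]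
      · ring
      · rw [← a1]; field_simp
      · ring
      · rw [← a2]; field_simp
      · field_simp
    exact RingHom.congr_fun this w
  obtain ⟨s, t, x1, x2, hst, hx, e0, e1, e2⟩ := Q.mainL hc hι hθ
    (splitP j θ (f 0) + C θ * splitP j θ (f 1)) (C θ * splitP j θ (f 2))
    (by rw [map_mul, cj_splitP j hcj hcθ, cj_C, hcθ, map_neg, neg_mul])
  have hC : ∀ v, Q.ev ι v (C θ) = Q.θ := fun v => by simp [Cj.ev, hθ]
  simp only [map_add (Q.ev ι _), map_mul (Q.ev ι _), hev, hC, Q.mkConj] at e0 e1 e2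
  refine ⟨Q.mkC s, Q.mkC t, ![Q.mkRe x1, Q.sk x1, Q.mkRe x2, Q.sk x2], fun e => hst (Q.mkInj e), ?_, ?_⟩
  · intro e
    have a0 : Q.mkRe x1 = 0 := congrFun e 0
    have a1 : Q.sk x1 = 0 := congrFun e 1
    have a2 : Q.mkRe x2 = 0 := congrFun e 2
    have a3 : Q.sk x2 = 0 := congrFun e 3
    rcases hx with hx | hx
    · exact hx (by rw [← Q.mkAdd x1, a0, a1]; simp)
    · exact hx (by rw [← Q.mkAdd x2, a2, a3]; simp)
  · have key : ∀ i, algebraMap K L (eqs (algebraMap F K d) (Q.mkC s) (fun i => aeval (Q.mkC s) (f i))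
        (Q.mkC t) (fun i => aeval (Q.mkC t) (f i)) ![Q.mkRe x1, Q.sk x1, Q.mkRe x2, Q.sk x2] i 0) +
        Q.θ * algebraMap K L (eqs (algebraMap F K d) (Q.mkC s) (fun i => aeval (Q.mkC s) (f i))
        (Q.mkC t) (fun i => aeval (Q.mkC t) (f i)) ![Q.mkRe x1, Q.sk x1, Q.mkRe x2, Q.sk x2] i 1) = 0 := by
      have r0 : ∀ v, Q.mkC v 0 = Q.mkRe v.1 := fun _ => rfl
      have r1 : ∀ v, Q.mkC v 1 = Q.sk v.1 := fun _ => rfl
      have r2 : ∀ v, Q.mkC v 2 = Q.mkRe v.2.1 := fun _ => rfl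
      have r3 : ∀ v, Q.mkC v 3 = Q.sk v.2.1 := fun _ => rfl
      have r4 : ∀ v, Q.mkC v 4 = v.2.2 := fun _ => rfl
      have y0 : ![Q.mkRe x1, Q.sk x1, Q.mkRe x2, Q.sk x2] 0 = Q.mkRe x1 := rfl
      have y1 : ![Q.mkRe x1, Q.sk x1, Q.mkRe x2, Q.sk x2] 1 = Q.sk x1 := rfl
      have y2 : ![Q.mkRe x1, Q.sk x1, Q.mkRe x2, Q.sk x2] 2 = Q.mkRe x2 := rfl
      have y3 : ![Q.mkRe x1, Q.sk x1, Q.mkRe x2, Q.sk x2] 3 = Q.sk x2 := rfl
      have hh : (2 : L) * 2⁻¹ = 1 := mul_inv_cancel₀ h2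
      intro i
      fin_cases i
      · refine (eqs_asm0 (algebraMap K L) hd _ _ _ _ _).trans ?_
        simp only [r0, r1, y0, y1, y2, y3, Q.mkAdd]
        exact e0
      · refine (eqs_asm1 (algebraMap K L) hd _ _ _ _ _).trans ?_
        simp only [r0, r1, r2, r3, r4, y0, y1, y2, y3, Q.mkAdd, Q.mkSub]
        linear_combination 2 * e1 + (t.1 * Q.σ t.1 - s.1 * Q.σ s.1) * x1 * hh
      · refine (eqs_asm2 (algebraMap K L) hd _ _ _ _ _).trans ?_
        simp only [r2, r3, y0, y1, y2, y3, Q.mkAdd]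
        field_simp at e2
        linear_combination e2
    intro i e
    fin_cases e
    · exact (Q.mkZero (key i)).1
    · exact (Q.mkZero (key i)).2

open QuadraticAlgebra in
theorem mainK (F K : Type) [Field F] [PerfectField F] [NontriviallyNormedField K] [CompleteSpace K]
    [IsUltrametricDist K] [Algebra F K] (d : F) (h2 : (2 : F) ≠ 0)
    (hd : ¬ IsSquare (algebraMap F K d)) (f : Fin 3 → MvPolynomial (Fin 5) F) : BadK K d f := by
  have fK : Fact (∀ r : K, r ^ 2 ≠ algebraMap F K d + 0 * r) :=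
    ⟨fun r e => hd ⟨r, by rw [← sq, e]; ring⟩⟩
  have fF : Fact (∀ r : F, r ^ 2 ≠ d + 0 * r) :=
    ⟨fun r e => hd ⟨algebraMap F K r, by rw [← map_mul, ← sq, e]; simp⟩⟩
  have h2K : (2 : K) ≠ 0 := fun e => h2 ((algebraMap F K).injective (by
    rw [map_ofNat, e, map_zero]))
  have : PerfectField (QuadraticAlgebra F d 0) := Algebra.IsAlgebraic.perfectField F
  let _i1 : NormedField (QuadraticAlgebra K (algebraMap F K d) 0) := spectralNorm.normedField K _
  let _i2 : NormedAlgebra K (QuadraticAlgebra K (algebraMap F K d) 0) := spectralNorm.normedAlgebra K _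
  let σ : QuadraticAlgebra K (algebraMap F K d) 0 →ₐ[K] QuadraticAlgebra K (algebraMap F K d) 0 :=
    { starRingEnd _ with
      commutes' := fun r => by ext <;> simp [starRingEnd_apply] }
  have hσ : ∀ x, σ x = star x := fun _ => rfl
  let Q : Cj K (QuadraticAlgebra K (algebraMap F K d) 0) :=
    { σ := σ
      θ := omega
      sk := LinearMap.toContinuousLinearMap (imₗ _ _)
      σσ := fun x => star_star x
      σθ := by rw [hσ]; ext <;> simp
      θ0 := fun e => by simpa using congrArg QuadraticAlgebra.im e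
      two := fun e => h2K (by simpa using congrArg QuadraticAlgebra.re e)
      hsk := fun w => by rw [hσ]; ext <;> simp; ring
      an := fun x => (LinearMap.toContinuousLinearMap σ.toLinearMap).analyticAt x }
  let ι : QuadraticAlgebra F d 0 →+* QuadraticAlgebra K (algebraMap F K d) 0 :=
    { toFun := fun z => ⟨algebraMap F K z.re, algebraMap F K z.im⟩
      map_one' := by ext <;> simp
      map_mul' := fun x y => by ext <;> simp
      map_zero' := by ext <;> simp
      map_add' := fun x y => by ext <;> simp }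
  refine Q.badK (algebraMap F (QuadraticAlgebra F d 0)) (c := starRingEnd _) (ι := ι) (θ := omega)
    (fun x => star_star x) (fun x => ?_) ?_ (fun a => ?_) ?_ f
  · change ι (star x) = star (ι x)
    ext <;> simp [ι]
  · change ι omega = omega
    ext <;> simp [ι]
  · ext <;> simp [ι]
  · change _ = (omega : QuadraticAlgebra K (algebraMap F K d) 0) ^ 2
    rw [sq, omega_mul_omega_eq_mk]
    rfl

end Pool.Agent.Lib.MP_3fd6b0_co
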