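import Pool.Agent.Lib.MP_3fd6b0_co.RDefs
import Pool.Agent.Lib.MP_3fd6b0_co.Defs
import Pool.Agent.Lib.MP_3fd6b0_co.Cmp

set_option autoImplicit false
set_option linter.unusedSectionVars false
open Module

namespace Pool.Agent.Lib.MP_3fd6b0_co

section coord
variable {K : Type} [Field K] {q : ℕ} (σ : K →+* K) (hσ : ∀ x : K, x ^ q = σ x)
  {e : Fin 5 → Fin 5 → K}

/-- the vector with given coordinates in the frame -/
def nfV (e : Fin 5 → Fin 5 → K) : (Fin 5 → K) →ₗ[K] (Fin 5 → K) := Fintype.linearCombination K e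

lemma nfV_apply (a : Fin 5 → K) :
    nfV e a = a 0 • e 0 + a 1 • e 1 + a 2 • e 2 + a 3 • e 3 + a 4 • e 4 := by
  simp [nfV, Fintype.linearCombination_apply, Fin.sum_univ_five]

/-- coordinates of a point of a line -/
def nfP (q : ℕ) (b m k f g a c : K) : Fin 5 → K :=
  ![a, c, (k - b ^ (q + 1) / 2) * a + (-m ^ q - b ^ q * f) * c,
    m * a + (g - f ^ (q + 1) / 2) * c, b * a + f * c]

lemma nfP_comb (b m k f g a c : K) :
    a • (e 0 + (k - b ^ (q + 1) / 2) • e 2 + m • e 3 + b • e 4) +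
      c • (e 1 + (-m ^ q - b ^ q * f) • e 2 + (g - f ^ (q + 1) / 2) • e 3 + f • e 4) =
      nfV e (nfP q b m k f g a c) := by
  rw [nfV_apply]
  simp only [nfP, Matrix.cons_val]
  module

lemma nf_mem {b m k f g : K} {x : Fin 5 → K} :
    x ∈ lineK q e b m k f g ↔ ∃ a c, nfV e (nfP q b m k f g a c) = x := by
  simp only [lineK, Submodule.mem_span_pair, nfP_comb]

lemma nf_memW {x : Fin 5 → K} :
    x ∈ Submodule.span K {e 2, e 3} ↔ ∃ a c, nfV e ![0, 0, a, c, 0] = x := by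
  simp [Submodule.mem_span_pair, nfV_apply]

include hσ

lemma nf_herm_self (x : Fin 5 → K) : ∑ j, x j ^ (q + 1) = herm q x x := by
  simp only [herm, pow_succ]

lemma nf_herm (he : Frame q e) (a b : Fin 5 → K) : herm q (nfV e a) (nfV e b) =
    σ (a 0) * b 2 + σ (a 1) * b 3 + σ (a 2) * b 0 + σ (a 3) * b 1 + σ (a 4) * b 4 := by
  have h : herm q (nfV e a) (nfV e b) = ∑ i, ∑ l, σ (a i) * b l * herm q (e i) (e l) := by
    simp only [herm, nfV, Fintype.linearCombination_apply, Finset.sum_apply, Pi.smul_apply,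
      smul_eq_mul, hσ, map_sum, map_mul]
    simp only [Finset.sum_mul_sum]
    simp only [Finset.mul_sum]
    rw [Finset.sum_comm]
    refine Finset.sum_congr rfl fun i _ => ?_
    rw [Finset.sum_comm]
    exact Finset.sum_congr rfl fun l _ => Finset.sum_congr rfl fun j _ => by ring
  rw [h]
  simp only [he _ _]
  simp [Fin.sum_univ_five]

lemma nfV_inj (he : Frame q e) : Function.Injective (nfV e) := by
  rw [injective_iff_map_eq_zero]
  intro a ha
  have h : ∀ b : Fin 5 → K,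
      σ (b 0) * a 2 + σ (b 1) * a 3 + σ (b 2) * a 0 + σ (b 3) * a 1 + σ (b 4) * a 4 = 0 :=
    fun b => by rw [← nf_herm σ hσ he, ha]; simp [herm]
  funext i
  fin_cases i
  · simpa using h ![0, 0, 1, 0, 0]
  · simpa using h ![0, 0, 0, 1, 0]
  · simpa using h ![1, 0, 0, 0, 0]
  · simpa using h ![0, 1, 0, 0, 0]
  · simpa using h ![0, 0, 0, 0, 1]

lemma nfV_surj (he : Frame q e) : Function.Surjective (nfV e) :=
  LinearMap.injective_iff_surjective.1 (nfV_inj σ hσ he)

lemma nf_rank (he : Frame q e) (b m k f g : K) : finrank K (lineK q e b m k f g) = 2 := by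
  have hli : LinearIndependent K ![e 0 + (k - b ^ (q + 1) / 2) • e 2 + m • e 3 + b • e 4,
      e 1 + (-m ^ q - b ^ q * f) • e 2 + (g - f ^ (q + 1) / 2) • e 3 + f • e 4] := by
    rw [LinearIndependent.pair_iff]
    intro a c h
    rw [nfP_comb, ← map_zero (nfV e)] at h
    have h' := nfV_inj σ hσ he h
    exact ⟨congrFun h' 0, congrFun h' 1⟩
  have := finrank_span_eq_card hli
  rwa [Matrix.range_cons_cons_empty] at this

lemma nf_iso (he : Frame q e) (hσσ : ∀ x, σ (σ x) = x) (h2 : (2 : K) ≠ 0) {b m k f g : K}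
    (hk : σ k = -k) (hg : σ g = -g) : IsGen q (lineK q e b m k f g) := by
  refine ⟨nf_rank σ hσ he _ _ _ _ _, fun x hx => ?_⟩
  obtain ⟨a, c, rfl⟩ := nf_mem.1 hx
  rw [nf_herm_self σ hσ, nf_herm σ hσ he]
  simp only [nfP, Matrix.cons_val, pow_succ, hσ, map_add, map_mul, map_sub, map_neg, map_div₀,
    hσσ, hk, hg, map_ofNat]
  field_simp
  ring

lemma nf_first (he : Frame q e) {b m k f g b' m' k' f' g' : K}
    (h : nfV e (nfP q b m k f g 1 0) ∈ lineK q e b' m' k' f' g') : b = b' ∧ m = m' ∧ k = k' := by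
  obtain ⟨a, c, h⟩ := nf_mem.1 h
  have h' := nfV_inj σ hσ he h
  obtain rfl : a = 1 := congrFun h' 0
  obtain rfl : c = 0 := congrFun h' 1
  have h2 := congrFun h' 2
  have h3 := congrFun h' 3
  have h4 := congrFun h' 4
  simp only [nfP, Matrix.cons_val, mul_one, mul_zero, add_zero] at h2 h3 h4
  subst h3 h4
  exact ⟨rfl, rfl, by linear_combination -h2⟩

/-- a line of the variety that misses the line at infinity has coordinates -/
lemma nf_form (he : Frame q e) (hσσ : ∀ x, σ (σ x) = x) (h2 : (2 : K) ≠ 0) {θ : K} (h0 : θ ≠ 0)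
    (hθ : σ θ = -θ) {U : Submodule K (Fin 5 → K)} (hU : IsGen q U)
    (hW : ∀ x ∈ U, x ∈ Submodule.span K {e 2, e 3} → x = 0) :
    ∃ b m k f g, σ k = -k ∧ σ g = -g ∧ U = lineK q e b m k f g := by
  have iso : ∀ a, nfV e a ∈ U → σ (a 0) * a 2 + σ (a 1) * a 3 + σ (a 2) * a 0 + σ (a 3) * a 1 +
      σ (a 4) * a 4 = 0 := fun a ha => by
    rw [← nf_herm σ hσ he, ← nf_herm_self σ hσ]
    exact hU.2 _ ha
  let Φ := LinearEquiv.ofBijective (nfV e) ⟨nfV_inj σ hσ he, nfV_surj σ hσ he⟩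
  have hΦ : ∀ x, nfV e (Φ.symm x) = x := fun x => Φ.apply_symm_apply x
  let π : U →ₗ[K] K × K := ((LinearMap.proj 0 : (Fin 5 → K) →ₗ[K] K).prod (LinearMap.proj 1)) ∘ₗ
    (Φ.symm : (Fin 5 → K) →ₗ[K] (Fin 5 → K)) ∘ₗ U.subtype
  have hπ : ∀ x : U, π x = (Φ.symm x 0, Φ.symm x 1) := fun _ => rfl
  have inj : Function.Injective π := by
    rw [injective_iff_map_eq_zero]
    intro x hx
    rw [hπ, Prod.mk_eq_zero] at hx
    have h := iso (Φ.symm x) (by rw [hΦ]; exact x.2)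
    rw [hx.1, hx.2] at h
    have h4 : Φ.symm x 4 = 0 := by simpa using h
    refine Subtype.ext (hW _ x.2 (nf_memW.2 ⟨Φ.symm x 2, Φ.symm x 3, ?_⟩))
    refine Eq.trans (congrArg _ ?_) (hΦ x)
    funext i
    fin_cases i <;> simp [hx.1, hx.2, h4]
  have surj : Function.Surjective π :=
    (LinearMap.injective_iff_surjective_of_finrank_eq_finrank (by simp [hU.1])).1 inj
  obtain ⟨x, hx⟩ := surj (1, 0)
  obtain ⟨y, hy⟩ := surj (0, 1)
  rw [hπ, Prod.mk.injEq] at hx hy
  have hxU : nfV e (Φ.symm x) ∈ U := by rw [hΦ]; exact x.2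
  have hyU : nfV e (Φ.symm y) ∈ U := by rw [hΦ]; exact y.2
  generalize Φ.symm x = a at hx hxU
  generalize Φ.symm y = c at hy hyU
  have e1 := iso a hxU
  have e2 := iso c hyU
  have e3 := iso (a + c) (by rw [map_add]; exact U.add_mem hxU hyU)
  have e4 := iso (a + θ • c) (by rw [map_add, map_smul]; exact U.add_mem hxU (U.smul_mem _ hyU))
  simp only [Pi.add_apply, Pi.smul_apply, smul_eq_mul, map_add, map_mul, hx.1, hx.2, hy.1, hy.2, hθ,
    map_one, map_zero] at e1 e2 e3 e4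
  have e5 : c 2 + σ (a 3) + σ (a 4) * c 4 = 0 := by
    apply mul_left_cancel₀ (mul_ne_zero h2 h0)
    linear_combination e4 - e1 + θ ^ 2 * e2 + θ * (e3 - e1 - e2)
  have hh : (2 : K) * 2⁻¹ = 1 := mul_inv_cancel₀ h2
  refine ⟨a 4, a 3, a 2 + a 4 ^ (q + 1) / 2, c 4, c 3 + c 4 ^ (q + 1) / 2, ?_, ?_, ?_⟩
  · simp only [pow_succ, hσ, map_add, map_mul, map_div₀, hσσ, map_ofNat]
    linear_combination e1 + σ (a 4) * a 4 * hh
  · simp only [pow_succ, hσ, map_add, map_mul, map_div₀, hσσ, map_ofNat]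
    linear_combination e2 + σ (c 4) * c 4 * hh
  · refine (Submodule.eq_of_le_of_finrank_eq (fun z hz => ?_)
      ((nf_rank σ hσ he _ _ _ _ _).trans hU.1.symm)).symm
    obtain ⟨s, t, rfl⟩ := nf_mem.1 hz
    have : nfP q (a 4) (a 3) (a 2 + a 4 ^ (q + 1) / 2) (c 4) (c 3 + c 4 ^ (q + 1) / 2) s t =
        s • a + t • c := by
      funext i
      fin_cases i <;> simp [nfP, hx.1, hx.2, hy.1, hy.2, hσ]
      · linear_combination -t * e5
      · ring
      · ring
    rw [this, map_add, map_smul, map_smul]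
    exact U.add_mem (U.smul_mem _ hxU) (U.smul_mem _ hyU)

end coord

variable {F K : Type} [Field F] [Fintype F] [Field K] [Algebra F K] (hK : finrank F K = 2)
  (hq : Odd (Fintype.card F)) {θ : K} (h0 : θ ≠ 0) (hθ : θ ^ Fintype.card F = -θ)
  {e : Fin 5 → Fin 5 → K} (he : Frame (Fintype.card F) e)

/-- the conjugation -/
def nfS (F K : Type) [Field F] [Fintype F] [Field K] [Algebra F K] : K →+* K :=
  (FiniteField.frobeniusAlgHom F K : K →+* K)

lemma nfS_eq (x : K) : x ^ Fintype.card F = nfS F K x := rfl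

lemma nfS_alg (a : F) : nfS F K (algebraMap F K a) = algebraMap F K a :=
  (FiniteField.frobeniusAlgHom F K).commutes a

include hq in
lemma nf_two : (2 : F) ≠ 0 := Ring.two_ne_zero fun h =>
  Nat.not_even_iff_odd.2 hq (Nat.even_iff.2 (FiniteField.even_card_iff_char_two.1 h))

include hq in
lemma nf_twoK : (2 : K) ≠ 0 := fun h => nf_two hq ((algebraMap F K).injective (by
  rw [map_ofNat, h, map_zero]))

include hθ in
lemma nf_conj (a b : F) : nfS F K (algebraMap F K a + θ * algebraMap F K b) =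
    algebraMap F K a - θ * algebraMap F K b := by
  rw [map_add, map_mul, nfS_alg, nfS_alg, ← nfS_eq, hθ]
  ring

include hθ in
lemma nf_skew (a : F) : nfS F K (θ * algebraMap F K a) = -(θ * algebraMap F K a) := by
  rw [map_mul, nfS_alg, ← nfS_eq, hθ, neg_mul]

include hq h0 hθ in
lemma nf_comp {a b a' b' : F}
    (h : algebraMap F K a + θ * algebraMap F K b = algebraMap F K a' + θ * algebraMap F K b') :
    a = a' ∧ b = b' := by
  have h1 := congrArg (nfS F K) h
  rw [nf_conj hθ, nf_conj hθ] at h1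
  have h2 : (2 : K) ≠ 0 := nf_twoK hq
  refine ⟨(algebraMap F K).injective (mul_left_cancel₀ h2 ?_),
    (algebraMap F K).injective (mul_left_cancel₀ (mul_ne_zero h2 h0) ?_)⟩
  · linear_combination h + h1
  · linear_combination h - h1

include hK hq h0 hθ

lemma nf_dec (x : K) : ∃ a b : F, x = algebraMap F K a + θ * algebraMap F K b := by
  have hli : LinearIndependent F ![(1 : K), θ] := by
    rw [LinearIndependent.pair_iff]
    intro a b h
    refine nf_comp hq h0 hθ ?_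
    simpa [Algebra.smul_def, mul_comm] using h
  have hsp := hli.span_eq_top_of_card_eq_finrank (by simp [hK])
  rw [Matrix.range_cons_cons_empty] at hsp
  obtain ⟨a, b, h⟩ := Submodule.mem_span_pair.1 (hsp ▸ Submodule.mem_top : x ∈ _)
  exact ⟨a, b, by rw [← h]; simp [Algebra.smul_def, mul_comm]⟩

lemma nf_invol (x : K) : nfS F K (nfS F K x) = x := by
  obtain ⟨a, b, rfl⟩ := nf_dec hK hq h0 hθ x
  rw [nf_conj hθ, map_sub, nfS_alg, nf_skew hθ, sub_neg_eq_add]

lemma nf_dec_skew {x : K} (h : nfS F K x = -x) : ∃ b : F, x = θ * algebraMap F K b := by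
  obtain ⟨a, b, rfl⟩ := nf_dec hK hq h0 hθ x
  rw [nf_conj hθ] at h
  refine ⟨b, mul_left_cancel₀ (nf_twoK hq) ?_⟩
  linear_combination h

theorem exists_d : (2 : F) ≠ 0 ∧ ∃ d : F, algebraMap F K d = θ ^ 2 ∧ ¬ IsSquare d := by
  have h2 : (2 : K) ≠ 0 := nf_twoK hq
  have hs : nfS F K θ = -θ := by rw [← nfS_eq, hθ]
  obtain ⟨a, b, h⟩ := nf_dec hK hq h0 hθ (θ ^ 2)
  have h1 := congrArg (nfS F K) h
  rw [nf_conj hθ, map_pow, hs] at h1
  have ha : algebraMap F K a = θ ^ 2 := mul_left_cancel₀ h2 (by linear_combination -h - h1)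
  refine ⟨nf_two hq, a, ha, ?_⟩
  rintro ⟨r, rfl⟩
  rw [map_mul, ← sq, sq_eq_sq_iff_eq_or_eq_neg] at ha
  have hr := nfS_alg (K := K) r
  refine mul_ne_zero h2 h0 ?_
  rcases ha with ha | ha
  · rw [ha, hs] at hr
    linear_combination -hr
  · rw [ha, map_neg, hs] at hr
    linear_combination hr

include he

theorem line_gen (s : Fin 5 → F) (u : Fin 3 → F) :
    IsGen (Fintype.card F) (line (Fintype.card F) θ e s u) :=
  nf_iso (nfS F K) nfS_eq he (nf_invol hK hq h0 hθ) (nf_twoK hq) (nf_skew hθ _) (nf_skew hθ _)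

/-- the first point of a line -/
lemma nf_pt (s : Fin 5 → F) : ∃ x : Fin 5 → K, x ∉ Submodule.span K {e 2, e 3} ∧
    (∀ u, x ∈ line (Fintype.card F) θ e s u) ∧
    ∀ t v, x ∈ line (Fintype.card F) θ e t v → s = t := by
  refine ⟨nfV e (nfP (Fintype.card F) (algebraMap F K (s 0) + θ * algebraMap F K (s 1))
    (algebraMap F K (s 2) + θ * algebraMap F K (s 3)) (θ * algebraMap F K (s 4)) 0 0 1 0),
    fun h => ?_, fun u => nf_mem.2 ⟨1, 0, congrArg _ ?_⟩, fun t v h => ?_⟩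
  · obtain ⟨a, c, h⟩ := nf_memW.1 h
    exact zero_ne_one (congrFun (nfV_inj (nfS F K) nfS_eq he h) 0 : (0 : K) = 1)
  · simp [nfP]
  · obtain ⟨e1, e2, e3⟩ := nf_first (nfS F K) nfS_eq he h
    have a1 := nf_comp hq h0 hθ e1
    have a2 := nf_comp hq h0 hθ e2
    have a3 := (algebraMap F K).injective (mul_left_cancel₀ h0 e3)
    funext i
    fin_cases i
    exacts [a1.1, a1.2, a2.1, a2.2, a3]

theorem line_inj {s t : Fin 5 → F} {u v : Fin 3 → F}
    (h : line (Fintype.card F) θ e s u = line (Fintype.card F) θ e t v) : s = t := by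
  obtain ⟨x, -, h1, h2⟩ := nf_pt hK hq h0 hθ he s
  exact h2 t v (h ▸ h1 u)

theorem line_meet {d : F} (hd : algebraMap F K d = θ ^ 2) {s t : Fin 5 → F} {u v : Fin 3 → F}
    {x : Fin 4 → F} (hx : x ≠ 0) (h : ∀ j i, eqs d s u t v x j i = 0) :
    line (Fintype.card F) θ e s u ⊓ line (Fintype.card F) θ e t v ≠ ⊥ := by
  have h2 : (2 : K) ≠ 0 := nf_twoK hq
  have hh : (2 : K) * 2⁻¹ = 1 := mul_inv_cancel₀ h2
  have e0 := eqs_asm0 (algebraMap F K) hd s t u v x
  have e1 := eqs_asm1 (algebraMap F K) hd s t u v x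
  have e2 := eqs_asm2 (algebraMap F K) hd s t u v x
  simp only [h, map_zero, mul_zero, add_zero] at e0 e1 e2
  refine (Submodule.ne_bot_iff _).2 ⟨_, Submodule.mem_inf.2
    ⟨nf_mem.2 ⟨algebraMap F K (x 0) + θ * algebraMap F K (x 1),
      algebraMap F K (x 2) + θ * algebraMap F K (x 3), rfl⟩,
    nf_mem.2 ⟨algebraMap F K (x 0) + θ * algebraMap F K (x 1),
      algebraMap F K (x 2) + θ * algebraMap F K (x 3), congrArg _ ?_⟩⟩, fun hz => hx ?_⟩
  · funext i
    fin_cases i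
    · rfl
    · rfl
    · simp only [nfP, Fin.reduceFinMk, Matrix.cons_val, pow_succ, nfS_eq, nf_conj hθ]
      apply mul_left_cancel₀ h2
      field_simp
      linear_combination -e1
    · simp only [nfP, Fin.reduceFinMk, Matrix.cons_val, pow_succ, nfS_eq, nf_conj hθ]
      apply mul_left_cancel₀ h2
      field_simp
      linear_combination -e2
    · simp only [nfP, Fin.reduceFinMk, Matrix.cons_val]
      linear_combination -e0
  · rw [← map_zero (nfV e)] at hz
    have h' := nfV_inj (nfS F K) nfS_eq he hz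
    have a1 := nf_comp (a' := 0) (b' := 0) hq h0 hθ ((congrFun h' 0).trans (by simp))
    have a2 := nf_comp (a' := 0) (b' := 0) hq h0 hθ ((congrFun h' 1).trans (by simp))
    funext i
    fin_cases i
    exacts [a1.1, a1.2, a2.1, a2.2]

theorem normal_form {S : Set (Submodule K (Fin 5 → K))} (hS : IsSpread (Fintype.card F) S)
    (h : Submodule.span K {e 2, e 3} ∈ S) : ∃ φ : (Fin 5 → F) → Fin 3 → F,
    S = insert (Submodule.span K {e 2, e 3})
      (Set.range fun s => line (Fintype.card F) θ e s (φ s)) := by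
  have uniq : ∀ U ∈ S, ∀ V ∈ S, ∀ x, x ≠ 0 → x ∈ U → x ∈ V → U = V := fun U hU V hV x hx h1 h2 =>
    (hS.2 x hx ((hS.1 U hU).2 x h1)).unique ⟨hU, h1⟩ ⟨hV, h2⟩
  have form : ∀ U ∈ S, U ≠ Submodule.span K {e 2, e 3} →
      ∃ (s : Fin 5 → F) (u : Fin 3 → F), U = line (Fintype.card F) θ e s u := by
    intro U hU hne
    obtain ⟨b, m, k, f, g, hk, hg, rfl⟩ := nf_form (nfS F K) nfS_eq he (nf_invol hK hq h0 hθ)
      (nf_twoK hq) h0 (by rw [← nfS_eq, hθ]) (hS.1 U hU) fun x h1 h2 => by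
        by_contra hx
        exact hne (uniq _ hU _ h x hx h1 h2)
    obtain ⟨s0, s1, rfl⟩ := nf_dec hK hq h0 hθ b
    obtain ⟨s2, s3, rfl⟩ := nf_dec hK hq h0 hθ m
    obtain ⟨s4, rfl⟩ := nf_dec_skew hK hq h0 hθ hk
    obtain ⟨u0, u1, rfl⟩ := nf_dec hK hq h0 hθ f
    obtain ⟨u2, rfl⟩ := nf_dec_skew hK hq h0 hθ hg
    exact ⟨![s0, s1, s2, s3, s4], ![u0, u1, u2], rfl⟩
  have ex : ∀ s : Fin 5 → F, ∃ u, line (Fintype.card F) θ e s u ∈ S := by
    intro s
    obtain ⟨x, hW, h1, h2⟩ := nf_pt hK hq h0 hθ he s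
    obtain ⟨U, hU, hx⟩ := (hS.2 x (fun hz => hW (hz ▸ Submodule.zero_mem _))
      ((line_gen hK hq h0 hθ he s 0).2 x (h1 0))).exists
    obtain ⟨t, v, rfl⟩ := form U hU fun hz => hW (hz ▸ hx)
    obtain rfl := h2 t v hx
    exact ⟨v, hU⟩
  choose φ hφ using ex
  refine ⟨φ, Set.ext fun U => ⟨fun hU => ?_, ?_⟩⟩
  · by_cases hne : U = Submodule.span K {e 2, e 3}
    · exact Or.inl hne
    · obtain ⟨s, u, rfl⟩ := form U hU hne
      obtain ⟨x, hW, h1, -⟩ := nf_pt hK hq h0 hθ he s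
      exact Or.inr ⟨s, uniq _ (hφ s) _ hU x (fun hz => hW (hz ▸ Submodule.zero_mem _))
        (h1 _) (h1 _)⟩
  · rintro (rfl | ⟨s, rfl⟩)
    exacts [h, hφ s]

end Pool.Agent.Lib.MP_3fd6b0_co
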