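import Pool.Agent.Lib.MP_3fd6b0_co.WLow
import Pool.Agent.Lib.MP_587b89_lc.Weil

/-!
Rational points of plane curves over large finite fields.
-/

set_option autoImplicit false
set_option linter.unusedSectionVars false
set_option linter.overlappingInstances false
open Polynomial Module Pool.Agent.Lib.MP_587b89_lc Pool.Agent.Lib.MP_587b89_lc.Lin

namespace Pool.Agent.Lib.MP_3fd6b0_co

lemma PW_ext {E L K : Type} [Field E] [Field L] [Field K] [Algebra E L] (j : E →+* K) {Q : E[X]}
    (hQ : Irreducible Q) (hm : Q.Monic) [hs : IsSplittingField E L Q] (hj : (Q.map j).Splits)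
    {x : L} (hx : aeval x Q = 0) {y : K} (hy : (Q.map j).eval y = 0) :
    ∃ φ : L →+* K, (∀ a, φ (algebraMap E L a) = j a) ∧ φ x = y := by
  let _ := j.toAlgebra
  obtain ⟨φ, hφ⟩ := IntermediateField.exists_algHom_of_adjoin_splits_of_aeval (F := E) (K := K)
    (S := Q.rootSet L) (x := x) (y := y) (fun s hs => by
      have h1 := (mem_rootSet_of_ne hm.ne_zero).1 hs
      refine ⟨⟨Q, hm, h1⟩, ?_⟩
      rw [← minpoly.eq_of_irreducible_of_monic hQ h1 hm]
      exact hj) (isSplittingField_iff_intermediateField.1 hs).2 (by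
      rw [← minpoly.eq_of_irreducible_of_monic hQ hx hm, aeval_def, ← eval_map]
      exact hy)
  exact ⟨φ, φ.commutes, hφ⟩

lemma PW_rank {E L : Type} [Field E] [Field L] [Algebra E L] {Q : E[X]} (hQ : Q.Separable)
    [IsSplittingField E L Q] {D : ℕ} (hD : Q.natDegree ≤ D) : finrank E L ≤ (D + 1) ^ D := by
  classical
  have := IsSplittingField.finiteDimensional L Q
  have := IsGalois.of_separable_splitting_field (E := L) hQ
  have h1 := card_rootSet_eq_natDegree hQ (IsSplittingField.splits L Q)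
  rw [← IsGalois.card_aut_eq_finrank]
  refine (Nat.card_le_card_of_injective (β := Q.rootSet L → Q.rootSet L)
    (fun σ a => ⟨σ a, rootSet_mapsTo σ.toAlgHom a.2⟩) fun σ τ h => ?_).trans ?_
  · refine AlgEquiv.coe_toAlgHom_injective
      (AlgHom.ext_of_adjoin_eq_top (IsSplittingField.adjoin_rootSet L Q) fun a ha => ?_)
    exact congrArg Subtype.val (congrFun h ⟨a, ha⟩)
  · rw [Nat.card_eq_fintype_card, Fintype.card_fun, h1]
    exact (Nat.pow_le_pow_left (by omega) _).trans (Nat.pow_le_pow_right (by omega) hD)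

lemma PW_fix {F k : Type} [Field F] [Fintype F] [Field k] [Algebra F k] {a : k}
    (h : a ^ Fintype.card F = a) : ∃ x, algebraMap F k x = a := by
  have h1 := (FiniteField.isSplittingField_sub F F).splits
  rw [Algebra.algebraMap_self, Polynomial.map_id] at h1
  exact h1.mem_range_of_isRoot (i := algebraMap F k)
    (FiniteField.X_pow_card_sub_X_ne_zero _ Fintype.one_lt_card) (by simp [h])

section
variable {k L : Type} [Field k] [Field L] [Algebra k[X] L] [Algebra k L] [IsScalarTower k k[X] L]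

lemma PW_root {P : k[X][X]} (hP : P.Monic) (h0 : P.natDegree ≠ 0) {D : ℕ}
    (hc : ∀ i, (P.coeff i).natDegree ≤ D) {y : L} (hy : aeval y P = 0) : Sm k D y := by
  refine ⟨⟨P, hP, hy⟩, ?_⟩
  have hm := hP.map (algebraMap k[X] L)
  refine IsIntegral.of_aeval_monic_of_isIntegral_coeff
    ((monic_scaleRoots_iff ((algebraMap k[X] L X)⁻¹ ^ D)).2 hm)
    (by rwa [natDegree_scaleRoots, hP.natDegree_map]) ?_ fun i => ?_
  · rw [mul_comm, scaleRoots_eval_mul, eval_map, ← aeval_def, hy, mul_zero]
    exact isIntegral_zero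
  · rw [coeff_scaleRoots, hP.natDegree_map, coeff_map]
    rcases lt_trichotomy i P.natDegree with h | h | h
    · obtain ⟨m, hm⟩ : ∃ m, P.natDegree - i = m + 1 := ⟨P.natDegree - i - 1, by omega⟩
      rw [hm, pow_succ', ← mul_assoc]
      exact (WLow_poly (hc i)).2.mul (int_of_mem (pow_mem (pow_mem inv_mem _) _))
    · rw [h, hP.coeff_natDegree, Nat.sub_self, pow_zero, map_one, mul_one]
      exact isIntegral_one
    · rw [coeff_eq_zero_of_natDegree_lt h, map_zero, zero_mul]
      exact isIntegral_zero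

variable [Algebra (FractionRing k[X]) L] [IsScalarTower k[X] (FractionRing k[X]) L]
  [IsScalarTower k (FractionRing k[X]) L]

lemma PW_prim [Infinite k] [FiniteDimensional (FractionRing k[X]) L]
    [IsGalois (FractionRing k[X]) L] {D : ℕ} {S : Set L} (hS : ∀ x ∈ S, Sm k D x)
    (htop : Algebra.adjoin (FractionRing k[X]) S = ⊤) :
    ∃ y : L, Sm k D y ∧ Algebra.adjoin (FractionRing k[X]) {y} = ⊤ := by
  let V : Submodule k L :=
    { carrier := {f | Sm k D f}
      add_mem' := fun ha hb => ha.add hb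
      zero_mem' := sm_zero D
      smul_mem' := fun a f hf => by
        show Sm k D (a • f)
        rw [Algebra.smul_def]
        simpa using (sm_const a).mul hf }
  obtain ⟨y, hy⟩ := Submodule.exists_forall_notMem_of_forall_ne_top
    (fun ψ : {ψ : L →ₐ[FractionRing k[X]] L // ψ ≠ AlgHom.id _ _} =>
      LinearMap.eqLocus ((ψ.1.toLinearMap.restrictScalars k).comp V.subtype) V.subtype)
    (fun ψ h => ψ.2 (AlgHom.ext_of_adjoin_eq_top htop fun a ha => by
      have : (⟨a, hS a ha⟩ : V) ∈ LinearMap.eqLocus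
        ((ψ.1.toLinearMap.restrictScalars k).comp V.subtype) V.subtype := h ▸ Submodule.mem_top
      exact this))
  refine ⟨y, y.2, ?_⟩
  have h1 := (Field.primitive_element_iff_algHom_eq_of_eval (FractionRing k[X]) L
    (fun x => Normal.splits inferInstance x) (y : L) (AlgHom.id _ _)).2 fun ψ hψ => by
      by_contra hne
      exact hy ⟨ψ, Ne.symm hne⟩ hψ.symm
  rw [← IntermediateField.adjoin_simple_toSubalgebra_of_isAlgebraic
    (Algebra.IsAlgebraic.isAlgebraic _), h1, IntermediateField.top_toSubalgebra]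

end

/-- rational points of absolutely irreducible plane curves of bounded degree -/
theorem plane_weil (D : ℕ) : ∃ q0 : ℕ, ∀ (F : Type) [Field F] [Fintype F], q0 ≤ Fintype.card F →
    ∀ P : F[X][X], P.Monic → P.natDegree ≤ D → (∀ i, (P.coeff i).natDegree ≤ D) →
    derivative P ≠ 0 → Irreducible (P.map (mapRingHom (algebraMap F (AlgebraicClosure F)))) →
    ∀ δ : F[X], δ ≠ 0 → δ.natDegree ≤ D → ∃ x y : F, P.evalEval x y = 0 ∧ δ.eval x ≠ 0 := by
  obtain ⟨q0, H⟩ := weilQ ((D + 1) ^ D) D D
  refine ⟨q0, fun F _ _ hq P hP hD hc hd hirr δ hδ hδD => ?_⟩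
  obtain ⟨p, hp⟩ := CharP.exists F
  obtain ⟨n, hpp, hcard⟩ := FiniteField.card F p
  have : Fact p.Prime := ⟨hpp⟩
  let k := AlgebraicClosure F
  let E := FractionRing k[X]
  obtain ⟨Pk, hPk⟩ : ∃ Pk : k[X][X], Pk = P.map (mapRingHom (algebraMap F k)) := ⟨_, rfl⟩
  have hirr' : Irreducible Pk := hPk ▸ hirr
  have hm : Pk.Monic := hPk ▸ hP.map _
  have hinj : Function.Injective (mapRingHom (algebraMap F k)) :=
    map_injective _ (algebraMap F k).injective
  obtain ⟨Q, hQ⟩ : ∃ Q : E[X], Q = Pk.map (algebraMap k[X] E) := ⟨_, rfl⟩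
  have hQm : Q.Monic := hQ ▸ hm.map _
  have hQi : Irreducible Q := hQ ▸ hm.irreducible_iff_irreducible_map_fraction_map.1 hirr'
  have hQs : Q.Separable := (separable_iff_derivative_ne_zero hQi).2 (by
    rw [hQ, hPk, derivative_map, derivative_map]
    exact (Polynomial.map_ne_zero_iff (IsFractionRing.injective _ _)).2
      ((Polynomial.map_ne_zero_iff hinj).2 hd))
  have hQd : Q.natDegree = Pk.natDegree := by rw [hQ, hm.natDegree_map]
  have hQD : Q.natDegree ≤ D := by rw [hQd, hPk, hP.natDegree_map]; exact hD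
  let L := Q.SplittingField
  have : IsScalarTower k k[X] L := IsScalarTower.to₁₂₄ k k[X] E L
  have : IsGalois E L := IsGalois.of_separable_splitting_field hQs
  have hroot : ∀ y : L, aeval y Q = 0 → aeval y Pk = 0 := fun y hy =>
    (aeval_map_algebraMap E y Pk).symm.trans ((congrArg (aeval y) hQ).symm.trans hy)
  have hsm : ∀ y : L, aeval y Q = 0 → Sm k D y := fun y hy =>
    PW_root hm (hQd ▸ hQi.natDegree_pos.ne') (fun i => by
      rw [hPk, coeff_map]
      exact natDegree_map_le.trans (hc i)) (hroot y hy)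
  obtain ⟨y, hy, htop⟩ := PW_prim (k := k) (L := L) (D := D) (S := Q.rootSet L)
    (fun x hx => hsm x ((mem_rootSet_of_ne hQm.ne_zero).1 hx)) (SplittingField.adjoin_rootSet Q)
  obtain ⟨y0, hy0⟩ := (SplittingField.splits Q).exists_eval_eq_zero (by
    rw [degree_map]; exact (degree_pos_of_irreducible hQi).ne')
  have hy0' : aeval y0 Q = 0 := by rwa [eval_map, ← aeval_def] at hy0
  let τ := iterateFrobenius k p n
  have hτ : ∀ c : F, τ (algebraMap F k c) = algebraMap F k c := fun c => by
    rw [iterateFrobenius_def, ← map_pow, ← hcard, FiniteField.pow_card]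
  have hg : Function.Injective ((algebraMap k[X] L).comp (mapRingHom τ)) :=
    inj_L.comp (map_injective _ τ.injective)
  let j : E →+* L := IsFractionRing.lift hg
  have hj : ∀ r : k[X], j (algebraMap k[X] E r) = algebraMap k[X] L (r.map τ) := fun r =>
    IsFractionRing.lift_algebraMap hg r
  have hfix : Pk.map (mapRingHom τ) = Pk := by
    rw [hPk, Polynomial.map_map, mapRingHom_comp, show τ.comp (algebraMap F k) = algebraMap F k from
      RingHom.ext hτ]
  have hQj : Q.map j = Q.map (algebraMap E L) := by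
    refine (congrArg (Polynomial.map j) hQ).trans
      (Eq.trans ?_ (congrArg (Polynomial.map (algebraMap E L)) hQ).symm)
    rw [Polynomial.map_map, Polynomial.map_map, ← IsScalarTower.algebraMap_eq,
      show j.comp (algebraMap k[X] E) = (algebraMap k[X] L).comp (mapRingHom τ) from RingHom.ext hj,
      ← Polynomial.map_map, hfix]
  obtain ⟨Φ, hΦ, hΦy⟩ := PW_ext (L := L) j hQi hQm (hQj ▸ SplittingField.splits Q) hy0'
    (y := y0) (hQj ▸ hy0)
  have hΦ' : ∀ r : k[X], Φ (algebraMap k[X] L r) = algebraMap k[X] L (r.map τ) := fun r => by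
    rw [IsScalarTower.algebraMap_apply k[X] E L, hΦ, hj]
  obtain ⟨π, hπ, hπf⟩ := H k L p n (PW_rank hQs hQD) y hy htop (hcard ▸ hq) Φ hΦ'
    (δ.map (algebraMap F k)) ((Polynomial.map_ne_zero_iff (algebraMap F k).injective).2 hδ)
    (natDegree_map_le.trans hδD)
  let Y : integralClosure k[X] L := ⟨y0, (hsm y0 hy0').1⟩
  obtain ⟨a, ha⟩ := PW_fix (F := F) (a := π (algebraMap k[X] _ X)) (hcard ▸ hπf _ (by
    show Φ (algebraMap k[X] L X) = algebraMap k[X] L X
    rw [hΦ', map_X]))
  obtain ⟨b, hb⟩ := PW_fix (F := F) (a := π Y) (hcard ▸ hπf Y hΦy)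
  refine ⟨a, b, (map_eq_zero_iff _ (algebraMap F k).injective).1 ?_, fun e => hπ ?_⟩
  · have h1 : aeval Y Pk = 0 := Subtype.ext
      ((aeval_algHom_apply (integralClosure k[X] L).val Y Pk).symm.trans (hroot y0 hy0'))
    have h2 := congrArg π h1
    rw [aeval_def, map_zero] at h2
    have h3 := hom_eval₂ Pk (algebraMap k[X] (integralClosure k[X] L))
      (π : integralClosure k[X] L →+* k) Y
    rw [← map_mapRingHom_evalEval, ← hPk, ha, hb, ← eval₂_evalRingHom, ← h2]
    refine Eq.trans ?_ h3.symm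
    congr 1
    exact RingHom.ext fun r => (algHom_poly π r).symm
  · rw [algHom_poly, ← ha, eval_map, eval₂_hom, e, map_zero]

end Pool.Agent.Lib.MP_3fd6b0_co
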