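import Pool.Agent.Lib.MP_3fd6b0_co.UP
import Pool.Agent.Lib.MP_587b89_lc.Laur

/-!
Plane curves with a rational branch stay irreducible under extension of the constants;
polynomials over a product of fields.
-/

set_option autoImplicit false
set_option linter.unusedSectionVars false
open Filter Polynomial Pool.Agent.Lib.MP_587b89_lc

namespace Pool.Agent.Lib.MP_3fd6b0_co

section branch
variable {K k : Type} [Field K] [Field k]

lemma hmap_aeval (ι : K →+* k) (y : LaurentSeries K) (P : K[X][X]) :
    aeval (hmap ι y) (P.map (mapRingHom ι)) = hmap ι (aeval y P) := by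
  rw [aeval_def, aeval_def, eval₂_map, hom_eval₂]
  congr 1
  exact RingHom.ext fun r => (hmap_poly ι r).symm

lemma aeval_mono_coeff (y : LaurentSeries K) (a b : ℕ) (q : K) (n : ℤ) :
    (aeval y (monomial a (monomial b q) : K[X][X])).coeff n =
      q * (aeval y (monomial a (monomial b 1) : K[X][X])).coeff n := by
  have h : (monomial a (monomial b q) : K[X][X]) = C (C q) * monomial a (monomial b 1) := by
    rw [C_mul_monomial, C_mul_monomial, mul_one]
  rw [h, map_mul, aeval_C]
  have h2 : algebraMap K[X] (LaurentSeries K) (C q) = HahnSeries.C q := by simp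
  rw [h2, HahnSeries.C_mul_eq_smul, HahnSeries.coeff_smul, smul_eq_mul]

lemma exists_desc (ι : K →+* k) (l : k →+ K) (hl : ∀ q c, l (q * ι c) = l q * c)
    (y : LaurentSeries K) (Q : k[X][X]) :
    ∃ Q0 : K[X][X], (∀ a b, (Q0.coeff a).coeff b = l ((Q.coeff a).coeff b)) ∧
      ∀ n, (aeval y Q0).coeff n = l ((aeval (hmap ι y) Q).coeff n) := by
  induction Q using Polynomial.induction_on' with
  | add p q hp hq =>
    obtain ⟨p0, h1, h2⟩ := hp
    obtain ⟨q0, h3, h4⟩ := hq
    exact ⟨p0 + q0, fun a b => by simp [h1, h3], fun n => by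
      rw [map_add, map_add, HahnSeries.coeff_add, HahnSeries.coeff_add, map_add, h2, h4]⟩
  | monomial a c =>
    induction c using Polynomial.induction_on' with
    | add p q hp hq =>
      obtain ⟨p0, h1, h2⟩ := hp
      obtain ⟨q0, h3, h4⟩ := hq
      rw [map_add]
      exact ⟨p0 + q0, fun a b => by simp [h1, h3], fun n => by
        rw [map_add, map_add, HahnSeries.coeff_add, HahnSeries.coeff_add, map_add, h2, h4]⟩
    | monomial b q =>
      refine ⟨monomial a (monomial b (l q)), fun a' b' => ?_, fun n => ?_⟩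
      · simp only [coeff_monomial]
        split_ifs with h1
        · simp only [coeff_monomial]
          split_ifs <;> simp
        · simp
      · have h : (monomial a (monomial b 1) : k[X][X]) =
            (monomial a (monomial b 1) : K[X][X]).map (mapRingHom ι) := by
          simp [Polynomial.map_monomial]
        rw [aeval_mono_coeff, aeval_mono_coeff (hmap ι y), h, hmap_aeval, hmap_coeff, hl]

lemma exists_retr (ι : K →+* k) : ∃ l : k →+ K, l 1 = 1 ∧ ∀ q c, l (q * ι c) = l q * c := by
  let _ : Algebra K k := ι.toAlgebra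
  obtain ⟨g, hg⟩ := LinearMap.exists_leftInverse_of_injective (Algebra.linearMap K k)
    (LinearMap.ker_eq_bot.2 ι.injective)
  refine ⟨g.toAddMonoidHom, ?_, fun q c => ?_⟩
  · have := LinearMap.congr_fun hg 1
    simpa using this
  · have h : q * ι c = c • q := by rw [Algebra.smul_def, mul_comm]; rfl
    change g (q * ι c) = g q * c
    rw [h, map_smul, smul_eq_mul, mul_comm]

lemma deg_le_of_monic (ι : K →+* k) (y : LaurentSeries K) {n : ℕ}
    (hy : ∀ R : K[X][X], R.Monic → aeval y R = 0 → n ≤ R.natDegree) (Q : k[X][X]) (hQ : Q.Monic)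
    (h0 : aeval (hmap ι y) Q = 0) : n ≤ Q.natDegree := by
  obtain ⟨l, l1, hl⟩ := exists_retr ι
  obtain ⟨Q0, h1, h2⟩ := exists_desc ι l hl y Q
  have hd : Q0.natDegree ≤ Q.natDegree := by
    refine natDegree_le_iff_coeff_eq_zero.2 fun a ha => ?_
    ext b
    rw [h1, coeff_eq_zero_of_natDegree_lt ha]
    simp
  have hm : Q0.Monic := by
    refine monic_of_natDegree_le_of_coeff_eq_one _ hd ?_
    ext b
    rw [h1, hQ.coeff_natDegree, coeff_one, coeff_one]
    split_ifs <;> simp [l1]
  refine (hy Q0 hm ?_).trans hd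
  ext n
  rw [h2, h0]
  simp

/-- no factorisation into two factors of smaller degree after an extension of the constants -/
lemma no_split (ι : K →+* k) (y : LaurentSeries K) (P : K[X][X]) (hP : P.Monic)
    (h0 : aeval y P = 0) (hy : ∀ R : K[X][X], R.Monic → aeval y R = 0 → P.natDegree ≤ R.natDegree)
    (Q R : k[X][X]) (h : Q * R = P.map (mapRingHom ι)) (hQ : Q.natDegree < P.natDegree)
    (hR : R.natDegree < P.natDegree) : False := by
  have hm : (Q * R).Monic := h ▸ hP.map _
  have hl : Q.leadingCoeff * R.leadingCoeff = 1 := by rw [← leadingCoeff_mul]; exact hm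
  have h1 : aeval (hmap ι y) Q * aeval (hmap ι y) R = 0 := by
    rw [← map_mul, h, hmap_aeval, h0, map_zero]
  rcases mul_eq_zero.1 h1 with h2 | h2
  · have := deg_le_of_monic ι y hy (C R.leadingCoeff * Q)
      (monic_C_mul_of_mul_leadingCoeff_eq_one (by rw [mul_comm]; exact hl))
      (by rw [map_mul, h2, mul_zero])
    have := natDegree_C_mul_le R.leadingCoeff Q
    omega
  · have := deg_le_of_monic ι y hy (C Q.leadingCoeff * R)
      (monic_C_mul_of_mul_leadingCoeff_eq_one hl) (by rw [map_mul, h2, mul_zero])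
    have := natDegree_C_mul_le Q.leadingCoeff R
    omega

lemma coeff_swap (P : k[X][X]) (a b : ℕ) :
    ((Bivariate.swap P).coeff a).coeff b = (P.coeff b).coeff a := by
  induction P using Polynomial.induction_on' with
  | add p q hp hq => simp only [map_add, coeff_add, hp, hq]
  | monomial n c =>
    induction c using Polynomial.induction_on' with
    | add p q hp hq => simp only [map_add, coeff_add, hp, hq]
    | monomial m r =>
      rw [Bivariate.swap_monomial_monomial]
      by_cases h1 : m = a <;> by_cases h2 : n = b <;> simp [coeff_monomial, h1, h2]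

lemma coeff_deg_of_dvd {P Q : k[X][X]} (hP : P ≠ 0) (h : Q ∣ P) {D : ℕ}
    (hD : ∀ i, (P.coeff i).natDegree ≤ D) (i : ℕ) : (Q.coeff i).natDegree ≤ D := by
  have h1 : (Bivariate.swap P).natDegree ≤ D := by
    refine natDegree_le_iff_coeff_eq_zero.2 fun a ha => ?_
    ext b
    rw [coeff_swap, coeff_eq_zero_of_natDegree_lt ((hD b).trans_lt ha), coeff_zero]
  have h3 : Bivariate.swap P ≠ 0 := fun h0 => hP (by
    rw [← Bivariate.swap_swap_apply P, h0, map_zero])
  have h4 : Bivariate.swap Q ∣ Bivariate.swap P := by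
    obtain ⟨R, rfl⟩ := h
    exact ⟨Bivariate.swap R, map_mul _ _ _⟩
  have h2 : (Bivariate.swap Q).natDegree ≤ (Bivariate.swap P).natDegree :=
    natDegree_le_of_dvd h4 h3
  refine natDegree_le_iff_coeff_eq_zero.2 fun a ha => ?_
  rw [← coeff_swap, coeff_eq_zero_of_natDegree_lt ((h2.trans h1).trans_lt ha), coeff_zero]

/-- a proper factorisation with bounded degrees -/
lemma split_of_not_irr {P : k[X][X]} (hP : P.Monic) (h1 : 0 < P.natDegree) (h : ¬ Irreducible P)
    {D : ℕ} (hD : ∀ i, (P.coeff i).natDegree ≤ D) :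
    ∃ Q R : k[X][X], Q * R = P ∧ Q.natDegree < P.natDegree ∧ R.natDegree < P.natDegree ∧
      (∀ i, (Q.coeff i).natDegree ≤ D) ∧ ∀ i, (R.coeff i).natDegree ≤ D := by
  rw [hP.irreducible_iff_natDegree] at h
  have hne : P ≠ 1 := by
    rintro rfl
    simp at h1
  push Not at h
  obtain ⟨Q, R, hQ, hR, hQR, q0, r0⟩ := h hne
  have hd := hQ.natDegree_mul hR
  rw [hQR] at hd
  exact ⟨Q, R, hQR, by omega, by omega, coeff_deg_of_dvd hP.ne_zero ⟨R, hQR.symm⟩ hD,
    coeff_deg_of_dvd hP.ne_zero ⟨Q, by rw [mul_comm, hQR]⟩ hD⟩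

end branch

section prod
variable (U : Ultrafilter ℕ) (F : ℕ → Type) [∀ i, Field (F i)]

lemma map_mk_eq_zero (G : (∀ i, F i)[X][X])
    (h : ∀ᶠ i in (U : Filter ℕ), G.map (mapRingHom (Pi.evalRingHom F i)) = 0) :
    G.map (mapRingHom (mkU U F)) = 0 := by
  ext a b
  simp only [coeff_map, coe_mapRingHom, coeff_zero]
  rw [mkU_eq_zero]
  refine h.mono fun i hi => ?_
  have := congrArg (fun p => (p.coeff a).coeff b) hi
  simpa only [coeff_map, coe_mapRingHom, coeff_zero, Pi.evalRingHom_apply] using this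

lemma map_mk_eq_zero1 (G : (∀ i, F i)[X])
    (h : ∀ᶠ i in (U : Filter ℕ), G.map (Pi.evalRingHom F i) = 0) : G.map (mkU U F) = 0 := by
  ext a
  simp only [coeff_map, coeff_zero]
  rw [mkU_eq_zero]
  refine h.mono fun i hi => ?_
  have := congrArg (fun p => p.coeff a) hi
  simpa only [coeff_map, coeff_zero, Pi.evalRingHom_apply] using this

lemma glue (Q : ∀ i, (F i)[X][X]) (n D : ℕ) (hn : 0 < n) :
    ∃ G : (∀ i, F i)[X][X], G.natDegree < n ∧ ∀ i, (Q i).natDegree < n →
      (∀ a, ((Q i).coeff a).natDegree ≤ D) → G.map (mapRingHom (Pi.evalRingHom F i)) = Q i := by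
  refine ⟨∑ a ∈ Finset.range n, monomial a (∑ b ∈ Finset.range (D + 1),
    monomial b (fun i => ((Q i).coeff a).coeff b)), ?_, fun i h1 h2 => ?_⟩
  · refine lt_of_le_of_lt (natDegree_sum_le_of_forall_le (n := n - 1) _ _ fun a ha => ?_)
      (by omega)
    have := Finset.mem_range.1 ha
    exact (natDegree_monomial_le _).trans (by omega)
  · rw [Polynomial.map_sum]
    conv_rhs => rw [(Q i).as_sum_range' n h1]
    refine Finset.sum_congr rfl fun a _ => ?_
    rw [Polynomial.map_monomial, map_sum]
    conv_rhs => rw [((Q i).coeff a).as_sum_range' (D + 1) (Nat.lt_succ_of_le (h2 a))]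
    congr 1
    refine Finset.sum_congr rfl fun b _ => ?_
    rw [coe_mapRingHom, Polynomial.map_monomial]
    rfl

/-- the map of ultraproducts given by a family of maps -/
lemma exists_upmap (k : ℕ → Type) [∀ i, Field (k i)] (j : ∀ i, F i →+* k i) :
    ∃ ι : UP U F →+* UP U k, ∀ a, ι (mkU U F a) = mkU U k (fun i => j i (a i)) := by
  refine ⟨Ideal.Quotient.lift (nul U F)
    ((mkU U k).comp (RingHom.pi fun i => (j i).comp (Pi.evalRingHom F i))) fun a ha => ?_,
    fun a => rfl⟩
  rw [RingHom.comp_apply, mkU_eq_zero]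
  refine Filter.Eventually.mono ha fun i hi => ?_
  change j i (a i) = 0
  rw [hi, map_zero]

end prod

end Pool.Agent.Lib.MP_3fd6b0_co
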