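import Pool.Agent.Lib.MP_3fd6b0_co.UP
import Pool.Agent.Lib.MP_3fd6b0_co.PW
import Pool.Agent.Lib.MP_3fd6b0_co.Pac1

set_option autoImplicit false
set_option linter.unusedSectionVars false
open Filter Polynomial

namespace Pool.Agent.Lib.MP_3fd6b0_co

lemma irr_eventually (U : Ultrafilter ℕ) (F : ℕ → Type) [∀ i, Field (F i)]
    (k : ℕ → Type) [∀ i, Field (k i)] (j : ∀ i, F i →+* k i) (G : (∀ i, F i)[X][X]) (hG : G.Monic)
    (y : LaurentSeries (UP U F)) (h0 : aeval y (G.map (mapRingHom (mkU U F))) = 0)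
    (hy : ∀ R : (UP U F)[X][X], R.Monic → aeval y R = 0 →
      (G.map (mapRingHom (mkU U F))).natDegree ≤ R.natDegree)
    {D : ℕ} (hD : ∀ a, (G.coeff a).natDegree ≤ D) :
    ∀ᶠ i in (U : Filter ℕ),
      Irreducible ((G.map (mapRingHom (Pi.evalRingHom F i))).map (mapRingHom (j i))) := by
  by_contra hc
  have hc' := Ultrafilter.eventually_not.2 hc
  have hP : (G.map (mapRingHom (mkU U F))).Monic := hG.map _
  have hn : (G.map (mapRingHom (mkU U F))).natDegree = G.natDegree := hG.natDegree_map _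
  have hpos : 0 < G.natDegree := by
    rw [← hn]
    refine Nat.pos_of_ne_zero fun h => ?_
    rw [hP.natDegree_eq_zero.1 h, map_one] at h0
    exact one_ne_zero h0
  have key : ∀ i, ∃ Q R : (k i)[X][X],
      ¬ Irreducible ((G.map (mapRingHom (Pi.evalRingHom F i))).map (mapRingHom (j i))) →
      Q * R = (G.map (mapRingHom (Pi.evalRingHom F i))).map (mapRingHom (j i)) ∧
        Q.natDegree < G.natDegree ∧ R.natDegree < G.natDegree ∧
        (∀ a, (Q.coeff a).natDegree ≤ D) ∧ ∀ a, (R.coeff a).natDegree ≤ D := by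
    intro i
    by_cases h : Irreducible ((G.map (mapRingHom (Pi.evalRingHom F i))).map (mapRingHom (j i)))
    · exact ⟨0, 0, fun h' => absurd h h'⟩
    · have hd : ((G.map (mapRingHom (Pi.evalRingHom F i))).map (mapRingHom (j i))).natDegree =
          G.natDegree := by rw [(hG.map _).natDegree_map, hG.natDegree_map]
      obtain ⟨Q, R, h1⟩ := split_of_not_irr ((hG.map _).map _) (by rw [hd]; exact hpos) h
        (D := D) (fun a => by
          rw [coeff_map, coeff_map]
          exact natDegree_map_le.trans (natDegree_map_le.trans (hD a)))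
      rw [hd] at h1
      exact ⟨Q, R, fun _ => h1⟩
  choose Q R hQR using key
  obtain ⟨Q', q1, q2⟩ := glue k Q G.natDegree D hpos
  obtain ⟨R', r1, r2⟩ := glue k R G.natDegree D hpos
  obtain ⟨ι, hι⟩ := exists_upmap U F k j
  let J : (∀ i, F i) →+* ∀ i, k i := RingHom.pi fun i => (j i).comp (Pi.evalRingHom F i)
  have hz := map_mk_eq_zero U k (Q' * R' - G.map (mapRingHom J)) (hc'.mono fun i hi => by
    obtain ⟨h1, h2, h3, h4, h5⟩ := hQR i hi
    rw [Polynomial.map_sub, Polynomial.map_mul, q2 i h2 h4, r2 i h3 h5, h1, Polynomial.map_map,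
      Polynomial.map_map, mapRingHom_comp, mapRingHom_comp, sub_eq_zero]
    rfl)
  rw [Polynomial.map_sub, Polynomial.map_mul, sub_eq_zero] at hz
  refine no_split ι y _ hP h0 hy (Q'.map (mapRingHom (mkU U k))) (R'.map (mapRingHom (mkU U k)))
    ?_ (natDegree_map_le.trans_lt (hn ▸ q1)) (natDegree_map_le.trans_lt (hn ▸ r1))
  have hc : (mkU U k).comp J = ι.comp (mkU U F) := RingHom.ext fun a => (hι a).symm
  rw [hz, Polynomial.map_map, Polynomial.map_map, mapRingHom_comp, mapRingHom_comp, hc]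

theorem UP_pac (U : Ultrafilter ℕ) (F : ℕ → Type) [∀ i, Field (F i)] [∀ i, Fintype (F i)]
    (h : ∀ q0, ∀ᶠ i in (U : Filter ℕ), q0 ≤ Fintype.card (F i)) : Pac (UP U F) := by
  rintro P hP hP' ⟨y, h0, hy⟩ δ hδ
  obtain ⟨G, rfl, -, hG⟩ := lifts_and_natDegree_eq_and_monic (f := mapRingHom (mkU U F))
    ((mem_lifts P).2 (Polynomial.map_surjective _
      (Polynomial.map_surjective _ (mkU_surj U F)) P)) hP
  obtain ⟨d, rfl⟩ := Polynomial.map_surjective _ (mkU_surj U F) δ
  obtain ⟨D, D1, D2, D3⟩ : ∃ D, G.natDegree ≤ D ∧ (∀ a, (G.coeff a).natDegree ≤ D) ∧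
      d.natDegree ≤ D := by
    refine ⟨max (max G.natDegree d.natDegree) (G.support.sup fun a => (G.coeff a).natDegree),
      by omega, fun a => ?_, by omega⟩
    by_cases ha : a ∈ G.support
    · exact (Finset.le_sup (f := fun a => (G.coeff a).natDegree) ha).trans (le_max_right _ _)
    · rw [notMem_support_iff.1 ha]
      simp
  obtain ⟨q0, hq⟩ := plane_weil D
  have e1 := irr_eventually U F (fun i => AlgebraicClosure (F i))
    (fun i => algebraMap (F i) (AlgebraicClosure (F i))) G hG y h0 hy D2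
  have e2 : ∀ᶠ i in (U : Filter ℕ),
      ¬ (derivative G).map (mapRingHom (Pi.evalRingHom F i)) = 0 :=
    Ultrafilter.eventually_not.2 fun h' => hP' (by
      rw [derivative_map]; exact map_mk_eq_zero U F _ h')
  have e3 : ∀ᶠ i in (U : Filter ℕ), ¬ d.map (Pi.evalRingHom F i) = 0 :=
    Ultrafilter.eventually_not.2 fun h' => hδ (map_mk_eq_zero1 U F _ h')
  have e4 : ∀ᶠ i in (U : Filter ℕ), ∃ z : F i × F i,
      (G.map (mapRingHom (Pi.evalRingHom F i))).evalEval z.1 z.2 = 0 ∧
        (d.map (Pi.evalRingHom F i)).eval z.1 ≠ 0 := by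
    filter_upwards [h q0, e1, e2, e3] with i h1 h2 h3 h4
    obtain ⟨x, y, hxy⟩ := hq (F i) h1 _ (hG.map _) (natDegree_map_le.trans D1)
      (fun a => by rw [coeff_map]; exact natDegree_map_le.trans (D2 a))
      (by rw [derivative_map]; exact h3) h2 _ h4 (natDegree_map_le.trans D3)
    exact ⟨(x, y), hxy⟩
  have key : ∀ i, ∃ z : F i × F i, (∃ z : F i × F i,
      (G.map (mapRingHom (Pi.evalRingHom F i))).evalEval z.1 z.2 = 0 ∧
        (d.map (Pi.evalRingHom F i)).eval z.1 ≠ 0) →
      (G.map (mapRingHom (Pi.evalRingHom F i))).evalEval z.1 z.2 = 0 ∧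
        (d.map (Pi.evalRingHom F i)).eval z.1 ≠ 0 := by
    intro i
    by_cases h' : ∃ z : F i × F i,
      (G.map (mapRingHom (Pi.evalRingHom F i))).evalEval z.1 z.2 = 0 ∧
        (d.map (Pi.evalRingHom F i)).eval z.1 ≠ 0
    · obtain ⟨z, hz⟩ := h'
      exact ⟨z, fun _ => hz⟩
    · exact ⟨0, fun h'' => absurd h'' h'⟩
  choose z hz using key
  refine ⟨mkU U F fun i => (z i).1, mkU U F fun i => (z i).2, ?_, ?_⟩
  · rw [map_mapRingHom_evalEval, mkU_eq_zero]
    refine e4.mono fun i hi => ?_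
    exact (map_mapRingHom_evalEval (Pi.evalRingHom F i) G (fun i => (z i).1)
      (fun i => (z i).2)).symm.trans (hz i hi).1
  · rw [eval_map, eval₂_hom, Ne, mkU_eq_zero, ← Ultrafilter.eventually_not]
    refine e4.mono fun i hi h0 => (hz i hi).2 ?_
    rw [eval_map]
    exact (eval₂_hom (Pi.evalRingHom F i) (fun i => (z i).1)).trans h0

end Pool.Agent.Lib.MP_3fd6b0_co
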