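import Mathlib

/-!
Spreads of the Hermitian quadrangle and their coordinates.
-/

set_option autoImplicit false
open Module

namespace Pool.Agent.Lib.MP_3fd6b0_co

variable {F K : Type} [Field F] [Field K] [Algebra F K]

/-- the Hermitian form of the variety -/
def herm (q : ℕ) (x y : Fin 5 → K) : K := ∑ j, x j ^ q * y j

/-- a hyperbolic frame: two hyperbolic pairs and a unit vector -/
def Frame (q : ℕ) (e : Fin 5 → Fin 5 → K) : Prop :=
  ∀ i j, herm q (e i) (e j) =
    !![0, 0, 1, 0, 0; 0, 0, 0, 1, 0; 1, 0, 0, 0, 0; 0, 1, 0, 0, 0; 0, 0, 0, 0, 1] i j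

/-- a line of the Hermitian variety -/
def IsGen (q : ℕ) (U : Submodule K (Fin 5 → K)) : Prop :=
  finrank K U = 2 ∧ ∀ x ∈ U, ∑ j, x j ^ (q + 1) = 0

/-- a set of lines of the variety that partitions its points -/
def IsSpread (q : ℕ) (S : Set (Submodule K (Fin 5 → K))) : Prop :=
  (∀ U ∈ S, IsGen q U) ∧
    ∀ x : Fin 5 → K, x ≠ 0 → ∑ j, x j ^ (q + 1) = 0 → ∃! U, U ∈ S ∧ x ∈ U

/-- the line with given coordinates over the big field -/
def lineK (q : ℕ) (e : Fin 5 → Fin 5 → K) (b m k f g : K) : Submodule K (Fin 5 → K) :=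
  Submodule.span K {e 0 + (k - b ^ (q + 1) / 2) • e 2 + m • e 3 + b • e 4,
    e 1 + (-m ^ q - b ^ q * f) • e 2 + (g - f ^ (q + 1) / 2) • e 3 + f • e 4}

/-- the line with eight coordinates over the small field -/
def line (q : ℕ) (θ : K) (e : Fin 5 → Fin 5 → K) (s : Fin 5 → F) (u : Fin 3 → F) :
    Submodule K (Fin 5 → K) :=
  lineK q e (algebraMap F K (s 0) + θ * algebraMap F K (s 1))
    (algebraMap F K (s 2) + θ * algebraMap F K (s 3)) (θ * algebraMap F K (s 4))
    (algebraMap F K (u 0) + θ * algebraMap F K (u 1)) (θ * algebraMap F K (u 2))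

end Pool.Agent.Lib.MP_3fd6b0_co
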