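import Pool.Agent.Lib.MP_3fd6b0_co.Ev
import Pool.Agent.Lib.MP_3fd6b0_co.LocA
import Pool.Agent.Lib.MP_3fd6b0_co.LocB

/-!
The inseparable system at a base point.
-/

set_option autoImplicit false
set_option linter.unusedSectionVars false
open MvPolynomial Filter Topology Finset

namespace Pool.Agent.Lib.MP_3fd6b0_co

variable {K L : Type} [NontriviallyNormedField K] [NormedField L] [NormedAlgebra K L] (Q : Cj K L)
  {E : Type} [Field E] (ι : E →+* L) (s : L × L × K) (f : MvPolynomial (Fin 5) E)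

/-- the value at the point with given relative coordinates -/
noncomputable def Cj.val (a : MvPolynomial (Fin 5) E) (v : L × L × K) : L :=
  Q.ev ι (Q.T s (Q.ev ι s f) v) a

/-- the increment -/
noncomputable def Cj.inc (a : MvPolynomial (Fin 5) E) (v : L × L × K) : L :=
  Q.val ι s f a v - Q.ev ι s a

variable (zr ψr : MvPolynomial (Fin 5) E) (ru rb rk : L)

/-- the root of the main part of the separable coordinate -/
noncomputable def Cj.vp (v : L × L × K) : L :=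
  ru - Q.σ rb * Q.inc ι s f zr v + (-rk - rb * Q.σ rb * 2⁻¹) * Q.inc ι s f ψr v

/-- the root of the relative last coordinate -/
noncomputable def Cj.ZZ (v : L × L × K) : L := Q.inc ι s f zr v + rb * Q.inc ι s f ψr v

variable (γ : ℕ → ℕ → MvPolynomial (Fin 5) E) (p r : ℕ)

/-- the root of the main part of the skew coordinate -/
noncomputable def Cj.GG (v : L × L × K) : L :=
  ∑ i ∈ range (p ^ r), ∑ j ∈ range (p ^ r), Q.val ι s f (γ i j) v *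
    Q.vp ι s f zr ψr ru rb rk v ^ (p * i) * Q.σ (Q.vp ι s f zr ψr ru rb rk v) ^ (p * j)

/-- the root of the main part of the relative skew coordinate -/
noncomputable def Cj.HH (v : L × L × K) : L :=
  Q.GG ι s f zr ψr ru rb rk γ p r v - Q.GG ι s f zr ψr ru rb rk γ p r 0 +
    (Q.σ (Q.ev ι s zr) * Q.val ι s f zr v - Q.ev ι s zr * Q.σ (Q.val ι s f zr v)) * 2⁻¹ -
    Q.inc ι s f ψr v * Q.σ ru + Q.σ (Q.inc ι s f ψr v) * ru -
    (Q.σ (Q.inc ι s f ψr v) * (Q.σ rb * Q.inc ι s f zr v) -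
      Q.inc ι s f ψr v * (rb * Q.σ (Q.inc ι s f zr v))) * 2⁻¹ -
    Q.inc ι s f ψr v * Q.σ (Q.inc ι s f ψr v) * rk

variable {Q ι s f zr ψr ru rb rk γ p r} {c : E →+* E} {z ψ g : MvPolynomial (Fin 5) E}

lemma Cj.val_zero (a : MvPolynomial (Fin 5) E) : Q.val ι s f a 0 = Q.ev ι s a := by
  rw [Cj.val, Cj.T_zero]

lemma Cj.inc_zero (a : MvPolynomial (Fin 5) E) : Q.inc ι s f a 0 = 0 := by
  rw [Cj.inc, Cj.val_zero, sub_self]

lemma Cj.vp_zero : Q.vp ι s f zr ψr ru rb rk 0 = ru := by simp [Cj.vp, Cj.inc_zero]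

lemma Cj.ZZ_zero : Q.ZZ ι s f zr ψr rb 0 = 0 := by simp [Cj.ZZ, Cj.inc_zero]

lemma Cj.HH_zero : Q.HH ι s f zr ψr ru rb rk γ p r 0 = 0 := by
  simp [Cj.HH, Cj.inc_zero, Cj.val_zero, mul_comm]

lemma Cj.σ_half (Q : Cj K L) : Q.σ 2⁻¹ = 2⁻¹ := by rw [map_inv₀, map_ofNat]

lemma Cj.GG_skew (hι : ∀ x, ι (c x) = Q.σ (ι x)) (h : ∀ i j, cj c (γ j i) = -γ i j)
    (v : L × L × K) : Q.σ (Q.GG ι s f zr ψr ru rb rk γ p r v) =
      -Q.GG ι s f zr ψr ru rb rk γ p r v := by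
  rw [Cj.GG, map_sum, ← sum_neg_distrib]
  simp only [map_sum, ← sum_neg_distrib]
  rw [sum_comm]
  refine sum_congr rfl fun i _ => sum_congr rfl fun j _ => ?_
  rw [map_mul, map_mul, map_pow, map_pow, Q.σσ, Cj.val, ← Cj.ev_cj hι, h, map_neg, Cj.val]
  ring

lemma Cj.HH_skew (hι : ∀ x, ι (c x) = Q.σ (ι x)) (h : ∀ i j, cj c (γ j i) = -γ i j)
    (hk : Q.σ rk = -rk) (v : L × L × K) : Q.σ (Q.HH ι s f zr ψr ru rb rk γ p r v) =
      -Q.HH ι s f zr ψr ru rb rk γ p r v := by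
  simp only [Cj.HH, map_add, map_sub, map_mul, Cj.GG_skew hι h, Q.σσ, Q.σ_half, hk]
  ring

lemma geo (x y : L) (n : ℕ) :
    (x + y) ^ n = x ^ n + y * ∑ l ∈ range n, (x + y) ^ l * x ^ (n - 1 - l) := by
  have := (Commute.all y x).geom_sum₂_mul_add n
  rw [add_comm y x] at this
  rw [← this]
  ring

lemma Cj.ev_C (v : L × L × K) (a : E) : Q.ev ι v (C a) = ι a := by simp [Cj.ev]
lemma Cj.ev_X (v : L × L × K) (i : Fin 5) : Q.ev ι v (X i) = Q.co v i := by simp [Cj.ev]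
lemma Cj.ev_half (v : L × L × K) : Q.ev ι v (C 2⁻¹) = 2⁻¹ := by
  rw [Cj.ev_C, map_inv₀, map_ofNat]

lemma Cj.T_k (f0 : L) (v : L × L × K) : Q.θ * algebraMap K L (Q.T s f0 v).2.2 =
    Q.θ * algebraMap K L s.2.2 + Q.θ * algebraMap K L v.2.2 -
      (Q.σ s.1 * v.1 - s.1 * Q.σ v.1) * 2⁻¹ := by
  have := Q.hsk (Q.σ s.1 * v.1)
  rw [map_mul Q.σ, Q.σσ] at this
  have h2 := mul_inv_cancel₀ Q.two
  simp only [Cj.T, map_add, map_sub]
  linear_combination (-(2 : L)⁻¹) * this +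
    Q.θ * algebraMap K L (Q.sk (Q.σ s.1 * v.1)) * h2

theorem Cj.sol_bad [Fact p.Prime] [CharP L p] (hι : ∀ x, ι (c x) = Q.σ (ι x))
    (hg : cj c g = -g) (hL : Lev c p r z ψ (eta c z ψ g) zr ψr γ) (hf : f = z + ψ * X 0)
    (hv : ∀ a x, AnalyticAt K (Q.val ι s f a) x)
    (hu : ru ^ p ^ (r + 1) = Q.ev ι s (uu z ψ)) (hb : rb ^ p ^ (r + 1) = s.1)
    (hk : rk ^ p ^ (r + 1) = Q.θ * algebraMap K L s.2.2) :
    ∃ A1 A2 : (L × L × K) × K → L, (∀ x, AnalyticAt K A1 x) ∧ (∀ x, AnalyticAt K A2 x) ∧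
      (Q.Sol (Q.inc ι s f f) (Q.HH ι s f zr ψr ru rb rk γ p r) (Q.ZZ ι s f zr ψr rb) A1 A2 p
        (p ^ (r + 1)) → Q.BadA (fun v => Q.ev ι v f) (fun v => Q.ev ι v g)) := by
  let x : (L × L × K) × K → L := fun y => (Q.vp ι s f zr ψr ru rb rk y.1 ^ p ^ (r + 1)) ^ p
  let y : (L × L × K) × K → L := fun y => Q.us (Q.ZZ ι s f zr ψr rb) (p ^ (r + 1)) y.1 y.2 ^ p
  have hi : ∀ a (x : (L × L × K) × K), AnalyticAt K (fun y : (L × L × K) × K =>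
      Q.inc ι s f a y.1) x := fun a x => ((hv a _).comp analyticAt_fst).sub analyticAt_const
  have hx : ∀ w, AnalyticAt K x w := fun w => (((analyticAt_const.sub (analyticAt_const.mul
    (hi _ _))).add (analyticAt_const.mul (hi _ _))).pow _).pow _
  have hy : ∀ w, AnalyticAt K y w := fun w => ((((analyticAt_const.mul (an_alg analyticAt_snd)).sub
    analyticAt_const).mul (Q.an_σ (analyticAt_fst.comp analyticAt_fst))).mul
    (((hi _ _).add (analyticAt_const.mul (hi _ _))).pow _)).pow _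
  have hγ : ∀ i j (w : (L × L × K) × K), AnalyticAt K (fun y : (L × L × K) × K =>
      Q.val ι s f (γ i j) y.1 ^ p ^ (r + 1)) w := fun i j w => ((hv _ _).comp analyticAt_fst).pow _
  refine ⟨fun w => ∑ i ∈ range (p ^ r), ∑ j ∈ range (p ^ r), Q.val ι s f (γ i j) w.1 ^ p ^ (r + 1) *
      (∑ l ∈ range i, (x w + y w) ^ l * x w ^ (i - 1 - l)) * (Q.σ (x w) + Q.σ (y w)) ^ j,
    fun w => ∑ i ∈ range (p ^ r), ∑ j ∈ range (p ^ r), Q.val ι s f (γ i j) w.1 ^ p ^ (r + 1) *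
      x w ^ i * ∑ l ∈ range j, (Q.σ (x w) + Q.σ (y w)) ^ l * Q.σ (x w) ^ (j - 1 - l),
    fun w => ?_, fun w => ?_, ?_⟩
  · refine analyticAt_fun_sum _ fun i _ => analyticAt_fun_sum _ fun j _ => ((hγ i j w).mul
      (analyticAt_fun_sum _ fun l _ => (((hx w).add (hy w)).pow _).mul ((hx w).pow _))).mul
      (((Q.an_σ (hx w)).add (Q.an_σ (hy w))).pow _)
  · refine analyticAt_fun_sum _ fun i _ => analyticAt_fun_sum _ fun j _ => ((hγ i j w).mul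
      ((hx w).pow _)).mul (analyticAt_fun_sum _ fun l _ =>
      (((Q.an_σ (hx w)).add (Q.an_σ (hy w))).pow _).mul ((Q.an_σ (hx w)).pow _))
  rintro ⟨v, a, h12, h3⟩
  have hgs : ∀ w, Q.σ (Q.ev ι w g) = -Q.ev ι w g := fun w => by rw [← Cj.ev_cj hι, hg, map_neg]
  refine Cj.bad_abs s (hgs s) (Cj.Sol0.bad ⟨v, a, h12, ?_⟩)
  obtain ⟨-, e1, e2⟩ := h12
  let φ := iterateFrobenius L p (r + 1)
  have hφ : ∀ w, φ w = w ^ p ^ (r + 1) := fun w => iterateFrobenius_def _ _ _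
  have φσ : ∀ w, φ (Q.σ w) = Q.σ (φ w) := fun w => by rw [hφ, hφ, map_pow]
  have φh : φ 2⁻¹ = 2⁻¹ := by rw [map_inv₀, map_ofNat]
  have φz : ∀ w, φ (Q.ev ι w zr) = Q.ev ι w z := fun w => by rw [hφ, hL.hz, map_pow]
  have φψ : ∀ w, φ (Q.ev ι w ψr) = Q.ev ι w ψ := fun w => by rw [hφ, hL.hψ, map_pow]
  rw [← hφ] at hu hb hk
  have hη : ∀ w, Q.ev ι w (eta c z ψ g) = ∑ i ∈ range (p ^ r), ∑ j ∈ range (p ^ r),
      φ (Q.ev ι w (γ i j)) * (Q.ev ι w (uu z ψ) ^ p) ^ i * Q.σ (Q.ev ι w (uu z ψ) ^ p) ^ j := by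
    intro w
    conv_lhs => rw [hL.hη]
    simp only [map_sum, map_mul, map_pow, Cj.ev_cj hι, hφ, pow_mul]
  have hG : ∀ w, φ (Q.GG ι s f zr ψr ru rb rk γ p r w) = ∑ i ∈ range (p ^ r), ∑ j ∈ range (p ^ r),
      φ (Q.val ι s f (γ i j) w) * (φ (Q.vp ι s f zr ψr ru rb rk w) ^ p) ^ i *
        Q.σ (φ (Q.vp ι s f zr ψr ru rb rk w) ^ p) ^ j := fun w => by
    simp only [Cj.GG, map_sum, map_mul, map_pow, φσ, pow_mul]
  have hG0 : φ (Q.GG ι s f zr ψr ru rb rk γ p r 0) = Q.ev ι s (eta c z ψ g) := by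
    simp only [hG, hη, Cj.vp_zero, Cj.val_zero, hu]
  obtain ⟨t, ht⟩ : ∃ t, t = Q.T s (Q.ev ι s f) v := ⟨_, rfl⟩
  have t1 : t.1 = s.1 + v.1 := by rw [ht]; rfl
  have t2 : t.2.1 = s.2.1 + v.2.1 - Q.σ (Q.ev ι s f) * v.1 := by rw [ht]; rfl
  have t3 := Cj.T_k (Q := Q) (s := s) (Q.ev ι s f) v
  rw [← ht] at t3
  have hval : ∀ a, Q.val ι s f a v = Q.ev ι t a := fun a => by rw [ht]; rfl
  have hF : ∀ w, Q.ev ι w f = Q.ev ι w z + Q.ev ι w ψ * w.1 := fun w => by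
    rw [hf, map_add, map_mul, Cj.ev_X]; rfl
  have hU : ∀ w, Q.ev ι w (uu z ψ) = -Q.σ w.2.1 - Q.σ w.1 * Q.ev ι w z - Q.ev ι w ψ *
      (Q.θ * algebraMap K L w.2.2 + 2⁻¹ * (w.1 * Q.σ w.1)) := fun w => by
    simp only [uu, map_sub, map_neg, map_mul, map_add, Cj.ev_X, Cj.ev_half]; rfl
  have hE : ∀ w, Q.ev ι w (eta c z ψ g) = Q.ev ι w g - 2⁻¹ * (Q.ev ι w f * Q.σ (Q.ev ι w f)) +
      2⁻¹ * (Q.ev ι w z * Q.σ (Q.ev ι w z)) + Q.ev ι w ψ * Q.σ (Q.ev ι w ψ) *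
      (Q.θ * algebraMap K L w.2.2 - 2⁻¹ * (w.1 * Q.σ w.1)) +
      Q.σ (Q.ev ι w ψ) * (Q.σ w.2.1 + Q.σ w.1 * Q.ev ι w f) - Q.ev ι w ψ * w.2.1 := fun w => by
    rw [eta, ← hf]
    simp only [map_sub, map_mul, map_add, Cj.ev_X, Cj.ev_half, Cj.ev_cj hι]; rfl
  have hZ : φ (Q.ZZ ι s f zr ψr rb v) =
      Q.ev ι t z - Q.ev ι s z + s.1 * (Q.ev ι t ψ - Q.ev ι s ψ) := by
    simp only [Cj.ZZ, Cj.inc, hval, map_add, map_sub, map_mul, φz, φψ, hb]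
  have e2' := congrArg Q.σ e2
  simp only [Cj.inc, hval, hF t, hF s, t1, map_add, map_sub, map_mul, Q.σσ, Q.σθ, Q.σ_alg,
    one_div, Q.σ_half] at e2 e2'
  have h2 := Q.two
  have hut : Q.ev ι t (uu z ψ) = φ (Q.vp ι s f zr ψr ru rb rk v) +
      Q.us (Q.ZZ ι s f zr ψr rb) (p ^ (r + 1)) v a := by
    rw [Cj.us, ← hφ, hZ]
    simp only [Cj.vp, Cj.inc, hval, map_add, map_sub, map_mul, map_neg, φz, φψ, φσ, φh, hb,
      hu, hk, hU, t3, t1, t2, hF s, Q.σσ, one_div]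
    rw [e2', e1]
    field_simp
    ring
  have hxy : Q.ev ι t (uu z ψ) ^ p = x (v, a) + y (v, a) := by rw [hut, add_pow_char, hφ]
  have hsum : Q.ev ι t (eta c z ψ g) = φ (Q.GG ι s f zr ψr ru rb rk γ p r v) +
      y (v, a) * (∑ i ∈ range (p ^ r), ∑ j ∈ range (p ^ r), Q.val ι s f (γ i j) v ^ p ^ (r + 1) *
      (∑ l ∈ range i, (x (v, a) + y (v, a)) ^ l * x (v, a) ^ (i - 1 - l)) *
        (Q.σ (x (v, a)) + Q.σ (y (v, a))) ^ j) +
      Q.σ (y (v, a)) * ∑ i ∈ range (p ^ r), ∑ j ∈ range (p ^ r),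
        Q.val ι s f (γ i j) v ^ p ^ (r + 1) * x (v, a) ^ i * ∑ l ∈ range j,
          (Q.σ (x (v, a)) + Q.σ (y (v, a))) ^ l * Q.σ (x (v, a)) ^ (j - 1 - l) := by
    rw [hη, hG, hxy, mul_sum, mul_sum, ← sum_add_distrib, ← sum_add_distrib]
    refine sum_congr rfl fun i _ => ?_
    rw [mul_sum, mul_sum, ← sum_add_distrib, ← sum_add_distrib]
    refine sum_congr rfl fun j _ => ?_
    have q1 := geo (x (v, a)) (y (v, a)) i
    have q2 := geo (Q.σ (x (v, a))) (Q.σ (y (v, a))) j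
    rw [hval, ← hφ, map_add, show φ (Q.vp ι s f zr ψr ru rb rk v) ^ p = x (v, a) by rw [hφ]]
    linear_combination φ (Q.ev ι t (γ i j)) * (Q.σ (x (v, a)) + Q.σ (y (v, a))) ^ j * q1 +
      φ (Q.ev ι t (γ i j)) * x (v, a) ^ i * q2
  rw [← sub_eq_zero]
  refine Q.sk_zero ?_ (Eq.trans (congrArg Q.sk ?_) h3)
  · simp only [map_add, map_sub, map_mul, map_div₀, map_ofNat, hgs, Q.σσ, Q.σθ, Q.σ_alg]
    ring
  · have hy' : Q.σ (Q.us (Q.ZZ ι s f zr ψr rb) (p ^ (r + 1)) v a) ^ p = Q.σ (y (v, a)) :=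
      (map_pow _ _ _).symm
    rw [hy', ← hφ, ← hφ, map_mul φ, φσ, hZ]
    show _ = φ _ + y (v, a) * _ + _ - _
    rw [add_assoc (φ _), ← sub_eq_iff_eq_add'.2 ((add_assoc _ _ _).symm.trans hsum.symm).symm]
    simp only [← ht]
    simp only [Cj.HH, Cj.inc, hval, map_add, map_sub, map_mul, φz, φψ, φσ, φh, hb,
      hu, hk, hG0, hE, hU, t3, t1, t2, hF s, hF t, Q.σσ, map_neg, Q.σθ, Q.σ_alg, Q.σ_half]
    rw [e2', e1, e2]
    field_simp
    ring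

end Pool.Agent.Lib.MP_3fd6b0_co
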