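import Pool.Agent.Lib.MP_3fd6b0_co.Ev
import Pool.Agent.Lib.MP_3fd6b0_co.LocA
import Pool.Agent.Lib.MP_3fd6b0_co.LocB
import Pool.Agent.Lib.MP_3fd6b0_co.Alg1

set_option autoImplicit false
set_option linter.unusedSectionVars false
open MvPolynomial Filter Topology

namespace Pool.Agent.Lib.MP_3fd6b0_co

variable {K L : Type} [NontriviallyNormedField K] [NormedField L] [NormedAlgebra K L] {Q : Cj K L}
  {E : Type} [Field E] {c : E →+* E} {ι : E →+* L} {f g w z ψ η zr ψr : MvPolynomial (Fin 5) E}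
  [CompleteSpace K] [FiniteDimensional K L]

/-- the first function in relative coordinates -/
noncomputable def Cj.s1F (Q : Cj K L) (ι : E →+* L) (f : MvPolynomial (Fin 5) E) (s v : L × L × K) :
    L := Q.ev ι (Q.T s (Q.ev ι s f) v) f - Q.ev ι s f

/-- the second function in relative coordinates -/
noncomputable def Cj.s1G (Q : Cj K L) (ι : E →+* L) (f g : MvPolynomial (Fin 5) E)
    (s v : L × L × K) : L :=
  Q.ev ι (Q.T s (Q.ev ι s f) v) g - Q.ev ι s g +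
    (Q.σ (Q.ev ι s f) * Q.s1F ι f s v - Q.ev ι s f * Q.σ (Q.s1F ι f s v)) / 2

lemma Cj.s1_C (s : L × L × K) (a : E) : Q.ev ι s (C a) = ι a := by simp [Cj.ev]

lemma Cj.s1_om (hι : ∀ x, ι (c x) = Q.σ (ι x)) (s : L × L × K)
    (Y : Derivation E (MvPolynomial (Fin 5) E) (MvPolynomial (Fin 5) E)) :
    Q.ev ι s (om c f g Y) = Q.ev ι s (Y g) + Q.σ (Q.ev ι s f) / 2 * Q.ev ι s (Y f) -
      Q.ev ι s f / 2 * Q.ev ι s (Y (cj c f)) := by
  rw [om, map_add, map_mul, map_sub, map_mul, map_mul, Cj.s1_C, Cj.ev_cj hι, map_inv₀, map_ofNat]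
  ring

lemma Cj.s1_G (hι : ∀ x, ι (c x) = Q.σ (ι x)) (s v : L × L × K) :
    Q.s1G ι f g s v = Q.ev ι (Q.T s (Q.ev ι s f) v) g +
      Q.σ (Q.ev ι s f) / 2 * Q.ev ι (Q.T s (Q.ev ι s f) v) f -
      Q.ev ι s f / 2 * Q.ev ι (Q.T s (Q.ev ι s f) v) (cj c f) - Q.ev ι s g := by
  rw [Cj.s1G, Cj.s1F, map_sub, Cj.ev_cj hι]
  ring

lemma Cj.s1_DLF (hι : ∀ x, ι (c x) = Q.σ (ι x)) (s : L × L × K) :
    Q.DL (Q.s1F ι f s) ![Q.ev ι s (XD c f f), Q.ev ι s (XB f f), Q.ev ι s (pderiv 2 f),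
      Q.ev ι s (pderiv 3 f), Q.ev ι s (pderiv 4 f)] :=
  ((Cj.DL_ev (f := f) hι s f).sub (Cj.DL.const (Q.ev ι s f))).congr (fun _ => rfl)
    fun i => by simp

lemma Cj.s1_DLG (hι : ∀ x, ι (c x) = Q.σ (ι x)) (s : L × L × K) :
    Q.DL (Q.s1G ι f g s) ![Q.ev ι s (om c f g (XD c f)), Q.ev ι s (om c f g (XB f)),
      Q.ev ι s (om c f g (pderiv 2)), Q.ev ι s (om c f g (pderiv 3)),
      Q.ev ι s (om c f g (pderiv 4))] :=
  ((((Cj.DL_ev (f := f) hι s g).add ((Cj.DL.const (Q.σ (Q.ev ι s f) / 2)).mul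
    (Cj.DL_ev (f := f) hι s f))).sub ((Cj.DL.const (Q.ev ι s f / 2)).mul
    (Cj.DL_ev (f := f) hι s (cj c f)))).sub (Cj.DL.const (Q.ev ι s g))).congr (Cj.s1_G hι s)
    fun i => by fin_cases i <;> simp [Cj.s1_om hι]

lemma Cj.s1_JF (hc : ∀ x, c (c x) = x) (hι : ∀ x, ι (c x) = Q.σ (ι x)) (s : L × L × K) (b : E) :
    ∃ f2 cf, Q.J2 (ι b) (-(Q.σ (Q.ev ι s (YY c f b f)) * ι b / 2)) (Q.s1F ι f s) 0
      (Q.ev ι s (YY c f b f)) f2 cf :=
  ⟨_, _, ((Cj.J2_ev (f := f) hc hι s b f).sub (Cj.J2.const (Q.ev ι s f))).congr (fun _ => rfl)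
    (sub_self _).symm (sub_zero _).symm rfl fun _ => rfl⟩

lemma Cj.s1_JG (hc : ∀ x, c (c x) = x) (hι : ∀ x, ι (c x) = Q.σ (ι x)) (s : L × L × K) (b : E) :
    ∃ g2, Q.J2 (ι b) (-(Q.σ (Q.ev ι s (YY c f b f)) * ι b / 2)) (Q.s1G ι f g s) 0
      (Q.ev ι s (om c f g (YY c f b))) g2
      ![Q.ev ι s (om c f g (XD c f)), Q.ev ι s (om c f g (XB f)),
        Q.ev ι s (om c f g (pderiv 2)), Q.ev ι s (om c f g (pderiv 3)),
        Q.ev ι s (om c f g (pderiv 4))] :=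
  ⟨_, ((((Cj.J2_ev (f := f) hc hι s b g).add ((Cj.J2.const (Q.σ (Q.ev ι s f) / 2)).mul
    (Cj.J2_ev (f := f) hc hι s b f))).sub ((Cj.J2.const (Q.ev ι s f / 2)).mul
    (Cj.J2_ev (f := f) hc hι s b (cj c f)))).sub (Cj.J2.const (Q.ev ι s g))).congr (Cj.s1_G hι s)
    (by rw [Cj.ev_cj hι]; ring) (by rw [Cj.s1_om hι]; ring) rfl
    fun i => by fin_cases i <;> simp [Cj.s1_om hι]⟩

theorem Cj.stage1 (hc : ∀ x, c (c x) = x) (hι : ∀ x, ι (c x) = Q.σ (ι x)) {θ : E} (hθ : ι θ = Q.θ)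
    (hg : cj c g = -g) (h : ¬ Q.BadA (fun v => Q.ev ι v f) (fun v => Q.ev ι v g)) :
    om c f g (XD c f) = 0 ∧ XB f f = 0 ∧ om c f g (pderiv 2) = XD c f f := by
  have h2 : (2 : E) ≠ 0 := fun e => Q.two (by rw [← map_ofNat ι 2, e, map_zero])
  have sk : ∀ v, Q.σ (Q.ev ι v g) = -Q.ev ι v g := fun v => by rw [← Cj.ev_cj hι, hg, map_neg]
  have nb : ∀ s, ¬ Q.BadR (Q.s1F ι f s) (Q.s1G ι f g s) := fun s hs =>
    h (Cj.bad_abs (F := fun v => Q.ev ι v f) (G := fun v => Q.ev ι v g) s (sk s) hs)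
  have F0 : ∀ s, Q.s1F ι f s 0 = 0 := fun s => by rw [Cj.s1F, Cj.T_zero, sub_self]
  have G0 : ∀ s, Q.s1G ι f g s 0 = 0 := fun s => by
    rw [Cj.s1G, F0, Cj.T_zero, map_zero]; ring
  have Gs : ∀ s v, Q.σ (Q.s1G ι f g s v) = -Q.s1G ι f g s v := fun s v => by
    rw [Cj.s1G, map_add, map_sub, sk, sk, map_div₀, map_sub, map_mul, map_mul, Q.σσ, Q.σσ, map_ofNat]
    ring
  have den : ∀ w : MvPolynomial (Fin 5) E, (∀ s, Q.ev ι s w = 0) → w = 0 := fun w hw => by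
    by_contra h0
    obtain ⟨s, hs⟩ := Cj.dense (Q := Q) (ι := ι) h0
    exact hs (hw s)
  have A : om c f g (XD c f) = 0 := den _ fun s => by
    by_contra h0
    exact nb s (Cj.lemA (Cj.s1_DLF hι s) (Cj.s1_DLG hι s) (F0 s) (G0 s) (Gs s) h0).bad
  have A' : om c f g (XB f) = 0 := by rw [om_XB hc hg, A, map_zero, neg_zero]
  have AY : ∀ b, om c f g (YY c f b) = 0 := fun b => by
    have : om c f g (YY c f b) = C b * om c f g (XD c f) + C (c b) * om c f g (XB f) := by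
      simp only [om, YY_apply]; ring
    rw [this, A, A', mul_zero, mul_zero, add_zero]
  have br : ∀ s, Q.ev ι s (om c f g (pderiv 4)) +
      Q.ev ι s (om c f g (pderiv 2)) * Q.σ (Q.ev ι s (XD c f f)) +
      Q.σ (Q.ev ι s (om c f g (pderiv 2))) * Q.ev ι s (XD c f f) =
      Q.ev ι s (XD c f f) * Q.σ (Q.ev ι s (XD c f f)) -
        Q.ev ι s (XB f f) * Q.σ (Q.ev ι s (XB f f)) := fun s => by
    simpa only [map_add, map_sub, map_mul, Cj.ev_cj hι] using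
      congrArg (Q.ev ι s) (bracket hc h2 hg A)
  have hB : ∀ s b, ι b ≠ 0 →
      Q.ev ι s (YY c f b f) * Q.σ (Q.ev ι s (YY c f b f)) -
        Q.ev ι s (om c f g (pderiv 4)) * (ι b * Q.σ (ι b)) -
        Q.ev ι s (om c f g (pderiv 2)) * Q.σ (Q.ev ι s (YY c f b f)) * ι b -
        Q.σ (Q.ev ι s (om c f g (pderiv 2))) * Q.ev ι s (YY c f b f) * Q.σ (ι b) = 0 := by
    intro s b hb
    by_contra h0
    obtain ⟨f2, cf, jf⟩ := Cj.s1_JF (f := f) hc hι s b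
    obtain ⟨g2, jg⟩ := Cj.s1_JG (f := f) (g := g) hc hι s b
    rw [AY, map_zero] at jg
    obtain ⟨-, s3, s4⟩ := (Cj.s1_DLG (f := f) (g := g) hι s).skew (Gs s)
    exact nb s (Cj.lemB hb jf jg (Gs s) s3 s4 h0).bad
  have B : XB f f = 0 := den _ fun s => by
    have b1 := hB s 1 (by simp)
    have b2 := hB s θ (hθ ▸ Q.θ0)
    simp only [YY_apply, map_add, map_mul, Cj.s1_C, hι, hθ, map_one, Q.σθ, map_neg, neg_neg,
      one_mul, mul_one] at b1 b2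
    have b3 : Q.θ ^ 2 * (2 * 2) * (Q.ev ι s (XB f f) * Q.σ (Q.ev ι s (XB f f))) = 0 := by
      linear_combination Q.θ ^ 2 * b1 - b2 + 2 * Q.θ ^ 2 * br s
    have b4 := (mul_eq_zero.1 b3).resolve_left
      (mul_ne_zero (pow_ne_zero _ Q.θ0) (mul_ne_zero Q.two Q.two))
    rcases mul_eq_zero.1 b4 with e | e
    · exact e
    · exact (map_eq_zero Q.σ).1 e
  refine ⟨A, B, sub_eq_zero.1 (den _ fun s => ?_)⟩
  rw [map_sub, sub_eq_zero]
  by_contra h0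
  have b := br s
  rw [B, map_zero, zero_mul, sub_zero] at b
  refine nb s (Cj.lemC (Cj.s1_DLF hι s) (Cj.s1_DLG hι s) (F0 s) (G0 s) (Gs s) ?_ ?_ ?_
    fun e => h0 e.symm)
  · simp [B]
  · simp [A]
  · simp only [Matrix.cons_val_zero, Matrix.cons_val, map_sub]
    linear_combination b

end Pool.Agent.Lib.MP_3fd6b0_co
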