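import Pool.Agent.Lib.MP_3fd6b0_co.Defs

set_option autoImplicit false
set_option linter.unusedSectionVars false
open Filter

namespace Pool.Agent.Lib.MP_3fd6b0_co

/-- the ideal of the sequences that vanish along an ultrafilter -/
def nul (U : Ultrafilter ℕ) (F : ℕ → Type) [∀ i, Field (F i)] : Ideal (∀ i, F i) where
  carrier := {a | ∀ᶠ i in (U : Filter ℕ), a i = 0}
  add_mem' := fun ha hb => (Filter.Eventually.and ha hb).mono fun i h => by simp [h.1, h.2]
  zero_mem' := Eventually.of_forall fun _ => rfl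
  smul_mem' := fun c _ ha => Filter.Eventually.mono ha fun i h => by simp [h]

instance nul_max (U : Ultrafilter ℕ) (F : ℕ → Type) [∀ i, Field (F i)] : (nul U F).IsMaximal := by
  rw [Ideal.isMaximal_iff]
  refine ⟨fun h => ?_, fun J x hJ hx hxJ => ?_⟩
  · have h' : ∀ᶠ i in (U : Filter ℕ), (1 : ∀ i, F i) i = 0 := h
    obtain ⟨i, hi⟩ := h'.exists
    exact one_ne_zero hi
  · have h' : ∀ᶠ i in (U : Filter ℕ), ¬ x i = 0 := Ultrafilter.eventually_not.2 hx
    have h1 : (1 - (fun i => (x i)⁻¹) * x : ∀ i, F i) ∈ nul U F := by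
      refine h'.mono fun i hi => ?_
      change 1 - (x i)⁻¹ * x i = 0
      rw [inv_mul_cancel₀ hi, sub_self]
    have h2 := J.add_mem (hJ h1) (J.mul_mem_left (fun i => (x i)⁻¹) hxJ)
    rwa [sub_add_cancel] at h2

/-- the ultraproduct -/
def UP (U : Ultrafilter ℕ) (F : ℕ → Type) [∀ i, Field (F i)] : Type := (∀ i, F i) ⧸ nul U F

noncomputable instance (U : Ultrafilter ℕ) (F : ℕ → Type) [∀ i, Field (F i)] : Field (UP U F) :=
  Ideal.Quotient.field (nul U F)

/-- the class of a sequence -/
noncomputable def mkU (U : Ultrafilter ℕ) (F : ℕ → Type) [∀ i, Field (F i)] :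
    (∀ i, F i) →+* UP U F := Ideal.Quotient.mk (nul U F)

variable (U : Ultrafilter ℕ) (F : ℕ → Type) [∀ i, Field (F i)]

lemma mkU_surj : Function.Surjective (mkU U F) := Ideal.Quotient.mk_surjective

lemma mkU_eq_zero {a : ∀ i, F i} : mkU U F a = 0 ↔ ∀ᶠ i in (U : Filter ℕ), a i = 0 :=
  Ideal.Quotient.eq_zero_iff_mem

theorem UP_perfect [∀ i, Fintype (F i)] : PerfectField (UP U F) := by
  obtain ⟨p, hp⟩ := ExpChar.exists (UP U F)
  rcases hp with _ | ⟨hpp⟩
  · infer_instance
  · have : Fact p.Prime := ⟨hpp⟩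
    have h0 : mkU U F (p : ∀ i, F i) = 0 := by
      rw [map_natCast]
      exact CharP.cast_eq_zero _ p
    have h1 := (mkU_eq_zero U F).1 h0
    have : PerfectRing (UP U F) p := by
      refine PerfectRing.ofSurjective _ p fun z => ?_
      obtain ⟨a, rfl⟩ := mkU_surj U F z
      have h2 : ∀ i, ∃ b : F i, (p : F i) = 0 → b ^ p = a i := by
        intro i
        by_cases h : (p : F i) = 0
        · have : CharP (F i) p := (CharP.charP_iff_prime_eq_zero hpp).2 h
          obtain ⟨b, hb⟩ := surjective_frobenius (F i) p (a i)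
          exact ⟨b, fun _ => hb⟩
        · exact ⟨0, fun h' => absurd h' h⟩
      choose b hb using h2
      refine ⟨mkU U F b, ?_⟩
      rw [frobenius_def, ← map_pow, ← sub_eq_zero, ← map_sub, mkU_eq_zero]
      refine h1.mono fun i hi => ?_
      change b i ^ p - a i = 0
      rw [hb i hi, sub_self]
    exact PerfectRing.toPerfectField _ p

end Pool.Agent.Lib.MP_3fd6b0_co
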