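import Pool.Agent.Lib.MP_3fd6b0_co.MainK
import Pool.Agent.Lib.MP_3fd6b0_co.Large
import Pool.Agent.Lib.MP_3fd6b0_co.Pac

/-!
From a complete field to a large field, and from an ultraproduct to finite fields.
-/

set_option autoImplicit false
set_option linter.unusedSectionVars false
open Filter MvPolynomial

namespace Pool.Agent.Lib.MP_3fd6b0_co

lemma Ultra_eqs {A B : Type} [CommRing A] [CommRing B] (φ : A →+* B) (d : A) (s : Fin 5 → A)
    (u : Fin 3 → A) (t : Fin 5 → A) (v : Fin 3 → A) (x : Fin 4 → A) (j : Fin 3) (e : Fin 2) :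
    φ (eqs d s u t v x j e) = eqs (φ d) (fun i => φ (s i)) (fun i => φ (u i)) (fun i => φ (t i))
      (fun i => φ (v i)) (fun i => φ (x i)) j e := by
  fin_cases j <;> fin_cases e <;> simp [eqs, cmp, rows, map_ofNat]

lemma Ultra_eqs_alg {F A B : Type} [CommRing F] [CommRing A] [CommRing B] [Algebra F A]
    [Algebra F B] (φ : A →ₐ[F] B) (d : F) (f : Fin 3 → MvPolynomial (Fin 5) F) (s t : Fin 5 → A)
    (x : Fin 4 → A) (j : Fin 3) (e : Fin 2) :
    φ (eqs (algebraMap F A d) s (fun i => aeval s (f i)) t (fun i => aeval t (f i)) x j e) =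
      eqs (algebraMap F B d) (fun i => φ (s i)) (fun i => aeval (fun k => φ (s k)) (f i))
        (fun i => φ (t i)) (fun i => aeval (fun k => φ (t k)) (f i)) (fun i => φ (x i)) j e := by
  have h := Ultra_eqs (φ : A →+* B) (algebraMap F A d) s (fun i => aeval s (f i)) t
    (fun i => aeval t (f i)) x j e
  simpa only [RingHom.coe_coe, AlgHom.commutes, MvPolynomial.comp_aeval_apply] using h

lemma Ultra_eqs_map {A B : Type} [CommRing A] [CommRing B] (φ : A →+* B) (d : A)
    (f : Fin 3 → MvPolynomial (Fin 5) A) (s t : Fin 5 → A) (x : Fin 4 → A) (j : Fin 3)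
    (e : Fin 2) :
    φ (eqs d s (fun i => eval s (f i)) t (fun i => eval t (f i)) x j e) =
      eqs (algebraMap B B (φ d)) (fun i => φ (s i))
        (fun i => aeval (fun k => φ (s k)) (map φ (f i)))
        (fun i => φ (t i)) (fun i => aeval (fun k => φ (t k)) (map φ (f i)))
        (fun i => φ (x i)) j e := by
  have h : ∀ (w : Fin 5 → A) (p : MvPolynomial (Fin 5) A),
      φ (eval w p) = aeval (fun k => φ (w k)) (map φ p) := fun w p => by
    rw [MvPolynomial.map_eval, aeval_eq_eval]; rfl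
  rw [Ultra_eqs]
  simp only [h]
  rfl

theorem real_large (F : Type) [Field F] [PerfectField F] (h : Pac F) (d : F) (h2 : (2 : F) ≠ 0)
    (hd : ¬ IsSquare d) (f : Fin 3 → MvPolynomial (Fin 5) F) : BadK F d f := by
  obtain ⟨K, _, _, _, _, H⟩ := large F h
  have HT : ∀ T : Set K, T.Finite → Tr1 F (Algebra.adjoin F T) := fun T hT => by
    have : Algebra.FiniteType F (Algebra.adjoin F T) := Algebra.FiniteType.adjoin_of_finite hT
    exact H _ (Subalgebra.val _) Subtype.val_injective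
  have hd' : ¬ IsSquare (algebraMap F K d) := by
    rintro ⟨r, hr⟩
    obtain ⟨π, -⟩ := HT {r} (Set.finite_singleton r) 1 one_ne_zero
    let r' : Algebra.adjoin F {r} := ⟨r, Algebra.self_mem_adjoin_singleton F r⟩
    have e : algebraMap F _ d = r' * r' := Subtype.ext hr
    refine hd ⟨π r', ?_⟩
    rw [← map_mul, ← e, AlgHom.commutes]
    rfl
  obtain ⟨s, t, x, hst, hx, he⟩ := mainK F K d h2 hd' f
  obtain ⟨i, hi⟩ := Function.ne_iff.1 hst
  obtain ⟨l, hl⟩ := Function.ne_iff.1 hx
  let T : Set K := Set.range s ∪ Set.range t ∪ Set.range x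
  let s' : Fin 5 → Algebra.adjoin F T := fun k =>
    ⟨s k, Algebra.subset_adjoin (Or.inl (Or.inl ⟨k, rfl⟩))⟩
  let t' : Fin 5 → Algebra.adjoin F T := fun k =>
    ⟨t k, Algebra.subset_adjoin (Or.inl (Or.inr ⟨k, rfl⟩))⟩
  let x' : Fin 4 → Algebra.adjoin F T := fun k => ⟨x k, Algebra.subset_adjoin (Or.inr ⟨k, rfl⟩)⟩
  obtain ⟨π, hπ⟩ := HT T (((Set.finite_range s).union (Set.finite_range t)).union
    (Set.finite_range x)) ((s' i - t' i) * x' l) fun e =>
      mul_ne_zero (sub_ne_zero.2 hi) hl (congrArg Subtype.val e)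
  rw [map_mul, map_sub] at hπ
  refine ⟨fun k => π (s' k), fun k => π (t' k), fun k => π (x' k),
    fun e => left_ne_zero_of_mul hπ (sub_eq_zero.2 (congrFun e i)),
    fun e => right_ne_zero_of_mul hπ (congrFun e l), fun j e => ?_⟩
  rw [← Ultra_eqs_alg π d f s' t' x' j e]
  have h0 : eqs (algebraMap F _ d) s' (fun i => aeval s' (f i)) t' (fun i => aeval t' (f i))
      x' j e = 0 :=
    Subtype.ext ((Ultra_eqs_alg (Algebra.adjoin F T).val d f s' t' x' j e).trans (he j e))
  rw [h0, map_zero]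

lemma Ultra_lift (D : ℕ) (F : ℕ → Type) [∀ i, Field (F i)] (p : ∀ i, MvPolynomial (Fin 5) (F i))
    (hp : ∀ i, (p i).totalDegree ≤ D) :
    ∃ G : MvPolynomial (Fin 5) (∀ i, F i), ∀ i, map (Pi.evalRingHom F i) G = p i := by
  classical
  refine ⟨∑ m ∈ (Finsupp.finite_of_degree_le (σ := Fin 5) D).toFinset,
    monomial m fun i => coeff m (p i), fun i => ?_⟩
  ext m
  simp only [map_sum, map_monomial, coeff_sum, coeff_monomial, Finset.sum_ite_eq',
    Set.Finite.mem_toFinset, Pi.evalRingHom_apply]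
  split_ifs with hm
  · rfl
  · by_contra h
    exact hm ((le_totalDegree (mem_support_iff.2 (Ne.symm h))).trans (hp i))

theorem uniform (D : ℕ) : ∃ q0 : ℕ, ∀ (F : Type) [Field F] [Fintype F], q0 ≤ Fintype.card F →
    (2 : F) ≠ 0 → ∀ d : F, ¬ IsSquare d → ∀ f : Fin 3 → MvPolynomial (Fin 5) F,
    (∀ j, (f j).totalDegree ≤ D) → BadK F d f := by
  by_contra hcon
  push Not at hcon
  choose F _ _ hcard h2 d hd f hf hbad using hcon
  let U := hyperfilter ℕ
  have hU : ∀ q0, ∀ᶠ i in (U : Filter ℕ), q0 ≤ Fintype.card (F i) := fun q0 =>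
    ((eventually_ge_atTop q0).filter_mono Nat.hyperfilter_le_atTop).mono fun i hi =>
      hi.trans (hcard i)
  have := UP_perfect U F
  choose G hG using fun j => Ultra_lift D F (fun i => f i j) fun i => hf i j
  obtain ⟨s, t, x, hst, hx, he⟩ := real_large (UP U F) (UP_pac U F hU) (mkU U F d)
    (fun e => by
      rw [← map_ofNat (mkU U F) 2, mkU_eq_zero] at e
      obtain ⟨i, hi⟩ := e.exists
      exact h2 i hi)
    (by
      rintro ⟨r, hr⟩
      obtain ⟨a, rfl⟩ := mkU_surj U F r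
      rw [← map_mul, ← sub_eq_zero, ← map_sub, mkU_eq_zero] at hr
      obtain ⟨i, hi⟩ := hr.exists
      exact hd i ⟨a i, sub_eq_zero.1 hi⟩)
    (fun j => map (mkU U F) (G j))
  choose s' hs' using fun k => mkU_surj U F (s k)
  choose t' ht' using fun k => mkU_surj U F (t k)
  choose x' hx' using fun k => mkU_surj U F (x k)
  obtain rfl : s = fun k => mkU U F (s' k) := funext fun k => (hs' k).symm
  obtain rfl : t = fun k => mkU U F (t' k) := funext fun k => (ht' k).symm
  obtain rfl : x = fun k => mkU U F (x' k) := funext fun k => (hx' k).symm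
  obtain ⟨k, hk⟩ := Function.ne_iff.1 hst
  obtain ⟨l, hl⟩ := Function.ne_iff.1 hx
  have e1 : ∀ᶠ i in (U : Filter ℕ), ¬ (s' k - t' k) i = 0 := Ultrafilter.eventually_not.2 fun e =>
    hk (sub_eq_zero.1 ((map_sub _ _ _).symm.trans ((mkU_eq_zero U F).2 e)))
  have e2 : ∀ᶠ i in (U : Filter ℕ), ¬ x' l i = 0 := Ultrafilter.eventually_not.2 fun e =>
    hl ((mkU_eq_zero U F).2 e)
  have e3 : ∀ᶠ i in (U : Filter ℕ), ∀ j e,
      eqs d s' (fun i => eval s' (G i)) t' (fun i => eval t' (G i)) x' j e i = 0 :=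
    eventually_all.2 fun j => eventually_all.2 fun e =>
      (mkU_eq_zero U F).1 ((Ultra_eqs_map (mkU U F) d G s' t' x' j e).trans (he j e))
  obtain ⟨i, ⟨h1, h3⟩, h4⟩ := ((e1.and e2).and e3).exists
  refine hbad i ⟨fun k => s' k i, fun k => t' k i, fun k => x' k i,
    fun e => h1 (sub_eq_zero.2 (congrFun e k)), fun e => h3 (congrFun e l), fun j e => ?_⟩
  have h5 := Ultra_eqs_map (Pi.evalRingHom F i) d G s' t' x' j e
  simp only [hG] at h5
  exact h5.symm.trans (h4 j e)

end Pool.Agent.Lib.MP_3fd6b0_co
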