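import Pool.Agent.Lib.MP_587b89_lc.Lin.Inf

/-!
Jets of a simple root with bounded poles.
-/

set_option autoImplicit false
set_option linter.unusedSectionVars false
open Polynomial Module Pool.Agent.Lib.MP_587b89_lc Pool.Agent.Lib.MP_587b89_lc.Lin

namespace Pool.Agent.Lib.MP_3fd6b0_co

section
variable {k B : Type} [Field k] [CommRing B] [IsDomain B] [Algebra k B] {D' c : ℕ}
  (Fl : Filt k B D' c)

/-- all coefficients have bounded poles -/
def JW (n : ℕ) (G : B[X]) : Prop := ∀ r, G.coeff r ∈ Fl.V n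

variable {Fl} {n m : ℕ} {G G' : B[X]}

lemma JW.mono (h : JW Fl n G) (hn : n ≤ m) : JW Fl m G := fun r => Fl.mono hn (h r)
lemma JW.add (h : JW Fl n G) (h' : JW Fl n G') : JW Fl n (G + G') := fun r => by
  rw [coeff_add]; exact add_mem (h r) (h' r)
lemma JW.neg (h : JW Fl n G) : JW Fl n (-G) := fun r => by rw [coeff_neg]; exact neg_mem (h r)
lemma JW.mul (h : JW Fl n G) (h' : JW Fl m G') : JW Fl (n + m) (G * G') := fun r => by
  rw [coeff_mul]; exact Submodule.sum_mem _ fun x _ => Fl.mul (h _) (h' _)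
lemma JW.zero : JW Fl n 0 := fun r => by simp
lemma JW.C {a : B} (h : a ∈ Fl.V n) : JW Fl n (C a) := fun r => by
  rw [coeff_C]; split_ifs
  · exact h
  · exact zero_mem _
lemma JW.one : JW Fl 0 1 := JW.C Fl.one
lemma JW.X : JW Fl 0 X := fun r => by
  rw [coeff_X]; split_ifs
  · exact Fl.one
  · exact zero_mem _
lemma JW.pow (h : JW Fl n G) (j : ℕ) : JW Fl (j * n) (G ^ j) := by
  induction j with
  | zero => simpa using JW.one
  | succ j ih => rw [pow_succ, Nat.succ_mul]; exact ih.mul h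
lemma JW.smul (h : JW Fl n G) (a : k) : JW Fl n (a • G) := fun r => by
  rw [coeff_smul]; exact Submodule.smul_mem _ _ (h r)
lemma JW.cast (j : ℕ) : JW Fl 0 (j : B[X]) := by
  induction j with
  | zero => simpa using JW.zero
  | succ j ih => rw [Nat.cast_succ]; exact ih.add JW.one
lemma JW.sum {ι : Type} (s : Finset ι) {g : ι → B[X]} (h : ∀ i ∈ s, JW Fl n (g i)) :
    JW Fl n (∑ i ∈ s, g i) := Finset.sum_induction g (JW Fl n) (fun _ _ => JW.add) JW.zero h

lemma JW.tay {a h : B[X]} (ha : JW Fl n a) (hh : JW Fl n h) (j : ℕ) : ∃ R, JW Fl (j * n) R ∧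
    (a + h) ^ j = a ^ j + j * a ^ (j - 1) * h + h ^ 2 * R := by
  induction j with
  | zero => exact ⟨0, JW.zero, by simp⟩
  | succ j ih =>
    obtain ⟨R, h1, h2⟩ := ih
    refine ⟨R * (a + h) + j * a ^ (j - 1), (h1.mul (ha.add hh)).add
      (((JW.cast j).mul (ha.pow _)).mono ?_) |>.mono (by rw [Nat.succ_mul]), ?_⟩
    · rw [zero_add]
      exact (Nat.mul_le_mul_right _ (Nat.sub_le _ _)).trans (Nat.le_add_right _ _)
    · rw [pow_succ, h2]
      rcases j with _ | j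
      · simp; ring
      · simp only [Nat.add_sub_cancel, Nat.cast_add, Nat.cast_one]; ring

lemma JW.tay1 {a h : B[X]} (ha : JW Fl n a) (hh : JW Fl n h) (j : ℕ) : ∃ R, JW Fl (j * n) R ∧
    (a + h) ^ j = a ^ j + h * R := by
  induction j with
  | zero => exact ⟨0, JW.zero, by simp⟩
  | succ j ih =>
    obtain ⟨R, h1, h2⟩ := ih
    exact ⟨R * (a + h) + a ^ j, (h1.mul (ha.add hh)).add ((ha.pow _).mono (Nat.le_add_right _ _))
      |>.mono (by rw [Nat.succ_mul]), by rw [pow_succ, h2]; ring⟩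

lemma JW.aev {a h : B[X]} (ha : JW Fl n a) (hh : JW Fl n h) {e : ℕ} {r : k[X]}
    (hr : r.natDegree ≤ e) : JW Fl (e * n) (aeval a r) ∧
      ∃ R, JW Fl (e * n) R ∧ aeval (a + h) r = aeval a r + h * R := by
  have hle : ∀ i ∈ Finset.range (e + 1), i * n ≤ e * n := fun i hi =>
    Nat.mul_le_mul_right _ (Nat.lt_succ_iff.1 (Finset.mem_range.1 hi))
  choose R h1 h2 using ha.tay1 hh
  rw [aeval_eq_sum_range' (Nat.lt_succ_of_le hr), aeval_eq_sum_range' (Nat.lt_succ_of_le hr)]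
  refine ⟨JW.sum _ fun i hi => ((ha.pow i).mono (hle i hi)).smul _,
    ∑ i ∈ Finset.range (e + 1), r.coeff i • R i,
    JW.sum _ fun i hi => ((h1 i).mono (hle i hi)).smul _, ?_⟩
  rw [Finset.mul_sum, ← Finset.sum_add_distrib]
  exact Finset.sum_congr rfl fun i _ => by rw [h2, smul_add, mul_smul_comm]

/-- evaluation of a polynomial in two variables -/
noncomputable def ev2 (a b : B[X]) (P : k[X][X]) : B[X] :=
  eval₂ (aeval a : k[X] →ₐ[k] B[X]).toRingHom b P

variable {D e : ℕ} {P : k[X][X]} {a b h : B[X]}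

lemma ev2_eq (hP : P.natDegree ≤ D) (a b : B[X]) :
    ev2 a b P = ∑ j ∈ Finset.range (D + 1), aeval a (P.coeff j) * b ^ j :=
  eval₂_eq_sum_range' _ (Nat.lt_succ_of_le hP) _

lemma ev2_left (hP : P.natDegree ≤ D) (he : ∀ i, (P.coeff i).natDegree ≤ e) (ha : JW Fl n a)
    (hb : JW Fl n b) (hh : JW Fl n h) : JW Fl ((e + D) * n) (ev2 a b P) ∧
      ∃ R, JW Fl ((e + D) * n) R ∧ ev2 (a + h) b P = ev2 a b P + h * R := by
  have hle : ∀ i ∈ Finset.range (D + 1), e * n + i * n ≤ (e + D) * n := fun i hi => by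
    rw [← Nat.add_mul]
    exact Nat.mul_le_mul_right _ (Nat.add_le_add_left (Nat.lt_succ_iff.1 (Finset.mem_range.1 hi)) _)
  choose R h1 h2 using fun i => (ha.aev hh (he i)).2
  rw [ev2_eq hP, ev2_eq hP]
  refine ⟨JW.sum _ fun i hi => ((ha.aev hh (he i)).1.mul (hb.pow i)).mono (hle i hi),
    ∑ i ∈ Finset.range (D + 1), R i * b ^ i,
    JW.sum _ fun i hi => ((h1 i).mul (hb.pow i)).mono (hle i hi), ?_⟩
  rw [Finset.mul_sum, ← Finset.sum_add_distrib]
  exact Finset.sum_congr rfl fun i _ => by rw [h2]; ring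

lemma ev2_der (hP : P.natDegree ≤ D) (a b : B[X]) : ev2 a b (derivative P) =
    ∑ j ∈ Finset.range (D + 1), aeval a (P.coeff j) * (j * b ^ (j - 1)) := by
  conv_lhs => rw [as_sum_range' P _ (Nat.lt_succ_of_le hP)]
  simp only [ev2, map_sum, derivative_monomial, eval₂_finsetSum, eval₂_monomial]
  exact Finset.sum_congr rfl fun i _ => by simp [mul_assoc]

lemma ev2_right (hP : P.natDegree ≤ D) (he : ∀ i, (P.coeff i).natDegree ≤ e) (ha : JW Fl n a)
    (hb : JW Fl n b) (hh : JW Fl n h) : ∃ R, JW Fl ((e + D) * n) R ∧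
      ev2 a (b + h) P = ev2 a b P + h * ev2 a b (derivative P) + h ^ 2 * R := by
  have hle : ∀ i ∈ Finset.range (D + 1), e * n + i * n ≤ (e + D) * n := fun i hi => by
    rw [← Nat.add_mul]
    exact Nat.mul_le_mul_right _ (Nat.add_le_add_left (Nat.lt_succ_iff.1 (Finset.mem_range.1 hi)) _)
  choose R h1 h2 using hb.tay hh
  rw [ev2_eq hP, ev2_eq hP, ev2_der hP]
  refine ⟨∑ i ∈ Finset.range (D + 1), aeval a (P.coeff i) * R i,
    JW.sum _ fun i hi => ((ha.aev hh (he i)).1.mul (h1 i)).mono (hle i hi), ?_⟩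
  rw [Finset.mul_sum, Finset.mul_sum, ← Finset.sum_add_distrib, ← Finset.sum_add_distrib]
  exact Finset.sum_congr rfl fun i _ => by rw [h2]; ring

lemma ev2_C (x y : B) (P : k[X][X]) :
    ev2 (C x) (C y) P = C (eval₂ (aeval x : k[X] →ₐ[k] B).toRingHom y P) := by
  rw [ev2, hom_eval₂]
  congr 1
  exact RingHom.ext fun r => aeval_algHom_apply (CAlgHom : B →ₐ[k] B[X]) x r

lemma der_deg (he : ∀ i, (P.coeff i).natDegree ≤ e) (i : ℕ) :
    ((derivative P).coeff i).natDegree ≤ e := by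
  rw [coeff_derivative, ← Nat.cast_succ]
  exact natDegree_mul_le.trans (by rw [natDegree_natCast]; exact he _)

end

theorem jet_aux (D e γ M : ℕ) : ∃ β : ℕ, ∀ (k B : Type) [Field k] [CommRing B] [IsDomain B]
    [Algebra k B] {D' c : ℕ} (Fl : Filt k B D' c) (x y η : B) (P : k[X][X]), x ∈ Fl.V 1 →
    y ∈ Fl.V γ → P.natDegree ≤ D → (∀ i, (P.coeff i).natDegree ≤ e) →
    ev2 (C x) (C y) P = 0 → ev2 (C x) (C y) (derivative P) = C η →
    JW Fl β (C x) ∧ JW Fl β (C y) ∧ JW Fl β (C η) ∧ ∃ Z H : B[X], JW Fl β Z ∧ JW Fl β H ∧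
      X ^ (M + 1) ∣ H ∧ ev2 (C x + C η ^ 2 * X) (C y + C η * (X * Z)) P = C η ^ 2 * H := by
  induction M with
  | zero =>
    obtain ⟨n, hn⟩ : ∃ n, n = (γ + 1) + 2 * ((e + D) * (γ + 1)) := ⟨_, rfl⟩
    refine ⟨n + (e + D) * n, fun k B _ _ _ _ D' c Fl x y η P hx hy hP he h0 h1 => ?_⟩
    have a1 : JW Fl (γ + 1) (C x) := (JW.C hx).mono (by omega)
    have a2 : JW Fl (γ + 1) (C y) := (JW.C hy).mono (by omega)
    have a3 : JW Fl ((e + D) * (γ + 1)) (C η) := h1 ▸ (ev2_left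
      ((natDegree_derivative_le P).trans ((Nat.sub_le _ _).trans hP)) (der_deg he) a1 a2 a1).1
    obtain ⟨R, r1, r2⟩ := (ev2_left hP he (n := n) (a1.mono (by omega)) (a2.mono (by omega))
      (((a3.pow 2).mul JW.X).mono (by omega))).2
    refine ⟨a1.mono (by omega), a2.mono (by omega), a3.mono (by omega), 0, X * R, JW.zero,
      (JW.X.mul r1).mono (by omega), by simp, ?_⟩
    rw [mul_zero, mul_zero, add_zero, r2, h0]
    ring
  | succ M ih =>
    obtain ⟨β, ih⟩ := ih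
    obtain ⟨N, hN⟩ : ∃ N, N = (e + D) * (3 * β) := ⟨_, rfl⟩
    refine ⟨3 * β + N, fun k B _ _ _ _ D' c Fl x y η P hx hy hP he h0 h1 => ?_⟩
    obtain ⟨a1, a2, a3, Z, H, b1, b2, ⟨H', b3⟩, b4⟩ := ih k B Fl x y η P hx hy hP he h0 h1
    have hP' := (natDegree_derivative_le P).trans ((Nat.sub_le _ _).trans hP)
    have c1 : JW Fl (3 * β) (C η ^ 2 * X) := ((a3.pow 2).mul JW.X).mono (by omega)
    have c2 : JW Fl (3 * β) (C η * (X * Z)) := (a3.mul (JW.X.mul b1)).mono (by omega)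
    have c3 : JW Fl (3 * β) (C x) := a1.mono (by omega)
    have c4 : JW Fl (3 * β) (C y) := a2.mono (by omega)
    obtain ⟨R1, r1, s1⟩ := (ev2_left hP' (der_deg he) c3 (c4.add c2) c1).2
    obtain ⟨R2, r2, s2⟩ := ev2_right hP he (c3.add c1) (c4.add c2)
      (h := -(C η * H)) ((a3.mul b2).neg.mono (by omega))
    have hR3 : ∃ R3, JW Fl N R3 ∧ ev2 (C x) (C y + C η * (X * Z)) (derivative P) =
        C η + C η * (X * Z) * R3 := by
      choose R q1 q2 using c4.tay1 c2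
      refine ⟨∑ i ∈ Finset.range (D + 1), aeval (C x) ((derivative P).coeff i) * R i,
        JW.sum _ fun i hi => ((c3.aev c1 (der_deg he i)).1.mul (q1 i)).mono ?_, ?_⟩
      · rw [hN, ← Nat.add_mul]
        exact Nat.mul_le_mul_right _
          (Nat.add_le_add_left (Nat.lt_succ_iff.1 (Finset.mem_range.1 hi)) _)
      · nth_rewrite 2 [← h1]
        rw [ev2_eq hP', ev2_eq hP', Finset.mul_sum, ← Finset.sum_add_distrib]
        exact Finset.sum_congr rfl fun i _ => by rw [q2]; ring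
    obtain ⟨R3, r3, s3⟩ := hR3
    rw [← hN] at r1 r2
    have hH' : JW Fl β (X ^ M * H') := fun r => by
      have := b2 (r + 1)
      rwa [b3, pow_succ', mul_assoc, coeff_X_mul] at this
    refine ⟨c3.mono (by omega), c4.mono (by omega), a3.mono (by omega), Z + -(X ^ M * H'),
      -(X * H * (Z * R3 + C η * R1)) + H ^ 2 * R2, (b1.add hH'.neg).mono (by omega),
      (((JW.X.mul b2).mul ((b1.mul r3).add (a3.mul r1))).neg.mono (by omega)).add
        (((b2.pow 2).mul r2).mono (by omega)),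
      ⟨-(H' * (Z * R3 + C η * R1)) + X ^ M * H' ^ 2 * R2, by rw [b3]; ring⟩, ?_⟩
    rw [show C y + C η * (X * (Z + -(X ^ M * H'))) = C y + C η * (X * Z) + -(C η * H) by
      rw [b3]; ring, s2, b4, s1, s3]
    ring

/-- a lift of a simple root to jets of order `M`, with bounded poles -/
theorem jet (D e γ M : ℕ) : ∃ β : ℕ, ∀ (k B : Type) [Field k] [CommRing B] [IsDomain B]
    [Algebra k B] {D' c : ℕ} (Fl : Filt k B D' c) (x y : B) (P : k[X][X]), x ∈ Fl.V 1 →
    y ∈ Fl.V γ → P.natDegree ≤ D → (∀ i, (P.coeff i).natDegree ≤ e) →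
    eval₂ (aeval x : k[X] →ₐ[k] B).toRingHom y P = 0 →
    ∃ Z : B[X], Z.coeff 0 = 0 ∧ (∀ r, Z.coeff r ∈ Fl.V β) ∧
      X ^ M ∣ eval₂ (aeval (C x + C (eval₂ (aeval x : k[X] →ₐ[k] B).toRingHom y (derivative P)) ^ 2
          * X) : k[X] →ₐ[k] B[X]).toRingHom
        (C y + C (eval₂ (aeval x : k[X] →ₐ[k] B).toRingHom y (derivative P)) * Z) P := by
  obtain ⟨β, h⟩ := jet_aux D e γ M
  refine ⟨β, fun k B _ _ _ _ D' c Fl x y P hx hy hP he h0 => ?_⟩
  obtain ⟨-, -, -, Z, H, b1, -, b3, b4⟩ := h k B Fl x y _ P hx hy hP he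
    (by rw [ev2_C, h0, map_zero]) (ev2_C x y _)
  refine ⟨X * Z, by simp, (JW.X.mul b1).mono (by omega), ?_⟩
  rw [ev2] at b4
  rw [b4]
  exact ((pow_dvd_pow _ (Nat.le_succ M)).trans b3).mul_left _

end Pool.Agent.Lib.MP_3fd6b0_co
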