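import Pool.Agent.Lib.MP_3fd6b0_co.WUp

/-!
From the upper bound for all twists to the existence of a rational point.
-/

set_option autoImplicit false
set_option linter.unusedSectionVars false
set_option linter.overlappingInstances false
open Polynomial Module Pool.Agent.Lib.MP_587b89_lc Pool.Agent.Lib.MP_587b89_lc.Lin

namespace Pool.Agent.Lib.MP_3fd6b0_co

lemma WLow_lower {k B : Type} [Field k] [CommRing B] [IsDomain B] [Algebra k B] [Algebra k[X] B]
    [IsScalarTower k k[X] B] {D' : ℕ} (b0 : Basis (Fin D') k[X] B) (G : Type) [Group G] [Finite G]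
    [MulSemiringAction G B] [SMulCommClass G k[X] B] [Algebra.IsInvariant k[X] B G]
    [IsAlgClosed k] (p : ℕ) [Fact p.Prime] [CharP k p] {m t Z C0 : ℕ} (hm : m ≠ 0)
    (hG : Nat.card G ≤ t) (hq : t * Z + t * C0 < p ^ m) (φ : B →+* B)
    (hφ : ∀ r : k[X], φ (algebraMap k[X] B r) = algebraMap k[X] B (r.map (iterateFrobenius k p m)))
    (hup : ∀ (σ : G) (T : Finset (B →ₐ[k] k)), (∀ π ∈ T, ∀ f, π (φ (σ • f)) = π f ^ p ^ m) →
      t * T.card ≤ (t + 1) * p ^ m + C0) (g : B)
    (hg : ∀ T : Finset (B →ₐ[k] k), (∀ π ∈ T, π g = 0) → T.card ≤ Z) :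
    ∃ π : B →ₐ[k] k, π g ≠ 0 ∧ ∀ f, π (φ f) = π f ^ p ^ m := by
  classical
  have := Fintype.ofFinite G
  choose π0 hπ0 using exists_point b0
  rw [Nat.card_eq_fintype_card] at hG
  obtain ⟨n, hn⟩ : ∃ n, Fintype.card G = n + 1 :=
    Nat.exists_eq_succ_of_ne_zero Fintype.card_ne_zero
  by_contra hcon
  push Not at hcon
  obtain ⟨S, hS, hSx⟩ := exists_fixed (k := k) p hm
  choose! γ hγ using exists_twist (G := G) p m φ hφ
  choose r hr using fun π : B →ₐ[k] k => trans_point G (π0 (π (algebraMap k[X] B X))) π (hπ0 _)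
  have htw : ∀ x (h : G), twist (π0 x) h (algebraMap k[X] B X) = x := fun x h => by
    rw [twist_apply, smul_algebraMap, hπ0]
  let J : k × G → G := fun x => γ (twist (π0 x.1) x.2) * (r (twist (π0 x.1) x.2))⁻¹ * x.2
  have hJ : ∀ x : k × G, x.1 ∈ S → ∀ f,
      twist (π0 x.1) x.2 (φ (J x • f)) = twist (π0 x.1) x.2 f ^ p ^ m := by
    intro x hx f
    simp only [J]
    rw [mul_assoc, mul_smul, hγ _ (by rw [htw]; exact hSx _ hx), hr, htw, mul_smul,
      smul_inv_smul, twist_apply]
  have hfib : ∀ σ : G, ∃ T : Finset (B →ₐ[k] k), ((S ×ˢ Finset.univ).filter (J · = σ)).card =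
      T.card ∧ ∀ π ∈ T, ∀ f, π (φ (σ • f)) = π f ^ p ^ m := by
    intro σ
    refine ⟨((S ×ˢ Finset.univ).filter (J · = σ)).image fun x => twist (π0 x.1) x.2, ?_, ?_⟩
    · refine (Finset.card_image_of_injOn fun x hx y hy hxy => ?_).symm
      have h1 : x.1 = y.1 := by rw [← htw x.1 x.2, ← htw y.1 y.2]; exact AlgHom.congr_fun hxy _
      have h2 := (Finset.mem_filter.1 hx).2.trans (Finset.mem_filter.1 hy).2.symm
      simp only [J] at h2
      have h3 : twist (π0 x.1) x.2 = twist (π0 y.1) y.2 := hxy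
      rw [h3] at h2
      exact Prod.ext h1 (mul_left_cancel h2)
    · intro π hπ f
      obtain ⟨x, hx, rfl⟩ := Finset.mem_image.1 hπ
      obtain ⟨h1, rfl⟩ := Finset.mem_filter.1 hx
      exact hJ x (Finset.mem_product.1 h1).1 f
  have hsum := Finset.card_eq_sum_card_fiberwise (s := S ×ˢ Finset.univ) (t := Finset.univ)
    (f := J) (fun _ _ => Finset.mem_univ _)
  rw [Finset.card_product, hS, Finset.card_univ, hn,
    ← Finset.add_sum_erase _ _ (Finset.mem_univ (1 : G))] at hsum
  have h1 : ((S ×ˢ Finset.univ).filter (J · = 1)).card ≤ Z := by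
    obtain ⟨T, hT, hT'⟩ := hfib 1
    rw [hT]
    refine hg T fun π hπ => ?_
    by_contra h0
    obtain ⟨f, hf⟩ := hcon π h0
    exact hf (by simpa using hT' π hπ f)
  have h2 : t * ∑ σ ∈ Finset.univ.erase (1 : G),
      ((S ×ˢ Finset.univ).filter (J · = σ)).card ≤ n * ((t + 1) * p ^ m + C0) := by
    rw [Finset.mul_sum]
    refine (Finset.sum_le_card_nsmul _ _ ((t + 1) * p ^ m + C0) fun σ _ => ?_).trans ?_
    · obtain ⟨T, hT, hT'⟩ := hfib σ
      rw [hT]
      exact hup σ T hT'
    · rw [Finset.card_erase_of_mem (Finset.mem_univ _), Finset.card_univ, hn]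
      simp
  rw [hn] at hG
  generalize p ^ m = q at *
  generalize ∑ σ ∈ Finset.univ.erase (1 : G), ((S ×ˢ Finset.univ).filter (J · = σ)).card = R at *
  generalize ((S ×ˢ Finset.univ).filter (J · = 1)).card = N at *
  have h5 : t * (q * (n + 1)) = t * N + t * R := by rw [hsum]; ring
  have h6 : t * N ≤ t * Z := Nat.mul_le_mul_left _ h1
  have h7 : (n + 1) * q ≤ t * q := Nat.mul_le_mul_right _ hG
  have h8 : n * C0 ≤ t * C0 := Nat.mul_le_mul_right _ (by omega)
  nlinarith

section
variable {k L : Type} [Field k] [Field L] [Algebra k[X] L] [Algebra k L] [IsScalarTower k k[X] L]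

lemma WLow_poly {r : k[X]} {e : ℕ} (h : r.natDegree ≤ e) : Sm k e (algebraMap k[X] L r) := by
  have hr : algebraMap k[X] L r = aeval (algebraMap k[X] L X) r := by
    rw [aeval_algebraMap_apply, aeval_X_left_apply]
  rw [hr, aeval_eq_sum_range]
  refine Sm.sum _ _ fun i hi => ?_
  rw [Algebra.smul_def]
  refine ((sm_const _).mul (sm_X.pow i)).mono ?_
  have := Finset.mem_range.1 hi
  omega

lemma WLow_span [Algebra (FractionRing k[X]) L] [IsScalarTower k[X] (FractionRing k[X]) L]
    {γ : ℕ} {y : L} (hy : Sm k γ y) (htop : Algebra.adjoin (FractionRing k[X]) {y} = ⊤) :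
    ∃ c, Submodule.span (FractionRing k[X]) {x : L | Sm k c x} = ⊤ := by
  classical
  have hyi : IsIntegral (FractionRing k[X]) y := hy.1.tower_top
  refine ⟨(minpoly (FractionRing k[X]) y).natDegree * γ, ?_⟩
  rw [eq_top_iff, ← Algebra.top_toSubmodule, ← htop,
    ← Submodule.span_range_natDegree_eq_adjoin (minpoly.monic hyi) (minpoly.aeval _ _)]
  refine Submodule.span_mono fun a ha => ?_
  obtain ⟨j, hj, rfl⟩ := Finset.mem_image.1 (Finset.mem_coe.1 ha)
  exact (hy.pow j).mono (Nat.mul_le_mul_right _ (Finset.mem_range.1 hj).le)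

end

/-- the lower bound of Bombieri, uniform in the characteristic -/
theorem weilQ (D γ e : ℕ) : ∃ q0 : ℕ, ∀ (k L : Type) [Field k] [IsAlgClosed k] (p n : ℕ)
    [Fact p.Prime] [CharP k p] [Field L] [Algebra k[X] L] [Algebra k L] [IsScalarTower k k[X] L]
    [Algebra (FractionRing k[X]) L] [IsScalarTower k[X] (FractionRing k[X]) L]
    [FiniteDimensional (FractionRing k[X]) L] [IsGalois (FractionRing k[X]) L],
    finrank (FractionRing k[X]) L ≤ D → ∀ y : L, Sm k γ y →
    Algebra.adjoin (FractionRing k[X]) {y} = ⊤ → q0 ≤ p ^ n → ∀ Φ : L →+* L,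
    (∀ r : k[X], Φ (algebraMap k[X] L r) = algebraMap k[X] L (r.map (iterateFrobenius k p n))) →
    ∀ δ : k[X], δ ≠ 0 → δ.natDegree ≤ e →
    ∃ π : integralClosure k[X] L →ₐ[k] k, π (algebraMap k[X] _ δ) ≠ 0 ∧
      ∀ f : integralClosure k[X] L, Φ f = f → π f ^ p ^ n = π f := by
  obtain ⟨C0, q1, H⟩ := upperQ D γ D
  refine ⟨q1 + (D * (D * e) + D * C0 + 2), ?_⟩
  intro k L _ _ p n _ _ _ _ _ _ _ _ _ _ hD y hy htop hq Φ hΦ δ hδ he
  have hn : n ≠ 0 := by
    rintro rfl
    rw [pow_zero] at hq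
    omega
  obtain ⟨c, hc⟩ := WLow_span hy htop
  have : FaithfulSMul k[X] L := (faithfulSMul_iff_algebraMap_injective _ _).2 inj_L
  have := IsIntegralClosure.isDedekindDomain k[X] (FractionRing k[X]) L (integralClosure k[X] L)
  have := IsIntegralClosure.finite k[X] (FractionRing k[X]) L (integralClosure k[X] L)
  have := IsIntegralClosure.module_free k[X] (FractionRing k[X]) L (integralClosure k[X] L)
  have := IsIntegralClosure.isFractionRing_of_finite_extension k[X] (FractionRing k[X]) L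
    (integralClosure k[X] L)
  have := Algebra.isInvariant_of_isGalois' k[X] (FractionRing k[X]) L (integralClosure k[X] L)
  let ε := galRestrict k[X] (FractionRing k[X]) L (integralClosure k[X] L)
  have : Finite (integralClosure k[X] L ≃ₐ[k[X]] integralClosure k[X] L) :=
    Finite.of_equiv _ ε.toEquiv
  let φ : integralClosure k[X] L →+* integralClosure k[X] L :=
    (Φ.comp (integralClosure k[X] L).val.toRingHom).codRestrict (integralClosure k[X] L)
      fun f => IsIntegral.map_of_comp_eq (mapRingHom (iterateFrobenius k p n)) Φ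
        (RingHom.ext fun r => (hΦ r).symm) f.2
  obtain ⟨π, h1, h2⟩ := WLow_lower (Module.finBasis k[X] (integralClosure k[X] L))
    (integralClosure k[X] L ≃ₐ[k[X]] integralClosure k[X] L) p (t := D) (Z := D * e) (C0 := C0) hn
    (by rw [← Nat.card_congr ε.toEquiv, IsGalois.card_aut_eq_finrank]; exact hD) (by omega) φ
    (fun r => Subtype.ext (hΦ r)) (fun σ T hT => H k L p n hD y hy htop (by omega)
      (fun f => φ (σ • f)) (fun m f hf => by
        obtain ⟨σ, rfl⟩ := ε.surjective σ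
        show Sm k m (Φ (algebraMap _ L (ε σ f)))
        rw [algebraMap_galRestrict_apply]
        exact (Sm.gal σ hf).map _ Φ hΦ) T hT) (algebraMap k[X] _ δ)
    (fun T hT => ((filt hc).card_zeros (n := e) (WLow_poly he)
      (fun h => hδ (inj_L (L := L) ((congrArg Subtype.val h).trans (map_zero _).symm))) T hT).trans
      (Nat.mul_le_mul_right _ hD))
  refine ⟨π, h1, fun f hf => ?_⟩
  rw [← h2, show φ f = f from Subtype.ext hf]

end Pool.Agent.Lib.MP_3fd6b0_co
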