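import Pool.Agent.Lib.MP_3fd6b0_co.WUp1

/-!
The upper bound of Stepanov for a filtered ring with a plane model.
-/

set_option autoImplicit false
set_option linter.unusedSectionVars false
open Polynomial Module WithZero Pool.Agent.Lib.MP_587b89_lc Pool.Agent.Lib.MP_587b89_lc.Lin

namespace Pool.Agent.Lib.MP_3fd6b0_co

section
variable {k B : Type} [Field k] [CommRing B] [IsDomain B] [Algebra k B] {d c : ℕ}
  (Fl : Filt k B d c)

/-- the poles of the coefficients grow linearly -/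
def GW (κ n : ℕ) (G : B[X]) : Prop := ∀ r, G.coeff r ∈ Fl.V (n + κ * r)

variable {Fl} {κ n m : ℕ} {G G' : B[X]}

lemma JW.gw (h : JW Fl n G) : GW Fl κ n G := fun r => Fl.mono (Nat.le_add_right _ _) (h r)

lemma GW.mul (h : GW Fl κ n G) (h' : GW Fl κ m G') : GW Fl κ (n + m) (G * G') := fun r => by
  rw [coeff_mul]
  refine Submodule.sum_mem _ fun x hx => Fl.mono (le_of_eq ?_) (Fl.mul (h _) (h' _))
  rw [← Finset.HasAntidiagonal.mem_antidiagonal.1 hx]
  ring

lemma GW.pow (h : GW Fl κ n G) (j : ℕ) : GW Fl κ (j * n) (G ^ j) := by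
  induction j with
  | zero => simpa using (JW.one (Fl := Fl)).gw
  | succ j ih => rw [pow_succ, Nat.succ_mul]; exact ih.mul h

lemma GW.lin {x u : B} (hx : x ∈ Fl.V 1) (hu : u ∈ Fl.V κ) : GW Fl κ 1 (C x + C u * X) :=
  fun r => by
    rw [coeff_add, coeff_C_mul, coeff_X]
    refine add_mem ((JW.C hx).gw r) ?_
    split_ifs with h
    · rw [mul_one, ← h]
      exact Fl.mono (by omega) hu
    · rw [mul_zero]
      exact zero_mem _

/-- evaluation in two variables, as a map of algebras -/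
noncomputable def evA {A : Type} [CommRing A] [Algebra k A] (x y : A) : k[X][X] →ₐ[k] A :=
  eval₂AlgHom (aeval x : k[X] →ₐ[k] A) y fun _ => Commute.all _ _

lemma evA_apply {A : Type} [CommRing A] [Algebra k A] (x y : A) (P : k[X][X]) :
    evA x y P = eval₂ (aeval x : k[X] →ₐ[k] A).toRingHom y P := rfl

lemma evA_mon {A : Type} [CommRing A] [Algebra k A] (x y : A) (a i : ℕ) :
    evA x y (C (X ^ a) * X ^ i : k[X][X]) = x ^ a * y ^ i := by
  rw [map_mul, evA_apply, evA_apply, eval₂_C, eval₂_X_pow]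
  simp

lemma evA_hom {A A' : Type} [CommRing A] [Algebra k A] [CommRing A'] [Algebra k A']
    (φ : A →ₐ[k] A') (x y : A) (P : k[X][X]) : φ (evA x y P) = evA (φ x) (φ y) P := by
  rw [evA_apply, evA_apply]
  refine (hom_eval₂ P _ (φ : A →+* A') y).trans ?_
  congr 1
  exact RingHom.ext fun r => (aeval_algHom_apply φ x r).symm

lemma exists_rho {M : ℕ} (hM : M ≠ 0) {x y : B} {P : k[X][X]}
    (hker : ∀ g, evA x y g = 0 → P ∣ g)
    (hcond : ∀ b, ∃ g : k[X][X], evA x y g = evA x y (derivative P) * b) {Z : B[X]}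
    (hZ : Z.coeff 0 = 0)
    (hj : X ^ M ∣ evA (C x + C (evA x y (derivative P)) ^ 2 * X)
      (C y + C (evA x y (derivative P)) * Z) P)
    (π : B →ₐ[k] k) (hπ : π (evA x y (derivative P)) ≠ 0) :
    ∃ ρ : B →ₐ[k] TP k M, Function.Surjective ρ ∧ (∀ b, aug hM (ρ b) = π b) ∧
      ∀ a i : ℕ, ρ (x ^ a * y ^ i) = AdjoinRoot.mk _ (((C x + C (evA x y (derivative P)) ^ 2 * X) ^ a
        * (C y + C (evA x y (derivative P)) * Z) ^ i).map (π : B →+* k)) := by
  obtain ⟨η, hη⟩ : ∃ η, η = evA x y (derivative P) := ⟨_, rfl⟩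
  rw [← hη] at hj hπ ⊢
  let φ : B[X] →ₐ[k] TP k M := (AdjoinRoot.mkₐ (X ^ M : k[X])).comp (mapAlgHom π)
  have hφ : ∀ G, φ G = AdjoinRoot.mk _ (G.map (π : B →+* k)) := fun G => rfl
  let E : k[X][X] →ₐ[k] TP k M := φ.comp (evA (C x + C η ^ 2 * X) (C y + C η * Z))
  have hE : ∀ g, E g = φ (evA (C x + C η ^ 2 * X) (C y + C η * Z) g) := fun g => rfl
  have ha : ∀ g, aug hM (E g) = π (evA x y g) := fun g => by
    rw [hE, evA_hom, evA_hom, evA_hom, hφ, hφ, aug_mk, aug_mk]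
    simp [hZ]
  have hP : E P = 0 := by
    have := Polynomial.map_dvd (π : B →+* k) hj
    rw [Polynomial.map_pow, map_X] at this
    rw [hE, hφ, AdjoinRoot.mk_eq_zero]
    exact this
  obtain ⟨ρ, hρ⟩ := extend_hom (evA x y) E (fun g hg => by
    obtain ⟨r, rfl⟩ := hker g hg
    rw [map_mul, hP, zero_mul]) (derivative P) hcond (aug_unit hM (by rw [ha, ← hη]; exact hπ))
  have hm : ∀ a i : ℕ, ρ (x ^ a * y ^ i) = AdjoinRoot.mk _ (((C x + C η ^ 2 * X) ^ a
      * (C y + C η * Z) ^ i).map (π : B →+* k)) := fun a i => by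
    rw [← evA_mon (k := k) x y, hρ, hE, evA_mon, hφ]
  refine ⟨ρ, surj_TP ρ (x := x) (a := π x) (pow_ne_zero 2 hπ) ?_, fun b => ?_, hm⟩
  · have := hm 1 0
    simp only [pow_one, pow_zero, mul_one] at this
    rw [this]
    simp
  · obtain ⟨g, hg⟩ := hcond b
    have h1 := ha g
    rw [← hρ, hg, map_mul, map_mul, map_mul, hρ, ha, ← hη] at h1
    exact mul_left_cancel₀ hπ h1

end

theorem upperP (d c e γ t : ℕ) : ∃ C0 q0 : ℕ, ∀ (k B : Type) [Field k] [CommRing B] [IsDomain B]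
    [Algebra k B] (p n : ℕ) [Fact p.Prime] [CharP k p] (Fl : Filt k B d c)
    (v : Valuation B ℤᵐ⁰), Good k v → ∀ (x y : B) (P : k[X][X]), 0 < d → d * γ ≤ c →
    x ∈ Fl.V 1 → y ∈ Fl.V γ → P.natDegree ≤ d → (∀ i, (P.coeff i).natDegree ≤ e) →
    evA x y P = 0 → (∀ g, evA x y g = 0 → P ∣ g) → evA x y (derivative P) ≠ 0 →
    (∀ b, ∃ g : k[X][X], evA x y g = evA x y (derivative P) * b) →
    (∀ l, LinearIndependent k fun z : Fin (l + 1) × Fin d => x ^ (z.1 : ℕ) * y ^ (z.2 : ℕ)) →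
    q0 ≤ p ^ n → ∀ ψ : B → B, (∀ m, ∀ f ∈ Fl.V m, ψ f ∈ Fl.V m) →
    ∀ S : Finset (B →ₐ[k] k), (∀ π ∈ S, ∀ f, π (ψ f) = π f ^ p ^ n) →
    t * S.card ≤ (t + 1) * p ^ n + C0 := by
  rcases Nat.eq_zero_or_pos t with rfl | ht
  · exact ⟨0, 0, by intros; simp⟩
  obtain ⟨M, hM⟩ : ∃ M, M = t * (1 + d * c) := ⟨_, rfl⟩
  have hM0 : M ≠ 0 := by rw [hM]; positivity
  obtain ⟨β, hβ⟩ := jet d e γ M
  obtain ⟨h, hh⟩ : ∃ h, h = (e + d) * (γ + 1) := ⟨_, rfl⟩
  obtain ⟨c', hc'⟩ : ∃ c', c' = d * (γ + h + β) + 2 * h * M := ⟨_, rfl⟩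
  obtain ⟨m, hm⟩ : ∃ m, m = M / d := ⟨_, rfl⟩
  refine ⟨t * (d * h), M * (d * (c' + (m + c)) + 1) + d * c + 1 + M,
    fun k B _ _ _ _ p n _ _ Fl v hv x y P hd hc hx hy hP he h0 hker hη0 hcond hli hq ψ hψ S hS => ?_⟩
  classical
  obtain ⟨Z, hZ0, hZ, hj⟩ := hβ k B Fl x y P hx hy hP he h0
  have hηV : evA x y (derivative P) ∈ Fl.V h := by
    have a1 : JW Fl (γ + 1) (C x) := (JW.C hx).mono (by omega)
    have a2 : JW Fl (γ + 1) (C y) := (JW.C hy).mono (by omega)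
    have a3 := (ev2_left ((natDegree_derivative_le P).trans ((Nat.sub_le _ _).trans hP))
      (der_deg he) a1 a2 a1).1 0
    rw [ev2_C, coeff_C_zero, ← hh] at a3
    exact a3
  obtain ⟨q, hqq⟩ : ∃ q, q = p ^ n := ⟨_, rfl⟩
  have hm1 : d * m ≤ M := hm ▸ Nat.mul_div_le M d
  have hm2 : M < d * (m + 1) := hm ▸ Nat.lt_mul_div_succ M hd
  obtain ⟨l, hl1, hl2⟩ : ∃ l, d * (l + c) < q ∧ q ≤ d * (l + c + 1) := by
    have b1 : c ≤ (q - 1) / d := (Nat.le_div_iff_mul_le hd).2 (by rw [mul_comm]; omega)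
    have b2 := Nat.mul_div_le (q - 1) d
    have b3 := Nat.lt_mul_div_succ (q - 1) hd
    refine ⟨(q - 1) / d - c, ?_, ?_⟩ <;> rw [Nat.sub_add_cancel b1] <;> omega
  have key := upperJ Fl p n hv (M := M) (l := l + c) (l' := l + c') (n := m) hM0 (by omega) _
    (hli l) (fun z => Fl.mono (by
      have b1 := z.1.2
      have b2 := Nat.mul_le_mul_right γ z.2.2.le
      omega) (Fl.mul (Fl.pow hx _) (Fl.pow hy _)))
    (fun z => (C x + C (evA x y (derivative P)) ^ 2 * X) ^ (z.1 : ℕ) *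
      (C y + C (evA x y (derivative P)) * Z) ^ (z.2 : ℕ))
    (fun z r hr => by
      have b1 : GW Fl (2 * h) 1 (C x + C (evA x y (derivative P)) ^ 2 * X) := by
        rw [← map_pow]
        exact GW.lin hx (Fl.pow hηV 2)
      have b2 : JW Fl (γ + h + β) (C y + C (evA x y (derivative P)) * Z) :=
        ((JW.C hy).mono (by omega)).add (((JW.C hηV).mul hZ).mono (by omega))
      refine Fl.mono ?_ (((b1.pow z.1).mul (b2.gw.pow z.2)) r)
      have b3 := z.1.2
      have b4 := Nat.mul_le_mul_right (γ + h + β) z.2.2.le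
      have b5 := Nat.mul_le_mul_left (2 * h) hr.le
      omega)
    (hqq ▸ hl1) (by
      rw [Fintype.card_prod, Fintype.card_fin, Fintype.card_fin]
      have b1 : (l + 1) * d * (M + 1) ≤ (l + 1) * d * (d * (m + 1)) := Nat.mul_le_mul_left _ hm2
      refine lt_of_lt_of_le ?_ b1
      rw [← hqq] at hq
      nlinarith) ψ (hψ _) (S.filter fun π => π (evA x y (derivative P)) ≠ 0)
    (fun π hπ => hS π (Finset.mem_filter.1 hπ).1) (fun π hπ => by
      obtain ⟨ρ, h1, h2, h3⟩ := exists_rho hM0 hker hcond hZ0 hj π (Finset.mem_filter.1 hπ).2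
      exact ⟨ρ, h1, h2, fun z => h3 _ _⟩)
  have h1 := Fl.card_zeros hηV hη0 (S.filter fun π => ¬ π (evA x y (derivative P)) ≠ 0)
    fun π hπ => not_not.1 (Finset.mem_filter.1 hπ).2
  have h2 := Finset.card_filter_add_card_filter_not (s := S)
    (fun π => π (evA x y (derivative P)) ≠ 0)
  rw [← hqq] at key ⊢
  generalize (S.filter fun π => π (evA x y (derivative P)) ≠ 0).card = s1 at key h2
  generalize (S.filter fun π => ¬ π (evA x y (derivative P)) ≠ 0).card = s2 at h1 h2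
  have h3 : (1 + d * c) * (t * s1) ≤ (1 + d * c) * ((t + 1) * q) := by
    have b1 := Nat.mul_le_mul_left q hm1
    calc (1 + d * c) * (t * s1) = M * s1 := by rw [hM]; ring
      _ ≤ d * (l + c) + q * (d * m) + q * (d * c) := key.trans_eq (by ring)
      _ ≤ q + q * M + q * (d * c) := by omega
      _ = _ := by rw [hM]; ring
  have h4 := Nat.le_of_mul_le_mul_left h3 (by omega)
  have h5 := Nat.mul_le_mul_left t h1
  rw [← h2, mul_add]
  omega

end Pool.Agent.Lib.MP_3fd6b0_co
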