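import Pool.Agent.Lib.MP_3fd6b0_co.WJet
import Pool.Agent.Lib.MP_3fd6b0_co.WUp2

set_option autoImplicit false
set_option linter.unusedSectionVars false
set_option linter.overlappingInstances false
open Polynomial Module Pool.Agent.Lib.MP_587b89_lc Pool.Agent.Lib.MP_587b89_lc.Lin

namespace Pool.Agent.Lib.MP_3fd6b0_co

section
variable {k L : Type} [Field k] [Field L] [Algebra k[X] L] [Algebra k L] [IsScalarTower k k[X] L]

lemma sm_prod_coeff {γ : ℕ} (s : Multiset L) (hs : ∀ r ∈ s, Sm k γ r) (i : ℕ) :
    Sm k (s.card * γ) (((s.map fun r => X - C r).prod).coeff i) := by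
  induction s using Multiset.induction_on generalizing i with
  | empty =>
    simp only [Multiset.map_zero, Multiset.prod_zero, Multiset.card_zero, zero_mul, coeff_one]
    split_ifs
    · exact sm_one
    · exact sm_zero 0
  | cons a s ih =>
    have h1 : ∀ j, Sm k γ ((X - C a : L[X]).coeff j) := fun j => by
      have hn : Sm k γ (-a) := by
        simpa using (sm_const (L := L) (-1 : k)).mul (hs a (Multiset.mem_cons_self _ _))
      rw [sub_eq_add_neg, ← map_neg, coeff_add, coeff_X, coeff_C]
      refine Sm.add ?_ ?_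
      · split_ifs
        · exact sm_one.mono (Nat.zero_le _)
        · exact sm_zero _
      · split_ifs
        · exact hn
        · exact sm_zero _
    rw [Multiset.map_cons, Multiset.prod_cons, coeff_mul, Multiset.card_cons, Nat.succ_mul,
      add_comm]
    exact Sm.sum _ _ fun x _ => (h1 _).mul (ih (fun r hr => hs r (Multiset.mem_cons_of_mem hr)) _)

variable [Algebra (FractionRing k[X]) L] [IsScalarTower k[X] (FractionRing k[X]) L]
  [FiniteDimensional (FractionRing k[X]) L] [IsGalois (FractionRing k[X]) L]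

lemma minpoly_coeff_deg {γ : ℕ} {y : L} (hy : Sm k γ y) {P : k[X][X]}
    (hP : minpoly (FractionRing k[X]) y = P.map (algebraMap k[X] (FractionRing k[X]))) (i : ℕ) :
    (P.coeff i).natDegree ≤ (minpoly (FractionRing k[X]) y).natDegree * γ := by
  have hi : IsIntegral (FractionRing k[X]) y := hy.1.tower_top
  have hm := (minpoly.monic hi).map (algebraMap (FractionRing k[X]) L)
  have hs := Normal.splits (F := FractionRing k[X]) (K := L) inferInstance y
  have h1 := sm_prod_coeff (k := k) (γ := γ)
    ((minpoly (FractionRing k[X]) y).map (algebraMap (FractionRing k[X]) L)).roots (fun r hr => by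
      have h2 := (mem_roots hm.ne_zero).1 hr
      rw [IsRoot.def, eval_map_algebraMap] at h2
      obtain ⟨σ, rfl⟩ := minpoly.exists_algEquiv_of_root' hi.isAlgebraic h2
      exact Sm.gal σ hy) i
  have h3 := (card_roots' ((minpoly (FractionRing k[X]) y).map
    (algebraMap (FractionRing k[X]) L))).trans natDegree_map_le
  refine deg_le (L := L) inj_L (Sm.mono (Nat.mul_le_mul_right _ h3) ?_)
  rw [IsScalarTower.algebraMap_apply k[X] (FractionRing k[X]) L, ← coeff_map, ← hP, ← coeff_map]
  rw [← hs.eq_prod_roots_of_monic hm] at h1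
  exact h1

end

theorem upperE (d γ t : ℕ) : ∃ C0 q0 : ℕ, ∀ (k L : Type) [Field k] [IsAlgClosed k] (p n : ℕ)
    [Fact p.Prime] [CharP k p] [Field L] [Algebra k[X] L] [Algebra k L] [IsScalarTower k k[X] L]
    [Algebra (FractionRing k[X]) L] [IsScalarTower k[X] (FractionRing k[X]) L]
    [FiniteDimensional (FractionRing k[X]) L] [IsGalois (FractionRing k[X]) L],
    finrank (FractionRing k[X]) L = d → ∀ y : L, Sm k γ y →
    Algebra.adjoin (FractionRing k[X]) {y} = ⊤ → q0 ≤ p ^ n →
    ∀ ψ : integralClosure k[X] L → integralClosure k[X] L,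
    (∀ (m : ℕ) (f : integralClosure k[X] L), Sm k m (f : L) → Sm k m (ψ f : L)) →
    ∀ S : Finset (integralClosure k[X] L →ₐ[k] k), (∀ π ∈ S, ∀ f, π (ψ f) = π f ^ p ^ n) →
    t * S.card ≤ (t + 1) * p ^ n + C0 := by
  obtain ⟨C0, q0, H⟩ := upperP d (d * γ) (d * γ) γ t
  refine ⟨C0, q0, fun k L _ _ p n _ _ _ _ _ _ _ _ _ _ hd y hy hadj hq ψ hψ S hS => ?_⟩
  classical
  subst hd
  have : FaithfulSMul k[X] L := (faithfulSMul_iff_algebraMap_injective _ _).2 inj_L
  have := IsIntegralClosure.isDedekindDomain k[X] (FractionRing k[X]) L (integralClosure k[X] L)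
  have := IsIntegralClosure.finite k[X] (FractionRing k[X]) L (integralClosure k[X] L)
  have := IsIntegralClosure.module_free k[X] (FractionRing k[X]) L (integralClosure k[X] L)
  have hi : IsIntegral (FractionRing k[X]) y := hy.1.tower_top
  have hdeg : (minpoly (FractionRing k[X]) y).natDegree = finrank (FractionRing k[X]) L :=
    (Field.primitive_element_iff_minpoly_natDegree_eq _ y).1
      (IntermediateField.adjoin_eq_top_of_algebra _ _ hadj)
  have hc : Submodule.span (FractionRing k[X])
      {x : L | Sm k (finrank (FractionRing k[X]) L * γ) x} = ⊤ := by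
    rw [eq_top_iff, ← Algebra.top_toSubmodule, ← hadj,
      ← Submodule.span_range_natDegree_eq_adjoin (minpoly.monic hi) (minpoly.aeval _ _)]
    refine Submodule.span_mono fun a ha => ?_
    obtain ⟨j, hj, rfl⟩ := Finset.mem_image.1 (Finset.mem_coe.1 ha)
    exact (hy.pow j).mono (Nat.mul_le_mul_right _ (hdeg ▸ (Finset.mem_range.1 hj).le))
  let b0 := Module.finBasis k[X] (integralClosure k[X] L)
  obtain ⟨π0, hπ0⟩ := exists_point b0 0
  obtain ⟨v, hv⟩ := exists_good k π0 (by
    intro h
    have h1 : algebraMap k[X] (integralClosure k[X] L) X ∈ RingHom.ker π0 := hπ0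
    rw [h, Ideal.mem_bot, map_eq_zero_iff _ (inj_poly b0)] at h1
    exact X_ne_zero h1)
  obtain ⟨y', rfl⟩ : ∃ y' : integralClosure k[X] L, algebraMap _ L y' = y := ⟨⟨y, hy.1⟩, rfl⟩
  have hi' : IsIntegral k[X] y' := Algebra.IsIntegral.isIntegral y'
  have hP := minpoly.isIntegrallyClosed_eq_field_fractions (FractionRing k[X]) L hi'
  have hev : ∀ g : k[X][X], evA (algebraMap k[X] (integralClosure k[X] L) X) y' g = aeval y' g :=
    fun g => by
      rw [evA_apply, aeval_def]
      congr 1
      exact RingHom.ext fun r => by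
        change aeval (algebraMap k[X] (integralClosure k[X] L) X) r = _
        rw [aeval_algebraMap_apply, aeval_X_left_apply]
  refine H k _ p n (filt hc) v hv (algebraMap k[X] _ X) y' (minpoly k[X] y') finrank_pos le_rfl
    sm_X hy ?_ (fun i => hdeg ▸ minpoly_coeff_deg hy hP i) (by rw [hev, minpoly.aeval])
    (fun g hg => minpoly.isIntegrallyClosed_dvd hi' (by rw [← hev, hg])) ?_ (fun b => ?_)
    (fun l => ?_) hq ψ (fun m f hf => hψ m f hf) S hS
  · rw [← hdeg, hP, (minpoly.monic hi').natDegree_map]
  · rw [hev]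
    intro h0
    refine (Algebra.IsSeparable.isSeparable (FractionRing k[X])
      (algebraMap _ L y')).aeval_derivative_ne_zero (S := L)
        (minpoly.aeval (FractionRing k[X]) (algebraMap _ L y')) ?_
    rw [hP, derivative_map, aeval_map_algebraMap, aeval_algebraMap_apply, h0, map_zero]
  · have h1 : aeval y' (derivative (minpoly k[X] y')) ∈ conductor k[X] y' := by
      refine SetLike.le_def.mp ?_ (Ideal.mem_span_singleton_self _)
      rw [← conductor_mul_differentIdeal k[X] (FractionRing k[X]) L y' hadj]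
      exact Ideal.mul_le_left
    have h2 := mem_conductor_iff.1 h1 b
    rw [Algebra.adjoin_singleton_eq_range_aeval] at h2
    obtain ⟨g, hg⟩ := h2
    exact ⟨g, by rw [hev, hev]; exact hg⟩
  · have h1 : LinearIndependent k fun j : Fin (l + 1) => (X ^ (j : ℕ) : k[X]) := by
      have := (basisMonomials k).linearIndependent.comp (fun j : Fin (l + 1) => (j : ℕ))
        Fin.val_injective
      simpa [Function.comp_def, ← monomial_one_right_eq_X_pow] using this
    have h3 := linearIndependent_pow (K := FractionRing k[X]) (algebraMap _ L y')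
    rw [hdeg] at h3
    have h2 := linearIndependent_smul h1 (h3.restrict_scalars' k[X])
    refine LinearIndependent.of_comp
      ((integralClosure k[X] L).val.toLinearMap.restrictScalars k) ?_
    convert h2 using 1
    ext z
    simp [Algebra.smul_def]

/-- the upper bound of Stepanov, uniform in the characteristic -/
theorem upperQ (D γ t : ℕ) : ∃ C0 q0 : ℕ, ∀ (k L : Type) [Field k] [IsAlgClosed k] (p n : ℕ)
    [Fact p.Prime] [CharP k p] [Field L] [Algebra k[X] L] [Algebra k L] [IsScalarTower k k[X] L]
    [Algebra (FractionRing k[X]) L] [IsScalarTower k[X] (FractionRing k[X]) L]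
    [FiniteDimensional (FractionRing k[X]) L] [IsGalois (FractionRing k[X]) L],
    finrank (FractionRing k[X]) L ≤ D → ∀ y : L, Sm k γ y →
    Algebra.adjoin (FractionRing k[X]) {y} = ⊤ → q0 ≤ p ^ n →
    ∀ ψ : integralClosure k[X] L → integralClosure k[X] L,
    (∀ (m : ℕ) (f : integralClosure k[X] L), Sm k m (f : L) → Sm k m (ψ f : L)) →
    ∀ S : Finset (integralClosure k[X] L →ₐ[k] k), (∀ π ∈ S, ∀ f, π (ψ f) = π f ^ p ^ n) →
    t * S.card ≤ (t + 1) * p ^ n + C0 := by
  choose C0 q0 H using fun d => upperE d γ t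
  refine ⟨(Finset.range (D + 1)).sup C0, (Finset.range (D + 1)).sup q0,
    fun k L _ _ p n _ _ _ _ _ _ _ _ _ _ hd y hy hadj hq ψ hψ S hS => ?_⟩
  have hm := Finset.mem_range.2 (Nat.lt_succ_of_le hd)
  exact (H _ k L p n rfl y hy hadj ((Finset.le_sup hm).trans hq) ψ hψ S hS).trans
    (Nat.add_le_add_left (Finset.le_sup hm) _)

end Pool.Agent.Lib.MP_3fd6b0_co
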