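import Pool.Agent.Lib.MP_3fd6b0_co.WJet

/-!
Counting zeros with multiplicity through jets.
-/

set_option autoImplicit false
set_option linter.unusedSectionVars false
open Polynomial Module WithZero Pool.Agent.Lib.MP_587b89_lc Pool.Agent.Lib.MP_587b89_lc.Lin

namespace Pool.Agent.Lib.MP_3fd6b0_co

section trunc
variable {k : Type} [Field k] {M : ℕ}

/-- truncated polynomials -/
abbrev TP (k : Type) [Field k] (M : ℕ) : Type := AdjoinRoot (X ^ M : k[X])

/-- the constant term -/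
noncomputable def aug (hM : M ≠ 0) : TP k M →ₐ[k] k :=
  AdjoinRoot.liftAlgHom (X ^ M : k[X]) (AlgHom.id k k) 0 (by simp [hM])

lemma aug_mk (hM : M ≠ 0) (g : k[X]) : aug hM (AdjoinRoot.mk _ g) = g.coeff 0 := by
  rw [aug, AdjoinRoot.liftAlgHom_mk, coeff_zero_eq_eval_zero]
  rfl

lemma aug_nil (hM : M ≠ 0) (a : TP k M) : (a - algebraMap k _ (aug hM a)) ^ M = 0 := by
  obtain ⟨g, rfl⟩ := AdjoinRoot.mk_surjective a
  rw [aug_mk, AdjoinRoot.algebraMap_eq, ← AdjoinRoot.mk_C, ← map_sub, ← map_pow,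
    AdjoinRoot.mk_eq_zero]
  exact pow_dvd_pow_of_dvd X_dvd_sub_C M

lemma aug_unit (hM : M ≠ 0) {a : TP k M} (h : aug hM a ≠ 0) : IsUnit a := by
  have h1 := IsNilpotent.isUnit_add_right_of_commute ⟨M, aug_nil hM a⟩
    ((IsUnit.mk0 _ h).map (algebraMap k (TP k M))) (Commute.all _ _)
  rwa [sub_add_cancel] at h1

lemma aug_pow (hM : M ≠ 0) (p n : ℕ) [Fact p.Prime] [CharP k p] (hq : M ≤ p ^ n) (a : TP k M) :
    a ^ p ^ n = algebraMap k _ (aug hM a ^ p ^ n) := by
  have : Nontrivial (TP k M) := (aug (k := k) hM).toRingHom.domain_nontrivial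
  have : CharP (TP k M) p := charP_of_injective_algebraMap (algebraMap k _).injective p
  have h1 := sub_pow_char_pow (p := p) (n := n) a (algebraMap k _ (aug hM a))
  rw [pow_eq_zero_of_le hq (aug_nil hM a)] at h1
  rw [map_pow]
  exact sub_eq_zero.1 h1.symm

lemma finrank_TP : finrank k (TP k M) = M := by
  rw [(AdjoinRoot.powerBasis (f := (X ^ M : k[X])) (pow_ne_zero _ X_ne_zero)).finrank,
    AdjoinRoot.powerBasis_dim, natDegree_X_pow]

lemma finite_TP : Module.Finite k (TP k M) :=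
  (AdjoinRoot.powerBasis (f := (X ^ M : k[X])) (pow_ne_zero _ X_ne_zero)).finite

variable {B : Type} [CommRing B] [Algebra k B]

lemma surj_TP (ρ : B →ₐ[k] TP k M) {x : B} {a u : k} (hu : u ≠ 0)
    (h : ρ x = AdjoinRoot.mk _ (C a + C u * X)) : Function.Surjective ρ := by
  intro z
  obtain ⟨g, rfl⟩ := AdjoinRoot.mk_surjective z
  have h1 : ρ (u⁻¹ • (x - algebraMap k B a)) = AdjoinRoot.root _ := by
    rw [map_smul, map_sub, h, AlgHom.commutes, AdjoinRoot.algebraMap_eq, ← AdjoinRoot.mk_C,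
      ← map_sub, add_sub_cancel_left, map_mul, AdjoinRoot.mk_C, AdjoinRoot.mk_X,
      ← AdjoinRoot.algebraMap_eq, Algebra.smul_def, ← mul_assoc, ← map_mul, inv_mul_cancel₀ hu,
      map_one, one_mul]
  exact ⟨aeval (u⁻¹ • (x - algebraMap k B a)) g, by
    rw [← aeval_algHom_apply, h1, AdjoinRoot.aeval_eq]⟩

lemma extend_hom {R A : Type} [CommRing R] [CommRing A] [Algebra k R] [Algebra k A]
    (ev : R →ₐ[k] B) (E : R →ₐ[k] A) (hK : ∀ g, ev g = 0 → E g = 0) (δ : R)
    (hδ : ∀ b, ∃ g, ev g = ev δ * b) (hu : IsUnit (E δ)) :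
    ∃ ρ : B →ₐ[k] A, ∀ g, ρ (ev g) = E g := by
  have hK' : ∀ g g', ev g = ev g' → E g = E g' := fun g g' h => by
    rw [← sub_eq_zero, ← map_sub]
    exact hK _ (by rw [map_sub, h, sub_self])
  choose g hg using hδ
  obtain ⟨u, hu⟩ := hu.exists_left_inv
  have h0 : ∀ r, u * E (g (ev r)) = E r := fun r => by
    rw [hK' (g (ev r)) (δ * r) (by rw [hg, map_mul]), map_mul, ← mul_assoc, hu, one_mul]
  refine ⟨{ toFun := fun b => u * E (g b)
            map_one' := by simpa using h0 1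
            map_mul' := fun a b => ?_
            map_zero' := by simpa using h0 0
            map_add' := fun a b => ?_
            commutes' := fun c => by simpa using h0 (algebraMap k R c) }, h0⟩
  · have := hK' (g a * g b) (δ * g (a * b)) (by simp only [map_mul, hg]; ring)
    rw [map_mul, map_mul] at this
    linear_combination -(u * u) * this - (u * E (g (a * b))) * hu
  · rw [hK' (g (a + b)) (g a + g b) (by simp only [map_add, hg]; ring), map_add, mul_add]

lemma count_jets (hM : M ≠ 0) {f : B} [Module.Finite k (B ⧸ Ideal.span {f})]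
    (S : Finset (B →ₐ[k] k)) (ρ : S → B →ₐ[k] TP k M) (hs : ∀ π, Function.Surjective (ρ π))
    (ha : ∀ π b, aug hM (ρ π b) = π.1 b) (hf : ∀ π, ρ π f = 0) :
    M * S.card ≤ finrank k (B ⧸ Ideal.span {f}) := by
  classical
  have := finite_TP (k := k) (M := M)
  have hn : ∀ (π : S) b, π.1 b = 0 → b ^ M ∈ RingHom.ker (ρ π) := fun π b hb => by
    have := aug_nil hM (ρ π b)
    rw [ha, hb, map_zero, sub_zero, ← map_pow] at this
    exact this
  have hco : Pairwise (Function.onFun IsCoprime fun π : S => RingHom.ker (ρ π)) := by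
    intro π π' hne
    obtain ⟨b, hb⟩ : ∃ b, π'.1 b - π.1 b ≠ 0 := by
      by_contra hc
      push Not at hc
      exact hne (Subtype.ext (AlgHom.ext fun b => (sub_eq_zero.1 (hc b)).symm))
    obtain ⟨b', h1, h2⟩ : ∃ b', π.1 b' = 0 ∧ π'.1 (1 - b') = 0 :=
      ⟨(π'.1 b - π.1 b)⁻¹ • (b - algebraMap k B (π.1 b)), by simp, by
        simp [inv_mul_cancel₀ hb]⟩
    obtain ⟨u, v, huv⟩ : IsCoprime (b' ^ M) ((1 - b') ^ M) :=
      IsCoprime.pow (⟨1, 1, by ring⟩ : IsCoprime b' (1 - b'))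
    exact Ideal.isCoprime_iff_exists.2 ⟨_, Ideal.mul_mem_left _ u (hn π _ h1), _,
      Ideal.mul_mem_left _ v (hn π' _ h2), huv⟩
  let Φ : B →ₐ[k] (S → TP k M) := AlgHom.pi ρ
  have hΦ : Function.Surjective Φ := fun z => by
    choose x hx using fun π => hs π (z π)
    obtain ⟨r, hr⟩ := Ideal.exists_forall_sub_mem_ideal hco x
    refine ⟨r, funext fun π => ?_⟩
    have := hr π
    rw [RingHom.mem_ker, map_sub, hx, sub_eq_zero] at this
    exact this
  let Ψ : (B ⧸ Ideal.span {f}) →ₐ[k] (S → TP k M) := Ideal.Quotient.liftₐ _ Φ fun a ha => by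
    obtain ⟨c, rfl⟩ := Ideal.mem_span_singleton'.1 ha
    rw [map_mul, show Φ f = 0 from funext hf, mul_zero]
  have h1 := LinearMap.finrank_le_finrank_of_surjective (f := Ψ.toLinearMap) fun z => by
    obtain ⟨r, hr⟩ := hΦ z
    exact ⟨Ideal.Quotient.mk _ r, hr⟩
  rw [Module.finrank_pi_fintype, Finset.sum_const, finrank_TP, Finset.card_univ,
    Fintype.card_coe, smul_eq_mul, mul_comm] at h1
  exact h1

end trunc

section filt
variable {k B : Type} [Field k] [CommRing B] [IsDomain B] [Algebra k B] {d c : ℕ}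
  (Fl : Filt k B d c) {v : Valuation B ℤᵐ⁰}

lemma rank_V (h : Good k v) (N : ℕ) : Module.rank k (Fl.V N) ≤ (d * N + 1 : ℕ) := by
  refine rank_le fun s hs => ?_
  by_contra hlt
  obtain ⟨a, h1, i, h2⟩ := Fl.exists_rel h (n := N) (fun i : s => ((i : Fl.V N) : B))
    (fun i => i.1.2) (by rw [Fintype.card_coe]; omega)
  refine h2 (Fintype.linearIndependent_iff.1 hs a (Subtype.ext ?_) i)
  simpa using h1

lemma exists_rels (h : Good k v) {ι : Type} [Fintype ι] {N M : ℕ} (g : ι → ℕ → B)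
    (hg : ∀ i, ∀ r < M, g i r ∈ Fl.V N) (hc : M * (d * N + 1) < Fintype.card ι) :
    ∃ a : ι → k, (∀ r < M, ∑ i, a i • g i r = 0) ∧ ∃ i, a i ≠ 0 := by
  have h1 := rank_V Fl h N
  have : Module.Finite k (Fl.V N) :=
    Module.rank_lt_aleph0_iff.1 (h1.trans_lt (Cardinal.natCast_lt_aleph0))
  have h2 := Module.finrank_le_of_rank_le h1
  have h3 : ¬ LinearIndependent k
      (fun i => (fun r => ⟨g i r, hg i r r.2⟩ : Fin M → Fl.V N)) := fun hl => by
    have h4 := hl.fintype_card_le_finrank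
    rw [Module.finrank_pi_fintype, Finset.sum_const, Finset.card_univ, Fintype.card_fin,
      smul_eq_mul] at h4
    have := Nat.mul_le_mul_left M h2
    omega
  obtain ⟨a, h4, h5⟩ := Fintype.not_linearIndependent_iff.1 h3
  refine ⟨a, fun r hr => ?_, h5⟩
  have := congrArg (fun z : Fin M → Fl.V N => (z ⟨r, hr⟩ : B)) h4
  simpa using this

theorem upperJ (p e : ℕ) [Fact p.Prime] [CharP k p] (h : Good k v) {M l l' n : ℕ} (hM : M ≠ 0)
    (hq : M ≤ p ^ e) {ι : Type} [Fintype ι] (mo : ι → B) (hmo : LinearIndependent k mo)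
    (hmo' : ∀ i, mo i ∈ Fl.V l) (G : ι → B[X]) (hG : ∀ i, ∀ r < M, (G i).coeff r ∈ Fl.V l')
    (hQ : d * l < p ^ e)
    (hB : M * (d * (l' + (n + c)) + 1) < Fintype.card ι * (d * (n + 1))) (ψ : B → B)
    (hψ : ∀ f ∈ Fl.V (n + c), ψ f ∈ Fl.V (n + c)) (S : Finset (B →ₐ[k] k))
    (hS : ∀ π ∈ S, ∀ f, π (ψ f) = π f ^ p ^ e)
    (hρ : ∀ π ∈ S, ∃ ρ : B →ₐ[k] TP k M, Function.Surjective ρ ∧ (∀ b, aug hM (ρ b) = π b) ∧
      ∀ i, ρ (mo i) = AdjoinRoot.mk _ ((G i).map (π : B →+* k))) :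
    M * S.card ≤ d * (l + p ^ e * (n + c)) := by
  classical
  obtain ⟨w0, hw0, hw0'⟩ := Fl.dim n
  have : FiniteDimensional k (Submodule.span k (Set.range w0)) :=
    FiniteDimensional.span_of_finite k (Set.finite_range _)
  obtain ⟨w, hw, hinj⟩ := h.distinct (d * (n + 1)) (Submodule.span k (Set.range w0))
    (by rw [finrank_span_eq_card hw0]; simp)
  have hle : Submodule.span k (Set.range w0) ≤ Fl.V (n + c) :=
    Submodule.span_le.2 (by rintro _ ⟨i, rfl⟩; exact hw0' i)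
  obtain ⟨a, ha, x0, hx0⟩ := exists_rels Fl h (N := l' + (n + c)) (M := M)
    (fun (x : ι × Fin (d * (n + 1))) r => (G x.1).coeff r * ψ (w x.2))
    (fun x r hr => Fl.mul (hG x.1 r hr) (hψ _ (hle (hw x.2).1)))
    (by simpa only [Fintype.card_prod, Fintype.card_fin] using hB)
  let u : Fin (d * (n + 1)) → B := fun j => ∑ i, a (i, j) • mo i
  have hu : ∀ j, u j ∈ Fl.V l := fun j =>
    Submodule.sum_mem _ fun i _ => Submodule.smul_mem _ _ (hmo' i)
  have hu0 : u x0.2 ≠ 0 := fun e => hx0 (Fintype.linearIndependent_iff.1 hmo _ e x0.1)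
  have hf0 := Fl.sum_ne_zero h u w (fun i => (hw i).2) hinj hu hQ ⟨_, hu0⟩
  have := Fl.fin hf0
  choose ρ h1 h2 h3 using fun π : S => hρ π.1 π.2
  refine (count_jets hM S ρ h1 h2 fun π => ?_).trans (Fl.quot (Submodule.sum_mem _ fun i _ =>
    Fl.mul (hu i) (Fl.pow (hle (hw i).1) _)) hf0)
  have hd : X ^ M ∣ ∑ x : ι × Fin (d * (n + 1)), a x • (G x.1 * C (ψ (w x.2))) := by
    refine X_pow_dvd_iff.2 fun r hr => ?_
    rw [finsetSum_coeff, ← ha r hr]
    exact Finset.sum_congr rfl fun x _ => by rw [coeff_smul, coeff_mul_C]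
  have h4 := Polynomial.map_dvd (π.1 : B →+* k) hd
  rw [Polynomial.map_pow, map_X, ← AdjoinRoot.mk_eq_zero, Polynomial.map_sum, map_sum,
    Fintype.sum_prod_type_right] at h4
  rw [← h4, map_sum]
  refine Finset.sum_congr rfl fun j _ => ?_
  rw [map_mul, map_pow, aug_pow hM p e hq, h2, ← hS _ π.2, map_sum, Finset.sum_mul]
  refine Finset.sum_congr rfl fun i _ => ?_
  rw [map_smul, h3, Algebra.smul_def, Algebra.smul_def, Polynomial.map_mul, Polynomial.map_mul,
    map_mul, map_mul, Polynomial.algebraMap_apply, map_C, map_C, AdjoinRoot.mk_C, AdjoinRoot.mk_C, mul_assoc]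
  simp [AdjoinRoot.algebraMap_eq]

end filt

end Pool.Agent.Lib.MP_3fd6b0_co
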